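import Mathlib

/-!
# Primes in an arithmetic progression: Mertens' theorem for a fixed modulus

`∑_{p ≤ N, p ≡ a (mod m)} log p / p = log N / φ(m) + O(1)`, hence at least `Y / (K log Y)` primes
`p ≡ a (mod m)` in `(Y / K, Y]`.
-/

set_option autoImplicit false

namespace Pool.Agent.Qnr

open Finset Filter Topology ArithmeticFunction

namespace ApAux

/-! ### `∑ Λ(n)/n` -/

/-- `∑_{d ≤ n} Λ(d)/d` -/
noncomputable def M (n : ℕ) : ℝ := ∑ d ∈ Ioc 0 n, vonMangoldt d / d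

theorem sum_log (n : ℕ) : ∑ k ∈ Ioc 0 n, Real.log k =
    ∑ d ∈ Ioc 0 n, vonMangoldt d * ((n / d : ℕ) : ℝ) := by
  have h := sum_Ioc_mul_zeta_eq_sum (R := ℝ) vonMangoldt n
  rw [← h]
  refine Finset.sum_congr rfl fun k _ => ?_
  rw [vonMangoldt_mul_zeta]
  rfl

theorem log_fact (n : ℕ) : Real.log (n.factorial : ℝ) = ∑ k ∈ Ioc 0 n, Real.log k := by
  induction n with
  | zero => simp
  | succ n ih =>
    rw [Nat.factorial_succ, Nat.cast_mul, Real.log_mul (by positivity) (by positivity), ih,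
      ← Finset.insert_Ioc_right_eq_Ioc_add_one (Nat.zero_le n), Finset.sum_insert (by simp)]

theorem M_ge (n : ℕ) (hn : n ≠ 0) : Real.log n - 1 ≤ M n := by
  have hn0 : (0 : ℝ) < n := by exact_mod_cast Nat.pos_of_ne_zero hn
  have h1 := Stirling.le_log_factorial_stirling hn
  have h2 : ∑ d ∈ Ioc 0 n, vonMangoldt d * ((n / d : ℕ) : ℝ) ≤ n * M n := by
    rw [M, Finset.mul_sum]
    refine Finset.sum_le_sum fun d hd => ?_
    have hd0 : (0 : ℝ) < d := by exact_mod_cast (Finset.mem_Ioc.1 hd).1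
    have h3 : ((n / d : ℕ) : ℝ) ≤ (n : ℝ) / d := Nat.cast_div_le
    calc vonMangoldt d * ((n / d : ℕ) : ℝ) ≤ vonMangoldt d * ((n : ℝ) / d) :=
          mul_le_mul_of_nonneg_left h3 vonMangoldt_nonneg
      _ = n * (vonMangoldt d / d) := by ring
  rw [← sum_log, ← log_fact] at h2
  have h4 : (1 : ℝ) ≤ 2 * Real.pi * n := by
    have : (1 : ℝ) ≤ n := by exact_mod_cast Nat.one_le_iff_ne_zero.2 hn
    nlinarith [Real.pi_gt_three]
  have h5 : 0 ≤ Real.log (2 * Real.pi * n) := Real.log_nonneg h4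
  have h5' : 0 ≤ Real.log (2 * Real.pi) := Real.log_nonneg (by linarith [Real.pi_gt_three])
  have h5'' : 0 ≤ Real.log (n : ℝ) := Real.log_nonneg (by exact_mod_cast Nat.one_le_iff_ne_zero.2 hn)
  have h6 : (n : ℝ) * Real.log n - n ≤ n * M n := by linarith
  have h7 : (n : ℝ) * (Real.log n - 1) ≤ n * M n := by linarith
  exact le_of_mul_le_mul_left h7 hn0

theorem psi_le (n : ℕ) : ∑ d ∈ Ioc 0 n, vonMangoldt d ≤ (Real.log 4 + 4) * n := by
  have := Chebyshev.psi_le_const_mul_self (x := (n : ℝ)) (by positivity)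
  simpa [Chebyshev.psi] using this

theorem M_le (n : ℕ) (hn : n ≠ 0) : M n ≤ Real.log n + (Real.log 4 + 4) := by
  have hn0 : (0 : ℝ) < n := by exact_mod_cast Nat.pos_of_ne_zero hn
  have h2 : n * M n ≤ ∑ d ∈ Ioc 0 n, vonMangoldt d * ((n / d : ℕ) : ℝ) +
      ∑ d ∈ Ioc 0 n, vonMangoldt d := by
    rw [M, Finset.mul_sum, ← Finset.sum_add_distrib]
    refine Finset.sum_le_sum fun d hd => ?_
    have hd0 : (0 : ℝ) < d := by exact_mod_cast (Finset.mem_Ioc.1 hd).1
    have h3 : (n : ℝ) / d ≤ ((n / d : ℕ) : ℝ) + 1 := by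
      have := Nat.lt_div_mul_add (a := n) (b := d) (by exact_mod_cast hd0)
      rw [div_le_iff₀ hd0]
      have h4 : (n : ℝ) < (n / d : ℕ) * d + d := by exact_mod_cast this
      linarith
    calc n * (vonMangoldt d / d) = vonMangoldt d * ((n : ℝ) / d) := by ring
      _ ≤ vonMangoldt d * (((n / d : ℕ) : ℝ) + 1) := mul_le_mul_of_nonneg_left h3 vonMangoldt_nonneg
      _ = _ := by ring
  rw [← sum_log] at h2
  have h3 : ∑ k ∈ Ioc 0 n, Real.log (k : ℝ) ≤ n * Real.log n := by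
    calc ∑ k ∈ Ioc 0 n, Real.log (k : ℝ) ≤ ∑ k ∈ Ioc 0 n, Real.log (n : ℝ) := by
          refine Finset.sum_le_sum fun k hk => ?_
          have hk := Finset.mem_Ioc.1 hk
          exact Real.log_le_log (by exact_mod_cast hk.1) (by exact_mod_cast hk.2)
      _ = n * Real.log n := by simp
  have h4 := psi_le n
  have h7 : (n : ℝ) * M n ≤ n * (Real.log n + (Real.log 4 + 4)) := by linarith
  exact le_of_mul_le_mul_left h7 hn0

/-! ### bounded character sums -/

variable {m : ℕ} [NeZero m]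

theorem sum_period (f : ZMod m → ℂ) (N : ℕ) :
    ∑ j ∈ range m, f ((N + j : ℕ) : ZMod m) = ∑ a : ZMod m, f a := by
  have h1 : ∑ j ∈ range m, f ((N + j : ℕ) : ZMod m) = ∑ a : ZMod m, f ((N : ZMod m) + a) := by
    refine Finset.sum_nbij' (fun j => (j : ZMod m)) (fun a => a.val) ?_ ?_ ?_ ?_ ?_
    · intro j _
      exact Finset.mem_univ _
    · intro a _
      exact Finset.mem_range.2 (ZMod.val_lt a)
    · intro j hj
      exact ZMod.val_cast_of_lt (Finset.mem_range.1 hj)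
    · intro a _
      exact ZMod.natCast_zmod_val a
    · intro j _
      push_cast
      rfl
  rw [h1]
  exact Fintype.sum_equiv (Equiv.addLeft (N : ZMod m)) _ _ (fun a => rfl)

/-- `∑_{n < N} χ(n)` -/
noncomputable def A (χ : DirichletCharacter ℂ m) (N : ℕ) : ℂ := ∑ n ∈ range N, χ (n : ZMod m)

theorem A_add (χ : DirichletCharacter ℂ m) (hχ : χ ≠ 1) (N : ℕ) : A χ (N + m) = A χ N := by
  unfold A
  rw [Finset.sum_range_add, sum_period (fun a => χ a) N, MulChar.sum_eq_zero_of_ne_one hχ,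
    add_zero]

theorem A_norm (χ : DirichletCharacter ℂ m) (hχ : χ ≠ 1) (N : ℕ) : ‖A χ N‖ ≤ m := by
  induction N using Nat.strong_induction_on with
  | _ N ih =>
    rcases lt_or_ge N m with h | h
    · unfold A
      calc ‖∑ n ∈ range N, χ (n : ZMod m)‖ ≤ ∑ n ∈ range N, ‖χ (n : ZMod m)‖ := norm_sum_le _ _
        _ ≤ ∑ n ∈ range N, (1 : ℝ) := Finset.sum_le_sum fun n _ => χ.norm_le_one _
        _ = N := by simp
        _ ≤ m := by exact_mod_cast h.le
    · obtain ⟨k, rfl⟩ : ∃ k, N = k + m := ⟨N - m, by omega⟩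
      rw [A_add χ hχ]
      have hm : 0 < m := Nat.pos_of_ne_zero (NeZero.ne m)
      exact ih k (by omega)

/-- summation by parts -/
theorem abel (χ : DirichletCharacter ℂ m) (hχ : χ ≠ 1) (f : ℕ → ℝ) (a : ℕ) (h0 : ∀ n, a ≤ n → 0 ≤ f n)
    (hf : ∀ n, a ≤ n → f (n + 1) ≤ f n) (b : ℕ) (hab : a ≤ b) :
    ‖∑ n ∈ Ico a b, χ (n : ZMod m) * (f n : ℂ)‖ ≤ 2 * m * f a := by
  have key : ∀ b, a ≤ b → ∃ z : ℂ, ∑ n ∈ Ico a b, χ (n : ZMod m) * (f n : ℂ) =
      A χ b * (f b : ℂ) - A χ a * (f a : ℂ) + z ∧ ‖z‖ ≤ m * (f a - f b) := by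
    intro b hb
    induction b, hb using Nat.le_induction with
    | base => exact ⟨0, by simp, by simp⟩
    | succ b hb ih =>
      obtain ⟨z, h1, h2⟩ := ih
      refine ⟨z + A χ (b + 1) * ((f b : ℂ) - (f (b + 1) : ℂ)), ?_, ?_⟩
      · rw [Finset.sum_Ico_succ_top hb, h1]
        have h3 : A χ (b + 1) = A χ b + χ (b : ZMod m) := Finset.sum_range_succ _ _
        rw [h3]
        ring
      · calc ‖z + A χ (b + 1) * ((f b : ℂ) - (f (b + 1) : ℂ))‖
            ≤ ‖z‖ + ‖A χ (b + 1)‖ * ‖((f b : ℂ) - (f (b + 1) : ℂ))‖ := by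
              refine (norm_add_le _ _).trans ?_
              rw [norm_mul]
          _ ≤ m * (f a - f b) + m * (f b - f (b + 1)) := by
              refine add_le_add h2 ?_
              have h4 : ‖((f b : ℂ) - (f (b + 1) : ℂ))‖ = f b - f (b + 1) := by
                rw [← Complex.ofReal_sub, Complex.norm_real, Real.norm_eq_abs,
                  abs_of_nonneg (by linarith [hf b hb])]
              rw [h4]
              exact mul_le_mul_of_nonneg_right (A_norm χ hχ _) (by linarith [hf b hb])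
          _ = m * (f a - f (b + 1)) := by ring
  obtain ⟨z, h1, h2⟩ := key b hab
  rw [h1]
  have h3 : ‖A χ b * (f b : ℂ)‖ ≤ m * f b := by
    rw [norm_mul, Complex.norm_real, Real.norm_eq_abs, abs_of_nonneg (h0 b hab)]
    exact mul_le_mul_of_nonneg_right (A_norm χ hχ _) (h0 b hab)
  have h4 : ‖A χ a * (f a : ℂ)‖ ≤ m * f a := by
    rw [norm_mul, Complex.norm_real, Real.norm_eq_abs, abs_of_nonneg (h0 a le_rfl)]
    exact mul_le_mul_of_nonneg_right (A_norm χ hχ _) (h0 a le_rfl)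
  calc ‖A χ b * (f b : ℂ) - A χ a * (f a : ℂ) + z‖
      ≤ ‖A χ b * (f b : ℂ)‖ + ‖A χ a * (f a : ℂ)‖ + ‖z‖ :=
        (norm_add_le _ _).trans (add_le_add_left (norm_sub_le _ _) _)
    _ ≤ m * f b + m * f a + m * (f a - f b) := add_le_add (add_le_add h3 h4) h2
    _ = 2 * m * f a := by ring

/-- `∑_{n ≤ N} χ(n)/n` -/
noncomputable def S (χ : DirichletCharacter ℂ m) (N : ℕ) : ℂ :=
  ∑ n ∈ Ioc 0 N, χ (n : ZMod m) / (n : ℂ)

theorem S_zero (χ : DirichletCharacter ℂ m) : S χ 0 = 0 := by simp [S]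

theorem S_succ (χ : DirichletCharacter ℂ m) (N : ℕ) :
    S χ (N + 1) = S χ N + χ ((N + 1 : ℕ) : ZMod m) / ((N + 1 : ℕ) : ℂ) := by
  unfold S
  rw [← Finset.insert_Ioc_right_eq_Ioc_add_one (Nat.zero_le N), Finset.sum_insert (by simp),
    add_comm]

theorem S_sub (χ : DirichletCharacter ℂ m) (hχ : χ ≠ 1) {N M : ℕ} (h : N ≤ M) :
    ‖S χ M - S χ N‖ ≤ 2 * m / (N + 1 : ℕ) := by
  have h1 : S χ M - S χ N = ∑ n ∈ Ico (N + 1) (M + 1), χ (n : ZMod m) *
      (((1 : ℝ) / (n : ℝ) : ℝ) : ℂ) := by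
    induction M, h using Nat.le_induction with
    | base => simp
    | succ M hM ih =>
      rw [S_succ, Finset.sum_Ico_succ_top (by omega), ← ih]
      push_cast
      ring
  rw [h1]
  refine (abel χ hχ (fun n => 1 / (n : ℝ)) (N + 1) (fun n _ => by positivity) (fun n hn => ?_)
    (M + 1) (by omega)).trans (le_of_eq ?_)
  · have hn0 : (0 : ℝ) < n := by
      exact_mod_cast (by omega : 0 < n)
    push_cast
    exact one_div_le_one_div_of_le hn0 (by linarith)
  · push_cast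
    ring

theorem S_lim (χ : DirichletCharacter ℂ m) (hχ : χ ≠ 1) : ∃ L : ℂ, Tendsto (S χ) atTop (𝓝 L) ∧
    ∀ N : ℕ, ‖S χ N - L‖ ≤ 2 * m / (N + 1 : ℕ) := by
  have hc : CauchySeq (S χ) := by
    refine cauchySeq_of_le_tendsto_0' (fun N : ℕ => 2 * m / ((N + 1 : ℕ) : ℝ)) ?_ ?_
    · intro N M h
      rw [dist_comm, dist_eq_norm]
      exact S_sub χ hχ h
    · have := (tendsto_one_div_add_atTop_nhds_zero_nat (𝕜 := ℝ)).const_mul (2 * (m : ℝ))
      rw [mul_zero] at this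
      refine this.congr (fun N => ?_)
      push_cast
      ring
  obtain ⟨L, hL⟩ := cauchySeq_tendsto_of_complete hc
  refine ⟨L, hL, fun N => ?_⟩
  have h1 : Tendsto (fun M => ‖S χ M - S χ N‖) atTop (𝓝 ‖L - S χ N‖) :=
    (hL.sub_const _).norm
  rw [norm_sub_rev]
  refine le_of_tendsto h1 ?_
  filter_upwards [eventually_ge_atTop N] with M hM
  exact S_sub χ hχ hM

/-! ### the value at `1` -/

/-- Abel summation for `∑ χ(n)/n * n ^ (-ε)` -/
theorem partial_eps (χ : DirichletCharacter ℂ m) {L : ℂ}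
    (hL : ∀ N : ℕ, ‖S χ N - L‖ ≤ 2 * m / (N + 1 : ℕ)) {ε : ℝ} (hε : 0 < ε) (N : ℕ) :
    ‖∑ n ∈ Ioc 0 N, χ (n : ZMod m) / (n : ℂ) * (((n : ℝ) ^ (-ε) : ℝ) : ℂ) - L‖ ≤
      2 * m / (N + 1 : ℕ) + 4 * m * ε := by
  set g : ℕ → ℝ := fun n => ((n : ℝ) + 1) ^ (-ε) with hg
  -- the sum is `L + (S N - L) g N' + ∑ (S n - L) (g .. - g ..)`
  have hg0 : ∀ n, 0 ≤ g n := fun n => Real.rpow_nonneg (by positivity) _
  have hg1 : ∀ n, g n ≤ 1 := fun n =>
    Real.rpow_le_one_of_one_le_of_nonpos (by linarith [Nat.cast_nonneg (α := ℝ) n]) (by linarith)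
  have hgd : ∀ n : ℕ, 0 ≤ g n - g (n + 1) ∧ g n - g (n + 1) ≤ ε / (n + 1 : ℕ) := by
    intro n
    have hn0 : (0 : ℝ) < (n : ℝ) + 1 := by positivity
    have hn1 : (0 : ℝ) < ((n + 1 : ℕ) : ℝ) + 1 := by positivity
    constructor
    · rw [sub_nonneg]
      exact Real.rpow_le_rpow_of_nonpos hn0 (by push_cast; linarith) (by linarith)
    · have e1 : g (n + 1) = g n * ((((n + 1 : ℕ) : ℝ) + 1) / ((n : ℝ) + 1)) ^ (-ε) := by
        rw [hg]
        simp only
        rw [← Real.mul_rpow hn0.le (by positivity)]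
        congr 1
        field_simp
      set r : ℝ := (((n + 1 : ℕ) : ℝ) + 1) / ((n : ℝ) + 1) with hr
      have hr0 : 0 < r := by positivity
      have e2 : 1 - r ^ (-ε) ≤ ε / (n + 1 : ℕ) := by
        have e3 : r ^ (-ε) = Real.exp (Real.log r * (-ε)) := Real.rpow_def_of_pos hr0 _
        have e4 := Real.add_one_le_exp (Real.log r * (-ε))
        have e5 := Real.log_le_sub_one_of_pos hr0
        have e6 : r - 1 = 1 / (n + 1 : ℕ) := by
          rw [hr]
          push_cast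
          field_simp
          ring
        rw [e6] at e5
        have e7 : Real.log r * ε ≤ 1 / (n + 1 : ℕ) * ε := mul_le_mul_of_nonneg_right e5 hε.le
        have e8 : (1 : ℝ) / (n + 1 : ℕ) * ε = ε / (n + 1 : ℕ) := by ring
        rw [e3]
        linarith
      have e9 : r ^ (-ε) ≤ 1 := by
        refine Real.rpow_le_one_of_one_le_of_nonpos ?_ (by linarith)
        rw [hr, one_le_div hn0]
        push_cast
        linarith
      rw [e1]
      calc g n - g n * r ^ (-ε) = g n * (1 - r ^ (-ε)) := by ring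
        _ ≤ 1 * (1 - r ^ (-ε)) := mul_le_mul_of_nonneg_right (hg1 n) (by linarith)
        _ ≤ ε / (n + 1 : ℕ) := by rw [one_mul]; exact e2
  have key : ∀ N : ℕ, ∃ z : ℂ,
      ∑ n ∈ Ioc 0 N, χ (n : ZMod m) / (n : ℂ) * (((n : ℝ) ^ (-ε) : ℝ) : ℂ) =
        L + (S χ N - L) * (g N : ℂ) + z ∧
      ‖z‖ ≤ ∑ n ∈ range N, 2 * m * ε / ((n + 1 : ℕ) : ℝ) ^ 2 := by
    intro N
    induction N with
    | zero =>
      refine ⟨0, ?_, by simp⟩
      have : g 0 = 1 := by simp [hg]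
      rw [this, S_zero]
      simp
    | succ N ih =>
      obtain ⟨z, h1, h2⟩ := ih
      refine ⟨z + (S χ (N + 1) - L) * ((g N : ℂ) - (g (N + 1) : ℂ)), ?_, ?_⟩
      · rw [← Finset.insert_Ioc_right_eq_Ioc_add_one (Nat.zero_le N),
          Finset.sum_insert (by simp), h1, S_succ]
        have h3 : ((((N + 1 : ℕ) : ℝ)) ^ (-ε) : ℝ) = g N := by
          rw [hg]
          push_cast
          rfl
        rw [h3]
        ring
      · rw [Finset.sum_range_succ]
        refine (norm_add_le _ _).trans (add_le_add h2 ?_)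
        rw [norm_mul]
        have h4 : ‖((g N : ℂ) - (g (N + 1) : ℂ))‖ = g N - g (N + 1) := by
          rw [← Complex.ofReal_sub, Complex.norm_real, Real.norm_eq_abs,
            abs_of_nonneg (hgd N).1]
        rw [h4]
        have h5 : ‖S χ (N + 1) - L‖ ≤ 2 * m / (N + 1 : ℕ) := by
          refine (hL (N + 1)).trans ?_
          refine div_le_div_of_nonneg_left (by positivity) (by positivity) ?_
          exact_mod_cast Nat.le_succ _
        calc ‖S χ (N + 1) - L‖ * (g N - g (N + 1))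
            ≤ (2 * m / (N + 1 : ℕ)) * (ε / (N + 1 : ℕ)) :=
              mul_le_mul h5 (hgd N).2 (hgd N).1 (by positivity)
          _ = 2 * m * ε / ((N + 1 : ℕ) : ℝ) ^ 2 := by ring
  obtain ⟨z, h1, h2⟩ := key N
  have hsq : ∑ n ∈ range N, (1 : ℝ) / ((n + 1 : ℕ) : ℝ) ^ 2 ≤ 2 := by
    have h6 : ∀ N : ℕ, ∑ n ∈ range (N + 1), (1 : ℝ) / ((n + 1 : ℕ) : ℝ) ^ 2 ≤
        2 - 1 / ((N : ℝ) + 1) := by
      intro N
      induction N with
      | zero => norm_num
      | succ N ih =>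
        rw [Finset.sum_range_succ]
        have hN : (0 : ℝ) ≤ N := Nat.cast_nonneg N
        have h7 : (1 : ℝ) / ((N + 1 + 1 : ℕ) : ℝ) ^ 2 ≤
            1 / ((N : ℝ) + 1) - 1 / (((N + 1 : ℕ) : ℝ) + 1) := by
          push_cast
          rw [div_sub_div _ _ (by positivity) (by positivity),
            div_le_div_iff₀ (by positivity) (by positivity)]
          nlinarith
        linarith
    rcases N with _ | N
    · simp
    · have := h6 N
      have h8 : 0 ≤ 1 / ((N : ℝ) + 1) := by positivity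
      linarith
  rw [h1]
  have h9 : ‖(S χ N - L) * (g N : ℂ)‖ ≤ 2 * m / (N + 1 : ℕ) := by
    rw [norm_mul, Complex.norm_real, Real.norm_eq_abs, abs_of_nonneg (hg0 N)]
    calc ‖S χ N - L‖ * g N ≤ ‖S χ N - L‖ * 1 := mul_le_mul_of_nonneg_left (hg1 N) (norm_nonneg _)
      _ ≤ _ := by rw [mul_one]; exact hL N
  have h10 : ‖z‖ ≤ 4 * m * ε := by
    refine h2.trans ?_
    calc ∑ n ∈ range N, 2 * m * ε / ((n + 1 : ℕ) : ℝ) ^ 2
        = 2 * m * ε * ∑ n ∈ range N, (1 : ℝ) / ((n + 1 : ℕ) : ℝ) ^ 2 := by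
          rw [Finset.mul_sum]
          refine Finset.sum_congr rfl fun n _ => ?_
          ring
      _ ≤ 2 * m * ε * 2 := mul_le_mul_of_nonneg_left hsq (by positivity)
      _ = 4 * m * ε := by ring
  calc ‖L + (S χ N - L) * (g N : ℂ) + z - L‖ = ‖(S χ N - L) * (g N : ℂ) + z‖ := by
        congr 1
        ring
    _ ≤ _ := (norm_add_le _ _).trans (add_le_add h9 h10)

/-- the limit of the partial sums is `L(1, χ)`, hence nonzero -/
theorem L_ne_zero (χ : DirichletCharacter ℂ m) (hχ : χ ≠ 1) {L : ℂ}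
    (hL : ∀ N : ℕ, ‖S χ N - L‖ ≤ 2 * m / (N + 1 : ℕ)) : L ≠ 0 := by
  have hval : ∀ ε : ℝ, 0 < ε → ‖DirichletCharacter.LFunction χ (((1 + ε : ℝ)) : ℂ) - L‖ ≤
      4 * m * ε := by
    intro ε hε
    have hre : 1 < (((1 + ε : ℝ)) : ℂ).re := by
      rw [Complex.ofReal_re]
      linarith
    have hsum := (χ.LSeriesSummable_of_one_lt_re hre).LSeriesHasSum
    rw [← DirichletCharacter.LFunction_eq_LSeries χ hre] at hsum
    have ht := hsum.tendsto_sum_nat
    have ht' := ht.comp (tendsto_add_atTop_nat 1)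
    have hterm : ∀ N : ℕ, ∑ n ∈ range (N + 1), LSeries.term (fun n : ℕ => χ (n : ZMod m))
        (((1 + ε : ℝ)) : ℂ) n =
        ∑ n ∈ Ioc 0 N, χ (n : ZMod m) / (n : ℂ) * (((n : ℝ) ^ (-ε) : ℝ) : ℂ) := by
      intro N
      induction N with
      | zero => simp
      | succ N ih =>
        rw [Finset.sum_range_succ, ih, ← Finset.insert_Ioc_right_eq_Ioc_add_one (Nat.zero_le N),
          Finset.sum_insert (by simp), add_comm]
        congr 1
        rw [LSeries.term_of_ne_zero (by omega)]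
        have hn0 : (0 : ℝ) < ((N + 1 : ℕ) : ℝ) := by positivity
        have e1 : (((N + 1 : ℕ) : ℂ)) ^ (((1 + ε : ℝ)) : ℂ) =
            (((((N + 1 : ℕ) : ℝ)) ^ (1 + ε) : ℝ) : ℂ) := by
          rw [Complex.ofReal_cpow hn0.le]
          push_cast
          rfl
        have e2 : (((N + 1 : ℕ) : ℝ)) ^ (1 + ε) =
            (((N + 1 : ℕ) : ℝ)) / (((N + 1 : ℕ) : ℝ)) ^ (-ε) := by
          rw [Real.rpow_add hn0, Real.rpow_one, Real.rpow_neg hn0.le]
          field_simp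
        rw [e1, e2]
        have h3 : ((((N + 1 : ℕ) : ℝ)) ^ (-ε)) ≠ 0 := (Real.rpow_pos_of_pos hn0 _).ne'
        have h4 : (((((N + 1 : ℕ) : ℝ)) ^ (-ε) : ℝ) : ℂ) ≠ 0 := by exact_mod_cast h3
        have h5 : ((N + 1 : ℕ) : ℂ) ≠ 0 := by exact_mod_cast (by omega : N + 1 ≠ 0)
        push_cast at h4 h5 ⊢
        field_simp
    have h1 : ∀ N : ℕ, ‖∑ n ∈ range (N + 1), LSeries.term (fun n : ℕ => χ (n : ZMod m))
        (((1 + ε : ℝ)) : ℂ) n - L‖ ≤ 2 * m / (N + 1 : ℕ) + 4 * m * ε := by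
      intro N
      rw [hterm N]
      exact partial_eps χ hL hε N
    have h2 : Tendsto (fun N : ℕ => 2 * (m : ℝ) / (N + 1 : ℕ) + 4 * m * ε) atTop
        (𝓝 (0 + 4 * m * ε)) := by
      refine Tendsto.add ?_ tendsto_const_nhds
      have := (tendsto_one_div_add_atTop_nhds_zero_nat (𝕜 := ℝ)).const_mul (2 * (m : ℝ))
      rw [mul_zero] at this
      refine this.congr (fun N => ?_)
      push_cast
      ring
    rw [zero_add] at h2
    exact le_of_tendsto_of_tendsto' (ht'.sub_const L).norm h2 h1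
  have hcont : Tendsto (fun ε : ℝ => DirichletCharacter.LFunction χ (((1 + ε : ℝ)) : ℂ))
      (𝓝[>] 0) (𝓝 (DirichletCharacter.LFunction χ 1)) := by
    have hd := (DirichletCharacter.differentiable_LFunction hχ).continuous
    have hc : Continuous (fun ε : ℝ => DirichletCharacter.LFunction χ (((1 + ε : ℝ)) : ℂ)) :=
      hd.comp (by fun_prop)
    have := hc.tendsto 0
    rw [add_zero, Complex.ofReal_one] at this
    exact this.mono_left nhdsWithin_le_nhds
  have hlim2 : Tendsto (fun ε : ℝ => 4 * (m : ℝ) * ε) (𝓝[>] 0) (𝓝 0) := by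
    have hc : Continuous (fun ε : ℝ => 4 * (m : ℝ) * ε) := by fun_prop
    have := hc.tendsto 0
    rw [mul_zero] at this
    exact this.mono_left nhdsWithin_le_nhds
  have hfin : ‖DirichletCharacter.LFunction χ 1 - L‖ ≤ 0 := by
    refine le_of_tendsto_of_tendsto (hcont.sub_const L).norm hlim2 ?_
    filter_upwards [self_mem_nhdsWithin] with ε hε
    exact hval ε hε
  have heq : DirichletCharacter.LFunction χ 1 = L := by
    rw [← sub_eq_zero]
    exact norm_le_zero_iff.1 hfin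
  rw [← heq]
  exact DirichletCharacter.LFunction_apply_one_ne_zero hχ

/-! ### `∑ χ(n) Λ(n)/n` is bounded -/

theorem log_bound (χ : DirichletCharacter ℂ m) (hχ : χ ≠ 1) (N : ℕ) :
    ‖∑ n ∈ Ioc 0 N, χ (n : ZMod m) * ((Real.log n / n : ℝ) : ℂ)‖ ≤ 2 + 2 * m := by
  have hlog : ∀ n : ℕ, 0 ≤ Real.log n / n := fun n =>
    div_nonneg (Real.log_natCast_nonneg n) (Nat.cast_nonneg n)
  have hle1 : ∀ n : ℕ, Real.log n / n ≤ 1 := by
    intro n
    rcases Nat.eq_zero_or_pos n with h | h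
    · subst h
      simp
    · have hn : (0 : ℝ) < n := by exact_mod_cast h
      rw [div_le_one hn]
      linarith [Real.log_le_sub_one_of_pos hn]
  have hmono : ∀ n : ℕ, 3 ≤ n → Real.log (n + 1 : ℕ) / (n + 1 : ℕ) ≤ Real.log n / n := by
    intro n hn
    have hn3 : (3 : ℝ) ≤ n := by exact_mod_cast hn
    have he := Real.exp_one_lt_d9
    refine Real.log_div_self_antitoneOn ?_ ?_ ?_
    · show Real.exp 1 ≤ (n : ℝ)
      linarith
    · show Real.exp 1 ≤ ((n + 1 : ℕ) : ℝ)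
      push_cast
      linarith
    · push_cast
      linarith
  have hm0 : (0 : ℝ) ≤ m := Nat.cast_nonneg m
  rcases lt_or_ge N 3 with h | h
  · calc ‖∑ n ∈ Ioc 0 N, χ (n : ZMod m) * ((Real.log n / n : ℝ) : ℂ)‖
        ≤ ∑ n ∈ Ioc 0 N, ‖χ (n : ZMod m) * ((Real.log n / n : ℝ) : ℂ)‖ := norm_sum_le _ _
      _ ≤ ∑ n ∈ Ioc 0 N, (1 : ℝ) := by
          refine Finset.sum_le_sum fun n _ => ?_
          rw [norm_mul, Complex.norm_real, Real.norm_eq_abs, abs_of_nonneg (hlog n)]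
          calc ‖χ (n : ZMod m)‖ * (Real.log n / n) ≤ 1 * 1 :=
                mul_le_mul (χ.norm_le_one _) (hle1 n) (hlog n) zero_le_one
            _ = 1 := one_mul 1
      _ = N := by simp
      _ ≤ 2 := by exact_mod_cast (by omega : N ≤ 2)
      _ ≤ 2 + 2 * m := by linarith
  · have hsplit : ∑ n ∈ Ioc 0 N, χ (n : ZMod m) * ((Real.log n / n : ℝ) : ℂ) =
        ∑ n ∈ Ico (1 : ℕ) 3, χ (n : ZMod m) * ((Real.log n / n : ℝ) : ℂ) +
        ∑ n ∈ Ico 3 (N + 1), χ (n : ZMod m) * ((Real.log n / n : ℝ) : ℂ) := by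
      rw [Finset.sum_Ico_consecutive _ (by norm_num) (by omega)]
      refine Finset.sum_congr ?_ fun _ _ => rfl
      ext n
      simp only [Finset.mem_Ioc, Finset.mem_Ico]
      omega
    rw [hsplit]
    have h1 : ‖∑ n ∈ Ico (1 : ℕ) 3, χ (n : ZMod m) * ((Real.log n / n : ℝ) : ℂ)‖ ≤ 2 := by
      calc ‖∑ n ∈ Ico (1 : ℕ) 3, χ (n : ZMod m) * ((Real.log n / n : ℝ) : ℂ)‖
          ≤ ∑ n ∈ Ico (1 : ℕ) 3, ‖χ (n : ZMod m) * ((Real.log n / n : ℝ) : ℂ)‖ := norm_sum_le _ _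
        _ ≤ ∑ n ∈ Ico (1 : ℕ) 3, (1 : ℝ) := by
            refine Finset.sum_le_sum fun n _ => ?_
            rw [norm_mul, Complex.norm_real, Real.norm_eq_abs, abs_of_nonneg (hlog n)]
            calc ‖χ (n : ZMod m)‖ * (Real.log n / n) ≤ 1 * 1 :=
                  mul_le_mul (χ.norm_le_one _) (hle1 n) (hlog n) zero_le_one
              _ = 1 := one_mul 1
        _ = 2 := by simp
    have h2 := abel χ hχ (fun n => Real.log n / n) 3 (fun n _ => hlog n) hmono (N + 1) (by omega)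
    have h3 : 2 * (m : ℝ) * (Real.log (3 : ℕ) / (3 : ℕ)) ≤ 2 * m := by
      calc 2 * (m : ℝ) * (Real.log (3 : ℕ) / (3 : ℕ)) ≤ 2 * m * 1 :=
            mul_le_mul_of_nonneg_left (hle1 3) (by positivity)
        _ = 2 * m := mul_one _
    exact (norm_add_le _ _).trans (add_le_add h1 (h2.trans h3))

/-- `n ↦ χ(n) Λ(n)/n` as an arithmetic function -/
noncomputable def fL (χ : DirichletCharacter ℂ m) : ArithmeticFunction ℂ :=
  ⟨fun n => χ (n : ZMod m) * ((vonMangoldt n / n : ℝ) : ℂ), by simp⟩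

/-- `n ↦ χ(n)/n` as an arithmetic function -/
noncomputable def fS (χ : DirichletCharacter ℂ m) : ArithmeticFunction ℂ :=
  ⟨fun n => χ (n : ZMod m) / (n : ℂ), by simp⟩

theorem conv (χ : DirichletCharacter ℂ m) (n : ℕ) (hn : n ≠ 0) :
    (fL χ * fS χ) n = χ (n : ZMod m) * ((Real.log n / n : ℝ) : ℂ) := by
  rw [ArithmeticFunction.mul_apply]
  have h1 : ∀ x ∈ n.divisorsAntidiagonal, fL χ x.1 * fS χ x.2 =
      χ (n : ZMod m) / (n : ℂ) * ((vonMangoldt x.1 : ℝ) : ℂ) := by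
    intro x hx
    rw [Nat.mem_divisorsAntidiagonal] at hx
    obtain ⟨hx1, hx2⟩ := hx
    have hx1' : x.1 ≠ 0 := fun h => hx2 (by rw [← hx1, h, zero_mul])
    have hx2' : x.2 ≠ 0 := fun h => hx2 (by rw [← hx1, h, mul_zero])
    have e1 : fL χ x.1 = χ (x.1 : ZMod m) * ((vonMangoldt x.1 / x.1 : ℝ) : ℂ) := rfl
    have e2 : fS χ x.2 = χ (x.2 : ZMod m) / (x.2 : ℂ) := rfl
    have e3 : χ (n : ZMod m) = χ (x.1 : ZMod m) * χ (x.2 : ZMod m) := by
      rw [← map_mul, ← Nat.cast_mul, hx1]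
    have e4 : (n : ℂ) = (x.1 : ℂ) * (x.2 : ℂ) := by
      rw [← Nat.cast_mul, hx1]
    have h3 : (x.1 : ℂ) ≠ 0 := by exact_mod_cast hx1'
    have h4 : (x.2 : ℂ) ≠ 0 := by exact_mod_cast hx2'
    rw [e1, e2, e3, e4]
    push_cast
    field_simp
  rw [Finset.sum_congr rfl h1, ← Finset.mul_sum]
  have h2 : ∑ x ∈ n.divisorsAntidiagonal, ((vonMangoldt x.1 : ℝ) : ℂ) = ((Real.log n : ℝ) : ℂ) := by
    rw [Nat.sum_divisorsAntidiagonal (fun i _ => ((vonMangoldt i : ℝ) : ℂ)),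
      ← Complex.ofReal_sum, vonMangoldt_sum]
  rw [h2]
  have h5 : (n : ℂ) ≠ 0 := by exact_mod_cast hn
  push_cast
  field_simp

theorem char_bound (χ : DirichletCharacter ℂ m) (hχ : χ ≠ 1) :
    ∃ C : ℝ, ∀ N : ℕ, ‖∑ n ∈ Ioc 0 N, χ (n : ZMod m) * ((vonMangoldt n / n : ℝ) : ℂ)‖ ≤ C := by
  obtain ⟨L, -, hL⟩ := S_lim χ hχ
  have hL0 := L_ne_zero χ hχ hL
  have hLn : 0 < ‖L‖ := norm_pos_iff.2 hL0
  refine ⟨(2 + 2 * m + 2 * m * (Real.log 4 + 4)) / ‖L‖, fun N => ?_⟩
  rw [le_div_iff₀ hLn]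
  have h1 : ∑ n ∈ Ioc 0 N, χ (n : ZMod m) * ((Real.log n / n : ℝ) : ℂ) =
      ∑ d ∈ Ioc 0 N, fL χ d * S χ (N / d) := by
    have h2 := sum_Ioc_mul_eq_sum_sum (fL χ) (fS χ) N
    refine Eq.trans ?_ h2
    refine Finset.sum_congr rfl fun n hn => ?_
    rw [conv χ n (by have := (Finset.mem_Ioc.1 hn).1; omega)]
  have h3 : (∑ d ∈ Ioc 0 N, fL χ d) * L =
      ∑ n ∈ Ioc 0 N, χ (n : ZMod m) * ((Real.log n / n : ℝ) : ℂ) -
        ∑ d ∈ Ioc 0 N, fL χ d * (S χ (N / d) - L) := by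
    rw [h1, Finset.sum_mul, ← Finset.sum_sub_distrib]
    refine Finset.sum_congr rfl fun d _ => ?_
    ring
  have h4 : ‖∑ d ∈ Ioc 0 N, fL χ d * (S χ (N / d) - L)‖ ≤ 2 * m * (Real.log 4 + 4) := by
    rcases Nat.eq_zero_or_pos N with h0 | h0
    · subst h0
      have h4' : 0 ≤ Real.log 4 := Real.log_nonneg (by norm_num)
      simp only [Finset.Ioc_self, Finset.sum_empty, norm_zero]
      positivity
    have hN : (0 : ℝ) < N := by exact_mod_cast h0
    calc ‖∑ d ∈ Ioc 0 N, fL χ d * (S χ (N / d) - L)‖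
        ≤ ∑ d ∈ Ioc 0 N, ‖fL χ d * (S χ (N / d) - L)‖ := norm_sum_le _ _
      _ ≤ ∑ d ∈ Ioc 0 N, 2 * m / N * vonMangoldt d := by
          refine Finset.sum_le_sum fun d hd => ?_
          have hd0 : 0 < d := (Finset.mem_Ioc.1 hd).1
          have hd' : (0 : ℝ) < d := by exact_mod_cast hd0
          have e1 : fL χ d = χ (d : ZMod m) * ((vonMangoldt d / d : ℝ) : ℂ) := rfl
          have hnn : 0 ≤ vonMangoldt d / d := div_nonneg vonMangoldt_nonneg hd'.le
          rw [norm_mul, e1, norm_mul, Complex.norm_real, Real.norm_eq_abs, abs_of_nonneg hnn]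
          have e2 : ‖S χ (N / d) - L‖ ≤ 2 * m * d / N := by
            refine (hL (N / d)).trans ?_
            rw [div_le_div_iff₀ (by positivity) hN]
            have e3 : (N : ℝ) ≤ d * ((N / d + 1 : ℕ) : ℝ) := by
              have := Nat.lt_div_mul_add (a := N) (b := d) hd0
              have e4 : (N : ℝ) < (N / d : ℕ) * d + d := by exact_mod_cast this
              push_cast
              linarith
            have hm0 : (0 : ℝ) ≤ 2 * m := by positivity
            calc 2 * (m : ℝ) * N ≤ 2 * m * (d * ((N / d + 1 : ℕ) : ℝ)) :=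
                  mul_le_mul_of_nonneg_left e3 hm0
              _ = 2 * m * d * ((N / d + 1 : ℕ) : ℝ) := by ring
          calc ‖χ (d : ZMod m)‖ * (vonMangoldt d / d) * ‖S χ (N / d) - L‖
              ≤ 1 * (vonMangoldt d / d) * (2 * m * d / N) := by
                refine mul_le_mul (mul_le_mul_of_nonneg_right (χ.norm_le_one _) hnn) e2
                  (norm_nonneg _) (by positivity)
            _ = 2 * m / N * vonMangoldt d := by
                field_simp
      _ = 2 * m / N * ∑ d ∈ Ioc 0 N, vonMangoldt d := by rw [Finset.mul_sum]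
      _ ≤ 2 * m / N * ((Real.log 4 + 4) * N) :=
          mul_le_mul_of_nonneg_left (psi_le N) (by positivity)
      _ = _ := by
          field_simp
  have h5 : ∑ n ∈ Ioc 0 N, χ (n : ZMod m) * ((vonMangoldt n / n : ℝ) : ℂ) =
      ∑ d ∈ Ioc 0 N, fL χ d := rfl
  rw [h5, ← norm_mul, h3]
  calc ‖∑ n ∈ Ioc 0 N, χ (n : ZMod m) * ((Real.log n / n : ℝ) : ℂ) -
        ∑ d ∈ Ioc 0 N, fL χ d * (S χ (N / d) - L)‖
      ≤ ‖∑ n ∈ Ioc 0 N, χ (n : ZMod m) * ((Real.log n / n : ℝ) : ℂ)‖ +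
        ‖∑ d ∈ Ioc 0 N, fL χ d * (S χ (N / d) - L)‖ := norm_sub_le _ _
    _ ≤ (2 + 2 * m) + 2 * m * (Real.log 4 + 4) := add_le_add (log_bound χ hχ N) h4
    _ = _ := by ring

/-! ### the trivial character and the non-primes -/

theorem nonprime_bound (q : ℕ) (a : ZMod q) : ∃ C : ℝ, 0 ≤ C ∧ ∀ N : ℕ,
    0 ≤ ∑ n ∈ Ioc 0 N, (if n.Prime then 0 else vonMangoldt.residueClass a n) / (n : ℝ) ∧
    ∑ n ∈ Ioc 0 N, (if n.Prime then 0 else vonMangoldt.residueClass a n) / (n : ℝ) ≤ C := by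
  have h := vonMangoldt.summable_residueClass_non_primes_div (a := a)
  have hn : ∀ n : ℕ, 0 ≤ (if n.Prime then 0 else vonMangoldt.residueClass a n) / (n : ℝ) := by
    intro n
    have := vonMangoldt.residueClass_nonneg a n
    positivity
  exact ⟨_, tsum_nonneg hn, fun N => ⟨Finset.sum_nonneg fun n _ => hn n,
    h.sum_le_tsum _ fun i _ => hn i⟩⟩

/-- the part of `∑ Λ(n)/n` not coprime to the modulus -/
noncomputable def Eb (m N : ℕ) : ℝ :=
  ∑ n ∈ Ioc 0 N, (if n.Coprime m then 0 else vonMangoldt n) / (n : ℝ)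

theorem Eb_bound (m : ℕ) [NeZero m] : ∃ C : ℝ, 0 ≤ C ∧ ∀ N : ℕ, 0 ≤ Eb m N ∧ Eb m N ≤ C := by
  obtain ⟨C, hC, h⟩ := nonprime_bound 1 0
  have hres : ∀ n : ℕ, vonMangoldt.residueClass (0 : ZMod 1) n = vonMangoldt n := by
    intro n
    rw [vonMangoldt.residueClass, Set.indicator_of_mem]
    simp only [Set.mem_ofPred_eq]
    exact Subsingleton.elim _ _
  have hp : ∀ n : ℕ, 0 ≤ vonMangoldt n / (n : ℝ) := fun n =>
    div_nonneg vonMangoldt_nonneg (Nat.cast_nonneg n)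
  refine ⟨C + ∑ n ∈ m.primeFactors, vonMangoldt n / (n : ℝ),
    add_nonneg hC (Finset.sum_nonneg fun n _ => hp n), fun N => ⟨?_, ?_⟩⟩
  · refine Finset.sum_nonneg fun n _ => ?_
    split_ifs
    · simp
    · exact hp n
  · have h1 : Eb m N ≤ ∑ n ∈ Ioc 0 N, ((if n.Prime then 0 else vonMangoldt.residueClass (0 : ZMod 1) n) /
        (n : ℝ) + if n ∈ m.primeFactors then vonMangoldt n / (n : ℝ) else 0) := by
      refine Finset.sum_le_sum fun n _ => ?_
      rw [hres n]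
      by_cases hu : n.Coprime m
      · rw [if_pos hu]
        have a1 : 0 ≤ (if n.Prime then 0 else vonMangoldt n) / (n : ℝ) := by
          split_ifs
          · simp
          · exact hp n
        have a2 : 0 ≤ if n ∈ m.primeFactors then vonMangoldt n / (n : ℝ) else 0 := by
          split_ifs
          · exact hp n
          · exact le_rfl
        rw [zero_div]
        linarith
      · rw [if_neg hu]
        by_cases hpr : n.Prime
        · have hmem : n ∈ m.primeFactors := by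
            rw [Nat.mem_primeFactors]
            refine ⟨hpr, ?_, NeZero.ne m⟩
            by_contra hnd
            exact hu ((Nat.Prime.coprime_iff_not_dvd hpr).2 hnd)
          simp [hpr, hmem]
        · simp only [hpr, if_false]
          have a2 : 0 ≤ if n ∈ m.primeFactors then vonMangoldt n / (n : ℝ) else 0 := by
            split_ifs
            · exact hp n
            · exact le_rfl
          linarith
    refine h1.trans ?_
    rw [Finset.sum_add_distrib]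
    refine add_le_add (h N).2 ?_
    rw [← Finset.sum_filter]
    refine Finset.sum_le_sum_of_subset_of_nonneg (fun n hn => (Finset.mem_filter.1 hn).2)
      (fun n _ _ => hp n)

theorem triv_char (m : ℕ) [NeZero m] (N : ℕ) :
    ∑ n ∈ Ioc 0 N, (1 : DirichletCharacter ℂ m) (n : ZMod m) * ((vonMangoldt n / n : ℝ) : ℂ) =
      ((M N - Eb m N : ℝ) : ℂ) := by
  unfold M Eb
  rw [← Finset.sum_sub_distrib, Complex.ofReal_sum]
  refine Finset.sum_congr rfl fun n _ => ?_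
  by_cases hu : n.Coprime m
  · rw [MulChar.one_apply ((ZMod.isUnit_iff_coprime n m).2 hu), if_pos hu]
    simp
  · rw [MulChar.map_nonunit _ (fun h => hu ((ZMod.isUnit_iff_coprime n m).1 h)), if_neg hu]
    simp

theorem residue_sum (m : ℕ) [NeZero m] (a : ZMod m) (ha : IsUnit a) : ∃ C : ℝ, 0 ≤ C ∧ ∀ N : ℕ,
    |∑ n ∈ Ioc 0 N, vonMangoldt.residueClass a n / (n : ℝ) -
      (M N - Eb m N) / m.totient| ≤ C := by
  classical
  have hφ : 0 < (m.totient : ℝ) := by
    exact_mod_cast Nat.totient_pos.2 (Nat.pos_of_ne_zero (NeZero.ne m))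
  have hb : ∀ χ : DirichletCharacter ℂ m, ∃ C : ℝ, 0 ≤ C ∧ (χ ≠ 1 → ∀ N : ℕ,
      ‖∑ n ∈ Ioc 0 N, χ (n : ZMod m) * ((vonMangoldt n / n : ℝ) : ℂ)‖ ≤ C) := by
    intro χ
    by_cases hχ : χ = 1
    · exact ⟨0, le_rfl, fun h => absurd hχ h⟩
    · obtain ⟨C, hC⟩ := char_bound χ hχ
      exact ⟨max C 0, le_max_right _ _, fun _ N => (hC N).trans (le_max_left _ _)⟩
  choose C hC0 hC using hb
  refine ⟨∑ χ : DirichletCharacter ℂ m, C χ, Finset.sum_nonneg fun χ _ => hC0 χ, fun N => ?_⟩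
  have h1 : ((∑ n ∈ Ioc 0 N, vonMangoldt.residueClass a n / (n : ℝ) -
      (M N - Eb m N) / m.totient : ℝ) : ℂ) =
      (m.totient : ℂ)⁻¹ * ∑ χ ∈ (Finset.univ : Finset (DirichletCharacter ℂ m)).erase 1, χ a⁻¹ *
        ∑ n ∈ Ioc 0 N, χ (n : ZMod m) * ((vonMangoldt n / n : ℝ) : ℂ) := by
    have h2 : ((∑ n ∈ Ioc 0 N, vonMangoldt.residueClass a n / (n : ℝ) : ℝ) : ℂ) =
        (m.totient : ℂ)⁻¹ * ∑ χ : DirichletCharacter ℂ m, χ a⁻¹ *
          ∑ n ∈ Ioc 0 N, χ (n : ZMod m) * ((vonMangoldt n / n : ℝ) : ℂ) := by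
      rw [Complex.ofReal_sum]
      simp only [Finset.mul_sum]
      rw [Finset.sum_comm]
      refine Finset.sum_congr rfl fun n _ => ?_
      rw [Complex.ofReal_div, vonMangoldt.residueClass_apply ha n, Finset.mul_sum,
        Finset.sum_div]
      refine Finset.sum_congr rfl fun χ _ => ?_
      push_cast
      ring
    rw [Complex.ofReal_sub, h2, ← Finset.add_sum_erase _ _ (Finset.mem_univ (1 : DirichletCharacter ℂ m)),
      triv_char]
    have h3 : (1 : DirichletCharacter ℂ m) a⁻¹ = 1 := by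
      exact MulChar.one_apply (isUnit_of_dvd_one ⟨a, (ZMod.inv_mul_of_unit a ha).symm⟩)
    rw [h3]
    push_cast
    ring
  have h4 : |∑ n ∈ Ioc 0 N, vonMangoldt.residueClass a n / (n : ℝ) -
      (M N - Eb m N) / m.totient| = ‖((∑ n ∈ Ioc 0 N, vonMangoldt.residueClass a n / (n : ℝ) -
      (M N - Eb m N) / m.totient : ℝ) : ℂ)‖ := by
    rw [Complex.norm_real, Real.norm_eq_abs]
  rw [h4, h1, norm_mul]
  have h5 : ‖(m.totient : ℂ)⁻¹‖ ≤ 1 := by
    rw [norm_inv, Complex.norm_natCast]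
    exact inv_le_one_of_one_le₀ (by exact_mod_cast hφ)
  have h6 : ‖∑ χ ∈ (Finset.univ : Finset (DirichletCharacter ℂ m)).erase 1, χ a⁻¹ *
        ∑ n ∈ Ioc 0 N, χ (n : ZMod m) * ((vonMangoldt n / n : ℝ) : ℂ)‖ ≤
      ∑ χ : DirichletCharacter ℂ m, C χ := by
    refine (norm_sum_le _ _).trans ?_
    refine (Finset.sum_le_sum (fun χ hχ => ?_)).trans
      (Finset.sum_le_sum_of_subset_of_nonneg (Finset.erase_subset 1 Finset.univ)
        (fun χ _ _ => hC0 χ))
    rw [norm_mul]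
    calc ‖χ a⁻¹‖ * ‖∑ n ∈ Ioc 0 N, χ (n : ZMod m) * ((vonMangoldt n / n : ℝ) : ℂ)‖
        ≤ 1 * C χ := mul_le_mul (χ.norm_le_one _) (hC χ (Finset.ne_of_mem_erase hχ) N)
          (norm_nonneg _) zero_le_one
      _ = C χ := one_mul _
  calc ‖(m.totient : ℂ)⁻¹‖ * ‖∑ χ ∈ (Finset.univ : Finset (DirichletCharacter ℂ m)).erase 1, χ a⁻¹ *
        ∑ n ∈ Ioc 0 N, χ (n : ZMod m) * ((vonMangoldt n / n : ℝ) : ℂ)‖
      ≤ 1 * ∑ χ : DirichletCharacter ℂ m, C χ := mul_le_mul h5 h6 (norm_nonneg _) zero_le_one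
    _ = _ := one_mul _

end ApAux

/-- **Mertens' theorem in arithmetic progressions** (fixed modulus). -/
theorem mertens_ap (m : ℕ) [NeZero m] (a : ZMod m) (ha : IsUnit a) : ∃ C : ℝ, 0 ≤ C ∧ ∀ N : ℕ,
    1 ≤ N → |∑ p ∈ (Ioc 0 N).filter (fun p : ℕ => p.Prime ∧ (p : ZMod m) = a), Real.log p / p -
      Real.log N / m.totient| ≤ C := by
  obtain ⟨C1, h1, hC1⟩ := ApAux.residue_sum m a ha
  obtain ⟨C2, h2, hC2⟩ := ApAux.Eb_bound m
  obtain ⟨C3, h3, hC3⟩ := ApAux.nonprime_bound m a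
  have hφ : (1 : ℝ) ≤ (m.totient : ℝ) := by
    exact_mod_cast Nat.totient_pos.2 (Nat.pos_of_ne_zero (NeZero.ne m))
  have hlog4 : 0 ≤ Real.log 4 := Real.log_nonneg (by norm_num)
  refine ⟨C1 + C2 + C3 + (Real.log 4 + 5), by positivity, fun N hN => ?_⟩
  have e1 : ∑ p ∈ (Ioc 0 N).filter (fun p : ℕ => p.Prime ∧ (p : ZMod m) = a), Real.log p / p =
      ∑ n ∈ Ioc 0 N, vonMangoldt.residueClass a n / (n : ℝ) -
      ∑ n ∈ Ioc 0 N, (if n.Prime then 0 else vonMangoldt.residueClass a n) / (n : ℝ) := by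
    rw [← Finset.sum_sub_distrib, Finset.sum_filter]
    refine Finset.sum_congr rfl fun n _ => ?_
    by_cases hp : n.Prime
    · by_cases hr : (n : ZMod m) = a
      · have e2 : vonMangoldt.residueClass a n = vonMangoldt n := by
          rw [vonMangoldt.residueClass, Set.indicator_of_mem]
          exact hr
        simp only [hp, hr, and_self, if_true, e2, zero_div, sub_zero,
          vonMangoldt_apply_prime hp]
      · have e2 : vonMangoldt.residueClass a n = 0 := by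
          rw [vonMangoldt.residueClass, Set.indicator_of_notMem]
          exact hr
        simp [hp, hr, e2]
    · simp [hp]
  have e3 := hC1 N
  have e4 := hC2 N
  have e5 := hC3 N
  have e6 := ApAux.M_ge N (by omega)
  have e7 := ApAux.M_le N (by omega)
  have e8 : |(ApAux.M N - ApAux.Eb m N) / m.totient - Real.log N / m.totient| ≤
      C2 + (Real.log 4 + 5) := by
    rw [← sub_div, abs_div, abs_of_pos (show (0 : ℝ) < m.totient by linarith),
      div_le_iff₀ (by linarith)]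
    have e9 : |ApAux.M N - ApAux.Eb m N - Real.log N| ≤ C2 + (Real.log 4 + 5) := by
      rw [abs_le]
      constructor <;> linarith [e4.1, e4.2]
    refine e9.trans ?_
    have : 0 ≤ C2 + (Real.log 4 + 5) := by positivity
    nlinarith
  rw [e1]
  rw [abs_le] at e3 e8 ⊢
  constructor <;> linarith [e5.1, e5.2, e3.1, e3.2, e8.1, e8.2]

/-- At least `Y / (K log Y)` primes `p ≡ a (mod m)` in `(Y / K, Y]`. -/
theorem window_ap (m : ℕ) [NeZero m] (a : ZMod m) (ha : IsUnit a) : ∃ K : ℕ, 2 ≤ K ∧ ∃ Y0 : ℕ,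
    ∀ Y : ℕ, Y0 ≤ Y → (Y : ℝ) / (K * Real.log Y) ≤
      ((Ioc (Y / K) Y).filter (fun p : ℕ => p.Prime ∧ (p : ZMod m) = a)).card := by
  obtain ⟨C, hC, h⟩ := mertens_ap m a ha
  have hφ : (1 : ℝ) ≤ (m.totient : ℝ) := by
    exact_mod_cast Nat.totient_pos.2 (Nat.pos_of_ne_zero (NeZero.ne m))
  obtain ⟨K, hK⟩ := exists_nat_gt (Real.exp (m.totient * (2 * C + 1)) + 2)
  have hexp : 0 < Real.exp (m.totient * (2 * C + 1)) := Real.exp_pos _
  have hK2 : 2 ≤ K := by
    have : (2 : ℝ) < K := by linarith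
    exact_mod_cast this.le
  have hK0 : (0 : ℝ) < K := by linarith
  have hKl : m.totient * (2 * C + 1) ≤ Real.log K := by
    rw [Real.le_log_iff_exp_le hK0]
    linarith
  refine ⟨K, hK2, K, fun Y hY => ?_⟩
  have hYK : 1 ≤ Y / K := (Nat.one_le_div_iff (by omega)).2 hY
  have hY1 : 1 ≤ Y := by omega
  have hY0 : (0 : ℝ) < Y := by exact_mod_cast hY1
  have hlY : 0 < Real.log Y := Real.log_pos (by exact_mod_cast (by omega : 1 < Y))
  set P : ℕ → Prop := fun p : ℕ => p.Prime ∧ (p : ZMod m) = a with hP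
  have hsplit : ∑ p ∈ (Ioc 0 Y).filter P, Real.log p / p =
      ∑ p ∈ (Ioc 0 (Y / K)).filter P, Real.log p / p +
        ∑ p ∈ (Ioc (Y / K) Y).filter P, Real.log p / p := by
    rw [Finset.sum_filter, Finset.sum_filter, Finset.sum_filter,
      Finset.sum_Ioc_consecutive _ (Nat.zero_le _) (Nat.div_le_self _ _)]
  have h1 := h Y hY1
  have h2 := h (Y / K) hYK
  rw [abs_le] at h1 h2
  have h3 : Real.log ((Y / K : ℕ) : ℝ) ≤ Real.log Y - Real.log K := by
    rw [← Real.log_div hY0.ne' hK0.ne']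
    exact Real.log_le_log (by exact_mod_cast hYK) Nat.cast_div_le
  have h4 : (1 : ℝ) ≤ ∑ p ∈ (Ioc (Y / K) Y).filter P, Real.log p / p := by
    have h5 : (2 * C + 1) ≤ (Real.log Y - Real.log ((Y / K : ℕ) : ℝ)) / m.totient := by
      rw [le_div_iff₀ (by linarith)]
      linarith
    rw [sub_div] at h5
    linarith [h1.1, h2.2]
  have h6 : ∑ p ∈ (Ioc (Y / K) Y).filter P, Real.log p / p ≤
      ((Ioc (Y / K) Y).filter P).card * (K * Real.log Y / Y) := by
    rw [← nsmul_eq_mul, ← Finset.sum_const]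
    refine Finset.sum_le_sum fun p hp => ?_
    obtain ⟨hp1, hp2⟩ := Finset.mem_Ioc.1 (Finset.mem_filter.1 hp).1
    have hp0 : 0 < p := by omega
    have hp0' : (0 : ℝ) < p := by exact_mod_cast hp0
    have h7 : (Y : ℝ) ≤ K * p := by
      have : Y < K * (Y / K + 1) := Nat.lt_mul_div_succ Y (by omega)
      have h8 : Y ≤ K * p := this.le.trans (Nat.mul_le_mul_left _ hp1)
      exact_mod_cast h8
    rw [div_le_div_iff₀ hp0' hY0]
    calc Real.log p * Y ≤ Real.log Y * (K * p) := by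
          refine mul_le_mul (Real.log_le_log hp0' (by exact_mod_cast hp2)) h7 hY0.le hlY.le
      _ = K * Real.log Y * p := by ring
  have h9 : (0 : ℝ) < K * Real.log Y := by positivity
  rw [div_le_iff₀ h9]
  have h10 : (1 : ℝ) ≤ ((Ioc (Y / K) Y).filter P).card * (K * Real.log Y / Y) := h4.trans h6
  have h11 : ((Ioc (Y / K) Y).filter P).card * (K * Real.log Y / Y) =
      ((Ioc (Y / K) Y).filter P).card * (K * Real.log Y) / Y := by ring
  rw [h11, le_div_iff₀ hY0] at h10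
  linarith

/-- At least `Y ^ (1 - δ)` primes `p ≡ a (mod m)` in `(Y ^ (1 - δ), Y]`. -/
theorem card_ap (m : ℕ) [NeZero m] (a : ZMod m) (ha : IsUnit a) {δ : ℝ} (hδ : 0 < δ) :
    ∃ Y0 : ℕ, ∀ Y : ℕ, Y0 ≤ Y → (Y : ℝ) ^ (1 - δ) ≤
      ((Ioc ⌈(Y : ℝ) ^ (1 - δ)⌉₊ Y).filter (fun p : ℕ => p.Prime ∧ (p : ZMod m) = a)).card := by
  obtain ⟨K, hK2, Y1, hw⟩ := window_ap m a ha
  have hK0 : (0 : ℝ) < K := by exact_mod_cast (by omega : 0 < K)
  -- `K log Y ≤ Y ^ δ` and `Y ^ (1 - δ) + 1 ≤ Y / K - 1`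
  have hlog : ∀ᶠ x : ℝ in atTop, K * Real.log x ≤ x ^ δ := by
    have h1 := (isLittleO_log_rpow_atTop hδ).def (show (0 : ℝ) < 1 / K by positivity)
    filter_upwards [h1, eventually_gt_atTop 1] with x hx hx1
    rw [Real.norm_eq_abs, Real.norm_eq_abs, abs_of_pos (Real.log_pos hx1),
      abs_of_pos (Real.rpow_pos_of_pos (by linarith) _), one_div, inv_mul_eq_div,
      le_div_iff₀ hK0] at hx
    linarith
  have hpow : ∀ᶠ x : ℝ in atTop, 4 * K ≤ x ^ (min δ 1) :=
    (tendsto_rpow_atTop (lt_min hδ one_pos)).eventually_ge_atTop _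
  have hboth := (hlog.and (hpow.and (eventually_ge_atTop (2 : ℝ))))
  obtain ⟨x0, hx0⟩ := Filter.eventually_atTop.1 hboth
  refine ⟨max Y1 ⌈x0⌉₊, fun Y hY => ?_⟩
  have hYx : x0 ≤ (Y : ℝ) := (Nat.le_ceil _).trans (by exact_mod_cast (le_max_right _ _).trans hY)
  obtain ⟨g1, g2, g3⟩ := hx0 Y hYx
  have hY0 : (0 : ℝ) < Y := by linarith
  have hlY : 0 < Real.log Y := Real.log_pos (by linarith)
  have hpδ : 0 < (Y : ℝ) ^ δ := Real.rpow_pos_of_pos hY0 _
  have e1 : (Y : ℝ) ^ (1 - δ) = Y / (Y : ℝ) ^ δ := by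
    rw [Real.rpow_sub hY0, Real.rpow_one]
  have e2 : (Y : ℝ) ^ (1 - δ) ≤ Y / (K * Real.log Y) := by
    rw [e1]
    exact div_le_div_of_nonneg_left hY0.le (by positivity) g1
  refine e2.trans ((hw Y ((le_max_left _ _).trans hY)).trans ?_)
  have hceil : ⌈(Y : ℝ) ^ (1 - δ)⌉₊ ≤ Y / K := by
    rw [Nat.ceil_le]
    have h5 : (Y : ℝ) / K - 1 ≤ ((Y / K : ℕ) : ℝ) := by
      have : Y < K * (Y / K + 1) := Nat.lt_mul_div_succ Y (by omega)
      have h6 : (Y : ℝ) < K * (((Y / K : ℕ) : ℝ) + 1) := by exact_mod_cast this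
      rw [sub_le_iff_le_add, div_le_iff₀ hK0]
      linarith
    refine le_trans ?_ h5
    -- `Y ^ (1 - δ) ≤ Y / (4 K)`
    have h7 : 4 * (K : ℝ) ≤ (Y : ℝ) ^ δ := by
      refine g2.trans ?_
      exact Real.rpow_le_rpow_of_exponent_le (by linarith) (min_le_left _ _)
    have h8 : (Y : ℝ) ^ (1 - δ) ≤ Y / (4 * K) := by
      rw [e1]
      exact div_le_div_of_nonneg_left hY0.le (by positivity) h7
    have h9 : 4 * (K : ℝ) ≤ Y := by
      refine g2.trans ?_
      calc (Y : ℝ) ^ (min δ 1) ≤ (Y : ℝ) ^ (1 : ℝ) :=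
            Real.rpow_le_rpow_of_exponent_le (by linarith) (min_le_right _ _)
        _ = Y := Real.rpow_one _
    have h10 : (Y : ℝ) / (4 * K) = (Y / K) / 4 := by
      field_simp
    have h11 : (4 : ℝ) ≤ Y / K := by
      rw [le_div_iff₀ hK0]
      exact h9
    rw [h10] at h8
    linarith
  exact_mod_cast Finset.card_le_card (Finset.filter_subset_filter _
    (Finset.Ioc_subset_Ioc_left hceil))

end Pool.Agent.Qnr
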