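import Pool.Agent.Qnr.Stc
import Pool.Agent.Qnr.Ap

/-!
# The counting and the contradiction (modules F1 - F5)
-/

set_option autoImplicit false

namespace Pool.Agent.Qnr

open Finset

/-- MODULE F1.
Proof: `choose (k m) k * k! = ∏_{i < k} (k m - i)`, and `k m - i ≥ m (k - i)`. -/
theorem choose_ge (k m n : ℕ) (h : k * m ≤ n) : m ^ k ≤ n.choose k := by
  induction k generalizing n with
  | zero => simp
  | succ k ih =>
    rcases Nat.eq_zero_or_pos m with hm | hm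
    · rw [hm, zero_pow (by omega)]
      exact Nat.zero_le _
    have h1 : (k + 1) * m = k * m + m := by ring
    obtain ⟨n', rfl⟩ : ∃ n', n = n' + 1 := ⟨n - 1, by omega⟩
    have h2 := ih n' (by omega)
    have h3 := Nat.add_one_mul_choose_eq n' k
    have h4 : (k + 1) * m ^ (k + 1) ≤ (k + 1) * (n' + 1).choose (k + 1) := by
      calc (k + 1) * m ^ (k + 1) = ((k + 1) * m) * m ^ k := by ring
        _ ≤ (n' + 1) * n'.choose k := Nat.mul_le_mul h h2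
        _ = (k + 1) * (n' + 1).choose (k + 1) := by rw [h3, mul_comm]
    exact Nat.le_of_mul_le_mul_left h4 (Nat.succ_pos k)

/-- MODULE F2 (the exponents).  `n` = number of digits of `p`, `B = n ^ 120`.
Proof: `k1 = Nat.clog B (p ^ 10)`, `k2 = Nat.clog (B ^ 3) (p ^ 80)`: `B ^ (k1 - 1) < p ^ 10`, and
`B ^ n ≥ 2 ^ (120 n) ≥ p ^ 10` gives `k1 ≤ n` (`p < 2 ^ n`). -/
theorem expo (p n B : ℕ) (hp : 2 ≤ p) (hpn : p < 2 ^ n) (hn : 2 ≤ n) (hB : B = n ^ 120) :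
    ∃ k1 k2 : ℕ, k1 ≤ n ∧ k2 ≤ n ∧ p ^ 10 ≤ B ^ k1 ∧ B ^ k1 ≤ p ^ 10 * B ∧
      p ^ 80 ≤ (B ^ 3) ^ k2 ∧ (B ^ 3) ^ k2 ≤ p ^ 80 * B ^ 3 := by
  have key : ∀ b e : ℕ, 1 < b → e ≠ 0 → p ^ e ≤ b ^ n →
      ∃ k, k ≤ n ∧ p ^ e ≤ b ^ k ∧ b ^ k ≤ p ^ e * b := by
    intro b e hb he hle
    refine ⟨Nat.clog b (p ^ e), Nat.clog_le_of_le_pow hle, Nat.le_pow_clog hb _, ?_⟩
    have h1 : 1 < p ^ e := Nat.one_lt_pow he (by omega)
    have h2 := Nat.pow_pred_clog_lt_self hb h1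
    have h3 : 0 < Nat.clog b (p ^ e) := Nat.clog_pos hb h1
    obtain ⟨j, hj⟩ := Nat.exists_eq_succ_of_ne_zero h3.ne'
    rw [hj, Nat.pred_succ] at h2
    rw [hj, Nat.succ_eq_add_one, pow_succ]
    exact Nat.mul_le_mul_right b h2.le
  have hB1 : 2 ^ 120 ≤ B := by
    rw [hB]
    exact Nat.pow_le_pow_left hn 120
  have hB2 : 1 < B := lt_of_lt_of_le (by norm_num) hB1
  have hpe : ∀ e c : ℕ, e ≤ c → p ^ e ≤ (2 ^ c) ^ n := by
    intro e c hec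
    calc p ^ e ≤ (2 ^ n) ^ e := Nat.pow_le_pow_left hpn.le e
      _ = (2 ^ e) ^ n := by rw [← pow_mul, ← pow_mul, mul_comm]
      _ ≤ (2 ^ c) ^ n := Nat.pow_le_pow_left (Nat.pow_le_pow_right (by norm_num) hec) n
  obtain ⟨k1, a1, a2, a3⟩ := key B 10 hB2 (by norm_num)
    ((hpe 10 120 (by norm_num)).trans (Nat.pow_le_pow_left hB1 n))
  obtain ⟨k2, b1, b2, b3⟩ := key (B ^ 3) 80 (Nat.one_lt_pow (by norm_num) hB2) (by norm_num)
    ((hpe 80 120 (by norm_num)).trans (Nat.pow_le_pow_left (hB1.trans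
      (Nat.le_self_pow (by norm_num) B)) n))
  exact ⟨k1, k2, a1, b1, a2, a3, b2, b3⟩

private theorem F3_a (K p B Q N1 D N : ℕ) (hp : 2 ≤ p) (hK : K ≤ p) (hB : B ^ 100 ≤ p)
    (hB1 : 1 ≤ B) (hQ : p ^ 10 ≤ Q) (hD : Q ^ 39 ≤ D ^ 40) (hN1 : 0 < N1)
    (hN1' : N1 ≤ p ^ 80 * B ^ 3) (hN : N1 ^ 44 ≤ N ^ 45) : K * p ^ 5 * N1 < N * D := by
  by_contra hcon
  push Not at hcon
  have hp0 : 0 < p := by omega
  have h1 : (N * D) ^ 1800 ≤ (K * p ^ 5 * N1) ^ 1800 := Nat.pow_le_pow_left hcon _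
  have h2 : N1 ^ 1760 ≤ N ^ 1800 := by
    have e1 : N1 ^ 1760 = (N1 ^ 44) ^ 40 := by rw [← pow_mul]
    have e2 : N ^ 1800 = (N ^ 45) ^ 40 := by rw [← pow_mul]
    rw [e1, e2]
    exact Nat.pow_le_pow_left hN _
  have h3 : p ^ 17550 ≤ D ^ 1800 := by
    have e1 : p ^ 17550 = ((p ^ 10) ^ 39) ^ 45 := by rw [← pow_mul, ← pow_mul]
    have e2 : D ^ 1800 = (D ^ 40) ^ 45 := by rw [← pow_mul]
    rw [e1, e2]
    exact Nat.pow_le_pow_left ((Nat.pow_le_pow_left hQ _).trans hD) _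
  have h4 : N1 ^ 1760 * p ^ 17550 ≤ (K * p ^ 5 * N1) ^ 1800 := by
    refine le_trans ?_ h1
    rw [mul_pow]
    exact Nat.mul_le_mul h2 h3
  have h5 : (K * p ^ 5 * N1) ^ 1800 = N1 ^ 1760 * (K ^ 1800 * p ^ 9000 * N1 ^ 40) := by
    have e : N1 ^ 1800 = N1 ^ 1760 * N1 ^ 40 := by rw [← pow_add]
    rw [mul_pow, mul_pow, e, ← pow_mul]
    have e' : 5 * 1800 = 9000 := by norm_num
    rw [e']
    generalize N1 ^ 1760 = A
    generalize N1 ^ 40 = A'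
    generalize K ^ 1800 = A''
    generalize p ^ 9000 = A3
    ring
  rw [h5] at h4
  have h6 : p ^ 17550 ≤ K ^ 1800 * p ^ 9000 * N1 ^ 40 :=
    Nat.le_of_mul_le_mul_left h4 (pow_pos hN1 _)
  have hB120 : B ^ 120 ≤ p ^ 2 := by
    calc B ^ 120 ≤ B ^ 200 := Nat.pow_le_pow_right hB1 (by norm_num)
      _ = (B ^ 100) ^ 2 := by rw [← pow_mul]
      _ ≤ p ^ 2 := Nat.pow_le_pow_left hB _
  have h7 : N1 ^ 40 ≤ p ^ 3202 := by
    calc N1 ^ 40 ≤ (p ^ 80 * B ^ 3) ^ 40 := Nat.pow_le_pow_left hN1' _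
      _ = p ^ 3200 * B ^ 120 := by rw [mul_pow, ← pow_mul, ← pow_mul]
      _ ≤ p ^ 3200 * p ^ 2 := Nat.mul_le_mul_left _ hB120
      _ = p ^ 3202 := by rw [← pow_add]
  have h8 : K ^ 1800 * p ^ 9000 * N1 ^ 40 ≤ p ^ 14002 := by
    calc K ^ 1800 * p ^ 9000 * N1 ^ 40 ≤ p ^ 1800 * p ^ 9000 * p ^ 3202 :=
          Nat.mul_le_mul (Nat.mul_le_mul_right _ (Nat.pow_le_pow_left hK _)) h7
      _ = p ^ 14002 := by rw [← pow_add, ← pow_add]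
  have h9 : p ^ 14002 < p ^ 17550 := Nat.pow_lt_pow_right (by omega) (by norm_num)
  exact absurd (h6.trans h8) (not_le.2 h9)

private theorem F3_b (K p B Q N1 N s : ℕ) (hp : 2 ≤ p) (hK : K ≤ p) (hB : B ^ 100 ≤ p)
    (hB1 : 1 ≤ B) (hQ' : Q ≤ p ^ 10 * B) (hN1 : p ^ 80 ≤ N1) (hs : s ^ 2 ≤ N1)
    (hN : N1 ^ 44 ≤ N ^ 45) : K * p ^ 5 * s * Q ^ 2 < N := by
  by_contra hcon
  push Not at hcon
  have hp0 : 0 < p := by omega
  have hN10 : 0 < N1 := lt_of_lt_of_le (pow_pos hp0 _) hN1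
  have h1 : N ^ 90 ≤ (K * p ^ 5 * s * Q ^ 2) ^ 90 := Nat.pow_le_pow_left hcon _
  have h2 : N1 ^ 88 ≤ N ^ 90 := by
    have e1 : N1 ^ 88 = (N1 ^ 44) ^ 2 := by rw [← pow_mul]
    have e2 : N ^ 90 = (N ^ 45) ^ 2 := by rw [← pow_mul]
    rw [e1, e2]
    exact Nat.pow_le_pow_left hN _
  have h3 : (K * p ^ 5 * s * Q ^ 2) ^ 90 = K ^ 90 * p ^ 450 * (s ^ 2) ^ 45 * Q ^ 180 := by
    rw [mul_pow, mul_pow, mul_pow, ← pow_mul, ← pow_mul, ← pow_mul]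
  have hB180 : B ^ 180 ≤ p ^ 2 := by
    calc B ^ 180 ≤ B ^ 200 := Nat.pow_le_pow_right hB1 (by norm_num)
      _ = (B ^ 100) ^ 2 := by rw [← pow_mul]
      _ ≤ p ^ 2 := Nat.pow_le_pow_left hB _
  have h4 : Q ^ 180 ≤ p ^ 1802 := by
    calc Q ^ 180 ≤ (p ^ 10 * B) ^ 180 := Nat.pow_le_pow_left hQ' _
      _ = p ^ 1800 * B ^ 180 := by rw [mul_pow, ← pow_mul]
      _ ≤ p ^ 1800 * p ^ 2 := Nat.mul_le_mul_left _ hB180
      _ = p ^ 1802 := by rw [← pow_add]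
  have h5 : K ^ 90 * p ^ 450 * (s ^ 2) ^ 45 * Q ^ 180 ≤ p ^ 90 * p ^ 450 * N1 ^ 45 * p ^ 1802 :=
    Nat.mul_le_mul (Nat.mul_le_mul (Nat.mul_le_mul_right _ (Nat.pow_le_pow_left hK _))
      (Nat.pow_le_pow_left hs _)) h4
  have h6 : N1 ^ 45 * p ^ 3440 ≤ N1 ^ 88 := by
    calc N1 ^ 45 * p ^ 3440 = N1 ^ 45 * (p ^ 80) ^ 43 := by rw [← pow_mul]
      _ ≤ N1 ^ 45 * N1 ^ 43 := Nat.mul_le_mul_left _ (Nat.pow_le_pow_left hN1 _)
      _ = N1 ^ 88 := by rw [← pow_add]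
  have h7 : N1 ^ 45 * p ^ 3440 ≤ N1 ^ 45 * p ^ 2342 := by
    calc N1 ^ 45 * p ^ 3440 ≤ N1 ^ 88 := h6
      _ ≤ (K * p ^ 5 * s * Q ^ 2) ^ 90 := h2.trans h1
      _ ≤ p ^ 90 * p ^ 450 * N1 ^ 45 * p ^ 1802 := by rw [h3]; exact h5
      _ = N1 ^ 45 * (p ^ 90 * p ^ 450 * p ^ 1802) := by
          generalize N1 ^ 45 = A
          generalize p ^ 90 = A1
          generalize p ^ 450 = A2
          generalize p ^ 1802 = A3
          ring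
      _ = N1 ^ 45 * p ^ 2342 := by rw [← pow_add, ← pow_add]
  have h8 : p ^ 3440 ≤ p ^ 2342 := Nat.le_of_mul_le_mul_left h7 (pow_pos hN10 _)
  have h9 : p ^ 2342 < p ^ 3440 := Nat.pow_lt_pow_right (by omega) (by norm_num)
  exact absurd h8 (not_le.2 h9)

/-- MODULE F3 (the final inequality).
Proof: reals.  `D ≥ Q ^ (39/40) ≥ p ^ 9.75`; `N ≥ N1 ^ (44/45)`;
`(2 √N1 + 1) ^ 2 ≤ 9 N1`, `2 √N1 + 1 ≤ 3 √N1`.  Enough: `27 p ^ 5 N1 < N D / 2` and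
`9 p ^ 5 √N1 Q ^ 2 < N / 2`.  First: `N1 ^ (1/45) ≤ (p ^ 80 B ^ 3) ^ (1/45) ≤ p ^ 1.79` and
`54 p ^ 6.79 < p ^ 9.75`.  Second: `Q ^ 2 ≤ p ^ 20 B ^ 2 ≤ p ^ 20.02`, and
`N1 ^ (43/90) ≥ p ^ 38`, so `18 p ^ 5 Q ^ 2 ≤ 18 p ^ 25.02 < p ^ 38`. -/
theorem final : ∃ p0 : ℕ, ∀ p B Q N1 D N : ℕ, p0 ≤ p → 1 ≤ B → B ^ 100 ≤ p → p ^ 10 ≤ Q →
    Q ≤ p ^ 10 * B → Q ^ 39 ≤ D ^ 40 → p ^ 80 ≤ N1 → N1 ≤ p ^ 80 * B ^ 3 → N1 ^ 44 ≤ N ^ 45 →
    3 * p ^ 5 * (D * (2 * Nat.sqrt N1 + 1) ^ 2 + D ^ 2 * ((2 * Nat.sqrt N1 + 1) * Q ^ 2)) <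
      N * D ^ 2 := by
  refine ⟨54, ?_⟩
  intro p B Q N1 D N hp hB1 hB hQ hQ' hD hN1 hN1' hN
  have hp0 : 0 < p := by omega
  have hN10 : 0 < N1 := lt_of_lt_of_le (pow_pos hp0 _) hN1
  have ha := F3_a 54 p B Q N1 D N (by omega) hp hB hB1 hQ hD hN10 hN1' hN
  have hs2 : (Nat.sqrt N1) ^ 2 ≤ N1 := Nat.sqrt_le' N1
  have hb := F3_b 18 p B Q N1 N (Nat.sqrt N1) (by omega) (by omega) hB hB1 hQ' hN1 hs2 hN
  have hs1 : 1 ≤ Nat.sqrt N1 := Nat.sqrt_pos.2 hN10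
  have hD0 : 0 < D := by
    rcases Nat.eq_zero_or_pos D with h | h
    · rw [h, zero_pow (by norm_num)] at hD
      have : 0 < Q ^ 39 := pow_pos (lt_of_lt_of_le (pow_pos hp0 _) hQ) _
      omega
    · exact h
  generalize Nat.sqrt N1 = s at *
  have h1 : 2 * s + 1 ≤ 3 * s := by omega
  have h2 : (2 * s + 1) ^ 2 ≤ 9 * N1 := by
    calc (2 * s + 1) ^ 2 ≤ (3 * s) ^ 2 := Nat.pow_le_pow_left h1 _
      _ = 9 * s ^ 2 := by ring
      _ ≤ 9 * N1 := Nat.mul_le_mul_left _ hs2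
  have h3 : 3 * p ^ 5 * (D * (2 * s + 1) ^ 2 + D ^ 2 * ((2 * s + 1) * Q ^ 2)) ≤
      3 * p ^ 5 * (D * (9 * N1) + D ^ 2 * ((3 * s) * Q ^ 2)) :=
    Nat.mul_le_mul_left _ (Nat.add_le_add (Nat.mul_le_mul_left _ h2)
      (Nat.mul_le_mul_left _ (Nat.mul_le_mul_right _ h1)))
  have h4 : 2 * (3 * p ^ 5 * (D * (9 * N1) + D ^ 2 * ((3 * s) * Q ^ 2))) =
      D * (54 * p ^ 5 * N1) + D ^ 2 * (18 * p ^ 5 * s * Q ^ 2) := by ring
  have h5 : D * (54 * p ^ 5 * N1) < D * (N * D) := Nat.mul_lt_mul_of_pos_left ha hD0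
  have h6 : D ^ 2 * (18 * p ^ 5 * s * Q ^ 2) < D ^ 2 * N :=
    Nat.mul_lt_mul_of_pos_left hb (pow_pos hD0 _)
  have h7 : D * (N * D) + D ^ 2 * N = 2 * (N * D ^ 2) := by ring
  omega

private theorem F5_log (c : ℝ) : ∃ n0 : ℕ, ∀ n : ℕ, n0 ≤ n → c * Real.log n ≤ n := by
  have h := (Real.isLittleO_log_id_atTop.const_mul_left c).def (show (0:ℝ) < 1 by norm_num)
  rw [Filter.eventually_atTop] at h
  obtain ⟨x0, h⟩ := h
  refine ⟨⌈max x0 1⌉₊, fun n hn => ?_⟩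
  have hn' : max x0 1 ≤ (n : ℝ) := Nat.ceil_le.1 hn
  have h1 := h n ((le_max_left _ _).trans hn')
  have h0 : (0 : ℝ) ≤ n := Nat.cast_nonneg n
  simp only [id, Real.norm_eq_abs, one_mul, abs_of_nonneg h0] at h1
  exact (le_abs_self _).trans h1

/-- `k = 120` or `360` -/
private theorem F5_main (K Y0 : ℕ) (hK : 2 ≤ K)
    (hw : ∀ Y : ℕ, Y0 ≤ Y → (Y : ℝ) / (K * Real.log Y) ≤
      (((Ioc (Y / K) Y).filter (fun p : ℕ => p.Prime ∧ (p : ZMod 8) = 1)).card : ℝ)) (k : ℕ) (hk : 1 ≤ k) :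
    ∃ n0 : ℕ, ∀ n : ℕ, n0 ≤ n → n ^ (k - 1) ≤
      ((Ioc (n ^ k / K) (n ^ k)).filter (fun p : ℕ => p.Prime ∧ p % 8 = 1)).card := by
  obtain ⟨n1, h1⟩ := F5_log (K * k)
  refine ⟨max (max n1 Y0) 2, fun n hn => ?_⟩
  have hn1 : n1 ≤ n := (le_max_left _ _).trans ((le_max_left _ _).trans hn)
  have hnY : Y0 ≤ n := (le_max_right _ _).trans ((le_max_left _ _).trans hn)
  have hn2 : 2 ≤ n := (le_max_right _ _).trans hn
  have hnk : Y0 ≤ n ^ k := hnY.trans (Nat.le_self_pow (by omega) n)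
  have h2 := hw (n ^ k) hnk
  have h3 := h1 n hn1
  have hset : (Ioc (n ^ k / K) (n ^ k)).filter (fun p : ℕ => p.Prime ∧ (p : ZMod 8) = 1) =
      (Ioc (n ^ k / K) (n ^ k)).filter (fun p : ℕ => p.Prime ∧ p % 8 = 1) := by
    apply filter_congr
    intro p _
    have : ((p : ZMod 8) = 1) ↔ p % 8 = 1 := by
      have := ZMod.natCast_eq_natCast_iff' p 1 8
      simpa using this
    rw [this]
  rw [hset] at h2
  have hlog : 0 < Real.log n := Real.log_pos (by exact_mod_cast hn2)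
  have hk0 : (0 : ℝ) < k := by exact_mod_cast hk
  have hK0 : (0 : ℝ) < K := by exact_mod_cast (by omega : 0 < K)
  have h4 : ((n : ℝ) ^ (k - 1)) ≤ ((n ^ k : ℕ) : ℝ) / (K * Real.log ((n ^ k : ℕ) : ℝ)) := by
    rw [Nat.cast_pow, Real.log_pow, le_div_iff₀ (by positivity)]
    calc (n : ℝ) ^ (k - 1) * (K * (k * Real.log n)) = (n : ℝ) ^ (k - 1) * (K * k * Real.log n) := by ring
      _ ≤ (n : ℝ) ^ (k - 1) * n := by
        apply mul_le_mul_of_nonneg_left h3 (by positivity)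
      _ = (n : ℝ) ^ k := by
        rw [← pow_succ, Nat.sub_add_cancel hk]
  exact_mod_cast h4.trans h2

/-- MODULE F5 (the numbers of primes for `B = n ^ 120`).
Proof: `window_ap` (library file `Qnr/Ap.lean`, helper5; replaces F4) for `Y = n ^ 120` and
`Y = n ^ 360` (`log x ≤ 360 log n`). -/
theorem counts : ∃ n0 : ℕ, ∀ n : ℕ, n0 ≤ n →
    n ^ 119 ≤ ((Icc 1 (n ^ 120)).filter (fun l => l.Prime ∧ l % 8 = 1)).card ∧
    n ^ 359 ≤ ((Ioc (n ^ 120) ((n ^ 120) ^ 3)).filter (fun l => l.Prime ∧ l % 8 = 1)).card := by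
  obtain ⟨K, hK, Y0, hw⟩ := window_ap 8 1 isUnit_one
  obtain ⟨n1, h1⟩ := F5_main K Y0 hK hw 120 (by norm_num)
  obtain ⟨n2, h2⟩ := F5_main K Y0 hK hw 360 (by norm_num)
  refine ⟨max (max n1 n2) (max K 2), fun n hn => ?_⟩
  have hn1 : n1 ≤ n := (le_max_left _ _).trans ((le_max_left _ _).trans hn)
  have hn2 : n2 ≤ n := (le_max_right _ _).trans ((le_max_left _ _).trans hn)
  have hnK : K ≤ n := (le_max_left _ _).trans ((le_max_right _ _).trans hn)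
  have hn3 : 2 ≤ n := (le_max_right _ _).trans ((le_max_right _ _).trans hn)
  refine ⟨(h1 n hn1).trans (card_le_card ?_), (h2 n hn2).trans (card_le_card ?_)⟩
  · intro p hp
    simp only [mem_filter, mem_Ioc, mem_Icc] at hp ⊢
    exact ⟨⟨hp.2.1.one_lt.le, hp.1.2⟩, hp.2⟩
  · intro p hp
    simp only [mem_filter, mem_Ioc] at hp ⊢
    refine ⟨⟨lt_of_le_of_lt ?_ hp.1.1, ?_⟩, hp.2⟩
    · rw [Nat.le_div_iff_mul_le (by omega)]
      calc n ^ 120 * K ≤ n ^ 120 * n := Nat.mul_le_mul_left _ hnK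
        _ = n ^ 121 := by ring
        _ ≤ n ^ 360 := Nat.pow_le_pow_right (by omega) (by norm_num)
    · calc p ≤ n ^ 360 := hp.1.2
        _ = (n ^ 120) ^ 3 := by rw [← pow_mul]

private theorem F6_size (C : ℕ) : ∃ p1 : ℕ, ∀ p : ℕ, p1 ≤ p → Nat.size p ^ C ≤ p := by
  have h := tendsto_pow_const_div_const_pow_of_one_lt C (r := (2 : ℝ)) (by norm_num)
  obtain ⟨k0, hk0⟩ := Filter.eventually_atTop.1 (h.eventually_lt_const (u := 1 / 2) (by norm_num))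
  refine ⟨2 ^ k0, fun p hp => ?_⟩
  have h1 : k0 < Nat.size p := Nat.lt_size.2 hp
  have h2 := hk0 (Nat.size p) h1.le
  obtain ⟨k, hk⟩ := Nat.exists_eq_succ_of_ne_zero (show Nat.size p ≠ 0 by omega)
  have h3 : 2 ^ k ≤ p := Nat.lt_size.1 (by omega)
  have h4 : ((Nat.size p : ℝ)) ^ C < 2 ^ k := by
    rw [div_lt_iff₀ (by positivity)] at h2
    have h5 : (2 : ℝ) ^ Nat.size p = 2 * 2 ^ k := by
      rw [hk, Nat.succ_eq_add_one, pow_succ]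
      ring
    rw [h5] at h2
    linarith
  have h5 : Nat.size p ^ C < 2 ^ k := by exact_mod_cast h4
  exact h5.le.trans h3

/-- `c n ^ a ≤ n ^ b` -/
private theorem F6_pow {n a b c : ℕ} (hab : a < b) (hc : c ≤ n) : c * n ^ a ≤ n ^ b := by
  obtain ⟨d, rfl⟩ := Nat.exists_eq_add_of_lt hab
  calc c * n ^ a ≤ n * n ^ a := Nat.mul_le_mul_right _ hc
    _ = n ^ (a + 1) := by ring
    _ ≤ n ^ (a + d + 1) := by
        rcases Nat.eq_zero_or_pos n with h | h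
        · rw [h]; simp
        · exact Nat.pow_le_pow_right h (by omega)

/-- MODULE F6 (no large `p` satisfies the hypotheses).
Proof: `n = Nat.size p` large, `B = n ^ 120`; `P1` of at least `n ^ 119` elements, `P2` of at least
`n ^ 358` elements.  `str` (`8 B ^ 3 = 8 n ^ 360 ≤ n ^ 477`; `1000 (B + 1) n ≤ n ^ 358`): `P1', P2'` of
at least `n ^ 119 / 128 ≥ n ^ 118 + n` and `n ^ 358 / 16 ≥ n ^ 357` elements.  `expo`: `k1, k2 ≤ n`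
and `k1, k2 ≥ 1`.  `m = n ^ 118`: `k1 n ^ 117 ≤ m`, so `D = choose m k1 ≥ n ^ (117 k1)`,
`D ^ 40 ≥ (n ^ (120 k1)) ^ 39 = Q ^ 39`.  `k2 n ^ 356 ≤ n ^ 357`, so
`N = choose |P2'| k2 ≥ n ^ (356 k2)`, `N ^ 45 ≥ N1 ^ 44` (`356 * 45 = 16020 ≥ 360 * 44 = 15840`).
Products of `k1` elements of `P1'` are at most `B ^ k1 = Q`, of `k2` elements of `P2'` at most
`(B ^ 3) ^ k2 = N1`.  `ineq` against `final` (`B ^ 100 = n ^ 12000 ≤ 2 ^ (n - 1) ≤ p`). -/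
theorem nohyp : ∃ p0 : ℕ, ∀ (p : ℕ) [Fact p.Prime], p0 ≤ p → ∀ P1 P2 : Finset ℕ,
    Hyp p (Nat.size p ^ 120) P1 P2 → Nat.size p ^ 119 ≤ P1.card →
    Nat.size p ^ 358 ≤ P2.card → False := by
  obtain ⟨p0, hfin⟩ := final
  obtain ⟨p1, hp1⟩ := F6_size 12000
  refine ⟨max (max p0 p1) (2 ^ 3000), fun p hp hpp P1 P2 H hc1 hc2 => ?_⟩
  have hpr : p.Prime := hp.out
  have e0 : p0 ≤ p := le_trans (le_trans (le_max_left _ _) (le_max_left _ _)) hpp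
  have e1 : p1 ≤ p := le_trans (le_trans (le_max_right _ _) (le_max_left _ _)) hpp
  have e2 : 2 ^ 3000 ≤ p := le_trans (le_max_right _ _) hpp
  have hn : 3000 < Nat.size p := Nat.lt_size.2 e2
  have hpn : p < 2 ^ Nat.size p := Nat.lt_size_self p
  have hsz := hp1 p e1
  obtain ⟨n, hnn⟩ : ∃ n, n = Nat.size p := ⟨_, rfl⟩
  obtain ⟨B, hB⟩ : ∃ B, B = n ^ 120 := ⟨_, rfl⟩
  rw [← hnn] at hn hpn hsz hc1 hc2 H
  rw [← hB] at H
  have hn0 : 0 < n := by omega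
  have hB1 : 1 ≤ B := by rw [hB]; exact Nat.one_le_pow _ _ hn0
  have hB3 : B ^ 3 = n ^ 360 := by rw [hB, ← pow_mul]
  -- the number of elements of `P1`
  have hP1B : P1.card ≤ B := by
    have h1 : P1 ⊆ Icc 1 B := fun l hl => by
      obtain ⟨h2, _, h3, _⟩ := H.h1 l hl
      exact Finset.mem_Icc.2 ⟨h2.one_lt.le, h3⟩
    have h2 := Finset.card_le_card h1
    rwa [Nat.card_Icc, Nat.add_sub_cancel] at h2
  have hd : 8 * B ^ 3 ≤ P1.card * P2.card := by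
    calc 8 * B ^ 3 = 8 * n ^ 360 := by rw [hB3]
      _ ≤ n ^ 477 := F6_pow (by norm_num) (by omega)
      _ = n ^ 119 * n ^ 358 := by rw [← pow_add]
      _ ≤ P1.card * P2.card := Nat.mul_le_mul hc1 hc2
  have hK : 1000 * (P1.card + 1) * Nat.size p ≤ P2.card := by
    rw [← hnn]
    calc 1000 * (P1.card + 1) * n ≤ 1000 * (n ^ 120 + n ^ 120) * n := by
          gcongr
          · rw [← hB]; exact hP1B
          · exact Nat.one_le_pow _ _ hn0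
      _ = 2000 * n ^ 121 := by ring
      _ ≤ n ^ 358 := F6_pow (by norm_num) (by omega)
      _ ≤ P2.card := hc2
  have hP : 0 < P1.card := lt_of_lt_of_le (pow_pos hn0 _) hc1
  obtain ⟨P1', P2', u, v, z, σ, τ, s, s', hs1, hs2, hc1', hc2', S⟩ := str p B P1 P2 H hd hK hP
  obtain ⟨k1, k2, hk1, hk2, b1, b2, b3, b4⟩ := expo p n B hpr.two_le hpn (by omega) hB
  have hm : n ^ 118 + Nat.size p ≤ P1'.card := by
    rw [← hnn]
    have h1 : 128 * (n ^ 118 + n ^ 118) ≤ n ^ 119 := by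
      calc 128 * (n ^ 118 + n ^ 118) = 256 * n ^ 118 := by ring
        _ ≤ n ^ 119 := F6_pow (by norm_num) (by omega)
    have h2 : n ≤ n ^ 118 := Nat.le_self_pow (by norm_num) n
    omega
  have hm2 : n ^ 357 ≤ P2'.card := by
    have h1 : 16 * n ^ 357 ≤ n ^ 358 := F6_pow (by norm_num) (by omega)
    omega
  have hD : (n ^ 117) ^ k1 ≤ (n ^ 118).choose k1 := by
    apply choose_ge
    calc k1 * n ^ 117 ≤ n * n ^ 117 := Nat.mul_le_mul_right _ hk1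
      _ = n ^ 118 := by ring
  have hN : (n ^ 356) ^ k2 ≤ P2'.card.choose k2 := by
    apply choose_ge
    calc k2 * n ^ 356 ≤ n * n ^ 356 := Nat.mul_le_mul_right _ hk2
      _ = n ^ 357 := by ring
      _ ≤ _ := hm2
  have hine := ineq p P1' P2' u v z σ τ s s' S k1 k2 (B ^ k1) ((B ^ 3) ^ k2) (n ^ 118) hm
    (fun T hT => by
      obtain ⟨hT1, hT2⟩ := Finset.mem_powersetCard.1 hT
      rw [← hT2]
      exact Finset.prod_le_pow_card T (fun l => l) B fun l hl => (H.h1 l (hs1 (hT1 hl))).2.2.1)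
    (fun T hT => by
      obtain ⟨hT1, hT2⟩ := Finset.mem_powersetCard.1 hT
      rw [← hT2]
      exact Finset.prod_le_pow_card T (fun l => l) (B ^ 3)
        fun l hl => (H.h2 l (hs2 (hT1 hl))).2.2.2.1)
  have hB100 : B ^ 100 ≤ p := by
    rw [hB, ← pow_mul]
    exact hsz
  have hQD : (B ^ k1) ^ 39 ≤ ((n ^ 118).choose k1) ^ 40 := by
    calc (B ^ k1) ^ 39 = ((n ^ 117) ^ k1) ^ 40 := by
          rw [hB, ← pow_mul, ← pow_mul, ← pow_mul, ← pow_mul]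
          congr 1
          ring
      _ ≤ _ := Nat.pow_le_pow_left hD 40
  have hNN : ((B ^ 3) ^ k2) ^ 44 ≤ (P2'.card.choose k2) ^ 45 := by
    calc ((B ^ 3) ^ k2) ^ 44 = n ^ (15840 * k2) := by
          rw [hB3, ← pow_mul, ← pow_mul]
          congr 1
          ring
      _ ≤ n ^ (16020 * k2) := Nat.pow_le_pow_right hn0 (by omega)
      _ = ((n ^ 356) ^ k2) ^ 45 := by
          rw [← pow_mul, ← pow_mul]
          congr 1
          ring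
      _ ≤ _ := Nat.pow_le_pow_left hN 45
  have hlast := hfin p B (B ^ k1) ((B ^ 3) ^ k2) ((n ^ 118).choose k1) (P2'.card.choose k2)
    e0 hB1 hB100 b1 b2 hQD b3 b4 hNN
  exact absurd hine (not_le.2 hlast)

end Pool.Agent.Qnr
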