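import Pool.Agent.Qnr.Jac

/-!
# Many pairs with `(l / q) = -1`, and the choice of the sets (modules D1 - D4)
-/

set_option autoImplicit false

namespace Pool.Agent.Qnr

open Finset

private theorem D1_sum_zmod (l : ℕ) [NeZero l] (g : ZMod l → ℤ) :
    ∑ i ∈ range l, g (i : ZMod l) = ∑ a : ZMod l, g a := by
  refine Finset.sum_nbij' (fun i => (i : ZMod l)) (fun a => ZMod.val a) ?_ ?_ ?_ ?_ ?_
  · intro i _
    exact mem_univ _
  · intro a _
    rw [mem_range]
    exact ZMod.val_lt a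
  · intro i hi
    rw [mem_range] at hi
    exact ZMod.val_cast_of_lt hi
  · intro a _
    exact ZMod.natCast_zmod_val a
  · intro i _
    rfl

private theorem D1_blocks (f : ℕ → ℤ) (m k : ℕ) :
    ∑ n ∈ range (m * k), f n = ∑ i ∈ range k, ∑ j ∈ range m, f (m * i + j) := by
  induction k with
  | zero => simp
  | succ k ih => rw [Nat.mul_succ, Finset.sum_range_add, ih, Finset.sum_range_succ]

private theorem D1_line (l : ℕ) [Fact l.Prime] (hl : l ≠ 2) (m j : ℕ) (hm : ¬ l ∣ m) :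
    ∑ i ∈ range l, jacobiSym ((m * i + j : ℕ) : ℤ) l = 0 := by
  haveI : NeZero l := ⟨(Fact.out : l.Prime).ne_zero⟩
  have h1 : ∀ i : ℕ, jacobiSym ((m * i + j : ℕ) : ℤ) l =
      quadraticChar (ZMod l) ((m : ZMod l) * (i : ZMod l) + (j : ZMod l)) := by
    intro i
    rw [← jacobiSym.legendreSym.to_jacobiSym]
    unfold legendreSym
    congr 1
    push_cast
    rfl
  rw [Finset.sum_congr rfl (fun i _ => h1 i), D1_sum_zmod l
    (fun a => quadraticChar (ZMod l) ((m : ZMod l) * a + (j : ZMod l)))]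
  have hm0 : (m : ZMod l) ≠ 0 := by
    rw [Ne, ZMod.natCast_eq_zero_iff]
    exact hm
  have h2 : ∑ a : ZMod l, quadraticChar (ZMod l) ((m : ZMod l) * a + (j : ZMod l)) =
      ∑ a : ZMod l, quadraticChar (ZMod l) a :=
    Fintype.sum_equiv ((Equiv.mulLeft₀ (m : ZMod l) hm0).trans (Equiv.addRight (j : ZMod l)))
      _ _ (fun a => rfl)
  rw [h2]
  exact quadraticChar_sum_zero (by rw [ZMod.ringChar_zmod_n]; exact hl)

private theorem D1_abs (a : ℤ) (l : ℕ) : |jacobiSym a l| ≤ 1 := by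
  rcases jacobiSym.trichotomy a l with h | h | h <;> rw [h] <;> norm_num

private theorem D1_period (l l' : ℕ) (n k : ℕ) :
    jacobiSym ((l * l' * k + n : ℕ) : ℤ) l * jacobiSym ((l * l' * k + n : ℕ) : ℤ) l' =
      jacobiSym (n : ℤ) l * jacobiSym (n : ℤ) l' := by
  have h1 : jacobiSym ((l * l' * k + n : ℕ) : ℤ) l = jacobiSym (n : ℤ) l := by
    rw [jacobiSym.mod_left, jacobiSym.mod_left (n : ℤ)]
    congr 1
    push_cast
    rw [show (l : ℤ) * l' * k + n = n + l * (l' * k) by ring, Int.add_mul_emod_self_left]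
  have h2 : jacobiSym ((l * l' * k + n : ℕ) : ℤ) l' = jacobiSym (n : ℤ) l' := by
    rw [jacobiSym.mod_left, jacobiSym.mod_left (n : ℤ)]
    congr 1
    push_cast
    rw [show (l : ℤ) * l' * k + n = n + l' * (l * k) by ring, Int.add_mul_emod_self_left]
  rw [h1, h2]

private theorem D1_full (l l' : ℕ) [Fact l.Prime] [Fact l'.Prime] (hl : l ≠ 2)
    (hll : l ≠ l') :
    ∑ n ∈ range (l' * l), jacobiSym (n : ℤ) l * jacobiSym (n : ℤ) l' = 0 := by
  rw [D1_blocks, Finset.sum_comm]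
  refine Finset.sum_eq_zero ?_
  intro j _
  have h1 : ∀ i ∈ range l, jacobiSym ((l' * i + j : ℕ) : ℤ) l *
      jacobiSym ((l' * i + j : ℕ) : ℤ) l' =
      jacobiSym ((l' * i + j : ℕ) : ℤ) l * jacobiSym (j : ℤ) l' := by
    intro i _
    congr 1
    rw [jacobiSym.mod_left, jacobiSym.mod_left (j : ℤ)]
    congr 1
    push_cast
    rw [show (l' : ℤ) * i + j = j + l' * i by ring, Int.add_mul_emod_self_left]
  rw [Finset.sum_congr rfl h1, ← Finset.sum_mul]
  have h2 : ¬ l ∣ l' := by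
    intro h
    exact hll ((Nat.prime_dvd_prime_iff_eq Fact.out Fact.out).mp h)
  rw [D1_line l hl l' j h2, zero_mul]

/-- MODULE D1 (incomplete sums of `(l l' / n)`).
Proof: `(l l' / n) = (n / l l')` for odd `n`; here written directly with `(n / l) (n / l')`,
periodic in `n` modulo `l l'` with sum `0` over a period (for `l ≠ l'` odd primes: write
`n = l' i + l j` ..., or sum over residues modulo `l` for fixed residue modulo `l'`), so the sum
over `[1, X]` is at most `l l'` in absolute value. -/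
theorem charsum (l l' : ℕ) [Fact l.Prime] [Fact l'.Prime] (hl : l ≠ 2) (hl' : l' ≠ 2)
    (hll : l ≠ l') (X : ℕ) :
    |∑ n ∈ Icc 1 X, jacobiSym (n : ℤ) l * jacobiSym (n : ℤ) l'| ≤ (l * l' : ℕ) := by
  have hlp : l.Prime := Fact.out
  have hM : 0 < l * l' := Nat.mul_pos hlp.pos (Fact.out : l'.Prime).pos
  have h0 : jacobiSym ((0 : ℕ) : ℤ) l * jacobiSym ((0 : ℕ) : ℤ) l' = 0 := by
    rw [Nat.cast_zero, jacobiSym.zero_left hlp.one_lt, zero_mul]
  have h1 : ∑ n ∈ Icc 1 X, jacobiSym (n : ℤ) l * jacobiSym (n : ℤ) l' =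
      ∑ n ∈ range (X + 1), jacobiSym (n : ℤ) l * jacobiSym (n : ℤ) l' := by
    rw [Finset.sum_range_succ', h0, add_zero]
    rw [← Finset.sum_image (s := range X) (g := fun n => n + 1)
      (f := fun n : ℕ => jacobiSym (n : ℤ) l * jacobiSym (n : ℤ) l')
      (fun a _ b _ h => Nat.succ_injective h)]
    refine Finset.sum_congr ?_ (fun _ _ => rfl)
    ext n
    rw [mem_Icc, mem_image]
    constructor
    · intro h
      exact ⟨n - 1, by rw [mem_range]; omega, by omega⟩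
    · rintro ⟨a, ha, rfl⟩
      rw [mem_range] at ha
      omega
  rw [h1]
  have h2 : X + 1 = l * l' * ((X + 1) / (l * l')) + (X + 1) % (l * l') :=
    (Nat.div_add_mod _ _).symm
  rw [h2, Finset.sum_range_add, D1_blocks]
  have h3 : ∀ i ∈ range ((X + 1) / (l * l')), ∑ j ∈ range (l * l'),
      jacobiSym ((l * l' * i + j : ℕ) : ℤ) l * jacobiSym ((l * l' * i + j : ℕ) : ℤ) l' = 0 := by
    intro i _
    rw [Finset.sum_congr rfl (fun j _ => D1_period l l' j i), mul_comm l l']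
    exact D1_full l l' hl hll
  rw [Finset.sum_eq_zero h3, zero_add]
  refine le_trans (Finset.abs_sum_le_sum_abs _ _) ?_
  have h4 : ∀ j ∈ range ((X + 1) % (l * l')),
      |jacobiSym ((l * l' * ((X + 1) / (l * l')) + j : ℕ) : ℤ) l *
        jacobiSym ((l * l' * ((X + 1) / (l * l')) + j : ℕ) : ℤ) l'| ≤ 1 := by
    intro j _
    rw [abs_mul]
    exact mul_le_one₀ (D1_abs _ _) (abs_nonneg _) (D1_abs _ _)
  refine le_trans (Finset.sum_le_sum h4) ?_
  rw [Finset.sum_const, card_range, nsmul_eq_mul, mul_one]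
  exact_mod_cast (Nat.mod_lt _ hM).le

/-- MODULE D2 (the mean square).
Proof: `∑_{n ≤ X} (∑_{l ∈ P} (n / l)) ^ 2`: expand; the diagonal gives at most `|P| X`, the other
terms at most `B ^ 2` each (`charsum`). -/
theorem meansq (P : Finset ℕ) (B X : ℕ) (hP : ∀ l ∈ P, l.Prime ∧ l ≠ 2 ∧ l ≤ B) :
    ∑ n ∈ Icc 1 X, (∑ l ∈ P, jacobiSym (n : ℤ) l) ^ 2 ≤
      (P.card : ℤ) * X + (P.card : ℤ) ^ 2 * B ^ 2 := by
  have h1 : ∑ n ∈ Icc 1 X, (∑ l ∈ P, jacobiSym (n : ℤ) l) ^ 2 =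
      ∑ l ∈ P, ∑ l' ∈ P, ∑ n ∈ Icc 1 X, jacobiSym (n : ℤ) l * jacobiSym (n : ℤ) l' := by
    have : ∀ n ∈ Icc 1 X, (∑ l ∈ P, jacobiSym (n : ℤ) l) ^ 2 =
        ∑ l ∈ P, ∑ l' ∈ P, jacobiSym (n : ℤ) l * jacobiSym (n : ℤ) l' := by
      intro n _
      rw [sq, Finset.sum_mul_sum]
    rw [Finset.sum_congr rfl this, Finset.sum_comm]
    refine Finset.sum_congr rfl (fun l _ => ?_)
    rw [Finset.sum_comm]
  rw [h1]
  have h2 : ∀ l ∈ P, ∀ l' ∈ P, ∑ n ∈ Icc 1 X, jacobiSym (n : ℤ) l * jacobiSym (n : ℤ) l' ≤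
      (if l = l' then (X : ℤ) else 0) + (B : ℤ) ^ 2 := by
    intro l hl l' hl'
    obtain ⟨a1, a2, a3⟩ := hP l hl
    obtain ⟨b1, b2, b3⟩ := hP l' hl'
    by_cases h : l = l'
    · rw [if_pos h, ← h]
      have h3 : ∀ n ∈ Icc 1 X, jacobiSym (n : ℤ) l * jacobiSym (n : ℤ) l ≤ 1 := by
        intro n _
        rcases jacobiSym.trichotomy (n : ℤ) l with h | h | h <;> rw [h] <;> norm_num
      have h4 := Finset.sum_le_sum h3
      rw [Finset.sum_const, Nat.card_Icc, nsmul_eq_mul, mul_one, Nat.add_sub_cancel] at h4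
      have h5 : (0 : ℤ) ≤ (B : ℤ) ^ 2 := by positivity
      linarith
    · rw [if_neg h, zero_add]
      haveI : Fact l.Prime := ⟨a1⟩
      haveI : Fact l'.Prime := ⟨b1⟩
      refine le_trans (le_abs_self _) (le_trans (charsum l l' a2 b2 h X) ?_)
      rw [sq]
      push_cast
      exact mul_le_mul (by exact_mod_cast a3) (by exact_mod_cast b3) (by positivity)
        (by positivity)
  refine le_trans (Finset.sum_le_sum (fun l hl => Finset.sum_le_sum (h2 l hl))) ?_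
  simp only [Finset.sum_add_distrib, Finset.sum_const, nsmul_eq_mul]
  have h3 : ∑ l ∈ P, ∑ l' ∈ P, (if l = l' then (X : ℤ) else 0) = (P.card : ℤ) * X := by
    have : ∀ l ∈ P, ∑ l' ∈ P, (if l = l' then (X : ℤ) else 0) = X := by
      intro l hl
      rw [Finset.sum_ite_eq, if_pos hl]
    rw [Finset.sum_congr rfl this, Finset.sum_const, nsmul_eq_mul]
  rw [h3]
  refine le_of_eq ?_
  ring

open Classical in
/-- MODULE D3 (at least a quarter of the pairs).
Proof: `(l / q) = (q / l)`; the sum `Σ` of `(l / q)` over all pairs satisfies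
`Σ ^ 2 ≤ |P2| ∑_{q ∈ P2} (∑_l (q / l)) ^ 2 ≤ |P2| (|P1| B ^ 3 + |P1| ^ 2 B ^ 2)` (Cauchy - Schwarz,
`meansq` with `X = B ^ 3`), and `|P1| ≤ B`, so `Σ ^ 2 ≤ 2 |P1| |P2| B ^ 3 ≤ (|P1| |P2| / 2) ^ 2`
by `hd`; every symbol is `± 1` (`l ≠ q`), so the number of pairs with `-1` is
`(|P1| |P2| - Σ) / 2`. -/
theorem density (P1 P2 : Finset ℕ) (B : ℕ)
    (h1 : ∀ l ∈ P1, l.Prime ∧ l % 8 = 1 ∧ l ≤ B)
    (h2 : ∀ q ∈ P2, q.Prime ∧ q % 8 = 1 ∧ B < q ∧ q ≤ B ^ 3)
    (hd : 8 * B ^ 3 ≤ P1.card * P2.card) :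
    P1.card * P2.card ≤ 4 * ((P1 ×ˢ P2).filter (fun w => jacobiSym w.1 w.2 = -1)).card := by
  have hrec : ∀ l ∈ P1, ∀ q ∈ P2, jacobiSym (l : ℤ) q = jacobiSym (q : ℤ) l := by
    intro l hl q hq
    obtain ⟨a1, a2, a3⟩ := h1 l hl
    obtain ⟨b1, b2, b3, b4⟩ := h2 q hq
    exact jacobiSym.quadratic_reciprocity_one_mod_four (by omega)
      (by rw [Nat.odd_iff]; omega)
  have hpm : ∀ l ∈ P1, ∀ q ∈ P2, jacobiSym (l : ℤ) q = 1 ∨ jacobiSym (l : ℤ) q = -1 := by
    intro l hl q hq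
    obtain ⟨a1, a2, a3⟩ := h1 l hl
    obtain ⟨b1, b2, b3, b4⟩ := h2 q hq
    refine jacobiSym.eq_one_or_neg_one ?_
    have : Nat.Coprime l q := (Nat.coprime_primes a1 b1).mpr (by omega)
    exact_mod_cast this
  have hP1B : P1.card ≤ B := by
    have : P1 ⊆ Icc 1 B := by
      intro l hl
      obtain ⟨a1, a2, a3⟩ := h1 l hl
      rw [mem_Icc]
      exact ⟨a1.one_lt.le, a3⟩
    have h3 := Finset.card_le_card this
    rw [Nat.card_Icc] at h3
    omega
  have hcs : (∑ q ∈ P2, ∑ l ∈ P1, jacobiSym (q : ℤ) l) ^ 2 ≤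
      (P2.card : ℤ) * ∑ q ∈ P2, (∑ l ∈ P1, jacobiSym (q : ℤ) l) ^ 2 :=
    sq_sum_le_card_mul_sum_sq
  have hsub : ∑ q ∈ P2, (∑ l ∈ P1, jacobiSym (q : ℤ) l) ^ 2 ≤
      ∑ n ∈ Icc 1 (B ^ 3), (∑ l ∈ P1, jacobiSym (n : ℤ) l) ^ 2 := by
    refine Finset.sum_le_sum_of_subset_of_nonneg ?_ (fun _ _ _ => sq_nonneg _)
    intro q hq
    obtain ⟨b1, b2, b3, b4⟩ := h2 q hq
    rw [mem_Icc]
    exact ⟨b1.one_lt.le, b4⟩
  have hms := meansq P1 B (B ^ 3) (fun l hl => by
    obtain ⟨a1, a2, a3⟩ := h1 l hl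
    exact ⟨a1, by omega, a3⟩)
  have hS : ∑ q ∈ P2, ∑ l ∈ P1, jacobiSym (q : ℤ) l =
      (P1.card * P2.card : ℤ) -
        2 * ((P1 ×ˢ P2).filter (fun w => jacobiSym w.1 w.2 = -1)).card := by
    have e1 : ∑ q ∈ P2, ∑ l ∈ P1, jacobiSym (q : ℤ) l =
        ∑ w ∈ P1 ×ˢ P2, jacobiSym (w.1 : ℤ) w.2 := by
      rw [Finset.sum_product, Finset.sum_comm]
      exact Finset.sum_congr rfl (fun l hl => Finset.sum_congr rfl
        (fun q hq => (hrec l hl q hq).symm))
    have e2 : ∀ w ∈ P1 ×ˢ P2, jacobiSym (w.1 : ℤ) w.2 =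
        1 - 2 * (if jacobiSym (w.1 : ℤ) w.2 = -1 then 1 else 0) := by
      intro w hw
      rw [mem_product] at hw
      rcases hpm w.1 hw.1 w.2 hw.2 with h | h
      · rw [if_neg (by rw [h]; norm_num), h]
        norm_num
      · rw [if_pos h, h]
        norm_num
    rw [e1, Finset.sum_congr rfl e2, Finset.sum_sub_distrib, ← Finset.mul_sum,
      Finset.sum_boole, Finset.sum_const, card_product, nsmul_eq_mul, mul_one]
    push_cast
    rfl
  rw [hS] at hcs
  generalize ((P1 ×ˢ P2).filter (fun w => jacobiSym w.1 w.2 = -1)).card = k at *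
  have hx : (P1.card : ℤ) ≤ B := by exact_mod_cast hP1B
  have hd' : 8 * (B : ℤ) ^ 3 ≤ P1.card * P2.card := by exact_mod_cast hd
  push_cast at hms
  have key : ((P1.card * P2.card : ℤ) - 2 * k) ^ 2 ≤
      (P2.card : ℤ) * ((P1.card : ℤ) * (B : ℤ) ^ 3 + (P1.card : ℤ) ^ 2 * (B : ℤ) ^ 2) := by
    refine le_trans hcs (mul_le_mul_of_nonneg_left (le_trans hsub hms) (by positivity))
  have hgoal : (P1.card * P2.card : ℤ) ≤ 4 * k := by
    by_contra hcon
    rw [not_le] at hcon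
    have x0 : (0 : ℤ) ≤ P1.card := by positivity
    have y0 : (0 : ℤ) ≤ P2.card := by positivity
    have b0 : (0 : ℤ) ≤ B := by positivity
    generalize (P1.card : ℤ) = x at *
    generalize (P2.card : ℤ) = y at *
    generalize (B : ℤ) = b at *
    generalize (k : ℤ) = z at *
    have c1 : x ^ 2 * b ^ 2 ≤ x * b ^ 3 := by
      have : x * (x * b ^ 2) ≤ x * (b * b ^ 2) :=
        mul_le_mul_of_nonneg_left (mul_le_mul_of_nonneg_right hx (by positivity)) x0
      calc x ^ 2 * b ^ 2 = x * (x * b ^ 2) := by ring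
        _ ≤ x * (b * b ^ 2) := this
        _ = x * b ^ 3 := by ring
    have c2 : (x * y - 2 * z) ^ 2 ≤ 2 * (x * y) * b ^ 3 := by
      calc (x * y - 2 * z) ^ 2 ≤ y * (x * b ^ 3 + x ^ 2 * b ^ 2) := key
        _ ≤ y * (x * b ^ 3 + x * b ^ 3) :=
          mul_le_mul_of_nonneg_left (by linarith) y0
        _ = 2 * (x * y) * b ^ 3 := by ring
    have xy0 : 0 ≤ x * y := mul_nonneg x0 y0
    have c3 : 2 * (x * y) * b ^ 3 * 4 ≤ (x * y) * (x * y) := by
      have := mul_le_mul_of_nonneg_left hd' xy0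
      linarith
    have c4 : x * y < 2 * (x * y - 2 * z) := by linarith
    have c5 : (x * y) * (x * y) < (2 * (x * y - 2 * z)) * (2 * (x * y - 2 * z)) :=
      mul_self_lt_mul_self xy0 c4
    have c6 : (2 * (x * y - 2 * z)) * (2 * (x * y - 2 * z)) = 4 * (x * y - 2 * z) ^ 2 := by ring
    linarith
  exact_mod_cast hgoal

open Classical in
/-- MODULE D4 (choice, pure combinatorics).  `R` the relation, `Z` the bad pairs, every `l` has at
most `K` bad `q`.
Proof: `H` = the `l` with at least `|P2| / 8` partners `q`: the other `l` have together at most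
`|P1| |P2| / 8` pairs, so `|H| |P2| ≥ |P1| |P2| / 8`.  The number of pairs `(l, q)`, `l ∈ H`, with
`R`, not bad is at least `|H| (|P2| / 8 - K) ≥ |H| |P2| / 16`; so some `q0` has at least
`|H| / 16 ≥ |P1| / 128` partners `l ∈ H`. -/
theorem choice (P1 P2 : Finset ℕ) (R Z : ℕ → ℕ → Prop) (K : ℕ)
    (hR : P1.card * P2.card ≤ 4 * ((P1 ×ˢ P2).filter (fun w => R w.1 w.2)).card)
    (hZ : ∀ l ∈ P1, (P2.filter (fun q => Z l q)).card ≤ K) (hK : 16 * K ≤ P2.card)
    (hP : 0 < P1.card) (hP2 : 0 < P2.card) :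
    ∃ q0 ∈ P2, ∃ P ⊆ P1, P1.card ≤ 128 * P.card ∧
      (∀ l ∈ P, R l q0 ∧ ¬ Z l q0 ∧ P2.card ≤ 8 * (P2.filter (fun q => R l q)).card) := by
  obtain ⟨H, hH⟩ : ∃ H, H = P1.filter (fun l => P2.card ≤ 8 * (P2.filter (fun q => R l q)).card) :=
    ⟨_, rfl⟩
  have e1 : ((P1 ×ˢ P2).filter (fun w => R w.1 w.2)).card =
      ∑ l ∈ P1, (P2.filter (fun q => R l q)).card := by
    rw [Finset.card_filter, Finset.sum_product]
    refine Finset.sum_congr rfl (fun l _ => ?_)
    rw [Finset.card_filter]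
  have e2 : ∑ l ∈ P1, (P2.filter (fun q => R l q)).card =
      ∑ l ∈ H, (P2.filter (fun q => R l q)).card +
      ∑ l ∈ P1.filter (fun l => ¬ P2.card ≤ 8 * (P2.filter (fun q => R l q)).card),
        (P2.filter (fun q => R l q)).card := by
    rw [hH, Finset.sum_filter_add_sum_filter_not]
  have e3 : 8 * ∑ l ∈ P1.filter (fun l => ¬ P2.card ≤ 8 * (P2.filter (fun q => R l q)).card),
        (P2.filter (fun q => R l q)).card ≤ P1.card * P2.card := by
    rw [Finset.mul_sum]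
    refine le_trans (Finset.sum_le_card_nsmul _ _ P2.card ?_) ?_
    · intro l hl
      rw [mem_filter] at hl
      omega
    · rw [smul_eq_mul]
      exact Nat.mul_le_mul_right _ (Finset.card_filter_le _ _)
  have e4 : ∑ l ∈ H, (P2.filter (fun q => R l q)).card ≤ H.card * P2.card := by
    refine le_trans (Finset.sum_le_card_nsmul _ _ P2.card ?_) (le_of_eq (smul_eq_mul _ _))
    intro l _
    exact Finset.card_filter_le _ _
  have e5 : P1.card ≤ 8 * H.card := by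
    have h1 : P1.card * P2.card ≤ (8 * H.card) * P2.card := by
      rw [e1, e2] at hR
      have : 8 * H.card * P2.card = 8 * (H.card * P2.card) := by ring
      omega
    exact Nat.le_of_mul_le_mul_right h1 hP2
  have e6 : ∀ l ∈ H, P2.card ≤ 16 * (P2.filter (fun q => R l q ∧ ¬ Z l q)).card := by
    intro l hl
    rw [hH, mem_filter] at hl
    have h1 := hZ l hl.1
    have h2 : (P2.filter (fun q => R l q)).card ≤
        (P2.filter (fun q => R l q ∧ ¬ Z l q)).card + (P2.filter (fun q => Z l q)).card := by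
      rw [← Finset.card_union_add_card_inter]
      refine le_trans (Finset.card_le_card ?_) (Nat.le_add_right _ _)
      intro q hq
      rw [mem_filter] at hq
      rw [mem_union, mem_filter, mem_filter]
      by_cases hz : Z l q
      · exact Or.inr ⟨hq.1, hz⟩
      · exact Or.inl ⟨hq.1, hq.2, hz⟩
    omega
  have e7 : H.card * P2.card ≤ ∑ q ∈ P2, 16 * (H.filter (fun l => R l q ∧ ¬ Z l q)).card := by
    have h1 : H.card * P2.card ≤ ∑ l ∈ H, 16 * (P2.filter (fun q => R l q ∧ ¬ Z l q)).card := by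
      rw [← smul_eq_mul]
      exact Finset.card_nsmul_le_sum _ _ _ e6
    refine le_trans h1 (le_of_eq ?_)
    rw [← Finset.mul_sum, ← Finset.mul_sum]
    congr 1
    simp only [Finset.card_filter]
    exact Finset.sum_comm
  have e8 : ∃ q0 ∈ P2, H.card ≤ 16 * (H.filter (fun l => R l q0 ∧ ¬ Z l q0)).card := by
    by_contra hcon
    push Not at hcon
    have h1 : ∑ q ∈ P2, 16 * (H.filter (fun l => R l q ∧ ¬ Z l q)).card < ∑ _q ∈ P2, H.card :=
      Finset.sum_lt_sum_of_nonempty (Finset.card_pos.mp hP2) hcon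
    rw [Finset.sum_const, smul_eq_mul, mul_comm] at h1
    omega
  obtain ⟨q0, hq0, h16⟩ := e8
  refine ⟨q0, hq0, H.filter (fun l => R l q0 ∧ ¬ Z l q0), ?_, ?_, ?_⟩
  · refine (Finset.filter_subset _ _).trans ?_
    rw [hH]
    exact Finset.filter_subset _ _
  · omega
  · intro l hl
    rw [mem_filter, hH, mem_filter] at hl
    exact ⟨hl.2.1, hl.2.2, hl.1.2⟩

/-- MODULE D5.  At most `n` primes of a set of primes divide a nonzero number of absolute value
less than `2 ^ n`. -/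
theorem fewdiv (P : Finset ℕ) (hP : ∀ q ∈ P, q.Prime) (A : ℤ) (hA : A ≠ 0) (n : ℕ)
    (hn : |A| < 2 ^ n) (h : ∀ q ∈ P, (q : ℤ) ∣ A) : P.card ≤ n := by
  have h1 : ∏ q ∈ P, q ∣ A.natAbs := by
    refine Finset.prod_primes_dvd _ (fun q hq => (hP q hq).prime) ?_
    intro q hq
    exact Int.natCast_dvd.mp (h q hq)
  have h2 : 2 ^ P.card ≤ ∏ q ∈ P, q := by
    refine Finset.pow_card_le_prod _ _ _ ?_
    intro q hq
    exact (hP q hq).two_le
  have h3 : ∏ q ∈ P, q ≤ A.natAbs := Nat.le_of_dvd (Int.natAbs_pos.mpr hA) h1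
  have h4 : A.natAbs < 2 ^ n := by
    have : ((A.natAbs : ℕ) : ℤ) < 2 ^ n := by
      rw [Int.natCast_natAbs]
      exact hn
    exact_mod_cast this
  have h5 : 2 ^ P.card < 2 ^ n := lt_of_le_of_lt (le_trans h2 h3) h4
  exact ((Nat.pow_lt_pow_iff_right (by norm_num)).mp h5).le

end Pool.Agent.Qnr
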