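import Mathlib

/-!
# Jacobi symbols: the basic lemmas (modules J1 - J7)

Library Qnr: for every odd prime `p` a quadratic nonresidue is found among the numbers `x + y r_d`
modulo `p`, `r_d ^ 2 = d`, with `x, y, d` of size `(log p) ^ C`.  Text:
`MP_18a8a6_lc_QNR_helper61.md`.
-/

set_option autoImplicit false

namespace Pool.Agent.Qnr

open Finset

private theorem J1_prod {ι : Type*} (s : Finset ι) (f : ι → ℤ) (b : ℕ) :
    jacobiSym (∏ i ∈ s, f i) b = ∏ i ∈ s, jacobiSym (f i) b := by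
  classical
  induction s using Finset.induction_on with
  | empty => rw [Finset.prod_empty, Finset.prod_empty, jacobiSym.one_left]
  | insert i s hi ih => rw [Finset.prod_insert hi, Finset.prod_insert hi, jacobiSym.mul_left, ih]

private theorem J1_neg (D : ℕ) (hD : D % 8 = 1) : jacobiSym (-1) D = 1 := by
  rw [jacobiSym.at_neg_one (by rw [Nat.odd_iff]; omega), ZMod.χ₄_nat_one_mod_four (by omega)]

private theorem J1_two (D : ℕ) (hD : D % 8 = 1) : jacobiSym 2 D = 1 := by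
  rw [jacobiSym.at_two (by rw [Nat.odd_iff]; omega)]
  have h1 : ((D : ℕ) : ZMod 8) = ((1 : ℕ) : ZMod 8) := by
    rw [ZMod.natCast_eq_natCast_iff']
    omega
  rw [h1]
  decide

/-- MODULE J1.  Let `D = 1 mod 8`, `W` nonzero and coprime to `D`.  If `(D / k) = 1` for every odd
prime `k` with odd exponent in `W`, then `(W / D) = 1`.
Proof: `W = ± ∏ k ^ e_k`; `(-1 / D) = (2 / D) = 1` as `D = 1 mod 8`; an even power has symbol `1`
(`k` is coprime to `D`); for `k` odd with `e_k` odd `(k / D) = (D / k) = 1` by reciprocity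
(`D = 1 mod 4`). -/
theorem jrec8 (D : ℕ) (hD : D % 8 = 1) (W : ℤ) (hW : W ≠ 0) (hc : Int.gcd W D = 1)
    (h : ∀ k : ℕ, k.Prime → k ≠ 2 → Odd (W.natAbs.factorization k) → jacobiSym (D : ℤ) k = 1) :
    jacobiSym W D = 1 := by
  obtain ⟨n, hn⟩ : ∃ n : ℕ, n = W.natAbs := ⟨_, rfl⟩
  have hn0 : n ≠ 0 := by rw [hn]; exact Int.natAbs_ne_zero.2 hW
  rw [← hn] at h
  have hcn : Nat.gcd n D = 1 := by
    rw [hn]
    have : Int.gcd W D = Nat.gcd W.natAbs D := rfl
    rw [← this]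
    exact hc
  have hWn : jacobiSym W D = jacobiSym (n : ℤ) D := by
    rcases Int.natAbs_eq W with h1 | h1
    · rw [← hn] at h1
      rw [h1]
    · rw [← hn] at h1
      rw [h1, ← neg_one_mul, jacobiSym.mul_left, J1_neg D hD, one_mul]
  rw [hWn]
  have hfac : (n : ℤ) = ∏ k ∈ n.primeFactors, ((k : ℤ) ^ n.factorization k) := by
    conv_lhs => rw [← Nat.prod_factorization_pow_eq_self hn0]
    rw [Finsupp.prod, Nat.support_factorization]
    push_cast
    rfl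
  rw [hfac, J1_prod]
  refine Finset.prod_eq_one fun k hk => ?_
  have hkP := Nat.prime_of_mem_primeFactors hk
  have hkn := Nat.dvd_of_mem_primeFactors hk
  rw [jacobiSym.pow_left]
  have hkD : Int.gcd (k : ℤ) D = 1 := by
    have h1 : Nat.Coprime k D := Nat.Coprime.coprime_dvd_left hkn hcn
    exact_mod_cast h1
  rcases Nat.even_or_odd (n.factorization k) with he | he
  · rcases jacobiSym.eq_one_or_neg_one hkD with h1 | h1
    · rw [h1, one_pow]
    · rw [h1, he.neg_one_pow]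
  · have h1 : jacobiSym (k : ℤ) D = 1 := by
      by_cases hk2 : k = 2
      · rw [hk2]
        exact J1_two D hD
      · rw [← jacobiSym.quadratic_reciprocity_one_mod_four (by omega) (hkP.odd_of_ne_two hk2)]
        exact h k hkP hk2 he
    rw [h1, one_pow]

/-- MODULE J2.  If `W ∣ u ^ 2 - D v ^ 2`, `gcd (u, v) = 1`, `gcd (W, D) = 1`, `D = 1 mod 8`, `W ≠ 0`
then `(W / D) = 1`.
Proof: for an odd prime `k ∣ W`: `k ∤ v` (otherwise `k ∣ u`), so `D = (u / v) ^ 2 mod k`, `k ∤ D`,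
hence `(D / k) = 1`; `jrec8`. -/
theorem jdiv (D : ℕ) (hD : D % 8 = 1) (W u v : ℤ) (hW : W ≠ 0) (hc : Int.gcd W D = 1)
    (hd : W ∣ u ^ 2 - D * v ^ 2) (huv : IsCoprime u v) : jacobiSym W D = 1 := by
  refine jrec8 D hD W hW hc fun k hk hk2 hodd => ?_
  have hkZ : Prime (k : ℤ) := Nat.prime_iff_prime_int.1 hk
  have hkW : (k : ℤ) ∣ W := by
    rw [Int.natCast_dvd]
    by_contra hcon
    rw [Nat.factorization_eq_zero_of_not_dvd hcon] at hodd
    exact absurd hodd (by decide)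
  have hkD : ¬ (k : ℤ) ∣ D := by
    intro h1
    have h2 : (k : ℤ) ∣ Int.gcd W D := Int.dvd_coe_gcd hkW h1
    rw [hc] at h2
    exact hkZ.not_isUnit (isUnit_of_dvd_one (by exact_mod_cast h2))
  have h1 := hkW.trans hd
  have hkv : ¬ (k : ℤ) ∣ v := by
    intro h2
    have h3 : (k : ℤ) ∣ u ^ 2 := by
      have h4 : u ^ 2 = (u ^ 2 - D * v ^ 2) + v * (D * v) := by ring
      rw [h4]
      exact dvd_add h1 (h2.mul_right _)
    exact hkZ.not_isUnit (huv.isUnit_of_dvd' (hkZ.dvd_of_dvd_pow h3) h2)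
  have hku : ¬ (k : ℤ) ∣ u := by
    intro h2
    have h3 : (k : ℤ) ∣ D * v ^ 2 := by
      have h4 : (D : ℤ) * v ^ 2 = u * u - (u ^ 2 - D * v ^ 2) := by ring
      rw [h4]
      exact dvd_sub (h2.mul_right _) h1
    rcases hkZ.dvd_or_dvd h3 with h4 | h4
    · exact hkD h4
    · exact hkv (hkZ.dvd_of_dvd_pow h4)
  have hc1 : ∀ A : ℤ, ¬ (k : ℤ) ∣ A → jacobiSym A k ^ 2 = 1 := by
    intro A hA
    have h2 : Int.gcd A k = 1 := by
      rw [← Int.isCoprime_iff_gcd_eq_one, isCoprime_comm]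
      exact (Prime.coprime_iff_not_dvd hkZ).2 hA
    rcases jacobiSym.eq_one_or_neg_one h2 with h3 | h3
    · rw [h3]; norm_num
    · rw [h3]; norm_num
  have h2 : jacobiSym (u ^ 2) k = jacobiSym (D * v ^ 2) k :=
    jacobiSym.mod_left' (Int.modEq_iff_dvd.2 h1).symm
  rw [jacobiSym.mul_left, jacobiSym.pow_left, jacobiSym.pow_left, hc1 u hku, hc1 v hkv,
    mul_one] at h2
  exact h2.symm

/-- MODULE J3.  `G H = X ^ 2` modulo the prime `q = 1 mod 8`, `G + H + 2 X = 2 W`, `q ∤ G`,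
`q ∤ W`.  Then `(G / q) = (W / q)`.
Proof: `G (G + H + 2 X) = (G + X) ^ 2 mod q`, so `(G / q) (2 W / q) = 1` (it is the symbol of a
square and not `0`), and `(2 / q) = 1`. -/
theorem sq8 (q : ℕ) [Fact q.Prime] (hq : q % 8 = 1) (G H X W : ℤ)
    (h : (q : ℤ) ∣ G * H - X ^ 2) (hW : G + H + 2 * X = 2 * W) (hG : ¬ (q : ℤ) ∣ G)
    (hWq : ¬ (q : ℤ) ∣ W) : jacobiSym G q = jacobiSym W q := by
  have hqZ : Prime (q : ℤ) := Nat.prime_iff_prime_int.1 (Fact.out : q.Prime)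
  have hq1 : q ≠ 2 := by
    rintro rfl
    omega
  have hc1 : ∀ A : ℤ, ¬ (q : ℤ) ∣ A → jacobiSym A q = 1 ∨ jacobiSym A q = -1 := by
    intro A hA
    refine jacobiSym.eq_one_or_neg_one ?_
    rw [← Int.isCoprime_iff_gcd_eq_one, isCoprime_comm]
    exact (Prime.coprime_iff_not_dvd hqZ).2 hA
  have h1 : (q : ℤ) ∣ G * (2 * W) - (G + X) ^ 2 := by
    have h2 : G * (2 * W) - (G + X) ^ 2 = G * H - X ^ 2 := by
      rw [← hW]
      ring
    rw [h2]
    exact h
  have h2 : jacobiSym (G * (2 * W)) q = jacobiSym ((G + X) ^ 2) q :=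
    jacobiSym.mod_left' (Int.modEq_iff_dvd.2 h1).symm
  rw [jacobiSym.mul_left, jacobiSym.mul_left, jacobiSym.pow_left, J1_two q hq, one_mul] at h2
  rcases hc1 G hG with h3 | h3 <;> rcases hc1 W hWq with h4 | h4
  · rw [h3, h4]
  · rw [h3, h4] at h2
    nlinarith [sq_nonneg (jacobiSym (G + X) q)]
  · rw [h3, h4] at h2
    nlinarith [sq_nonneg (jacobiSym (G + X) q)]
  · rw [h3, h4]

/-- MODULE J4.  The symbol depends on the residue only. -/
theorem jmod (q : ℕ) (A B : ℤ) (h : (q : ℤ) ∣ A - B) : jacobiSym A q = jacobiSym B q := by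
  exact jacobiSym.mod_left' (Int.modEq_iff_dvd.2 h).symm

/-- MODULE J5.  Modulo a prime: symbol `1` or `-1` unless divisible. -/
theorem jpm (q : ℕ) [Fact q.Prime] (A : ℤ) (h : ¬ (q : ℤ) ∣ A) :
    jacobiSym A q = 1 ∨ jacobiSym A q = -1 := by
  have hqZ : Prime (q : ℤ) := Nat.prime_iff_prime_int.1 (Fact.out : q.Prime)
  refine jacobiSym.eq_one_or_neg_one ?_
  rw [← Int.isCoprime_iff_gcd_eq_one, isCoprime_comm]
  exact (Prime.coprime_iff_not_dvd hqZ).2 h

/-- MODULE J6.  Modulo a prime: symbol `1` gives a square root. -/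
theorem jroot (q : ℕ) [Fact q.Prime] (A : ℤ) (h : jacobiSym A q = 1) :
    ∃ s : ℤ, (q : ℤ) ∣ s ^ 2 - A := by
  rw [← jacobiSym.legendreSym.to_jacobiSym] at h
  have h0 : (A : ZMod q) ≠ 0 := by
    intro h0
    rw [(legendreSym.eq_zero_iff q A).2 h0] at h
    exact absurd h (by norm_num)
  obtain ⟨s, hs⟩ := (legendreSym.eq_one_iff q h0).1 h
  refine ⟨(s.val : ℤ), ?_⟩
  rw [← ZMod.intCast_zmod_eq_zero_iff_dvd]
  push_cast
  rw [ZMod.natCast_zmod_val, hs]
  ring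

/-- MODULE J7.  Modulo a product of two different primes. -/
theorem jroot2 (q1 q2 : ℕ) [Fact q1.Prime] [Fact q2.Prime] (h12 : q1 ≠ q2) (A : ℤ)
    (h1 : jacobiSym A q1 = 1) (h2 : jacobiSym A q2 = 1) :
    ∃ s : ℤ, ((q1 * q2 : ℕ) : ℤ) ∣ s ^ 2 - A := by
  obtain ⟨s1, hs1⟩ := jroot q1 A h1
  obtain ⟨s2, hs2⟩ := jroot q2 A h2
  have hq1Z : Prime (q1 : ℤ) := Nat.prime_iff_prime_int.1 (Fact.out : q1.Prime)
  have hcop : IsCoprime (q1 : ℤ) (q2 : ℤ) :=
    Nat.isCoprime_iff_coprime.2 ((Nat.coprime_primes Fact.out Fact.out).2 h12)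
  obtain ⟨x, y, hxy⟩ := hcop
  refine ⟨s2 * (x * q1) + s1 * (y * q2), ?_⟩
  have e1 : (q1 : ℤ) ∣ (s2 * (x * q1) + s1 * (y * q2)) ^ 2 - A := by
    have h3 : (s2 * (x * q1) + s1 * (y * q2)) ^ 2 - A =
        q1 * (x * (s2 - s1) * (s2 * (x * q1) + s1 * (y * q2) + s1)) + (s1 ^ 2 - A) := by
      have h4 : y * q2 = 1 - x * q1 := by linarith
      rw [h4]
      ring
    rw [h3]
    exact dvd_add (Dvd.intro _ rfl) hs1
  have e2 : (q2 : ℤ) ∣ (s2 * (x * q1) + s1 * (y * q2)) ^ 2 - A := by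
    have h3 : (s2 * (x * q1) + s1 * (y * q2)) ^ 2 - A =
        q2 * (y * (s1 - s2) * (s2 * (x * q1) + s1 * (y * q2) + s2)) + (s2 ^ 2 - A) := by
      have h4 : x * q1 = 1 - y * q2 := by linarith
      rw [h4]
      ring
    rw [h3]
    exact dvd_add (Dvd.intro _ rfl) hs2
  push_cast
  exact IsCoprime.mul_dvd (Nat.isCoprime_iff_coprime.2 ((Nat.coprime_primes Fact.out Fact.out).2
    h12)) e1 e2

end Pool.Agent.Qnr
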