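import Pool.Agent.Qnr.Jac

/-!
# Small solutions of `x ^ 2 = a y ^ 2 + b z ^ 2` (modules C1 - C5)
-/

set_option autoImplicit false

namespace Pool.Agent.Qnr

open Finset

private theorem C1_box (a b : ℕ) :
    a * b < (Nat.sqrt (a * b) + 1) * ((Nat.sqrt b + 1) * (Nat.sqrt a + 1)) := by
  have h1 := Nat.lt_succ_sqrt' (a * b)
  have h2 := Nat.lt_succ_sqrt' b
  have h3 := Nat.lt_succ_sqrt' a
  simp only [Nat.succ_eq_add_one] at h1 h2 h3
  by_contra hc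
  push Not at hc
  have h4 : ((Nat.sqrt (a * b) + 1) * ((Nat.sqrt b + 1) * (Nat.sqrt a + 1))) ^ 2 ≤ (a * b) ^ 2 :=
    Nat.pow_le_pow_left hc 2
  have h5 : (a * b) ^ 2 < (Nat.sqrt (a * b) + 1) ^ 2 * ((Nat.sqrt b + 1) ^ 2 * (Nat.sqrt a + 1) ^ 2) := by
    have h6 : b * a < (Nat.sqrt b + 1) ^ 2 * (Nat.sqrt a + 1) ^ 2 := Nat.mul_lt_mul'' h2 h3
    have h7 : (a * b) * (b * a) < (Nat.sqrt (a * b) + 1) ^ 2 * ((Nat.sqrt b + 1) ^ 2 * (Nat.sqrt a + 1) ^ 2) :=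
      Nat.mul_lt_mul'' h1 h6
    calc (a * b) ^ 2 = (a * b) * (b * a) := by ring
      _ < _ := h7
  have h8 : ((Nat.sqrt (a * b) + 1) * ((Nat.sqrt b + 1) * (Nat.sqrt a + 1))) ^ 2
      = (Nat.sqrt (a * b) + 1) ^ 2 * ((Nat.sqrt b + 1) ^ 2 * (Nat.sqrt a + 1) ^ 2) := by ring
  omega

private theorem C1_leg (a b : ℕ) (ha : ¬ IsSquare a) (hb : ¬ IsSquare b) (hab : ¬ IsSquare (a * b))
    (hc : Nat.Coprime a b) (r s : ℤ) (hr : (b : ℤ) ∣ r ^ 2 - a) (hs : (a : ℤ) ∣ s ^ 2 - b) :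
    ∃ x y z : ℤ, z ≠ 0 ∧ x ^ 2 - a * y ^ 2 = b * z ^ 2 ∧ |x| ≤ 2 * a * b ∧ |y| ≤ 2 * a * b ∧ |z| ≤ a := by
  have ha0 : 0 < a := Nat.pos_of_ne_zero (by rintro rfl; exact ha ⟨0, rfl⟩)
  have hb0 : 0 < b := Nat.pos_of_ne_zero (by rintro rfl; exact hb ⟨0, rfl⟩)
  have : NeZero a := ⟨ha0.ne'⟩
  have : NeZero b := ⟨hb0.ne'⟩
  set A := Nat.sqrt (a * b) with hA
  set B := Nat.sqrt b with hB
  set C := Nat.sqrt a with hC
  have hA2 : A * A < a * b := lt_of_le_of_ne (Nat.sqrt_le (a * b)) (fun h => hab ⟨A, h.symm⟩)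
  have hB2 : B * B < b := lt_of_le_of_ne (Nat.sqrt_le b) (fun h => hb ⟨B, h.symm⟩)
  have hC2 : C * C < a := lt_of_le_of_ne (Nat.sqrt_le a) (fun h => ha ⟨C, h.symm⟩)
  let f : ℕ × ℕ × ℕ → ZMod b × ZMod a := fun t =>
    (((t.1 : ℤ) - r * t.2.1 : ℤ), ((t.1 : ℤ) - s * t.2.2 : ℤ))
  obtain ⟨t, ht, t', ht', hne, hf⟩ : ∃ t ∈ range (A + 1) ×ˢ (range (B + 1) ×ˢ range (C + 1)),
      ∃ t' ∈ range (A + 1) ×ˢ (range (B + 1) ×ˢ range (C + 1)), t ≠ t' ∧ f t = f t' := by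
    apply Finset.exists_ne_map_eq_of_card_lt_of_maps_to (t := (univ : Finset (ZMod b × ZMod a)))
    · rw [card_univ, Fintype.card_prod, ZMod.card, ZMod.card, card_product, card_product, card_range, card_range,
        card_range, mul_comm b a]
      exact C1_box a b
    · intro t _
      exact mem_univ _
  simp only [mem_product, mem_range] at ht ht'
  have hf1 : (b : ℤ) ∣ ((t.1 : ℤ) - t'.1) - r * ((t.2.1 : ℤ) - t'.2.1) := by
    have h1 : (((t.1 : ℤ) - r * t.2.1 : ℤ) : ZMod b) = (((t'.1 : ℤ) - r * t'.2.1 : ℤ) : ZMod b) :=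
      congrArg Prod.fst hf
    rw [← sub_eq_zero, ← Int.cast_sub, ZMod.intCast_zmod_eq_zero_iff_dvd] at h1
    have e : ((t.1 : ℤ) - t'.1) - r * ((t.2.1 : ℤ) - t'.2.1) = ((t.1 : ℤ) - r * t.2.1) - ((t'.1 : ℤ) - r * t'.2.1) := by
      ring
    rw [e]
    exact h1
  have hf2 : (a : ℤ) ∣ ((t.1 : ℤ) - t'.1) - s * ((t.2.2 : ℤ) - t'.2.2) := by
    have h1 : (((t.1 : ℤ) - s * t.2.2 : ℤ) : ZMod a) = (((t'.1 : ℤ) - s * t'.2.2 : ℤ) : ZMod a) :=
      congrArg Prod.snd hf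
    rw [← sub_eq_zero, ← Int.cast_sub, ZMod.intCast_zmod_eq_zero_iff_dvd] at h1
    have e : ((t.1 : ℤ) - t'.1) - s * ((t.2.2 : ℤ) - t'.2.2) = ((t.1 : ℤ) - s * t.2.2) - ((t'.1 : ℤ) - s * t'.2.2) := by
      ring
    rw [e]
    exact h1
  set x : ℤ := (t.1 : ℤ) - t'.1 with hx
  set y : ℤ := (t.2.1 : ℤ) - t'.2.1 with hy
  set z : ℤ := (t.2.2 : ℤ) - t'.2.2 with hz
  have hxyz : ¬ (x = 0 ∧ y = 0 ∧ z = 0) := by
    rintro ⟨h1, h2, h3⟩
    apply hne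
    ext <;> omega
  have hxA : |x| ≤ A := by rw [abs_le]; omega
  have hyB : |y| ≤ B := by rw [abs_le]; omega
  have hzC : |z| ≤ C := by rw [abs_le]; omega
  have hx2 : x ^ 2 < a * b := by
    have h1 : x ^ 2 ≤ (A : ℤ) ^ 2 := sq_le_sq' (by linarith [neg_abs_le x]) (le_trans (le_abs_self x) hxA)
    have h2 : ((A * A : ℕ) : ℤ) < ((a * b : ℕ) : ℤ) := by exact_mod_cast hA2
    push_cast at h2
    nlinarith
  have hy2 : y ^ 2 < b := by
    have h1 : y ^ 2 ≤ (B : ℤ) ^ 2 := sq_le_sq' (by linarith [neg_abs_le y]) (le_trans (le_abs_self y) hyB)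
    have h2 : ((B * B : ℕ) : ℤ) < (b : ℤ) := by exact_mod_cast hB2
    push_cast at h2
    nlinarith
  have hz2 : z ^ 2 < a := by
    have h1 : z ^ 2 ≤ (C : ℤ) ^ 2 := sq_le_sq' (by linarith [neg_abs_le z]) (le_trans (le_abs_self z) hzC)
    have h2 : ((C * C : ℕ) : ℤ) < (a : ℤ) := by exact_mod_cast hC2
    push_cast at h2
    nlinarith
  have ha' : (0 : ℤ) < a := by exact_mod_cast ha0
  have hb' : (0 : ℤ) < b := by exact_mod_cast hb0
  have hdvd : ((a : ℤ) * b) ∣ x ^ 2 - a * y ^ 2 - b * z ^ 2 := by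
    have hcop : IsCoprime (a : ℤ) (b : ℤ) := Nat.isCoprime_iff_coprime.mpr hc
    apply hcop.mul_dvd
    · obtain ⟨k, hk⟩ := hf2
      obtain ⟨m, hm⟩ := hs
      refine ⟨k * (x + s * z) + m * z ^ 2 - y ^ 2, ?_⟩
      have e : x ^ 2 - a * y ^ 2 - b * z ^ 2 = (x - s * z) * (x + s * z) + (s ^ 2 - b) * z ^ 2 - a * y ^ 2 := by ring
      rw [e, hk, hm]
      ring
    · obtain ⟨k, hk⟩ := hf1
      obtain ⟨m, hm⟩ := hr
      refine ⟨k * (x + r * y) + m * y ^ 2 - z ^ 2, ?_⟩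
      have e : x ^ 2 - a * y ^ 2 - b * z ^ 2 = (x - r * y) * (x + r * y) + (r ^ 2 - a) * y ^ 2 - b * z ^ 2 := by ring
      rw [e, hk, hm]
      ring
  obtain ⟨k, hk⟩ := hdvd
  have hab0 : (0 : ℤ) < a * b := by positivity
  have hk1 : k < 1 := by
    have h1 : x ^ 2 - a * y ^ 2 - b * z ^ 2 < a * b := by nlinarith [sq_nonneg y, sq_nonneg z]
    rw [hk] at h1
    by_contra hcon
    push Not at hcon
    nlinarith
  have hk2 : -2 < k := by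
    have h1 : -2 * ((a : ℤ) * b) < x ^ 2 - a * y ^ 2 - b * z ^ 2 := by nlinarith [sq_nonneg x]
    rw [hk] at h1
    by_contra hcon
    push Not at hcon
    nlinarith
  have hAab : (A : ℤ) ≤ a * b := by
    have : A ≤ a * b := Nat.sqrt_le_self _
    exact_mod_cast this
  have hBb : (B : ℤ) ≤ b := by
    have : B ≤ b := Nat.sqrt_le_self _
    exact_mod_cast this
  have hCa : (C : ℤ) ≤ a := by
    have : C ≤ a := Nat.sqrt_le_self _
    exact_mod_cast this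
  have hb1 : (1 : ℤ) ≤ b := by omega
  have ha1 : (1 : ℤ) ≤ a := by omega
  have hbab : (b : ℤ) ≤ a * b := by nlinarith
  rcases (show k = 0 ∨ k = -1 by omega) with h0 | h1
  · subst h0
    refine ⟨x, y, z, ?_, by linarith, by linarith [hxA], by linarith [hyB], by linarith⟩
    rintro h0
    rw [h0] at hk hxyz
    have h1 : x ^ 2 = a * y ^ 2 := by linarith
    by_cases hy0 : y = 0
    · apply hxyz
      rw [hy0] at h1
      refine ⟨?_, hy0, rfl⟩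
      have : x ^ 2 = 0 := by rw [h1]; ring
      exact pow_eq_zero_iff two_ne_zero |>.mp this
    · apply ha
      have h2 : IsSquare ((a : ℤ)) := by
        have h3 : y ^ 2 ∣ x ^ 2 := ⟨a, by rw [h1]; ring⟩
        have h4 : y ∣ x := (Int.pow_dvd_pow_iff two_ne_zero).mp h3
        obtain ⟨w, hw⟩ := h4
        refine ⟨w, ?_⟩
        rw [hw] at h1
        have h5 : y ^ 2 * (w * w) = y ^ 2 * a := by linarith
        exact (mul_left_cancel₀ (pow_ne_zero 2 hy0) h5).symm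
      exact Int.isSquare_natCast_iff.mp h2
  · subst h1
    have hz3 : z ^ 2 - (a : ℤ) < 0 := by linarith
    have hxz : |x * z| ≤ a * b := by
      apply abs_le_of_sq_le_sq _ (by positivity)
      have h1 : (x * z) ^ 2 = x ^ 2 * z ^ 2 := by ring
      have h2 : x ^ 2 * z ^ 2 ≤ (a * b) * a := mul_le_mul hx2.le hz2.le (sq_nonneg z) hab0.le
      have h3 : ((a : ℤ) * b) * a ≤ (a * b) ^ 2 := by
        have e : ((a : ℤ) * b) ^ 2 = (a * b) * (a * b) := by ring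
        rw [e]
        apply mul_le_mul_of_nonneg_left _ hab0.le
        nlinarith
      rw [h1]
      exact h2.trans h3
    have hyz : |y * z| ≤ a * b := by
      rw [abs_mul]
      calc |y| * |z| ≤ B * C := mul_le_mul hyB hzC (abs_nonneg z) (by positivity)
        _ ≤ b * a := mul_le_mul hBb hCa (by positivity) hb'.le
        _ = a * b := by ring
    have hay : |(a : ℤ) * y| ≤ a * b := by
      rw [abs_mul, abs_of_pos ha']
      exact mul_le_mul_of_nonneg_left (hyB.trans hBb) ha'.le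
    refine ⟨x * z + a * y, x + y * z, z ^ 2 - a, hz3.ne, ?_, ?_, ?_, ?_⟩
    · have e : x ^ 2 - a * y ^ 2 = b * z ^ 2 - a * b := by linarith
      have e2 : (x * z + a * y) ^ 2 - a * (x + y * z) ^ 2 = (z ^ 2 - a) * (x ^ 2 - a * y ^ 2) := by ring
      rw [e2, e]
      ring
    · refine (abs_add_le _ _).trans ?_
      linarith
    · refine (abs_add_le _ _).trans ?_
      linarith
    · rw [abs_le]
      constructor <;> nlinarith [sq_nonneg z]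

/-- MODULE C1 (Legendre, by pigeonhole).
Proof: by the Chinese remainder theorem nothing is needed; map the triples `(x, y, z)` with
`0 ≤ x ≤ √(ab)`, `0 ≤ y ≤ √b`, `0 ≤ z ≤ √a` (integer square roots; more than `ab` triples since
`(⌊√(ab)⌋+1)(⌊√b⌋+1)(⌊√a⌋+1) > ab`: its square is `> ab * b * a`) to
`(x - t y mod b, x - s z mod a)`.  Two different triples have the same image; their difference
`(x, y, z) ≠ 0` has `x ^ 2 ≤ ab`, `y ^ 2 ≤ b`, `z ^ 2 ≤ a`, `b ∣ x - t y`, `a ∣ x - s z`, so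
`b ∣ x ^ 2 - a y ^ 2`, `a ∣ x ^ 2 - b z ^ 2`, and `a b ∣ E = x ^ 2 - a y ^ 2 - b z ^ 2` (coprime).
`-2ab ≤ E ≤ ab`.  `E = ab` means `y = z = 0`, `x ^ 2 = a b`, but then `a ∣ x`, `b ∣ x`, so
`a b ∣ x`, `x ^ 2 ≥ (ab) ^ 2`, so `ab = 1`, `a` is a square: no.  `E = - 2 a b` means `z ^ 2 = a`
(and `x = 0`, `y ^ 2 = b`): no.  `E = 0`: `x ≠ 0` (else `y = z = 0`), `|y|, |z| ≤ |x| ≤ ab`.
`E = -ab`: `(x^2+ab)^2 = a (xy+bz)^2 + b (xz-ay)^2`, and `0 < x^2+ab ≤ 2ab`. -/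
theorem con (a b : ℕ) (ha : 0 < a) (hb : 0 < b) (hab : Nat.Coprime a b) (hsq : ¬ IsSquare a)
    (s t : ℤ) (hs : (a : ℤ) ∣ s ^ 2 - b) (ht : (b : ℤ) ∣ t ^ 2 - a) :
    ∃ x y z : ℤ, x ^ 2 = a * y ^ 2 + b * z ^ 2 ∧ x ≠ 0 ∧ |x| ≤ 2 * (a * b) ∧
      |y| ≤ 2 * (a * b) ∧ |z| ≤ 2 * (a * b) := by
  by_cases hb1 : IsSquare b
  · obtain ⟨c, hc⟩ := hb1
    have hb' : (b : ℤ) = c * c := by rw [hc]; push_cast; ring
    have hc0 : (0 : ℤ) < c := by
      have : c ≠ 0 := by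
        rintro rfl
        simp at hc
        omega
      have : 0 < c := Nat.pos_of_ne_zero this
      exact_mod_cast this
    have ha' : (1 : ℤ) ≤ a := by exact_mod_cast ha
    have hcb : (c : ℤ) ≤ b := by rw [hb']; nlinarith
    have hb'' : (1 : ℤ) ≤ b := by exact_mod_cast hb
    have hbab : (b : ℤ) ≤ a * b := by nlinarith
    refine ⟨c, 0, 1, ?_, hc0.ne', ?_, ?_, ?_⟩
    · rw [hb']; ring
    · rw [abs_of_pos hc0]; linarith
    · rw [abs_zero]; linarith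
    · rw [abs_one]; linarith
  · have hab' : ¬ IsSquare (a * b) := by
      intro h
      apply hsq
      obtain ⟨c, hc⟩ := h
      have h1 : a * b = c ^ 2 := by rw [hc]; ring
      obtain ⟨d, hd⟩ := exists_associated_pow_of_mul_eq_pow (by
        show IsUnit (Nat.gcd a b)
        exact Nat.isUnit_iff.mpr hab) h1
      rw [associated_iff_eq] at hd
      exact ⟨d, by rw [← hd]; ring⟩
    obtain ⟨x, y, z, hz, h1, h2, h3, h4⟩ := C1_leg a b hsq hb1 hab' hab t s ht hs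
    have ha' : (1 : ℤ) ≤ a := by exact_mod_cast ha
    have hb'' : (1 : ℤ) ≤ b := by exact_mod_cast hb
    have haab : (a : ℤ) ≤ a * b := by nlinarith
    refine ⟨x, y, z, by linarith, ?_, by linarith, by linarith, by linarith⟩
    rintro rfl
    have h5 : 0 < z ^ 2 := by positivity
    have h6 : (0 : ℤ) ≤ a * y ^ 2 := by positivity
    nlinarith

private theorem C2_dvd (b : ℕ) (hb : Squarefree b) (g z : ℤ) (hg : g ≠ 0)
    (h : g ^ 2 ∣ (b : ℤ) * z ^ 2) : g ∣ z := by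
  have hpos : 0 < Int.gcd g z := Int.gcd_pos_of_ne_zero_left _ hg
  obtain ⟨g1, z1, hc, hg1, hz1⟩ := Int.exists_gcd_one hpos
  set d : ℤ := (Int.gcd g z : ℤ) with hd
  have hd0 : d ≠ 0 := by
    intro h0
    apply hg
    rw [hg1, h0, mul_zero]
  have h1 : (g1 ^ 2) ∣ (b : ℤ) * z1 ^ 2 := by
    have h2 : d ^ 2 * g1 ^ 2 ∣ d ^ 2 * ((b : ℤ) * z1 ^ 2) := by
      have e1 : d ^ 2 * g1 ^ 2 = g ^ 2 := by rw [hg1]; ring
      have e2 : d ^ 2 * ((b : ℤ) * z1 ^ 2) = (b : ℤ) * z ^ 2 := by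
        conv_rhs => rw [hz1]
        ring
      rw [e1, e2]
      exact h
    exact (mul_dvd_mul_iff_left (pow_ne_zero 2 hd0)).1 h2
  have hcop : IsCoprime g1 z1 := Int.isCoprime_iff_gcd_eq_one.2 hc
  have h3 : g1 ^ 2 ∣ (b : ℤ) := (hcop.pow : IsCoprime (g1 ^ 2) (z1 ^ 2)).dvd_of_dvd_mul_right h1
  have hbZ : Squarefree (b : ℤ) := Int.squarefree_natCast.2 hb
  have hu : IsUnit g1 := hbZ g1 (by rw [← sq]; exact h3)
  have h4 : g ∣ d := by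
    obtain ⟨w, hw⟩ := hu.exists_right_inv
    exact ⟨w, by rw [hg1]; calc d = d * (g1 * w) := by rw [hw, mul_one]
      _ = g1 * d * w := by ring⟩
  exact h4.trans ⟨z1, by rw [hz1]; ring⟩

private theorem C2_unit_sq (a : ℤ) (h : IsUnit a) : a ^ 2 = 1 := by
  rcases Int.isUnit_iff.1 h with h | h <;> rw [h] <;> norm_num

private theorem C2_abs (g a : ℤ) (hg : g ≠ 0) : |a| ≤ |a * g| := by
  rw [abs_mul]
  have h1 : (1 : ℤ) ≤ |g| := Int.one_le_abs hg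
  nlinarith [abs_nonneg a]

/-- MODULE C2 (primitive solutions).
Proof: `g = gcd (x, y) > 0`, `g ^ 2 ∣ b z ^ 2`, `b` squarefree, so `g ∣ z`; divide by `g`.
`y' = 0` would give `x' ^ 2 = b z' ^ 2` with `b > 1` squarefree, `x' ≠ 0`; the same for `z'`. -/
theorem pri (a b : ℕ) (ha : Squarefree a) (hb : Squarefree b) (ha1 : a ≠ 1) (hb1 : b ≠ 1)
    (x y z : ℤ) (h : x ^ 2 = a * y ^ 2 + b * z ^ 2) (hx : x ≠ 0) :
    ∃ x' y' z' : ℤ, x' ^ 2 = a * y' ^ 2 + b * z' ^ 2 ∧ IsCoprime x' y' ∧ y' ≠ 0 ∧ z' ≠ 0 ∧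
      z' ∣ z ∧ |x'| ≤ |x| ∧ |y'| ≤ |y| ∧ |z'| ≤ |z| := by
  have hpos : 0 < Int.gcd x y := Int.gcd_pos_of_ne_zero_left _ hx
  obtain ⟨x1, y1, hc, hx1, hy1⟩ := Int.exists_gcd_one hpos
  set g : ℤ := (Int.gcd x y : ℤ) with hg
  have hg0 : g ≠ 0 := by
    intro h0
    apply hx
    rw [hx1, h0, mul_zero]
  have hgz : g ∣ z := by
    apply C2_dvd b hb g z hg0
    refine ⟨x1 ^ 2 - a * y1 ^ 2, ?_⟩
    have : (b : ℤ) * z ^ 2 = x ^ 2 - a * y ^ 2 := by rw [h]; ring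
    rw [this, hx1, hy1]
    ring
  obtain ⟨z1, hz1⟩ := hgz
  have hcop : IsCoprime x1 y1 := Int.isCoprime_iff_gcd_eq_one.2 hc
  have heq : x1 ^ 2 = a * y1 ^ 2 + b * z1 ^ 2 := by
    have h2 : g ^ 2 * x1 ^ 2 = g ^ 2 * (a * y1 ^ 2 + b * z1 ^ 2) := by
      have e1 : g ^ 2 * x1 ^ 2 = x ^ 2 := by
        conv_rhs => rw [hx1]
        ring
      have e2 : g ^ 2 * (a * y1 ^ 2 + b * z1 ^ 2) = a * y ^ 2 + b * z ^ 2 := by
        conv_rhs => rw [hy1, hz1]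
        ring
      rw [e1, e2, h]
    exact mul_left_cancel₀ (pow_ne_zero 2 hg0) h2
  refine ⟨x1, y1, z1, heq, hcop, ?_, ?_, ⟨g, by rw [hz1]; ring⟩, ?_, ?_, ?_⟩
  · intro h0
    rw [h0] at hcop heq
    have hu : IsUnit x1 := isCoprime_zero_right.1 hcop
    rw [C2_unit_sq x1 hu] at heq
    apply hb1
    have h3 : (b : ℤ) ∣ 1 := ⟨z1 ^ 2, by rw [heq]; ring⟩
    have h4 : b ∣ 1 := by exact_mod_cast h3
    exact Nat.dvd_one.1 h4
  · intro h0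
    rw [h0] at heq
    have hu : IsUnit y1 := by
      have h3 : y1 ∣ x1 ^ 2 := ⟨a * y1, by rw [heq]; ring⟩
      have h4 : IsCoprime (x1 ^ 2) y1 := hcop.pow_left
      exact h4.isUnit_of_dvd' h3 (dvd_refl y1)
    rw [C2_unit_sq y1 hu] at heq
    have haZ : Squarefree (a : ℤ) := Int.squarefree_natCast.2 ha
    have hux : IsUnit x1 := haZ x1 ⟨1, by rw [mul_one, ← sq, heq]; ring⟩
    rw [C2_unit_sq x1 hux] at heq
    apply ha1
    have h3 : (a : ℤ) = 1 := by linarith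
    exact_mod_cast h3
  · rw [hx1]; exact C2_abs g x1 hg0
  · conv_rhs => rw [hy1]
    exact C2_abs g y1 hg0
  · rw [hz1, mul_comm]; exact C2_abs g z1 hg0

/-- MODULE C3 (`z` can be made odd).
Proof: if `z` is odd nothing is to be done (`pri` is not needed: take the solution itself).  If `z`
is even then `u, v` are odd; `u2 = (a+b)/2 u` is odd, `v2 = (a-b)/2 v + b z`,
`z2 = (b-a)/2 z + a v` is odd, and `u2^2 = a v2^2 + b z2^2` (identity); apply `pri` (`u2 ≠ 0`);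
`z' ∣ z2` is odd.  `|u2| ≤ (a+b) |u|`, and `|v'|, |z'| ≤ |u'|` since `a, b ≥ 1`. -/
theorem par (a b : ℕ) (ha : Squarefree a) (hb : Squarefree b) (ha1 : a ≠ 1) (hb1 : b ≠ 1)
    (ha8 : a % 8 = 1) (hb8 : b % 8 = 1) (x y z : ℤ) (h : x ^ 2 = a * y ^ 2 + b * z ^ 2)
    (hxy : IsCoprime x y) : ∃ x' y' z' : ℤ, x' ^ 2 = a * y' ^ 2 + b * z' ^ 2 ∧
      IsCoprime x' y' ∧ z' % 2 = 1 ∧ |x'| ≤ (a + b) * |x| := by
  by_cases hz : z % 2 = 1
  · refine ⟨x, y, z, h, hxy, hz, ?_⟩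
    have h1 : (1 : ℤ) ≤ (a : ℤ) + b := by omega
    nlinarith [abs_nonneg x]
  · have hz2 : z % 2 = 0 := by omega
    obtain ⟨z0, hz0⟩ : ∃ z0, z = 2 * z0 := ⟨z / 2, by omega⟩
    obtain ⟨a0, ha0⟩ : ∃ a0 : ℤ, (a : ℤ) = 8 * a0 + 1 := ⟨(a : ℤ) / 8, by omega⟩
    obtain ⟨b0, hb0⟩ : ∃ b0 : ℤ, (b : ℤ) = 8 * b0 + 1 := ⟨(b : ℤ) / 8, by omega⟩
    have hyo : y % 2 = 1 := by
      by_contra hy
      obtain ⟨y0, hy0⟩ : ∃ y0, y = 2 * y0 := ⟨y / 2, by omega⟩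
      have h2x : (2 : ℤ) ∣ x ^ 2 := ⟨a * (2 * y0 ^ 2) + b * (2 * z0 ^ 2), by
        rw [h, hy0, hz0]; ring⟩
      have h2x' : (2 : ℤ) ∣ x := Int.prime_two.dvd_of_dvd_pow h2x
      have h2y : (2 : ℤ) ∣ y := ⟨y0, hy0⟩
      have := hxy.isUnit_of_dvd' h2x' h2y
      rcases Int.isUnit_iff.1 this with h' | h' <;> omega
    obtain ⟨y0, hy0⟩ : ∃ y0, y = 2 * y0 + 1 := ⟨y / 2, by omega⟩
    have hx0 : x ≠ 0 := by
      intro h0
      rw [h0, hy0, hz0, ha0, hb0] at h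
      have h1 : (0 : ℤ) % 2 = 1 := by
        have e : (0 : ℤ) = 2 * ((8 * a0 + 1) * (2 * y0 ^ 2 + 2 * y0) + 4 * a0 +
            (8 * b0 + 1) * (2 * z0 ^ 2)) + 1 := by linarith
        omega
      omega
    have hid : ((4 * (a0 + b0) + 1) * x) ^ 2 =
        (a : ℤ) * ((4 * (a0 - b0)) * y + b * z) ^ 2 + b * ((4 * (b0 - a0)) * z + a * y) ^ 2 := by
      rw [mul_pow, h, ha0, hb0]
      ring
    have hne : (4 * (a0 + b0) + 1) * x ≠ 0 := mul_ne_zero (by omega) hx0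
    obtain ⟨x', y', z', h1, h2, -, -, h5, h6, -, -⟩ := pri a b ha hb ha1 hb1 _ _ _ hid hne
    refine ⟨x', y', z', h1, h2, ?_, ?_⟩
    · obtain ⟨k, hk⟩ := h5
      have hodd : (4 * (b0 - a0) * z + a * y) % 2 = 1 := by
        have e : 4 * (b0 - a0) * z + a * y =
            2 * (2 * (b0 - a0) * z + 4 * a0 * y + y0) + 1 := by
          rw [ha0, hy0]; ring
        omega
      by_contra hz'
      obtain ⟨w, hw⟩ : ∃ w, z' = 2 * w := ⟨z' / 2, by omega⟩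
      rw [hk, hw, mul_assoc] at hodd
      omega
    · refine h6.trans ?_
      rw [abs_mul]
      apply mul_le_mul_of_nonneg_right _ (abs_nonneg x)
      rw [abs_of_nonneg (by omega)]
      omega

/-- MODULE C4 (the elements `u + v √p` of norm `l z ^ 2`).
Proof: `(p / l) = (l / p) = 1` by reciprocity; `jroot` gives `s, t`; `con` with `a = p`, `b = l`,
then `pri`, then `par`: `|u| ≤ (p + l) * 2 p l ≤ p ^ 4` as `l < p`; `|v|, |z| ≤ |u|`.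
`v ≠ 0`: otherwise `u ^ 2 = l z ^ 2` with `gcd (u, v) = 1`: `u = ± 1`, `l z ^ 2 = 1`: no. -/
theorem beta (p l : ℕ) [Fact p.Prime] [Fact l.Prime] (hp : p % 8 = 1) (hl : l % 8 = 1)
    (hlp : l < p) (h : jacobiSym l p = 1) : ∃ u v z : ℤ, u ^ 2 = p * v ^ 2 + l * z ^ 2 ∧
      IsCoprime u v ∧ z % 2 = 1 ∧ v ≠ 0 ∧ |u| ≤ p ^ 4 ∧ |v| ≤ p ^ 4 ∧ |z| ≤ p ^ 4 := by
  have hpp : p.Prime := Fact.out
  have hlp' : l.Prime := Fact.out
  have hp1 : p ≠ 1 := hpp.one_lt.ne'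
  have hl1 : l ≠ 1 := hlp'.one_lt.ne'
  have hl9 : 9 ≤ l := by
    have := hlp'.two_le
    omega
  have hp9 : 9 ≤ p := by omega
  have hrec : jacobiSym (p : ℤ) l = 1 := by
    rw [← h]
    exact jacobiSym.quadratic_reciprocity_one_mod_four (by omega)
      (Nat.odd_iff.2 (by omega))
  obtain ⟨s, hs⟩ := jroot p (l : ℤ) h
  obtain ⟨t, ht⟩ := jroot l (p : ℤ) hrec
  have hcop : Nat.Coprime p l := (Nat.coprime_primes hpp hlp').2 (by omega)
  have hnsq : ¬ IsSquare p := fun hsq => (hpp.prime.not_isSquare) hsq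
  obtain ⟨x, y, z, h1, h2, h3, -, -⟩ := con p l hpp.pos hlp'.pos hcop hnsq s t hs ht
  obtain ⟨x1, y1, z1, g1, g2, -, -, -, g6, -, -⟩ :=
    pri p l hpp.prime.squarefree hlp'.prime.squarefree hp1 hl1 x y z h1 h2
  obtain ⟨u, v, w, k1, k2, k3, k4⟩ :=
    par p l hpp.prime.squarefree hlp'.prime.squarefree hp1 hl1 hp hl x1 y1 z1 g1 g2
  have hpZ : (9 : ℤ) ≤ p := by exact_mod_cast hp9
  have hlZ : (9 : ℤ) ≤ l := by exact_mod_cast hl9
  have hlpZ : (l : ℤ) < p := by exact_mod_cast hlp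
  have hu4 : |u| ≤ (p : ℤ) ^ 4 := by
    have e1 : |x1| ≤ 2 * ((p : ℤ) * l) := g6.trans h3
    have e2 : ((p : ℤ) + l) * |x1| ≤ (2 * p) * (2 * (p * p)) := by
      apply mul_le_mul (by linarith) _ (abs_nonneg x1) (by linarith)
      nlinarith
    have e3 : (2 * (p : ℤ)) * (2 * (p * p)) ≤ (p : ℤ) ^ 4 := by
      have e4 : (0 : ℤ) ≤ (p : ℤ) ^ 3 := by positivity
      nlinarith
    linarith
  have hvu : |v| ≤ |u| := by
    apply sq_le_sq.1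
    nlinarith [sq_nonneg v, sq_nonneg w]
  have hwu : |w| ≤ |u| := by
    apply sq_le_sq.1
    nlinarith [sq_nonneg v, sq_nonneg w]
  refine ⟨u, v, w, k1, k2, k3, ?_, hu4, hvu.trans hu4, hwu.trans hu4⟩
  intro h0
  rw [h0] at k1 k2
  have hu : IsUnit u := isCoprime_zero_right.1 k2
  rw [C2_unit_sq u hu] at k1
  have h5 : (l : ℤ) ∣ 1 := ⟨w ^ 2, by rw [k1]; ring⟩
  have h6 : l ∣ 1 := by exact_mod_cast h5
  exact hl1 (Nat.dvd_one.1 h6)

private theorem C5_sqf (q1 q2 : ℕ) [h1 : Fact q1.Prime] [h2 : Fact q2.Prime] (h12 : q1 ≠ q2) :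
    Squarefree (q1 * q2) := by
  rw [Nat.squarefree_mul ((Nat.coprime_primes h1.out h2.out).2 h12)]
  exact ⟨h1.out.prime.squarefree, h2.out.prime.squarefree⟩

/-- MODULE C5 (the small solutions for `d = q1 q2`).
Proof: `con` with `a = q1 q2`, `b = m`, then `pri`. -/
theorem small (q1 q2 m : ℕ) [Fact q1.Prime] [Fact q2.Prime] (h12 : q1 ≠ q2)
    (hm : Squarefree m) (hm1 : m ≠ 1) (hc : Nat.Coprime (q1 * q2) m)
    (s t : ℤ) (hs : ((q1 * q2 : ℕ) : ℤ) ∣ s ^ 2 - m) (ht : (m : ℤ) ∣ t ^ 2 - (q1 * q2 : ℕ)) :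
    ∃ x w y : ℤ, x ^ 2 = (q1 * q2 : ℕ) * w ^ 2 + m * y ^ 2 ∧ IsCoprime x w ∧ w ≠ 0 ∧ y ≠ 0 ∧
      |x| ≤ 2 * (q1 * q2 * m : ℕ) ∧ |w| ≤ 2 * (q1 * q2 * m : ℕ) ∧
      |y| ≤ 2 * (q1 * q2 * m : ℕ) := by
  have hq1 : q1.Prime := Fact.out
  have hq2 : q2.Prime := Fact.out
  have hsf := C5_sqf q1 q2 h12
  have hne1 : q1 * q2 ≠ 1 := by
    have := Nat.mul_le_mul hq1.two_le hq2.two_le
    omega
  have hnsq : ¬ IsSquare (q1 * q2) := by
    rintro ⟨r, hr⟩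
    have h1 : IsUnit r := hsf r ⟨1, by rw [hr]; ring⟩
    rw [Nat.isUnit_iff] at h1
    rw [h1] at hr
    exact hne1 hr
  obtain ⟨x, y, z, h, hx, bx, bY, bz⟩ := con (q1 * q2) m (Nat.mul_pos hq1.pos hq2.pos)
    (Nat.pos_of_ne_zero hm.ne_zero) hc hnsq s t hs ht
  obtain ⟨x', y', z', h', hcop, hy', hz', _, bx', bY', bz'⟩ := pri (q1 * q2) m hsf hm hne1 hm1 x y z h hx
  have e : (2 : ℤ) * (((q1 * q2 : ℕ) : ℤ) * (m : ℤ)) = 2 * ((q1 * q2 * m : ℕ) : ℤ) := by push_cast; ring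
  rw [e] at bx bY bz
  exact ⟨x', y', z', h', hcop, hy', hz', bx'.trans bx, bY'.trans bY, bz'.trans bz⟩

end Pool.Agent.Qnr
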