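import Pool.Agent.Qnr.Jac

/-!
# The large sieve for the values of the symbols at `x + y σ` (modules S1 - S4)
-/

set_option autoImplicit false

namespace Pool.Agent.Qnr

open Finset

/-- the product of the symbols over the primes of `T` -/
noncomputable def chi (σ : ℕ → ℤ) (T : Finset ℕ) (x y : ℤ) : ℤ :=
  ∏ l ∈ T, jacobiSym (x + y * σ l) l

private theorem S1_shift (f : ℤ → ℤ) (M : ℕ) (hf : ∀ x, f (x + M) = f x) (c t : ℤ) :
    ∑ x ∈ Ico c (c + M), f (x + t) = ∑ x ∈ Ico c (c + M), f x := by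
  have h1 : ∀ d : ℤ, ∑ x ∈ Ico (d + 1) (d + 1 + M), f x = ∑ x ∈ Ico d (d + M), f x := by
    intro d
    rcases Nat.eq_zero_or_pos M with rfl | hM
    · simp
    have hM' : (1 : ℤ) ≤ M := by exact_mod_cast hM
    have e1 : ∑ x ∈ Ico d (d + M), f x = f d + ∑ x ∈ Ico (d + 1) (d + M), f x := by
      rw [← Finset.sum_insert (by simp)]
      congr 1
      ext x; simp only [mem_Ico, mem_insert]; omega
    have e2 : ∑ x ∈ Ico (d + 1) (d + 1 + M), f x = f (d + M) + ∑ x ∈ Ico (d + 1) (d + M), f x := by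
      rw [← Finset.sum_insert (by simp)]
      congr 1
      ext x; simp only [mem_Ico, mem_insert]; omega
    rw [e1, e2, hf]
  have h2 : ∀ n : ℕ, ∀ d : ℤ, ∑ x ∈ Ico (d + n) (d + n + M), f x = ∑ x ∈ Ico d (d + M), f x := by
    intro n
    induction n with
    | zero => intro d; simp
    | succ n ih =>
      intro d
      rw [← ih d, ← h1 (d + n)]
      push_cast
      rw [add_assoc d (n : ℤ) 1]
  have h3 : ∀ d : ℤ, ∑ x ∈ Ico (d + t) (d + t + M), f x = ∑ x ∈ Ico d (d + M), f x := by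
    intro d
    obtain ⟨n, hn | hn⟩ := Int.eq_nat_or_neg t
    · rw [hn]; exact h2 n d
    · have := h2 n (d + t)
      rw [hn] at this ⊢
      rw [← this]
      simp
  rw [← h3 c]
  refine Finset.sum_nbij' (fun x => x + t) (fun x => x - t) ?_ ?_ ?_ ?_ ?_
  · intro x hx; simp only [mem_Ico] at hx ⊢; omega
  · intro x hx; simp only [mem_Ico] at hx ⊢; omega
  · intro x _; simp
  · intro x _; simp
  · intro x _; rfl

private theorem S1_zero (l : ℕ) (hl : l.Prime) (h2 : l ≠ 2) (M1 : ℕ) (hM : l.Coprime M1) (a : ℤ) :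
    ∑ i ∈ range l, jacobiSym (a + M1 * i) l = 0 := by
  have : Fact l.Prime := ⟨hl⟩
  have h1 : ∑ i ∈ range l, jacobiSym (a + M1 * i) l = ∑ z : ZMod l, quadraticChar (ZMod l) z := by
    have hM' : IsUnit (M1 : ZMod l) := (ZMod.isUnit_iff_coprime M1 l).2 hM.symm
    obtain ⟨u, hu⟩ := hM'
    refine Finset.sum_bij (fun i _ => ((a : ZMod l) + M1 * (i : ZMod l))) ?_ ?_ ?_ ?_
    · intro i _; exact mem_univ _
    · intro i hi j hj h
      have h3 : (M1 : ZMod l) * i = M1 * j := add_left_cancel h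
      rw [← hu] at h3
      have h4 : (i : ZMod l) = j := (Units.mul_right_inj u).1 h3
      have h5 := (ZMod.natCast_eq_natCast_iff' i j l).1 h4
      rwa [Nat.mod_eq_of_lt (mem_range.1 hi), Nat.mod_eq_of_lt (mem_range.1 hj)] at h5
    · intro z _
      refine ⟨((↑u⁻¹ : ZMod l) * (z - a)).val, mem_range.2 (ZMod.val_lt _), ?_⟩
      rw [ZMod.natCast_val, ZMod.cast_id, ← hu, ← mul_assoc, Units.mul_inv, one_mul]
      ring
    · intro i _
      rw [← jacobiSym.legendreSym.to_jacobiSym, legendreSym]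
      push_cast
      rfl
  rw [h1]
  exact quadraticChar_sum_zero (by rw [ZMod.ringChar_zmod_n]; exact h2)

/-- MODULE S1 (complete sums vanish).  `T, T'` sets of odd primes, `l0 ∈ T`, `l0 ∉ T'`.
Proof: with `M = ∏ (T ∪ T')` and `M = l0 M1`: write `x = j + M1 i`, `0 ≤ j < M1`, `0 ≤ i < l0`; all
the factors except the one of `l0` depend only on `j` (`l0 ∉ T'`), and for fixed `j` the sum over `i`
of `((j + M1 i + y σ_{l0}) / l0)` is the sum of the quadratic character over all residues modulo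
`l0` (`l0 ∤ M1`), which is `0`. -/
theorem complete (T T' : Finset ℕ) (hT : ∀ l ∈ T ∪ T', l.Prime ∧ l ≠ 2) (σ : ℕ → ℤ) (y : ℤ)
    (l0 : ℕ) (h0 : l0 ∈ T) (h0' : l0 ∉ T') (c : ℤ) :
    ∑ x ∈ Ico c (c + (∏ l ∈ T ∪ T', l : ℕ)), chi σ T x y * chi σ T' x y = 0 := by
  set M1 : ℕ := ∏ l ∈ (T ∪ T').erase l0, l with hM1
  have h0u : l0 ∈ T ∪ T' := mem_union_left _ h0
  have hM : ∏ l ∈ T ∪ T', l = l0 * M1 := (Finset.mul_prod_erase _ _ h0u).symm
  have hl0 := (hT l0 h0u).1
  have hper : ∀ (k : ℤ) (l : ℕ), l ∈ T ∪ T' → l ≠ l0 → ∀ x : ℤ,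
      jacobiSym (x + M1 * k + y * σ l) l = jacobiSym (x + y * σ l) l := by
    intro k l hl hne x
    have hd : (l : ℤ) ∣ M1 := by
      exact_mod_cast Finset.dvd_prod_of_mem _ (mem_erase.2 ⟨hne, hl⟩)
    apply jacobiSym.mod_left'
    obtain ⟨d, hd⟩ := hd
    rw [hd]
    have : x + l * d * k + y * σ l = (x + y * σ l) + l * (d * k) := by ring
    rw [this, Int.add_mul_emod_self_left]
  have hchi : ∀ (k : ℤ) (x : ℤ), chi σ T (x + M1 * k) y * chi σ T' (x + M1 * k) y =
      jacobiSym ((x + y * σ l0) + M1 * k) l0 * ((∏ l ∈ T.erase l0, jacobiSym (x + y * σ l) l) *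
        chi σ T' x y) := by
    intro k x
    have e1 : chi σ T (x + M1 * k) y = jacobiSym ((x + y * σ l0) + M1 * k) l0 *
        ∏ l ∈ T.erase l0, jacobiSym (x + y * σ l) l := by
      unfold chi
      rw [← Finset.mul_prod_erase _ _ h0]
      congr 1
      · congr 1; ring
      · apply Finset.prod_congr rfl
        intro l hl
        exact hper k l (mem_union_left _ (mem_of_mem_erase hl)) (ne_of_mem_erase hl) x
    have e2 : chi σ T' (x + M1 * k) y = chi σ T' x y := by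
      unfold chi
      apply Finset.prod_congr rfl
      intro l hl
      exact hper k l (mem_union_right _ hl) (by rintro rfl; exact h0' hl) x
    rw [e1, e2]; ring
  have hf : ∀ x : ℤ, chi σ T (x + (∏ l ∈ T ∪ T', l : ℕ)) y * chi σ T' (x + (∏ l ∈ T ∪ T', l : ℕ)) y =
      chi σ T x y * chi σ T' x y := by
    intro x
    have h1 := hchi l0 x
    have h2 := hchi 0 x
    rw [mul_zero, add_zero, add_zero] at h2
    rw [hM]
    push_cast
    rw [mul_comm (l0 : ℤ) (M1 : ℤ), h1, h2]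
    congr 1
    apply jacobiSym.mod_left'
    rw [mul_comm (M1 : ℤ) (l0 : ℤ), Int.add_mul_emod_self_left]
  have hcop : l0.Coprime M1 := by
    rw [hM1]
    apply Nat.Coprime.prod_right
    intro l hl
    exact (Nat.coprime_primes hl0 (hT l (mem_of_mem_erase hl)).1).2 (ne_of_mem_erase hl).symm
  have hsum : (l0 : ℤ) * ∑ x ∈ Ico c (c + (∏ l ∈ T ∪ T', l : ℕ)), chi σ T x y * chi σ T' x y = 0 := by
    have h1 : ∀ i ∈ range l0, ∑ x ∈ Ico c (c + (∏ l ∈ T ∪ T', l : ℕ)),
        chi σ T (x + M1 * i) y * chi σ T' (x + M1 * i) y =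
        ∑ x ∈ Ico c (c + (∏ l ∈ T ∪ T', l : ℕ)), chi σ T x y * chi σ T' x y := by
      intro i _
      exact S1_shift (fun x => chi σ T x y * chi σ T' x y) _ hf c _
    have h2 : ∑ i ∈ range l0, ∑ x ∈ Ico c (c + (∏ l ∈ T ∪ T', l : ℕ)),
        chi σ T (x + M1 * i) y * chi σ T' (x + M1 * i) y = 0 := by
      rw [Finset.sum_comm]
      apply Finset.sum_eq_zero
      intro x _
      simp only [hchi]
      rw [← Finset.sum_mul, S1_zero l0 hl0 (hT l0 h0u).2 M1 hcop, zero_mul]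
    rw [Finset.sum_congr rfl h1, Finset.sum_const, card_range, nsmul_eq_mul] at h2
    exact_mod_cast h2
  rcases mul_eq_zero.1 hsum with h | h
  · exact absurd h (by exact_mod_cast hl0.ne_zero)
  · exact h

private theorem S2_jac_le (a : ℤ) (n : ℕ) : |jacobiSym a n| ≤ 1 := by
  rcases jacobiSym.trichotomy a n with h | h | h <;> rw [h] <;> simp

private theorem S2_chi_le (σ : ℕ → ℤ) (T : Finset ℕ) (x y : ℤ) : |chi σ T x y| ≤ 1 := by
  unfold chi
  rw [Finset.abs_prod]
  apply Finset.prod_le_one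
  · intro i _; exact abs_nonneg _
  · intro i _; exact S2_jac_le _ _

private theorem S2_prod_le (σ : ℕ → ℤ) (T T' : Finset ℕ) (x y : ℤ) :
    |chi σ T x y * chi σ T' x y| ≤ 1 := by
  rw [abs_mul]
  exact mul_le_one₀ (S2_chi_le σ T x y) (abs_nonneg _) (S2_chi_le σ T' x y)

private theorem S2_gen (f : ℤ → ℤ) (hf : ∀ x, |f x| ≤ 1) (M : ℕ) (hM : 0 < M)
    (h0 : ∀ c : ℤ, ∑ x ∈ Ico c (c + M), f x = 0) (n : ℕ) :
    ∀ a : ℤ, |∑ x ∈ Ico a (a + n), f x| ≤ M := by
  induction n using Nat.strong_induction_on with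
  | _ n ih =>
    intro a
    by_cases hn : n < M
    · calc |∑ x ∈ Ico a (a + n), f x| ≤ ∑ x ∈ Ico a (a + n), |f x| :=
            Finset.abs_sum_le_sum_abs _ _
        _ ≤ ∑ x ∈ Ico a (a + n), 1 := Finset.sum_le_sum (fun x _ => hf x)
        _ = n := by simp
        _ ≤ M := by exact_mod_cast hn.le
    · push Not at hn
      obtain ⟨k, rfl⟩ := Nat.exists_eq_add_of_le hn
      have e : a + ((M + k : ℕ) : ℤ) = (a + M) + k := by push_cast; ring
      have h1 : a ≤ a + (M : ℤ) := by omega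
      have h2 : a + (M : ℤ) ≤ a + M + k := by omega
      rw [e, ← Finset.Ico_union_Ico_eq_Ico h1 h2,
        Finset.sum_union (Finset.Ico_disjoint_Ico_consecutive _ _ _), h0 a, zero_add]
      exact ih k (by omega) (a + M)

/-- MODULE S2 (incomplete sums).
Proof: `T ≠ T'`: there is `l0` in one and not in the other (symmetric); by `complete` the sum over
an interval of `M = ∏ (T ∪ T')` consecutive `x` is `0`, so the sum over `[-V, V]` is the sum over
an interval of fewer than `M` numbers, each term at most `1` in absolute value, and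
`M ≤ (∏ T) (∏ T') ≤ Q ^ 2`. -/
theorem incomplete (T T' : Finset ℕ) (hT : ∀ l ∈ T ∪ T', l.Prime ∧ l ≠ 2) (σ : ℕ → ℤ) (y : ℤ)
    (hne : T ≠ T') (Q V : ℕ) (h1 : ∏ l ∈ T, l ≤ Q) (h2 : ∏ l ∈ T', l ≤ Q) :
    |∑ x ∈ Icc (-(V : ℤ)) V, chi σ T x y * chi σ T' x y| ≤ (Q : ℤ) ^ 2 := by
  classical
  have hM : 0 < ∏ l ∈ T ∪ T', l := Finset.prod_pos (fun l hl => (hT l hl).1.pos)
  have h0 : ∀ c : ℤ, ∑ x ∈ Ico c (c + ((∏ l ∈ T ∪ T', l : ℕ) : ℤ)),
      (chi σ T x y * chi σ T' x y) = 0 := by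
    intro c
    by_cases hsub : T ⊆ T'
    · have : ∃ l ∈ T', l ∉ T := by
        by_contra hcon
        push Not at hcon
        exact hne (Finset.Subset.antisymm hsub hcon)
      obtain ⟨l0, h1, h2⟩ := this
      have := complete T' T (by rw [Finset.union_comm]; exact hT) σ y l0 h1 h2 c
      rw [Finset.union_comm] at this
      rw [← this]
      exact Finset.sum_congr rfl (fun x _ => mul_comm _ _)
    · obtain ⟨l0, h1, h2⟩ := Finset.not_subset.1 hsub
      exact complete T T' hT σ y l0 h1 h2 c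
  have h3 := S2_gen (fun x => chi σ T x y * chi σ T' x y) (fun x => S2_prod_le σ T T' x y) _ hM h0
    (2 * V + 1) (-(V : ℤ))
  have e : Ico (-(V : ℤ)) (-(V : ℤ) + ((2 * V + 1 : ℕ) : ℤ)) = Icc (-(V : ℤ)) V := by
    ext x; simp only [Finset.mem_Ico, Finset.mem_Icc]; push_cast; omega
  rw [e] at h3
  refine h3.trans ?_
  have h4 : (∏ l ∈ T ∪ T', l) ≤ (∏ l ∈ T, l) * ∏ l ∈ T', l := by
    rw [← Finset.prod_union_inter]
    apply Nat.le_mul_of_pos_right
    apply Finset.prod_pos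
    intro l hl
    exact (hT l (Finset.mem_union_left _ (Finset.mem_inter.1 hl).1)).1.pos
  have h5 : (∏ l ∈ T ∪ T', l) ≤ Q ^ 2 := by
    calc _ ≤ _ := h4
      _ ≤ Q * Q := Nat.mul_le_mul h1 h2
      _ = Q ^ 2 := by ring
  exact_mod_cast h5

/-- MODULE S3 (the second moment).
Proof: expand the square, exchange the sums: `∑_{T, T'} F(T) F(T') ∑_y ∑_x chi T chi T'`; the
diagonal terms are at most `(2 V + 1) ^ 2` each, the others at most `(2 V + 1) Q ^ 2` by
`incomplete`; `|F| ≤ 1`. -/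
theorem moment (P : Finset ℕ) (hP : ∀ l ∈ P, l.Prime ∧ l ≠ 2) (σ : ℕ → ℤ) (k Q V : ℕ)
    (hQ : ∀ T ∈ P.powersetCard k, ∏ l ∈ T, l ≤ Q) (F : Finset ℕ → ℤ) (hF : ∀ T, |F T| ≤ 1) :
    ∑ x ∈ Icc (-(V : ℤ)) V, ∑ y ∈ Icc (-(V : ℤ)) V,
      (∑ T ∈ P.powersetCard k, F T * chi σ T x y) ^ 2 ≤
    ((P.powersetCard k).card : ℤ) * (2 * V + 1) ^ 2 +
      ((P.powersetCard k).card : ℤ) ^ 2 * ((2 * V + 1) * Q ^ 2) := by
  classical
  have hstep : ∑ x ∈ Icc (-(V : ℤ)) V, ∑ y ∈ Icc (-(V : ℤ)) V,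
      (∑ T ∈ P.powersetCard k, F T * chi σ T x y) ^ 2 =
      ∑ T ∈ P.powersetCard k, ∑ T' ∈ P.powersetCard k, (F T * F T') *
        ∑ y ∈ Icc (-(V : ℤ)) V, ∑ x ∈ Icc (-(V : ℤ)) V, chi σ T x y * chi σ T' x y := by
    calc _ = ∑ x ∈ Icc (-(V : ℤ)) V, ∑ y ∈ Icc (-(V : ℤ)) V, ∑ T ∈ P.powersetCard k,
          ∑ T' ∈ P.powersetCard k, (F T * F T') * (chi σ T x y * chi σ T' x y) := by
          apply Finset.sum_congr rfl; intro x _
          apply Finset.sum_congr rfl; intro y _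
          rw [sq, Finset.sum_mul_sum]
          apply Finset.sum_congr rfl; intro T _
          apply Finset.sum_congr rfl; intro T' _
          ring
      _ = ∑ y ∈ Icc (-(V : ℤ)) V, ∑ x ∈ Icc (-(V : ℤ)) V, ∑ T ∈ P.powersetCard k,
          ∑ T' ∈ P.powersetCard k, (F T * F T') * (chi σ T x y * chi σ T' x y) :=
          Finset.sum_comm
      _ = ∑ y ∈ Icc (-(V : ℤ)) V, ∑ T ∈ P.powersetCard k, ∑ T' ∈ P.powersetCard k,
          ∑ x ∈ Icc (-(V : ℤ)) V, (F T * F T') * (chi σ T x y * chi σ T' x y) := by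
          apply Finset.sum_congr rfl; intro y _
          rw [Finset.sum_comm]
          apply Finset.sum_congr rfl; intro T _
          rw [Finset.sum_comm]
      _ = ∑ T ∈ P.powersetCard k, ∑ T' ∈ P.powersetCard k, ∑ y ∈ Icc (-(V : ℤ)) V,
          ∑ x ∈ Icc (-(V : ℤ)) V, (F T * F T') * (chi σ T x y * chi σ T' x y) := by
          rw [Finset.sum_comm]
          apply Finset.sum_congr rfl; intro T _
          rw [Finset.sum_comm]
      _ = _ := by
          apply Finset.sum_congr rfl; intro T _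
          apply Finset.sum_congr rfl; intro T' _
          rw [Finset.mul_sum]
          apply Finset.sum_congr rfl; intro y _
          rw [Finset.mul_sum]
  rw [hstep]
  have hV : ((Icc (-(V : ℤ)) V).card : ℤ) = 2 * V + 1 := by
    rw [Int.card_Icc]
    rw [Int.toNat_of_nonneg (by omega)]
    ring
  have hFF : ∀ T T', |F T * F T'| ≤ 1 := by
    intro T T'
    rw [abs_mul]
    exact mul_le_one₀ (hF T) (abs_nonneg _) (hF T')
  have hterm : ∀ T ∈ P.powersetCard k, ∀ T' ∈ P.powersetCard k, (F T * F T') *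
        ∑ y ∈ Icc (-(V : ℤ)) V, ∑ x ∈ Icc (-(V : ℤ)) V, chi σ T x y * chi σ T' x y ≤
        (if T = T' then (2 * (V : ℤ) + 1) ^ 2 else 0) + (2 * (V : ℤ) + 1) * Q ^ 2 := by
    intro T hT T' hT'
    have hb : ∀ A Bd : ℤ, |A| ≤ Bd → F T * F T' * A ≤ Bd := by
      intro A Bd hA
      calc F T * F T' * A ≤ |F T * F T' * A| := le_abs_self _
        _ = |F T * F T'| * |A| := abs_mul _ _
        _ ≤ 1 * |A| := mul_le_mul_of_nonneg_right (hFF T T') (abs_nonneg _)
        _ ≤ Bd := by rw [one_mul]; exact hA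
    apply hb
    by_cases hTT : T = T'
    · subst hTT
      rw [if_pos rfl]
      have h1 : |∑ y ∈ Icc (-(V : ℤ)) V, ∑ x ∈ Icc (-(V : ℤ)) V, chi σ T x y * chi σ T x y| ≤
          (2 * (V : ℤ) + 1) ^ 2 := by
        calc _ ≤ ∑ y ∈ Icc (-(V : ℤ)) V, |∑ x ∈ Icc (-(V : ℤ)) V, chi σ T x y * chi σ T x y| :=
              Finset.abs_sum_le_sum_abs _ _
          _ ≤ ∑ y ∈ Icc (-(V : ℤ)) V, ∑ x ∈ Icc (-(V : ℤ)) V, |chi σ T x y * chi σ T x y| :=
              Finset.sum_le_sum (fun y _ => Finset.abs_sum_le_sum_abs _ _)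
          _ ≤ ∑ y ∈ Icc (-(V : ℤ)) V, ∑ x ∈ Icc (-(V : ℤ)) V, 1 :=
              Finset.sum_le_sum (fun y _ => Finset.sum_le_sum
                (fun x _ => S2_prod_le σ T T x y))
          _ = (2 * (V : ℤ) + 1) ^ 2 := by
              simp only [Finset.sum_const, nsmul_eq_mul, mul_one]
              rw [hV]; ring
      have h2 : (0 : ℤ) ≤ (2 * (V : ℤ) + 1) * Q ^ 2 := by positivity
      linarith
    · rw [if_neg hTT, zero_add]
      rw [Finset.mem_powersetCard] at hT hT'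
      have hPP : ∀ l ∈ T ∪ T', l.Prime ∧ l ≠ 2 := by
        intro l hl
        rcases Finset.mem_union.1 hl with h | h
        · exact hP l (hT.1 h)
        · exact hP l (hT'.1 h)
      calc _ ≤ ∑ y ∈ Icc (-(V : ℤ)) V, |∑ x ∈ Icc (-(V : ℤ)) V, chi σ T x y * chi σ T' x y| :=
            Finset.abs_sum_le_sum_abs _ _
        _ ≤ ∑ y ∈ Icc (-(V : ℤ)) V, (Q : ℤ) ^ 2 :=
            Finset.sum_le_sum (fun y _ => incomplete T T' hPP σ y hTT Q V
              (hQ T (Finset.mem_powersetCard.2 hT)) (hQ T' (Finset.mem_powersetCard.2 hT')))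
        _ = (2 * (V : ℤ) + 1) * Q ^ 2 := by
            simp only [Finset.sum_const, nsmul_eq_mul]
            rw [hV]
  calc _ ≤ ∑ T ∈ P.powersetCard k, ∑ T' ∈ P.powersetCard k,
        ((if T = T' then (2 * (V : ℤ) + 1) ^ 2 else 0) + (2 * (V : ℤ) + 1) * Q ^ 2) :=
        Finset.sum_le_sum (fun T hT => Finset.sum_le_sum (fun T' hT' => hterm T hT T' hT'))
    _ = ∑ T ∈ P.powersetCard k, ((2 * (V : ℤ) + 1) ^ 2 +
          ((P.powersetCard k).card : ℤ) * ((2 * (V : ℤ) + 1) * Q ^ 2)) := by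
        apply Finset.sum_congr rfl
        intro T hT
        rw [Finset.sum_add_distrib, Finset.sum_ite_eq, if_pos hT]
        simp only [Finset.sum_const, nsmul_eq_mul]
    _ = _ := by
        simp only [Finset.sum_const, nsmul_eq_mul]
        ring

/-- MODULE S4 (the large sieve).
Proof: `moment` with `F T = ∏_{l ∈ T} f l`: at the points of `X` the inner sum is
`∑_T ∏_{l ∈ T} (f l) ^ 2 = D`; the other terms are `≥ 0`. -/
theorem lsv (P : Finset ℕ) (hP : ∀ l ∈ P, l.Prime ∧ l ≠ 2) (σ : ℕ → ℤ) (k Q V : ℕ)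
    (hQ : ∀ T ∈ P.powersetCard k, ∏ l ∈ T, l ≤ Q) (f : ℕ → ℤ)
    (hf : ∀ l ∈ P, f l = 1 ∨ f l = -1) (X : Finset (ℤ × ℤ))
    (hX : ∀ w ∈ X, |w.1| ≤ V ∧ |w.2| ≤ V ∧ ∀ l ∈ P, jacobiSym (w.1 + w.2 * σ l) l = f l) :
    X.card * (P.powersetCard k).card ^ 2 ≤
      (P.powersetCard k).card * (2 * V + 1) ^ 2 +
        (P.powersetCard k).card ^ 2 * ((2 * V + 1) * Q ^ 2) := by
  classical
  set g : ℕ → ℤ := fun l => if l ∈ P then f l else 1 with hg
  have hg1 : ∀ l, g l = 1 ∨ g l = -1 := by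
    intro l
    by_cases hl : l ∈ P
    · simp only [hg, if_pos hl]; exact hf l hl
    · simp only [hg, if_neg hl]; left; trivial
  have hgabs : ∀ l, |g l| = 1 := by
    intro l
    rcases hg1 l with h | h <;> rw [h] <;> simp
  have hgsq : ∀ l, g l * g l = 1 := by
    intro l
    rcases hg1 l with h | h <;> rw [h] <;> simp
  have hm := moment P hP σ k Q V hQ (fun T => ∏ l ∈ T, g l) (by
    intro T
    simp only [Finset.abs_prod, hgabs, Finset.prod_const_one, le_refl])
  have hX2 : ∑ w ∈ X, (((P.powersetCard k).card : ℤ)) ^ 2 ≤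
      ∑ x ∈ Icc (-(V : ℤ)) V, ∑ y ∈ Icc (-(V : ℤ)) V,
      (∑ T ∈ P.powersetCard k, (∏ l ∈ T, g l) * chi σ T x y) ^ 2 := by
    rw [← Finset.sum_product']
    calc ∑ w ∈ X, (((P.powersetCard k).card : ℤ)) ^ 2 =
        ∑ w ∈ X, (∑ T ∈ P.powersetCard k, (∏ l ∈ T, g l) * chi σ T w.1 w.2) ^ 2 := by
          apply Finset.sum_congr rfl
          intro w hw
          congr 1
          have : ∀ T ∈ P.powersetCard k, (∏ l ∈ T, g l) * chi σ T w.1 w.2 = 1 := by
            intro T hT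
            rw [Finset.mem_powersetCard] at hT
            unfold chi
            rw [← Finset.prod_mul_distrib]
            apply Finset.prod_eq_one
            intro l hl
            rw [(hX w hw).2.2 l (hT.1 hl)]
            have : g l = f l := by simp only [hg, if_pos (hT.1 hl)]
            rw [← this]
            exact hgsq l
          rw [Finset.sum_congr rfl this]
          simp
      _ ≤ _ := by
          apply Finset.sum_le_sum_of_subset_of_nonneg
          · intro w hw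
            have h1 := abs_le.1 (hX w hw).1
            have h2 := abs_le.1 (hX w hw).2.1
            rw [Finset.mem_product, Finset.mem_Icc, Finset.mem_Icc]
            exact ⟨h1, h2⟩
          · intro w _ _
            exact sq_nonneg _
  have h3 := hX2.trans hm
  rw [Finset.sum_const, nsmul_eq_mul] at h3
  exact_mod_cast h3

end Pool.Agent.Qnr
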