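import Pool.Agent.Qnr.Jac

/-!
# The reciprocity law and the constancy on classes (modules G1 - G6)
-/

set_option autoImplicit false

namespace Pool.Agent.Qnr

open Finset

/-- The sign and the powers of two do not matter for the Jacobi symbols over numbers `1` modulo `8`. -/
private theorem G1_jac_odd {D : ℤ} (hD : D ≠ 0) : ∃ D' : ℕ, Odd D' ∧ (D' : ℤ) ∣ D ∧
    ∀ K : ℕ, K % 8 = 1 → jacobiSym D K = jacobiSym D' K := by
  obtain ⟨e, D', hD', h⟩ := Nat.exists_eq_two_pow_mul_odd (Int.natAbs_ne_zero.2 hD)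
  refine ⟨D', hD', ?_, ?_⟩
  · exact Int.natCast_dvd.2 (by
      rw [h]
      exact Dvd.intro_left _ rfl)
  · intro K hK
    have hodd : Odd K := Nat.odd_iff.2 (by omega)
    have h2 : jacobiSym 2 K = 1 := by
      rw [jacobiSym.at_two hodd, ZMod.χ₈_nat_mod_eight, hK]
      decide
    have h1 : jacobiSym (-1) K = 1 := by
      rw [jacobiSym.at_neg_one hodd, ZMod.χ₄_nat_one_mod_four (by omega)]
    have h3 : jacobiSym (D.natAbs : ℤ) K = jacobiSym D' K := by
      rw [h, Nat.cast_mul, Nat.cast_pow, jacobiSym.mul_left, jacobiSym.pow_left]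
      have h4 : jacobiSym ((2 : ℕ) : ℤ) K = 1 := h2
      rw [h4, one_pow, one_mul]
    rw [← h3]
    rcases Int.natAbs_eq D with h5 | h5
    · rw [← h5]
    · have h6 : D = -1 * (D.natAbs : ℤ) := by
        rw [neg_one_mul]
        exact h5
      conv_lhs => rw [h6]
      rw [jacobiSym.mul_left, h1, one_mul]

/-- Quadratic reciprocity for numbers `1` modulo `8`. -/
private theorem G1_jac_swap {D' K : ℕ} (hD : Odd D') (hK : K % 8 = 1) :
    jacobiSym (D' : ℤ) K = jacobiSym (K : ℤ) D' :=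
  jacobiSym.quadratic_reciprocity_one_mod_four' hD (by omega)

/-- If `X` divides `A ^ 2 - m * c ^ 2` and is prime to `A` then `m` has the symbol `1` over `X`. -/
private theorem G1_jac_norm {X : ℕ} {A m c : ℤ} (h : (X : ℤ) ∣ A ^ 2 - m * c ^ 2) (hA : IsCoprime A X) :
    jacobiSym m X = 1 := by
  have h1 : jacobiSym (m * c ^ 2) X = 1 := by
    have h2 : jacobiSym (A ^ 2) X = 1 := jacobiSym.sq_one' (Int.isCoprime_iff_gcd_eq_one.1 hA)
    rw [← h2]
    exact jacobiSym.mod_left' (Int.modEq_iff_dvd.2 h)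
  have h3 : IsCoprime c (X : ℤ) := by
    obtain ⟨y, hy⟩ := h
    have h4 : IsCoprime (A ^ 2) (X : ℤ) := hA.pow_left
    have h5 : IsCoprime (m * c ^ 2) (X : ℤ) := by
      have h6 : m * c ^ 2 = A ^ 2 + (X : ℤ) * (-y) := by linear_combination -hy
      rw [h6]
      exact h4.add_mul_left_left _
    exact (IsCoprime.pow_left_iff (by norm_num)).1 (IsCoprime.of_mul_left_right h5)
  rw [jacobiSym.mul_left, jacobiSym.sq_one' (Int.isCoprime_iff_gcd_eq_one.1 h3), mul_one] at h1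
  exact h1

/-- If every prime factor of `n` has the symbol `1` then so has `n`. -/
private theorem G1_jac_all {x : ℤ} {n : ℕ} (h : ∀ q : ℕ, q.Prime → q ∣ n → jacobiSym x q = 1) :
    jacobiSym x n = 1 := by
  induction n using Nat.recOnMul with
  | zero => exact jacobiSym.zero_right x
  | one => exact jacobiSym.one_right x
  | prime q hq => exact h q hq dvd_rfl
  | mul a b ha hb =>
    rcases Nat.eq_zero_or_pos a with h0 | h0
    · rw [h0, zero_mul]
      exact jacobiSym.zero_right x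
    rcases Nat.eq_zero_or_pos b with h1 | h1
    · rw [h1, mul_zero]
      exact jacobiSym.zero_right x
    rw [jacobiSym.mul_right' _ h0.ne' h1.ne', ha fun q hq hd => h q hq (hd.mul_right b),
      hb fun q hq hd => h q hq (hd.mul_left a), one_mul]

/-- A number is `1` modulo `8` if its prime factors are. -/
private theorem G1_mod_eight {n : ℕ} (h0 : n ≠ 0) (h : ∀ q : ℕ, q.Prime → q ∣ n → q % 8 = 1) : n % 8 = 1 := by
  induction n using Nat.recOnMul with
  | zero => exact absurd rfl h0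
  | one => rfl
  | prime q hq => exact h q hq dvd_rfl
  | mul a b ha hb =>
    have ha0 : a ≠ 0 := fun h1 => h0 (by rw [h1, zero_mul])
    have hb0 : b ≠ 0 := fun h1 => h0 (by rw [h1, mul_zero])
    rw [Nat.mul_mod, ha ha0 fun q hq hd => h q hq (hd.mul_right b),
      hb hb0 fun q hq hd => h q hq (hd.mul_left a)]

/-- `IsCoprime` from the absence of common prime factors. -/
private theorem G1_cop_of_prime {x y : ℤ}
    (h : ∀ r : ℕ, r.Prime → (r : ℤ) ∣ x → (r : ℤ) ∣ y → False) : IsCoprime x y := by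
  rw [Int.isCoprime_iff_gcd_eq_one]
  by_contra hcon
  obtain ⟨r, hr, hd⟩ := Nat.exists_prime_and_dvd hcon
  exact h r hr ((Int.natCast_dvd_natCast.2 hd).trans (Int.gcd_dvd_left x y))
    ((Int.natCast_dvd_natCast.2 hd).trans (Int.gcd_dvd_right x y))

section

variable {p a b c u v : ℤ} {l K : ℕ}

/-- A prime factor of `D` divides neither `K` nor `a u - p b v`. -/
private theorem G1_D_cop (hl : l.Prime) (hβ : a ^ 2 - p * b ^ 2 = l * c ^ 2) (hab : IsCoprime a b)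
    (hγ : u ^ 2 - p * v ^ 2 = K) (huv : IsCoprime u v) (hKl : ¬ l ∣ K) (hKc : IsCoprime (K : ℤ) c)
    {r : ℕ} (hr : r.Prime) (hD : (r : ℤ) ∣ a * v - b * u) :
    ¬ (r : ℤ) ∣ K ∧ ¬ (r : ℤ) ∣ a * u - p * b * v := by
  have hrp : Prime (r : ℤ) := Nat.prime_iff_prime_int.1 hr
  have key : (a * u - p * b * v) ^ 2 - p * (a * v - b * u) ^ 2 = l * c ^ 2 * K := by
    rw [← hβ, ← hγ]
    ring
  have h1 : ¬ (r : ℤ) ∣ K := by
    intro hK
    have hA : (r : ℤ) ∣ a * u - p * b * v := by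
      apply hrp.dvd_of_dvd_pow (n := 2)
      have h2 : (a * u - p * b * v) ^ 2 = l * c ^ 2 * K + p * (a * v - b * u) ^ 2 := by
        linear_combination key
      rw [h2]
      exact dvd_add (Dvd.dvd.mul_left hK _) (Dvd.dvd.mul_left (dvd_pow hD two_ne_zero) _)
    have hu : (r : ℤ) ∣ (l * c ^ 2) * u := by
      have h2 : (l * c ^ 2 : ℤ) * u = (a * u - p * b * v) * a + p * b * (a * v - b * u) := by
        rw [← hβ]
        ring
      rw [h2]
      exact dvd_add (Dvd.dvd.mul_right hA _) (Dvd.dvd.mul_left hD _)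
    have hv : (r : ℤ) ∣ (l * c ^ 2) * v := by
      have h2 : (l * c ^ 2 : ℤ) * v = (a * u - p * b * v) * b + a * (a * v - b * u) := by
        rw [← hβ]
        ring
      rw [h2]
      exact dvd_add (Dvd.dvd.mul_right hA _) (Dvd.dvd.mul_left hD _)
    have hlc : (r : ℤ) ∣ l * c ^ 2 := by
      obtain ⟨x, y, hxy⟩ := huv
      have h2 : (l * c ^ 2 : ℤ) = x * ((l * c ^ 2) * u) + y * ((l * c ^ 2) * v) := by
        linear_combination (-(l * c ^ 2 : ℤ)) * hxy
      rw [h2]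
      exact dvd_add (Dvd.dvd.mul_left hu _) (Dvd.dvd.mul_left hv _)
    rcases hrp.dvd_or_dvd hlc with h3 | h3
    · have h4 : r ∣ l := Int.natCast_dvd_natCast.1 h3
      have h5 : r = l := (Nat.prime_dvd_prime_iff_eq hr hl).1 h4
      exact hKl (h5 ▸ Int.natCast_dvd_natCast.1 hK)
    · have h4 := hrp.dvd_of_dvd_pow h3
      have h5 := hKc.isUnit_of_dvd' hK h4
      exact hrp.not_isUnit h5
  refine ⟨h1, fun hA => ?_⟩
  have ha : (r : ℤ) ∣ K * a := by
    have h2 : (K : ℤ) * a = (a * u - p * b * v) * u + -(p * v) * (a * v - b * u) := by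
      rw [← hγ]
      ring
    rw [h2]
    exact dvd_add (Dvd.dvd.mul_right hA _) (Dvd.dvd.mul_left hD _)
  have hb : (r : ℤ) ∣ K * b := by
    have h2 : (K : ℤ) * b = (a * u - p * b * v) * v + -u * (a * v - b * u) := by
      rw [← hγ]
      ring
    rw [h2]
    exact dvd_add (Dvd.dvd.mul_right hA _) (Dvd.dvd.mul_left hD _)
  have ha' := (hrp.dvd_or_dvd ha).resolve_left h1
  have hb' := (hrp.dvd_or_dvd hb).resolve_left h1
  exact hrp.not_isUnit (hab.isUnit_of_dvd' ha' hb')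

/-- `D ≠ 0`, `l` does not divide `D`, and `D` is prime to `K`. -/
private theorem G1_D_ne (hl : l.Prime) (hβ : a ^ 2 - p * b ^ 2 = l * c ^ 2) (hab : IsCoprime a b)
    (hγ : u ^ 2 - p * v ^ 2 = K) (huv : IsCoprime u v) (hKl : ¬ l ∣ K)
    (hKc : IsCoprime (K : ℤ) c) : a * v - b * u ≠ 0 ∧ ¬ (l : ℤ) ∣ a * v - b * u := by
  have key : (a * u - p * b * v) ^ 2 - p * (a * v - b * u) ^ 2 = l * c ^ 2 * K := by
    rw [← hβ, ← hγ]
    ring
  have h2 : ¬ (l : ℤ) ∣ a * v - b * u := by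
    intro h1
    have hlp : Prime (l : ℤ) := Nat.prime_iff_prime_int.1 hl
    obtain ⟨-, h3⟩ := G1_D_cop hl hβ hab hγ huv hKl hKc hl h1
    apply h3
    apply hlp.dvd_of_dvd_pow (n := 2)
    have h4 : (a * u - p * b * v) ^ 2 = l * (c ^ 2 * K) + p * (a * v - b * u) ^ 2 := by
      linear_combination key
    rw [h4]
    exact dvd_add (Dvd.intro _ rfl) (Dvd.dvd.mul_left (dvd_pow h1 two_ne_zero) _)
  exact ⟨fun h1 => h2 (h1 ▸ dvd_zero _), h2⟩

/-- (R1) THE RECIPROCITY LAW. -/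
private theorem G1_recip (hl : l.Prime) (hl8 : l % 8 = 1) (hK8 : K % 8 = 1)
    (hβ : a ^ 2 - p * b ^ 2 = l * c ^ 2) (hab : IsCoprime a b) (hγ : u ^ 2 - p * v ^ 2 = K)
    (huv : IsCoprime u v) (hKl : ¬ l ∣ K) (hKc : IsCoprime (K : ℤ) c) :
    jacobiSym (a * v - b * u) K = jacobiSym (a * v - b * u) l := by
  obtain ⟨h0, -⟩ := G1_D_ne hl hβ hab hγ huv hKl hKc
  obtain ⟨D', hD', hdvd, hjac⟩ := G1_jac_odd h0
  have key : (a * u - p * b * v) ^ 2 - p * (a * v - b * u) ^ 2 = l * c ^ 2 * K := by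
    rw [← hβ, ← hγ]
    ring
  have hA : IsCoprime (a * u - p * b * v) (D' : ℤ) := by
    apply G1_cop_of_prime
    intro r hr h1 h2
    exact (G1_D_cop hl hβ hab hγ huv hKl hKc hr (h2.trans hdvd)).2 h1
  have h1 : jacobiSym ((l : ℤ) * K) D' = 1 := by
    refine G1_jac_norm (A := a * u - p * b * v) (c := c) ?_ hA
    have h2 : (a * u - p * b * v) ^ 2 - (l : ℤ) * K * c ^ 2 = p * (a * v - b * u) ^ 2 := by
      linear_combination key
    rw [h2]
    exact Dvd.dvd.mul_left (dvd_pow hdvd two_ne_zero) _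
  rw [jacobiSym.mul_left] at h1
  rw [hjac K hK8, hjac l hl8, G1_jac_swap hD' hK8, G1_jac_swap hD' hl8]
  rcases jacobiSym.trichotomy (l : ℤ) D' with h2 | h2 | h2 <;>
    rcases jacobiSym.trichotomy (K : ℤ) D' with h3 | h3 | h3 <;>
    rw [h2, h3] at h1 <;> rw [h2, h3] <;> norm_num at h1

/-- `b` has the symbol `1` over `l`. -/
private theorem G1_jac_b (hl : l.Prime) (hl8 : l % 8 = 1) (hβ : a ^ 2 - p * b ^ 2 = l * c ^ 2)
    (hab : IsCoprime a b) : jacobiSym b l = 1 := by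
  have hb0 : b ≠ 0 := by
    rintro rfl
    have h1 : IsUnit a := isCoprime_zero_right.1 hab
    have h2 : a ^ 2 = 1 := by
      rcases Int.isUnit_iff.1 h1 with h | h <;> rw [h] <;> norm_num
    have h3 : (l : ℤ) ∣ 1 := ⟨c ^ 2, by linear_combination hβ - h2⟩
    exact (Nat.prime_iff_prime_int.1 hl).not_isUnit (isUnit_of_dvd_one h3)
  obtain ⟨b', hb', hdvd, hjac⟩ := G1_jac_odd hb0
  rw [hjac l hl8, G1_jac_swap hb' hl8]
  refine G1_jac_norm (A := a) (c := c) ?_ ?_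
  · have h2 : a ^ 2 - (l : ℤ) * c ^ 2 = p * b ^ 2 := by linear_combination hβ
    rw [h2]
    exact Dvd.dvd.mul_left (dvd_pow hdvd two_ne_zero) _
  · exact IsCoprime.of_isCoprime_of_dvd_right hab hdvd

/-- `v` has the symbol `1` over `K`. -/
private theorem G1_jac_v (hK8 : K % 8 = 1) (hγ : u ^ 2 - p * v ^ 2 = K) (huv : IsCoprime u v) :
    jacobiSym v K = 1 := by
  rcases eq_or_ne v 0 with h0 | h0
  · rw [h0] at huv hγ
    have h1 : IsUnit u := isCoprime_zero_right.1 huv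
    have h2 : u ^ 2 = 1 := by
      rcases Int.isUnit_iff.1 h1 with h | h <;> rw [h] <;> norm_num
    have h3 : K = 1 := by
      have h4 : (K : ℤ) = 1 := by linear_combination -hγ + h2
      exact_mod_cast h4
    rw [h3]
    exact jacobiSym.one_right v
  · obtain ⟨v', hv', hdvd, hjac⟩ := G1_jac_odd h0
    rw [hjac K hK8, G1_jac_swap hv' hK8]
    refine G1_jac_norm (A := u) (c := 1) ?_ ?_
    · have h2 : u ^ 2 - (K : ℤ) * 1 ^ 2 = p * v ^ 2 := by linear_combination hγ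
      rw [h2]
      exact Dvd.dvd.mul_left (dvd_pow hdvd two_ne_zero) _
    · exact IsCoprime.of_isCoprime_of_dvd_right huv hdvd

/-- The symbol of `γ` at the prime `(l, s)` which contains `β`. -/
private theorem G1_symb (hl : l.Prime) (hl8 : l % 8 = 1) (hK8 : K % 8 = 1)
    (hβ : a ^ 2 - p * b ^ 2 = l * c ^ 2) (hab : IsCoprime a b) (hγ : u ^ 2 - p * v ^ 2 = K)
    (huv : IsCoprime u v) (hKl : ¬ l ∣ K) (hKc : IsCoprime (K : ℤ) c) {s : ℤ}
    (hs : (l : ℤ) ∣ a + b * s) : jacobiSym (u + v * s) l = jacobiSym (a * v - b * u) K := by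
  rw [G1_recip hl hl8 hK8 hβ hab hγ huv hKl hKc]
  have h1 : jacobiSym (a * v - b * u) l = jacobiSym (-1 * b * (u + v * s)) l := by
    apply jacobiSym.mod_left'
    refine Int.modEq_iff_dvd.2 ?_
    have h2 : -1 * b * (u + v * s) - (a * v - b * u) = -v * (a + b * s) := by ring
    rw [h2]
    exact Dvd.dvd.mul_left hs _
  have h3 : jacobiSym (-1) l = 1 := by
    rw [jacobiSym.at_neg_one (Nat.odd_iff.2 (by omega)), ZMod.χ₄_nat_one_mod_four (by omega)]
  rw [h1, jacobiSym.mul_left, jacobiSym.mul_left, h3, G1_jac_b hl hl8 hβ hab, one_mul, one_mul]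

end

/-- MODULE G1 (reciprocity).  `M = l z ^ 2 = u ^ 2 - p v ^ 2`, `N = C ^ 2 - p E ^ 2`, both
`1 mod 8`, coprime, both elements primitive.
Proof: `(u C - p v E) ^ 2 - p (u E - v C) ^ 2 = M N`.  `Y := u E - v C` is coprime to `M N`: let a
prime `k ∣ Y`.  If `k ∣ M` then `k ∤ v` (else `k ∣ u`), and
`v ^ 2 N = v ^ 2 C ^ 2 - p v ^ 2 E ^ 2 = u ^ 2 E ^ 2 - p v ^ 2 E ^ 2 = M E ^ 2 = 0 mod k`, so `k ∣ N`: no.
If `k ∣ N` then `k ∤ E` (else `k ∣ C`) and `E ^ 2 M = v ^ 2 N = 0 mod k`: no.  `Y ≠ 0` since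
`gcd (0, M N) = M N > 1`.  `jdiv` with `D = M N`: `(Y / M N) = 1`; so `(Y / l) (Y / N) = 1`
(`(Y / z ^ 2) = 1`).  `Y = u E - v C = - v (C + σ E) mod l`, and `(v / l) = (v / M) = 1` by `jdiv`
(`v ∣ u ^ 2 - M * 1 ^ 2`; `gcd (v, M) = 1`, `v ≠ 0` since otherwise `u = ± 1`, `M = 1`),
`(-1 / l) = 1`.  So `((C + E σ) / l) = (Y / l) = (Y / N)`.
Second claim: `jdiv` with `D = N`, `E ∣ C ^ 2 - N * 1 ^ 2` (if `E = 0` then `C = ± 1`, `N = 1`). -/
theorem rec (p l N : ℕ) [Fact p.Prime] [Fact l.Prime] (hl : l % 8 = 1) (hlp : l ≠ p)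
    (hN : N % 8 = 1) (u v z σ C E : ℤ) (hu : u ^ 2 = p * v ^ 2 + l * z ^ 2)
    (huv : IsCoprime u v) (hz : z % 2 = 1) (hσ : (l : ℤ) ∣ u + v * σ)
    (hCE : C ^ 2 - p * E ^ 2 = N) (hc : IsCoprime C E) (hMN : Int.gcd (l * z) N = 1) :
    jacobiSym (C + E * σ) l = jacobiSym (u * E - v * C) N ∧ jacobiSym E N = 1 := by
  have hl0 : l.Prime := Fact.out
  have hβ : u ^ 2 - (p : ℤ) * v ^ 2 = l * z ^ 2 := by linear_combination hu
  have hcop : IsCoprime ((l : ℤ) * z) (N : ℤ) := Int.isCoprime_iff_gcd_eq_one.2 hMN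
  have hKl : ¬ l ∣ N := by
    intro h
    have h1 := hcop.isUnit_of_dvd' (Dvd.intro _ rfl) (Int.natCast_dvd_natCast.2 h)
    exact (Nat.prime_iff_prime_int.1 hl0).not_isUnit h1
  have hKc : IsCoprime (N : ℤ) z := (IsCoprime.of_mul_left_right hcop).symm
  exact ⟨G1_symb hl0 hl hN hβ huv hCE hc hKl hKc hσ, G1_jac_v hN hCE hc⟩

/-- A squarefree number divides an integer if all its prime factors do. -/
private theorem G2_sqf_dvd {n : ℕ} (hn : Squarefree n) {x : ℤ}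
    (h : ∀ q : ℕ, q.Prime → q ∣ n → (q : ℤ) ∣ x) : (n : ℤ) ∣ x := by
  have h1 : ∏ q ∈ n.primeFactors, q ∣ x.natAbs := by
    refine Finset.prod_primes_dvd x.natAbs ?_ ?_
    · intro q hq
      exact (Nat.prime_of_mem_primeFactors hq).prime
    · intro q hq
      exact Int.natCast_dvd.1
        (h q (Nat.prime_of_mem_primeFactors hq) (Nat.dvd_of_mem_primeFactors hq))
  rw [Nat.prod_primeFactors_of_squarefree hn] at h1
  exact Int.natCast_dvd.2 h1

/-- MODULE G2 (the quotient of two elements of the same class).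
`x ^ 2 - p y ^ 2 = b n`, `x' ^ 2 - p y' ^ 2 = b n'`, congruent modulo `b ^ 2`; `n = h α`,
`n' = h α'` squarefree numbers with `h, α, α'` pairwise coprime; for every prime `q ∣ n`
`x + τ_q y` and for every prime `q ∣ n'` `x' + τ_q y'` is divisible by `q` (`τ_q ^ 2 = p mod q`).
Proof: `b ∣ x x' - p y y'` (`= x ^ 2 - p y ^ 2 mod b ^ 2`), `b ∣ y x' - x y'`: let
`b C0 = x x' - p y y'`, `b E0 = y x' - x y'`; `C0 ^ 2 - p E0 ^ 2 = n n'`.  For a prime `q ∣ h`:
if `q ∤ b` then `b C0 = τ ^ 2 y y' - p y y' = 0`, `b E0 = - τ y y' + τ y y' = 0 mod q`; if `q ∣ b`,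
`x' = x + b ^ 2 i`, `y' = y + b ^ 2 j`: `C0 = n + b (x i - p y j)`, `E0 = b (y i - x j)`, both
divisible by `q`.  So `h ∣ C0, E0` (squarefree): `C0 = h C`, `E0 = h E`,
`C ^ 2 - p E ^ 2 = α α'`, which is squarefree, so `gcd (C, E) = 1`.
For a prime `q ∣ α`: `q ∤ n'`, and `q ∤ b` (`b n = b n' mod b ^ 2`, so `n = n' mod b`), and
`b h C = - τ y (x' + τ y')`, `b h E = y (x' + τ y') mod q`, so `q ∣ C + τ E`.  For `q ∣ α'`:
`b h C = - τ y' (x + τ y)`, `b h E = - y' (x + τ y)`, so `q ∣ C - τ E`. -/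
theorem quot (p h α α' : ℕ) (b x y x' y' : ℤ) (τ : ℕ → ℤ) (hb : b ≠ 0)
    (hsq : Squarefree (h * (α * α'))) (hn : x ^ 2 - p * y ^ 2 = b * (h * α : ℕ))
    (hn' : x' ^ 2 - p * y' ^ 2 = b * (h * α' : ℕ)) (hx : b ^ 2 ∣ x - x') (hy : b ^ 2 ∣ y - y')
    (hτ : ∀ q : ℕ, q.Prime → q ∣ h * (α * α') → (q : ℤ) ∣ τ q ^ 2 - p)
    (hc : ∀ q : ℕ, q.Prime → q ∣ h * α → (q : ℤ) ∣ x + τ q * y)
    (hc' : ∀ q : ℕ, q.Prime → q ∣ h * α' → (q : ℤ) ∣ x' + τ q * y') :
    ∃ C E : ℤ, C ^ 2 - p * E ^ 2 = (α * α' : ℕ) ∧ IsCoprime C E ∧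
      b * (h * C) = x * x' - p * y * y' ∧ b * (h * E) = y * x' - x * y' ∧
      (∀ q : ℕ, q.Prime → q ∣ α → (q : ℤ) ∣ C + τ q * E) ∧
      (∀ q : ℕ, q.Prime → q ∣ α' → (q : ℤ) ∣ C - τ q * E) := by
  have hh0 : h ≠ 0 := fun h1 => by
    rw [h1, zero_mul] at hsq
    exact not_squarefree_zero hsq
  have hsqh : Squarefree h := hsq.squarefree_of_dvd (Dvd.intro _ rfl)
  have hsqa : Squarefree (α * α') := hsq.squarefree_of_dvd (Dvd.intro_left _ rfl)
  have hnh : ∀ q : ℕ, q.Prime → q ∣ h → ¬ q ∣ α * α' := by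
    intro q hq h1 h2
    exact hq.one_lt.ne' (Nat.isUnit_iff.1 (hsq q (mul_dvd_mul h1 h2)))
  have hnα : ∀ q : ℕ, q.Prime → q ∣ α → ¬ q ∣ α' := by
    intro q hq h1 h2
    exact hq.one_lt.ne' (Nat.isUnit_iff.1 (hsqa q (mul_dvd_mul h1 h2)))
  obtain ⟨i, hi⟩ := hx
  obtain ⟨j, hj⟩ := hy
  obtain ⟨C0, hC0⟩ : ∃ C0, C0 = (h * α : ℕ) - b * (x * i - p * y * j) := ⟨_, rfl⟩
  obtain ⟨E0, hE0⟩ : ∃ E0, E0 = b * (x * j - y * i) := ⟨_, rfl⟩
  have hbC : b * C0 = x * x' - p * y * y' := by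
    rw [hC0]
    linear_combination -hn + x * hi - p * y * hj
  have hbE : b * E0 = y * x' - x * y' := by
    rw [hE0]
    linear_combination y * hi - x * hj
  have hN0 : C0 ^ 2 - p * E0 ^ 2 = (h * α : ℕ) * (h * α' : ℕ) := by
    have h1 : b ^ 2 * (C0 ^ 2 - p * E0 ^ 2) = b ^ 2 * ((h * α : ℕ) * (h * α' : ℕ)) := by
      have h2 : b ^ 2 * (C0 ^ 2 - p * E0 ^ 2) = (b * C0) ^ 2 - p * (b * E0) ^ 2 := by ring
      rw [h2, hbC, hbE]
      have h3 : (x * x' - p * y * y') ^ 2 - p * (y * x' - x * y') ^ 2 =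
          (x ^ 2 - p * y ^ 2) * (x' ^ 2 - p * y' ^ 2) := by ring
      rw [h3, hn, hn']
      ring
    exact mul_left_cancel₀ (pow_ne_zero 2 hb) h1
  -- common prime factors
  have hboth : ∀ q : ℕ, q.Prime → q ∣ h → (q : ℤ) ∣ C0 ∧ (q : ℤ) ∣ E0 := by
    intro q hq hd
    have hqp : Prime (q : ℤ) := Nat.prime_iff_prime_int.1 hq
    by_cases hqb : (q : ℤ) ∣ b
    · constructor
      · rw [hC0]
        exact dvd_sub (Int.natCast_dvd_natCast.2 (hd.mul_right α)) (Dvd.dvd.mul_right hqb _)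
      · rw [hE0]
        exact Dvd.dvd.mul_right hqb _
    · have h1 := hc q hq (hd.mul_right α)
      have h2 := hc' q hq (hd.mul_right α')
      have h3 := hτ q hq (hd.mul_right (α * α'))
      constructor
      · refine (hqp.dvd_or_dvd (?_ : (q : ℤ) ∣ b * C0)).resolve_left hqb
        have h4 : b * C0 = x' * (x + τ q * y) + -(τ q * y) * (x' + τ q * y') +
            (y * y') * (τ q ^ 2 - p) := by linear_combination hbC
        rw [h4]
        exact dvd_add (dvd_add (Dvd.dvd.mul_left h1 _) (Dvd.dvd.mul_left h2 _))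
          (Dvd.dvd.mul_left h3 _)
      · refine (hqp.dvd_or_dvd (?_ : (q : ℤ) ∣ b * E0)).resolve_left hqb
        have h4 : b * E0 = -y' * (x + τ q * y) + y * (x' + τ q * y') := by
          linear_combination hbE
        rw [h4]
        exact dvd_add (Dvd.dvd.mul_left h1 _) (Dvd.dvd.mul_left h2 _)
  obtain ⟨C, hC⟩ := G2_sqf_dvd hsqh fun q hq hd => (hboth q hq hd).1
  obtain ⟨E, hE⟩ := G2_sqf_dvd hsqh fun q hq hd => (hboth q hq hd).2
  have hh0' : (h : ℤ) ≠ 0 := by exact_mod_cast hh0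
  have hN' : C ^ 2 - p * E ^ 2 = (α * α' : ℕ) := by
    have h1 : (h : ℤ) ^ 2 * (C ^ 2 - p * E ^ 2) = (h : ℤ) ^ 2 * (α * α' : ℕ) := by
      have h2 : (h : ℤ) ^ 2 * (C ^ 2 - p * E ^ 2) = C0 ^ 2 - p * E0 ^ 2 := by
        rw [hC, hE]
        ring
      rw [h2, hN0]
      push_cast
      ring
    exact mul_left_cancel₀ (pow_ne_zero 2 hh0') h1
  have hcop : IsCoprime C E := by
    apply G1_cop_of_prime
    intro r hr h1 h2
    have h3 : ((r * r : ℕ) : ℤ) ∣ ((α * α' : ℕ) : ℤ) := by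
      rw [← hN', pow_two, pow_two]
      push_cast
      exact dvd_sub (mul_dvd_mul h1 h1) (Dvd.dvd.mul_left (mul_dvd_mul h2 h2) _)
    exact hr.one_lt.ne' (Nat.isUnit_iff.1 (hsqa r (Int.natCast_dvd_natCast.1 h3)))
  have hbhC : b * (h * C) = x * x' - p * y * y' := by rw [← hC, hbC]
  have hbhE : b * (h * E) = y * x' - x * y' := by rw [← hE, hbE]
  -- primes of `α`, `α'` do not divide `b`
  have hbdvd : b ∣ (h : ℤ) * (α - α') := by
    have h1 : b * (b * (x * i - p * y * j) + b * (i * x' - p * j * y')) =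
        b * ((h : ℤ) * (α - α')) := by
      have h2 : (x ^ 2 - p * y ^ 2) - (x' ^ 2 - p * y' ^ 2) =
          b ^ 2 * ((x * i - p * y * j) + (i * x' - p * j * y')) := by
        linear_combination (x + x') * hi - p * (y + y') * hj
      have h3 : b * ((h : ℤ) * (α - α')) = (x ^ 2 - p * y ^ 2) - (x' ^ 2 - p * y' ^ 2) := by
        rw [hn, hn']
        push_cast
        ring
      rw [h3, h2]
      ring
    have h4 := mul_left_cancel₀ hb h1
    rw [← h4, ← mul_add]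
    exact Dvd.intro _ rfl
  have hnb : ∀ q : ℕ, q.Prime → q ∣ α * α' → ¬ (q : ℤ) ∣ b := by
    intro q hq hd hqb
    have hqp : Prime (q : ℤ) := Nat.prime_iff_prime_int.1 hq
    rcases hqp.dvd_or_dvd (hqb.trans hbdvd) with h1 | h1
    · exact hnh q hq (Int.natCast_dvd_natCast.1 h1) hd
    · rcases hq.dvd_mul.1 hd with h2 | h2
      · refine hnα q hq h2 (Int.natCast_dvd_natCast.1 ?_)
        have h3 : (α' : ℤ) = α - (α - α') := by ring
        rw [h3]
        exact dvd_sub (Int.natCast_dvd_natCast.2 h2) h1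
      · refine hnα q hq (Int.natCast_dvd_natCast.1 ?_) h2
        have h3 : (α : ℤ) = α' + (α - α') := by ring
        rw [h3]
        exact dvd_add (Int.natCast_dvd_natCast.2 h2) h1
  have hdiv : ∀ (q : ℕ) (w : ℤ), q.Prime → q ∣ α * α' → (q : ℤ) ∣ b * (h * w) → (q : ℤ) ∣ w := by
    intro q w hq hd h1
    have hqp : Prime (q : ℤ) := Nat.prime_iff_prime_int.1 hq
    have h2 := (hqp.dvd_or_dvd h1).resolve_left (hnb q hq hd)
    exact (hqp.dvd_or_dvd h2).resolve_left fun h3 =>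
      hnh q hq (Int.natCast_dvd_natCast.1 h3) hd
  refine ⟨C, E, hN', hcop, hbhC, hbhE, ?_, ?_⟩
  · intro q hq hd
    refine hdiv q _ hq (hd.mul_right α') ?_
    have h1 : b * (h * (C + τ q * E)) = (x' - τ q * y') * (x + τ q * y) +
        (y * y') * (τ q ^ 2 - p) := by linear_combination hbhC + τ q * hbhE
    rw [h1]
    exact dvd_add (Dvd.dvd.mul_left (hc q hq (hd.mul_left h)) _)
      (Dvd.dvd.mul_left (hτ q hq ((hd.mul_right α').mul_left h)) _)
  · intro q hq hd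
    refine hdiv q _ hq (hd.mul_left α) ?_
    have h1 : b * (h * (C - τ q * E)) = (x - τ q * y) * (x' + τ q * y') +
        (y * y') * (τ q ^ 2 - p) := by linear_combination hbhC - τ q * hbhE
    rw [h1]
    exact dvd_add (Dvd.dvd.mul_left (hc' q hq (hd.mul_left h)) _)
      (Dvd.dvd.mul_left (hτ q hq ((hd.mul_left α).mul_left h)) _)

/-- MODULE G3 (symbol modulo a product of different primes). -/
theorem jprod (S : Finset ℕ) (hS : ∀ q ∈ S, q.Prime) (A : ℤ) :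
    jacobiSym A (∏ q ∈ S, q) = ∏ q ∈ S, jacobiSym A q := by
  classical
  induction S using Finset.induction_on with
  | empty => simp
  | insert q S hq ih =>
    rw [Finset.prod_insert hq, Finset.prod_insert hq, jacobiSym.mul_right' A
      (hS q (Finset.mem_insert_self q S)).ne_zero
      (Finset.prod_ne_zero_iff.2 fun r hr => (hS r (Finset.mem_insert_of_mem hr)).ne_zero),
      ih fun r hr => hS r (Finset.mem_insert_of_mem hr)]

private theorem G4_sqf (T : Finset ℕ) (hT : ∀ q ∈ T, q.Prime) : Squarefree (∏ q ∈ T, q) := by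
  classical
  induction T using Finset.induction_on with
  | empty => simp
  | insert q T hq ih =>
    rw [Finset.prod_insert hq, Nat.squarefree_mul]
    · exact ⟨(hT q (Finset.mem_insert_self q T)).squarefree,
        ih fun r hr => hT r (Finset.mem_insert_of_mem hr)⟩
    · apply Nat.Coprime.prod_right
      intro r hr
      exact (Nat.coprime_primes (hT q (Finset.mem_insert_self q T))
        (hT r (Finset.mem_insert_of_mem hr))).2 fun h => hq (h ▸ hr)

/-- MODULE G4 (constancy on a class).  `a_q = ((u + v τ_q) / q)`.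
Proof: `h = ∏ (S ∩ S')`, `α = ∏ (S \ S')`, `α' = ∏ (S' \ S)`; `quot` gives `C, E`.  `N = α α'` is
`1 mod 8`, coprime to `l z`.  `rec`: `((C + E σ) / l) = ((u E - v C) / N)`, `(E / N) = 1`.
By `jprod` the right side is the product over `q ∣ N`; for `q ∣ α`, `C = - τ E`:
`u E - v C = E (u + v τ)`; for `q ∣ α'`, `C = τ E`: `u E - v C = E (u - v τ)`, and
`((u - v τ) / q) = a_q (l / q)` because `(u + v τ) (u - v τ) = l z ^ 2 mod q`, `q ∤ l z`.  So
`((C + E σ) / l) = ∏_{α} a_q ∏_{α'} a_q (l / α')`.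
`b h (C + E σ) = (x + y σ) (x' - y' σ) mod l` (`σ ^ 2 = p mod l`, by `hσ2`), and
`(x' - y' σ) (x' + y' σ) = b h α'`; `l ∤ b h α'`; so
`((C + E σ) / l) = (b h / l) ((x + y σ) / l) ((x' + y' σ) / l) (b h α' / l)
  = ((x + y σ) / l) ((x' + y' σ) / l) (α' / l)`, and `(α' / l) = (l / α')`.  Hence
`((x + y σ) / l) ((x' + y' σ) / l) = ∏_{S \ S'} a_q ∏_{S' \ S} a_q`, and `a_q ^ 2 = 1` for the
common `q`. -/
theorem gam (p l : ℕ) [Fact p.Prime] [Fact l.Prime] (hl : l % 8 = 1) (hlp : l ≠ p)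
    (u v z σ : ℤ) (hu : u ^ 2 = p * v ^ 2 + l * z ^ 2) (huv : IsCoprime u v) (hz : z % 2 = 1)
    (hσ : (l : ℤ) ∣ u + v * σ) (hσ2 : (l : ℤ) ∣ σ ^ 2 - p) (S S' : Finset ℕ) (τ : ℕ → ℤ)
    (hS : ∀ q ∈ S ∪ S', q.Prime ∧ q % 8 = 1 ∧ q ≠ l ∧ (q : ℤ) ∣ τ q ^ 2 - p ∧ ¬ (q : ℤ) ∣ z)
    (b x y x' y' : ℤ) (hb : b ≠ 0) (hlb : ¬ (l : ℤ) ∣ b)
    (hn : x ^ 2 - p * y ^ 2 = b * (∏ q ∈ S, q : ℕ))
    (hn' : x' ^ 2 - p * y' ^ 2 = b * (∏ q ∈ S', q : ℕ)) (hx : b ^ 2 ∣ x - x')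
    (hy : b ^ 2 ∣ y - y') (hc : ∀ q ∈ S, (q : ℤ) ∣ x + τ q * y)
    (hc' : ∀ q ∈ S', (q : ℤ) ∣ x' + τ q * y') :
    jacobiSym (x + y * σ) l * jacobiSym (x' + y' * σ) l =
      (∏ q ∈ S, jacobiSym (u + v * τ q) q) * ∏ q ∈ S', jacobiSym (u + v * τ q) q := by
  classical
  have hl0 : l.Prime := Fact.out
  have hlP : Prime (l : ℤ) := Nat.prime_iff_prime_int.1 hl0
  have hS1 : ∀ q ∈ S, q.Prime := fun q hq => (hS q (Finset.mem_union_left _ hq)).1
  have hS2 : ∀ q ∈ S', q.Prime := fun q hq => (hS q (Finset.mem_union_right _ hq)).1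
  obtain ⟨h, hh⟩ : ∃ h, h = ∏ q ∈ S ∩ S', q := ⟨_, rfl⟩
  obtain ⟨α, hα⟩ : ∃ α, α = ∏ q ∈ S \ S', q := ⟨_, rfl⟩
  obtain ⟨α', hα'⟩ : ∃ α', α' = ∏ q ∈ S' \ S, q := ⟨_, rfl⟩
  have hprodS : ∀ f : ℕ → ℕ, (∏ q ∈ S ∩ S', f q) * ∏ q ∈ S \ S', f q = ∏ q ∈ S, f q :=
    fun f => Finset.prod_inter_mul_prod_sdiff S S' f
  have hprodS' : ∀ f : ℕ → ℕ, (∏ q ∈ S ∩ S', f q) * ∏ q ∈ S' \ S, f q = ∏ q ∈ S', f q := by
    intro f
    rw [Finset.inter_comm]
    exact Finset.prod_inter_mul_prod_sdiff S' S f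
  have hprodZ : ∀ f : ℕ → ℤ, (∏ q ∈ S ∩ S', f q) * ∏ q ∈ S \ S', f q = ∏ q ∈ S, f q :=
    fun f => Finset.prod_inter_mul_prod_sdiff S S' f
  have hprodZ' : ∀ f : ℕ → ℤ, (∏ q ∈ S ∩ S', f q) * ∏ q ∈ S' \ S, f q = ∏ q ∈ S', f q := by
    intro f
    rw [Finset.inter_comm]
    exact Finset.prod_inter_mul_prod_sdiff S' S f
  have hdS : h * α = ∏ q ∈ S, q := by rw [hh, hα, hprodS]
  have hdS' : h * α' = ∏ q ∈ S', q := by rw [hh, hα', hprodS']
  -- prime divisors of products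
  have hmem : ∀ (T : Finset ℕ), (∀ q ∈ T, q.Prime) → ∀ r : ℕ, r.Prime → r ∣ ∏ q ∈ T, q →
      r ∈ T := by
    intro T hT r hr hd
    obtain ⟨q, hq, h1⟩ := (Nat.Prime.prime hr).exists_mem_finset_dvd hd
    rwa [(Nat.prime_dvd_prime_iff_eq hr (hT q hq)).1 h1]
  have hα_mem : ∀ r : ℕ, r.Prime → r ∣ α → r ∈ S \ S' := fun r hr hd =>
    hmem _ (fun q hq => hS1 q (Finset.mem_sdiff.1 hq).1) r hr (hα ▸ hd)
  have hα'_mem : ∀ r : ℕ, r.Prime → r ∣ α' → r ∈ S' \ S := fun r hr hd =>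
    hmem _ (fun q hq => hS2 q (Finset.mem_sdiff.1 hq).1) r hr (hα' ▸ hd)
  have hh_mem : ∀ r : ℕ, r.Prime → r ∣ h → r ∈ S ∩ S' := fun r hr hd =>
    hmem _ (fun q hq => hS1 q (Finset.mem_inter.1 hq).1) r hr (hh ▸ hd)
  have hall : ∀ r : ℕ, r.Prime → r ∣ h * (α * α') → r ∈ S ∪ S' := by
    intro r hr hd
    rcases hr.dvd_mul.1 hd with h1 | h1
    · exact Finset.mem_union_left _ (Finset.mem_inter.1 (hh_mem r hr h1)).1
    · rcases hr.dvd_mul.1 h1 with h2 | h2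
      · exact Finset.mem_union_left _ (Finset.mem_sdiff.1 (hα_mem r hr h2)).1
      · exact Finset.mem_union_right _ (Finset.mem_sdiff.1 (hα'_mem r hr h2)).1
  have hprodU : h * (α * α') = ∏ q ∈ S ∪ S', q := by
    rw [hh, hα, hα', ← mul_assoc, hprodS]
    have h1 : S ∪ S' = S ∪ (S' \ S) := (Finset.union_sdiff_self_eq_union).symm
    rw [h1, Finset.prod_union Finset.disjoint_sdiff]
  have hsqU : Squarefree (h * (α * α')) := by
    rw [hprodU]
    exact G4_sqf _ fun q hq => (hS q hq).1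
  obtain ⟨C, E, hN, hcop, hbC, hbE, hC1, hC2⟩ := quot p h α α' b x y x' y' τ hb hsqU
    (by rw [hn, hdS]) (by rw [hn', hdS']) hx hy
    (fun q hq hd => (hS q (hall q hq hd)).2.2.2.1)
    (fun q hq hd => hc q (hmem S hS1 q hq (hdS ▸ hd)))
    (fun q hq hd => hc' q (hmem S' hS2 q hq (hdS' ▸ hd)))
  have hα0 : α ≠ 0 := by
    rw [hα]
    exact Finset.prod_ne_zero_iff.2 fun q hq => (hS1 q (Finset.mem_sdiff.1 hq).1).ne_zero
  have hα'0 : α' ≠ 0 := by
    rw [hα']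
    exact Finset.prod_ne_zero_iff.2 fun q hq => (hS2 q (Finset.mem_sdiff.1 hq).1).ne_zero
  have hN8 : (α * α') % 8 = 1 := G1_mod_eight (mul_ne_zero hα0 hα'0) fun q hq hd =>
    (hS q (hall q hq (hd.mul_left h))).2.1
  have hMN : Int.gcd ((l : ℤ) * z) (α * α' : ℕ) = 1 := by
    rw [← Int.isCoprime_iff_gcd_eq_one]
    apply G1_cop_of_prime
    intro r hr h1 h2
    have h3 := hS r (hall r hr ((Int.natCast_dvd_natCast.1 h2).mul_left h))
    rcases (Nat.prime_iff_prime_int.1 hr).dvd_or_dvd h1 with h4 | h4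
    · exact h3.2.2.1 ((Nat.prime_dvd_prime_iff_eq hr hl0).1 (Int.natCast_dvd_natCast.1 h4))
    · exact h3.2.2.2.2 h4
  obtain ⟨e1, e2⟩ := rec p l (α * α') hl hlp hN8 u v z σ C E hu huv hz hσ hN hcop hMN
  -- symbols at the primes of `S ∪ S'`
  have hane : ∀ q ∈ S ∪ S', jacobiSym (u + v * τ q) q * jacobiSym (u - v * τ q) q =
      jacobiSym l q ∧ jacobiSym (u + v * τ q) q ^ 2 = 1 := by
    intro q hq
    obtain ⟨h1, h2, h3, h4, h5⟩ := hS q hq
    have hqp : Prime (q : ℤ) := Nat.prime_iff_prime_int.1 h1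
    have hzc : IsCoprime z (q : ℤ) := (hqp.coprime_iff_not_dvd.2 h5).symm
    have h6 : jacobiSym ((u + v * τ q) * (u - v * τ q)) q = jacobiSym ((l : ℤ) * z ^ 2) q := by
      apply jacobiSym.mod_left'
      refine Int.modEq_iff_dvd.2 ?_
      have h7 : (l : ℤ) * z ^ 2 - (u + v * τ q) * (u - v * τ q) = v ^ 2 * (τ q ^ 2 - p) := by
        linear_combination -hu
      rw [h7]
      exact Dvd.dvd.mul_left h4 _
    rw [jacobiSym.mul_left, jacobiSym.mul_left,
      jacobiSym.sq_one' (Int.isCoprime_iff_gcd_eq_one.1 hzc), mul_one] at h6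
    refine ⟨h6, ?_⟩
    have h8 : jacobiSym l q ^ 2 = 1 := by
      apply jacobiSym.sq_one
      rw [Int.gcd_natCast_natCast]
      exact (Nat.coprime_primes hl0 h1).2 (Ne.symm h3)
    rw [← h6] at h8
    rcases jacobiSym.trichotomy (u + v * τ q) q with h9 | h9 | h9
    · rw [h9] at h8
      norm_num at h8
    · rw [h9]
      norm_num
    · rw [h9]
      norm_num
  have hEq : ∀ q : ℕ, q.Prime → q ∣ α * α' → IsCoprime E (q : ℤ) := by
    intro q hq hd
    have hqp : Prime (q : ℤ) := Nat.prime_iff_prime_int.1 hq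
    refine (hqp.coprime_iff_not_dvd.2 fun h1 => ?_).symm
    have h2 : (q : ℤ) ∣ C := by
      apply hqp.dvd_of_dvd_pow (n := 2)
      have h3 : C ^ 2 = ((α * α' : ℕ) : ℤ) + p * E ^ 2 := by linear_combination hN
      rw [h3]
      exact dvd_add (Int.natCast_dvd_natCast.2 hd) (Dvd.dvd.mul_left (dvd_pow h1 two_ne_zero) _)
    exact hqp.not_isUnit (hcop.isUnit_of_dvd' h2 h1)
  have hsq : ∀ q : ℕ, q.Prime → q ∣ α * α' → jacobiSym (E ^ 2) q = 1 := fun q hq hd =>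
    jacobiSym.sq_one' (Int.isCoprime_iff_gcd_eq_one.1 (hEq q hq hd))
  have f1 : jacobiSym ((u * E - v * C) * E) α = ∏ q ∈ S \ S', jacobiSym (u + v * τ q) q := by
    rw [hα, jprod _ (fun q hq => hS1 q (Finset.mem_sdiff.1 hq).1)]
    refine Finset.prod_congr rfl fun q hq => ?_
    have hqP := hS1 q (Finset.mem_sdiff.1 hq).1
    have hqα : q ∣ α := by
      rw [hα]
      exact Finset.dvd_prod_of_mem _ hq
    have h1 : jacobiSym ((u * E - v * C) * E) q = jacobiSym (E ^ 2 * (u + v * τ q)) q := by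
      apply jacobiSym.mod_left'
      refine Int.modEq_iff_dvd.2 ?_
      have h2 : E ^ 2 * (u + v * τ q) - (u * E - v * C) * E = v * E * (C + τ q * E) := by ring
      rw [h2]
      exact Dvd.dvd.mul_left (hC1 q hqP hqα) _
    rw [h1, jacobiSym.mul_left, hsq q hqP (hqα.mul_right α'), one_mul]
  have f2 : jacobiSym ((u * E - v * C) * E) α' =
      (∏ q ∈ S' \ S, jacobiSym (u + v * τ q) q) * jacobiSym l α' := by
    rw [hα', jprod _ (fun q hq => hS2 q (Finset.mem_sdiff.1 hq).1),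
      jprod _ (fun q hq => hS2 q (Finset.mem_sdiff.1 hq).1), ← Finset.prod_mul_distrib]
    refine Finset.prod_congr rfl fun q hq => ?_
    have hqP := hS2 q (Finset.mem_sdiff.1 hq).1
    have hqα : q ∣ α' := by
      rw [hα']
      exact Finset.dvd_prod_of_mem _ hq
    have h1 : jacobiSym ((u * E - v * C) * E) q = jacobiSym (E ^ 2 * (u - v * τ q)) q := by
      apply jacobiSym.mod_left'
      refine Int.modEq_iff_dvd.2 ?_
      have h2 : E ^ 2 * (u - v * τ q) - (u * E - v * C) * E = v * E * (C - τ q * E) := by ring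
      rw [h2]
      exact Dvd.dvd.mul_left (hC2 q hqP hqα) _
    obtain ⟨h3, h4⟩ := hane q (Finset.mem_union_right _ (Finset.mem_sdiff.1 hq).1)
    rw [h1, jacobiSym.mul_left, hsq q hqP (hqα.mul_left α), one_mul, ← h3, ← mul_assoc,
      ← pow_two, h4, one_mul]
  have f3 : jacobiSym (C + E * σ) l = (∏ q ∈ S \ S', jacobiSym (u + v * τ q) q) *
      ((∏ q ∈ S' \ S, jacobiSym (u + v * τ q) q) * jacobiSym l α') := by
    rw [e1, ← f1, ← f2, ← jacobiSym.mul_right' _ hα0 hα'0, jacobiSym.mul_left, e2, mul_one]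
  -- the symbols at `l`
  have g1 : jacobiSym (b * h * (C + E * σ)) l =
      jacobiSym ((x + y * σ) * (x' - y' * σ)) l := by
    apply jacobiSym.mod_left'
    refine Int.modEq_iff_dvd.2 ?_
    have h2 : (x + y * σ) * (x' - y' * σ) - b * h * (C + E * σ) = -(y * y') * (σ ^ 2 - p) := by
      linear_combination -hbC - σ * hbE
    rw [h2]
    exact Dvd.dvd.mul_left hσ2 _
  have g2 : jacobiSym ((x' + y' * σ) * (x' - y' * σ)) l = jacobiSym (b * h * α') l := by
    apply jacobiSym.mod_left'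
    refine Int.modEq_iff_dvd.2 ?_
    have h3 : x' ^ 2 - p * y' ^ 2 = b * (h * α' : ℕ) := by rw [hn', hdS']
    have h2 : b * h * α' - (x' + y' * σ) * (x' - y' * σ) = y' ^ 2 * (σ ^ 2 - p) := by
      push_cast at h3
      linear_combination -h3
    rw [h2]
    exact Dvd.dvd.mul_left hσ2 _
  have hlne : ∀ q : ℕ, q.Prime → q ∣ h * (α * α') → q ≠ l := fun q hq hd =>
    (hS q (hall q hq hd)).2.2.1
  have hlh : ¬ l ∣ h := fun h1 => hlne l hl0 (h1.mul_right _) rfl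
  have hlα' : ¬ l ∣ α' := fun h1 => hlne l hl0 ((h1.mul_left α).mul_left h) rfl
  have k1 : jacobiSym (b * h) l ^ 2 = 1 := by
    apply jacobiSym.sq_one
    rw [← Int.isCoprime_iff_gcd_eq_one]
    refine (hlP.coprime_iff_not_dvd.2 fun h1 => ?_).symm
    rcases hlP.dvd_or_dvd h1 with h2 | h2
    · exact hlb h2
    · exact hlh (Int.natCast_dvd_natCast.1 h2)
  have k2 : jacobiSym (α' : ℤ) l ^ 2 = 1 := by
    apply jacobiSym.sq_one
    rw [← Int.isCoprime_iff_gcd_eq_one]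
    exact (hlP.coprime_iff_not_dvd.2 fun h1 => hlα' (Int.natCast_dvd_natCast.1 h1)).symm
  have hα'8 : α' % 8 = 1 := G1_mod_eight hα'0 fun q hq hd =>
    (hS q (hall q hq ((hd.mul_left α).mul_left h))).2.1
  have k3 : jacobiSym (l : ℤ) α' = jacobiSym (α' : ℤ) l :=
    G1_jac_swap (Nat.odd_iff.2 (by omega)) hα'8
  rw [jacobiSym.mul_left (b * h), jacobiSym.mul_left (x + y * σ)] at g1
  rw [jacobiSym.mul_left (x' + y' * σ), jacobiSym.mul_left (b * h)] at g2
  have k4 : jacobiSym (x' - y' * σ) l ^ 2 = 1 := by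
    rcases jacobiSym.trichotomy (x' - y' * σ) l with h1 | h1 | h1
    · rw [h1, mul_zero] at g2
      have h2 : (jacobiSym (b * h) l * jacobiSym (α' : ℤ) l) ^ 2 = 1 := by
        rw [mul_pow, k1, k2, one_mul]
      rw [← g2] at h2
      norm_num at h2
    · rw [h1]
      norm_num
    · rw [h1]
      norm_num
  have hres : jacobiSym (x + y * σ) l * jacobiSym (x' + y' * σ) l =
      jacobiSym (C + E * σ) l * jacobiSym (α' : ℤ) l := by
    calc jacobiSym (x + y * σ) l * jacobiSym (x' + y' * σ) l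
        = jacobiSym (x + y * σ) l * jacobiSym (x' + y' * σ) l *
            jacobiSym (x' - y' * σ) l ^ 2 := by rw [k4, mul_one]
      _ = (jacobiSym (x + y * σ) l * jacobiSym (x' - y' * σ) l) *
            (jacobiSym (x' + y' * σ) l * jacobiSym (x' - y' * σ) l) := by ring
      _ = jacobiSym (b * h) l ^ 2 * (jacobiSym (C + E * σ) l * jacobiSym (α' : ℤ) l) := by
        rw [← g1, g2]
        ring
      _ = jacobiSym (C + E * σ) l * jacobiSym (α' : ℤ) l := by rw [k1, one_mul]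
  rw [hres, f3, k3]
  have m1 := hprodZ fun q => jacobiSym (u + v * τ q) q
  have m2 := hprodZ' fun q => jacobiSym (u + v * τ q) q
  have m3 : (∏ q ∈ S ∩ S', jacobiSym (u + v * τ q) q) *
      ∏ q ∈ S ∩ S', jacobiSym (u + v * τ q) q = 1 := by
    rw [← Finset.prod_mul_distrib]
    refine Finset.prod_eq_one fun q hq => ?_
    rw [← pow_two]
    exact (hane q (Finset.mem_union_left _ (Finset.mem_inter.1 hq).1)).2
  rw [← m1, ← m2]
  calc (∏ q ∈ S \ S', jacobiSym (u + v * τ q) q) *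
        ((∏ q ∈ S' \ S, jacobiSym (u + v * τ q) q) * jacobiSym (α' : ℤ) l) *
          jacobiSym (α' : ℤ) l
      = (∏ q ∈ S \ S', jacobiSym (u + v * τ q) q) *
          (∏ q ∈ S' \ S, jacobiSym (u + v * τ q) q) * jacobiSym (α' : ℤ) l ^ 2 := by ring
    _ = (∏ q ∈ S \ S', jacobiSym (u + v * τ q) q) *
          (∏ q ∈ S' \ S, jacobiSym (u + v * τ q) q) *
          ((∏ q ∈ S ∩ S', jacobiSym (u + v * τ q) q) *
            ∏ q ∈ S ∩ S', jacobiSym (u + v * τ q) q) := by rw [k2, m3]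
    _ = _ := by ring

/-- the value `s'` or `s`, according to `(l / q)` -/
noncomputable def av (l : ℕ) (s s' : ℤ) (q : ℕ) : ℤ := if jacobiSym l q = 1 then s' else s

private theorem G5_prod (l : ℕ) (S : Finset ℕ) :
    ∏ q ∈ S, jacobiSym (q : ℤ) l = jacobiSym ((∏ q ∈ S, q : ℕ) : ℤ) l := by
  classical
  induction S using Finset.induction_on with
  | empty => simp [jacobiSym.one_left]
  | insert a S ha ih =>
    rw [Finset.prod_insert ha, Finset.prod_insert ha, ih, Nat.cast_mul, jacobiSym.mul_left]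

/-- MODULE G5 (the product of the values over a set of `k` primes).
Proof: `∏ = s' ^ (k - e) s ^ e`, `e` the number of `q` with `(l / q) = -1` (each `(l / q)` is `± 1`),
`(-1) ^ e = (l / ∏ q)`, `= (∏ q / l)` by reciprocity (`l = 1 mod 8`); `s s' = 1` or `-1`. -/
theorem avprod (l : ℕ) [Fact l.Prime] (hl : l % 8 = 1) (s s' : ℤ) (hs : s = 1 ∨ s = -1)
    (hs' : s' = 1 ∨ s' = -1) (S : Finset ℕ) (hS : ∀ q ∈ S, q.Prime ∧ q ≠ l ∧ q % 2 = 1) :
    ∏ q ∈ S, av l s s' q =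
      s' ^ S.card * (if s = s' then 1 else jacobiSym (∏ q ∈ S, q : ℕ) l) := by
  by_cases hss : s = s'
  · rw [if_pos hss, mul_one, Finset.prod_eq_pow_card]
    intro q _
    unfold av
    rw [hss, ite_self]
  · rw [if_neg hss, ← G5_prod, ← Finset.prod_const, ← Finset.prod_mul_distrib]
    refine Finset.prod_congr rfl fun q hq => ?_
    obtain ⟨hqp, hql, hq2⟩ := hS q hq
    have hqf : Fact q.Prime := ⟨hqp⟩
    have hlp : l.Prime := Fact.out
    have hnd : ¬ (q : ℤ) ∣ (l : ℤ) := by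
      intro h
      exact hql ((Nat.prime_dvd_prime_iff_eq hqp hlp).1 (Int.natCast_dvd_natCast.1 h))
    have hrec : jacobiSym (q : ℤ) l = jacobiSym (l : ℤ) q :=
      (jacobiSym.quadratic_reciprocity_one_mod_four (by omega) (Nat.odd_iff.2 hq2)).symm
    rw [hrec]
    unfold av
    rcases jpm q (l : ℤ) hnd with h | h
    · rw [if_pos h, h, mul_one]
    · rw [h, if_neg (by norm_num)]
      rcases hs with h1 | h1 <;> rcases hs' with h2 | h2 <;> subst h1 <;> subst h2 <;> simp at hss ⊢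

private theorem G6_pm {a b : ℤ} (ha : a = 1 ∨ a = -1) (hb : b = 1 ∨ b = -1) (h : a * b = 1) : a = b := by
  rcases ha with rfl | rfl <;> rcases hb with rfl | rfl <;> simp at h ⊢

private theorem G6_sq {a : ℤ} (ha : a = 1 ∨ a = -1) : a * a = 1 := by
  rcases ha with rfl | rfl <;> rfl

private theorem G6_half (p l : ℕ) [Fact l.Prime] (σ b x y : ℤ) (n : ℕ)
    (hσ2 : (l : ℤ) ∣ σ ^ 2 - p) (hlb : ¬ (l : ℤ) ∣ b) (hln : ¬ (l : ℤ) ∣ (n : ℤ))
    (hn : x ^ 2 - p * y ^ 2 = b * n) :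
    (jacobiSym (x + y * σ) l = 1 ∨ jacobiSym (x + y * σ) l = -1) ∧
    (jacobiSym (x + y * -σ) l = 1 ∨ jacobiSym (x + y * -σ) l = -1) ∧
    jacobiSym (x + y * σ) l * jacobiSym (x + y * -σ) l = jacobiSym b l * jacobiSym n l := by
  have hlp : Prime (l : ℤ) := Nat.prime_iff_prime_int.1 Fact.out
  have hd : (l : ℤ) ∣ (x + y * σ) * (x + y * -σ) - b * n := by
    rw [← hn]
    have : (x + y * σ) * (x + y * -σ) - (x ^ 2 - p * y ^ 2) = -(y ^ 2) * (σ ^ 2 - p) := by ring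
    rw [this]
    exact hσ2.mul_left _
  have hbn : ¬ (l : ℤ) ∣ b * n := by
    rw [hlp.dvd_mul]
    tauto
  have hprod : ¬ (l : ℤ) ∣ (x + y * σ) * (x + y * -σ) := by
    intro h
    exact hbn ((Int.dvd_iff_dvd_of_dvd_sub hd).1 h)
  rw [hlp.dvd_mul, not_or] at hprod
  refine ⟨jpm l _ hprod.1, jpm l _ hprod.2, ?_⟩
  rw [← jacobiSym.mul_left, ← jacobiSym.mul_left]
  exact jmod l _ _ hd

/-- MODULE G6 (the twisted root).
Proof: `gam` and `avprod` (twice, the same cardinality): with `a_q = av l s s' q` the product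
`((x + y σ) / l) ((x' + y' σ) / l)` is `1` if `s = s'` and `(n n' / l)` otherwise (`n = ∏ S`,
`n' = ∏ S'`).  Both symbols are `± 1`
(`(x + y σ) (x - y σ) = b n mod l`, `l ∤ b n`).  If `s = s'` this is the claim.  If `s ≠ s'`:
`((x - y σ) / l) = ((x + y σ) / l) (b n / l)` and the same for `x', y'`, so the product of
`((x - y σ) / l)` and `((x' - y' σ) / l)` is `(n n' / l) (b n / l) (b n' / l) = 1`. -/
theorem twist (p l : ℕ) [Fact p.Prime] [Fact l.Prime] (hl : l % 8 = 1) (hlp : l ≠ p)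
    (u v z σ : ℤ) (hu : u ^ 2 = p * v ^ 2 + l * z ^ 2) (huv : IsCoprime u v) (hz : z % 2 = 1)
    (hσ : (l : ℤ) ∣ u + v * σ) (hσ2 : (l : ℤ) ∣ σ ^ 2 - p) (S S' : Finset ℕ)
    (hcard : S.card = S'.card) (τ : ℕ → ℤ) (s s' : ℤ) (hs : s = 1 ∨ s = -1)
    (hs' : s' = 1 ∨ s' = -1)
    (hS : ∀ q ∈ S ∪ S', q.Prime ∧ q % 8 = 1 ∧ q ≠ l ∧ (q : ℤ) ∣ τ q ^ 2 - p ∧ ¬ (q : ℤ) ∣ z ∧
      jacobiSym (u + v * τ q) q = av l s s' q)
    (b x y x' y' : ℤ) (hb : b ≠ 0) (hlb : ¬ (l : ℤ) ∣ b)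
    (hn : x ^ 2 - p * y ^ 2 = b * (∏ q ∈ S, q : ℕ))
    (hn' : x' ^ 2 - p * y' ^ 2 = b * (∏ q ∈ S', q : ℕ)) (hx : b ^ 2 ∣ x - x')
    (hy : b ^ 2 ∣ y - y') (hc : ∀ q ∈ S, (q : ℤ) ∣ x + τ q * y)
    (hc' : ∀ q ∈ S', (q : ℤ) ∣ x' + τ q * y') :
    jacobiSym (x + y * (if s = s' then σ else -σ)) l =
      jacobiSym (x' + y' * (if s = s' then σ else -σ)) l ∧
    (jacobiSym (x + y * (if s = s' then σ else -σ)) l = 1 ∨
      jacobiSym (x + y * (if s = s' then σ else -σ)) l = -1) := by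
  have hlP : l.Prime := Fact.out
  have hlZ : Prime (l : ℤ) := Nat.prime_iff_prime_int.1 hlP
  have hnd : ∀ T : Finset ℕ, T ⊆ S ∪ S' → ¬ (l : ℤ) ∣ ((∏ q ∈ T, q : ℕ) : ℤ) := by
    intro T hT h
    rw [Int.natCast_dvd_natCast] at h
    obtain ⟨q, hq, hd⟩ := (Prime.dvd_finsetProd_iff hlP.prime _).1 h
    have h1 := hS q (hT hq)
    exact h1.2.2.1 ((Nat.prime_dvd_prime_iff_eq hlP h1.1).1 hd).symm
  have h1 := gam p l hl hlp u v z σ hu huv hz hσ hσ2 S S' τ
    (fun q hq => ⟨(hS q hq).1, (hS q hq).2.1, (hS q hq).2.2.1, (hS q hq).2.2.2.1, (hS q hq).2.2.2.2.1⟩)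
    b x y x' y' hb hlb hn hn' hx hy hc hc'
  have hp1 : ∏ q ∈ S, jacobiSym (u + v * τ q) q = ∏ q ∈ S, av l s s' q :=
    Finset.prod_congr rfl fun q hq => (hS q (Finset.mem_union_left _ hq)).2.2.2.2.2
  have hp2 : ∏ q ∈ S', jacobiSym (u + v * τ q) q = ∏ q ∈ S', av l s s' q :=
    Finset.prod_congr rfl fun q hq => (hS q (Finset.mem_union_right _ hq)).2.2.2.2.2
  rw [hp1, hp2, avprod l hl s s' hs hs' S (fun q hq => by
      have := hS q (Finset.mem_union_left _ hq); exact ⟨this.1, this.2.2.1, by omega⟩),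
    avprod l hl s s' hs hs' S' (fun q hq => by
      have := hS q (Finset.mem_union_right _ hq); exact ⟨this.1, this.2.2.1, by omega⟩), ← hcard] at h1
  have hpow : (s' ^ S.card) * (s' ^ S.card) = 1 := by
    rw [← mul_pow, G6_sq hs', one_pow]
  obtain ⟨hA, hA', hAA⟩ := G6_half p l σ b x y _ hσ2 hlb (hnd S Finset.subset_union_left) hn
  obtain ⟨hB, hB', hBB⟩ := G6_half p l σ b x' y' _ hσ2 hlb (hnd S' Finset.subset_union_right) hn'
  by_cases hss : s = s'
  · simp only [if_pos hss] at h1 ⊢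
    refine ⟨G6_pm hA hB ?_, hA⟩
    rw [h1]
    linear_combination hpow
  · simp only [if_neg hss] at h1 ⊢
    refine ⟨G6_pm hA' hB' ?_, hA'⟩
    set P := jacobiSym (x + y * σ) l
    set P' := jacobiSym (x' + y' * σ) l
    set Q := jacobiSym (x + y * -σ) l
    set Q' := jacobiSym (x' + y' * -σ) l
    set N := jacobiSym ((∏ q ∈ S, q : ℕ) : ℤ) l with hN
    set N' := jacobiSym ((∏ q ∈ S', q : ℕ) : ℤ) l with hN'
    set Bb := jacobiSym b l with hBb
    have hN2 : N * N = 1 := G6_sq (jpm l _ (hnd S Finset.subset_union_left))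
    have hN2' : N' * N' = 1 := G6_sq (jpm l _ (hnd S' Finset.subset_union_right))
    have hB2 : Bb * Bb = 1 := G6_sq (jpm l _ hlb)
    have h2 : P * P' = N * N' := by rw [h1]; linear_combination (N * N') * hpow
    have hP2 : P * P = 1 := G6_sq hA
    have hP2' : P' * P' = 1 := G6_sq hB
    -- `Q = P Bb N`, `Q' = P' Bb N'`
    have hQ : Q = P * Bb * N := by linear_combination P * hAA - Q * hP2
    have hQ' : Q' = P' * Bb * N' := by linear_combination P' * hBB - Q' * hP2'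
    have : Q * Q' = (P * P') * (Bb * Bb) * (N * N') := by rw [hQ, hQ']; ring
    rw [this, h2, hB2]
    linear_combination N' * N' * hN2 + hN2'

end Pool.Agent.Qnr
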