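import Pool.Agent.Qnr.Jac

/-!
# The symmetry of the symbol (modules L1 - L5)
-/

set_option autoImplicit false

namespace Pool.Agent.Qnr

open Finset

/-- Product of symbols which are all one. -/
private theorem L5_jac_all (c : ℤ) (a : ℕ) (ha : a ≠ 0) (h : ∀ r : ℕ, r.Prime → r ∣ a → jacobiSym c r = 1) :
    jacobiSym c a = 1 := by
  induction a using Nat.strong_induction_on with
  | _ a ih =>
    rcases Nat.eq_or_lt_of_le (Nat.one_le_iff_ne_zero.mpr ha) with h1 | h1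
    · rw [← h1]
      exact jacobiSym.one_right c
    · obtain ⟨b, hb⟩ := Nat.minFac_dvd a
      have hp : a.minFac.Prime := Nat.minFac_prime (by omega)
      have hb0 : b ≠ 0 := by
        rintro rfl
        omega
      have hba : b < a := by
        rw [hb]
        have := hp.two_le
        nlinarith [Nat.pos_of_ne_zero hb0]
      have e : jacobiSym c a = jacobiSym c (a.minFac * b) := by rw [← hb]
      rw [e, jacobiSym.mul_right' c hp.ne_zero hb0, h _ hp (Nat.minFac_dvd a), one_mul]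
      exact ih b hba hb0 (fun r hr hrb => h r hr (hrb.trans ⟨a.minFac, by rw [mul_comm]; exact hb⟩))

private theorem L5_jac_ne_zero (c : ℤ) (m : ℕ) (hc : Int.gcd c m = 1) : jacobiSym c m = 1 ∨ jacobiSym c m = -1 :=
  jacobiSym.eq_one_or_neg_one hc

private theorem L5_jac_sq (c : ℤ) (m : ℕ) (hc : Int.gcd c m = 1) : jacobiSym c m * jacobiSym c m = 1 := by
  rcases L5_jac_ne_zero c m hc with h | h <;> rw [h] <;> norm_num

/-- Only the primes with odd exponent matter. -/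
private theorem L5_jac_odd (c : ℤ) (m : ℕ) (hm : m ≠ 0) (hc : Int.gcd c m = 1)
    (h : ∀ r : ℕ, r.Prime → r ∣ m → Odd (m.factorization r) → jacobiSym c r = 1) : jacobiSym c m = 1 := by
  obtain ⟨a, b, hab, hsq⟩ := Nat.sq_mul_squarefree m
  have hb0 : b ≠ 0 := by
    rintro rfl
    simp at hab
    exact hm hab.symm
  have ha0 : a ≠ 0 := hsq.ne_zero
  rw [← hab, jacobiSym.mul_right' c (pow_ne_zero 2 hb0) ha0]
  have hcb : Int.gcd c b = 1 := by
    have h1 : b ∣ m := ⟨b * a, by rw [← hab]; ring⟩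
    exact Nat.Coprime.coprime_dvd_right h1 hc
  have h1 : jacobiSym c (b ^ 2) = 1 := by
    rw [sq, jacobiSym.mul_right' c hb0 hb0]
    exact L5_jac_sq c b hcb
  rw [h1, one_mul]
  apply L5_jac_all c a ha0
  intro r hr hra
  apply h r hr (hra.trans ⟨b ^ 2, by rw [← hab]; ring⟩)
  rw [← hab, Nat.factorization_mul (pow_ne_zero 2 hb0) ha0, Nat.factorization_pow, Finsupp.add_apply,
    Finsupp.smul_apply, smul_eq_mul]
  have h2 : a.factorization r = 1 := by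
    apply le_antisymm
    · exact hsq.natFactorization_le_one r
    · exact (hr.dvd_iff_one_le_factorization ha0).mp hra
  rw [h2]
  exact ⟨b.factorization r, rfl⟩

/-- Reciprocity in the form in which it is used. -/
private theorem L5_jac_recip (N : ℤ) (hN : N ≠ 0) (n : ℕ) (hn : n % 8 = 1) (hc : Int.gcd N n = 1)
    (h : ∀ r : ℕ, r.Prime → r ≠ 2 → (r : ℤ) ∣ N → Odd (N.natAbs.factorization r) → jacobiSym n r = 1) :
    jacobiSym N n = 1 := by
  have hn2 : Odd n := Nat.odd_iff.mpr (by omega)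
  obtain ⟨k, m, hm, hkm⟩ := Nat.exists_eq_two_pow_mul_odd (Int.natAbs_ne_zero.mpr hN)
  have hm0 : m ≠ 0 := by
    rintro rfl
    exact absurd hm (by decide)
  have h1 : jacobiSym (-1) n = 1 := by
    rw [jacobiSym.at_neg_one hn2, ZMod.χ₄_nat_one_mod_four (by omega)]
  have h2 : jacobiSym 2 n = 1 := by
    rw [jacobiSym.at_two hn2, ZMod.χ₈_nat_mod_eight n, hn]
    decide
  have h3 : jacobiSym (N.natAbs : ℤ) n = jacobiSym N n := by
    rcases Int.natAbs_eq N with h4 | h4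
    · rw [← h4]
    · have e : jacobiSym N n = jacobiSym (-1 * (N.natAbs : ℤ)) n := by
        congr 1
        rw [neg_one_mul]
        exact h4
      rw [e, jacobiSym.mul_left, h1, one_mul]
  have h4 : jacobiSym (N.natAbs : ℤ) n = jacobiSym (m : ℤ) n := by
    rw [hkm]
    push_cast
    rw [jacobiSym.mul_left, jacobiSym.pow_left, h2, one_pow, one_mul]
  have hcm : Nat.Coprime m n := by
    have h5 : m ∣ N.natAbs := ⟨2 ^ k, by rw [hkm]; ring⟩
    exact Nat.Coprime.coprime_dvd_left h5 (by simpa [Int.gcd] using hc)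
  rw [← h3, h4, ← jacobiSym.quadratic_reciprocity_one_mod_four (by omega : n % 4 = 1) hm]
  apply L5_jac_odd (n : ℤ) m hm0
  · rw [Int.gcd_natCast_natCast]
    exact hcm.symm
  · intro r hr hrm hodd
    have hr2 : r ≠ 2 := by
      rintro rfl
      have := Nat.odd_iff.mp hm
      omega
    apply h r hr hr2
    · have : r ∣ N.natAbs := hrm.trans ⟨2 ^ k, by rw [hkm]; ring⟩
      exact Int.natCast_dvd.mpr this
    · rw [hkm, Nat.factorization_mul (pow_ne_zero k two_ne_zero) hm0, Nat.factorization_pow, Finsupp.add_apply,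
        Finsupp.smul_apply, smul_eq_mul, Nat.Prime.factorization Nat.prime_two, Finsupp.single_eq_of_ne hr2, mul_zero,
        zero_add]
      exact hodd

/-- Anisotropy modulo `r`. -/
private theorem L5_anis (r : ℕ) (hr : r.Prime) (c X T : ℤ) (hc : jacobiSym c r = -1) (h : (r : ℤ) ∣ X ^ 2 - c * T ^ 2) :
    (r : ℤ) ∣ X ∧ (r : ℤ) ∣ T := by
  have : Fact r.Prime := ⟨hr⟩
  have hns := ZMod.nonsquare_of_jacobiSym_eq_neg_one hc
  have h1 : (X : ZMod r) ^ 2 = c * (T : ZMod r) ^ 2 := by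
    have h2 := (ZMod.intCast_zmod_eq_zero_iff_dvd _ r).mpr h
    push_cast at h2
    exact sub_eq_zero.mp h2
  have hT : (T : ZMod r) = 0 := by
    by_contra hT
    apply hns
    refine ⟨(X : ZMod r) / T, ?_⟩
    field_simp
    rw [← h1]
  have hX : (X : ZMod r) = 0 := by
    rw [hT] at h1
    simpa using h1
  exact ⟨(ZMod.intCast_zmod_eq_zero_iff_dvd _ r).mp hX, (ZMod.intCast_zmod_eq_zero_iff_dvd _ r).mp hT⟩

private theorem L5_anis_even (r : ℕ) (hr : r.Prime) (c : ℤ) (hc : jacobiSym c r = -1) :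
    ∀ (k : ℕ) (X T : ℤ), X.natAbs + T.natAbs ≤ k → X ^ 2 - c * T ^ 2 ≠ 0 →
      Even ((X ^ 2 - c * T ^ 2).natAbs.factorization r) := by
  intro k
  induction k with
  | zero =>
    intro X T h h0
    exfalso
    apply h0
    have hX : X = 0 := by omega
    have hT : T = 0 := by omega
    rw [hX, hT]
    ring
  | succ k ih =>
    intro X T h h0
    by_cases hd : (r : ℤ) ∣ X ^ 2 - c * T ^ 2
    · obtain ⟨⟨X', hX⟩, ⟨T', hT⟩⟩ := L5_anis r hr c X T hc hd
      have e : X ^ 2 - c * T ^ 2 = (r : ℤ) ^ 2 * (X' ^ 2 - c * T' ^ 2) := by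
        rw [hX, hT]
        ring
      have h0' : X' ^ 2 - c * T' ^ 2 ≠ 0 := by
        intro h1
        apply h0
        rw [e, h1, mul_zero]
      have hlt : X'.natAbs + T'.natAbs ≤ k := by
        rw [hX, hT, Int.natAbs_mul, Int.natAbs_mul, Int.natAbs_natCast] at h
        have h2 := hr.two_le
        have h3 : ¬ (X'.natAbs = 0 ∧ T'.natAbs = 0) := by
          rintro ⟨h4, h5⟩
          apply h0'
          have hX0 : X' = 0 := by omega
          have hT0 : T' = 0 := by omega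
          rw [hX0, hT0]
          ring
        have h4 : 2 * X'.natAbs ≤ r * X'.natAbs := Nat.mul_le_mul_right _ h2
        have h5 : 2 * T'.natAbs ≤ r * T'.natAbs := Nat.mul_le_mul_right _ h2
        omega
      have h6 := ih X' T' hlt h0'
      rw [e, Int.natAbs_mul, Int.natAbs_pow, Int.natAbs_natCast,
        Nat.factorization_mul (pow_ne_zero 2 hr.ne_zero) (Int.natAbs_ne_zero.mpr h0'), Nat.factorization_pow,
        Finsupp.add_apply, Finsupp.smul_apply, smul_eq_mul]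
      exact (even_two_mul _).add h6
    · rw [Nat.factorization_eq_zero_of_not_dvd]
      · exact Even.zero
      · intro h1
        exact hd (Int.natCast_dvd.mpr h1)

private theorem L5_gcd_of (a : ℤ) (m : ℕ) (h : ∀ q : ℕ, q.Prime → q ∣ m → ¬ (q : ℤ) ∣ a) : Int.gcd a m = 1 := by
  by_contra hc
  obtain ⟨q, hq, hqd⟩ := Nat.exists_prime_and_dvd hc
  have h1 : (q : ℤ) ∣ a := (Int.natCast_dvd_natCast.mpr hqd).trans (Int.gcd_dvd_left a m)
  have h2 : (q : ℤ) ∣ (m : ℤ) := (Int.natCast_dvd_natCast.mpr hqd).trans (Int.gcd_dvd_right a m)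
  exact h q hq (Int.natCast_dvd_natCast.mp h2) h1

private theorem L5_not_dvd_of_gcd (a : ℤ) (m : ℕ) (h : Int.gcd a m = 1) (q : ℕ) (hq : q.Prime) (hqm : q ∣ m) :
    ¬ (q : ℤ) ∣ a := by
  intro h1
  have h2 : (q : ℤ) ∣ (Int.gcd a m : ℤ) := Int.dvd_coe_gcd h1 (Int.natCast_dvd_natCast.mpr hqm)
  rw [h] at h2
  have h3 := Int.natCast_dvd_natCast.mp h2
  exact hq.one_lt.ne' (Nat.dvd_one.mp h3)

private theorem L5_jac_of_sq (m : ℕ) (M S : ℤ) (hc : Int.gcd M m = 1) (h : (m : ℤ) ∣ M - S ^ 2) : jacobiSym M m = 1 := by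
  have h1 : jacobiSym M m = jacobiSym (S ^ 2) m := by
    have h0 : S ^ 2 % (m : ℤ) = M % (m : ℤ) := Int.modEq_iff_dvd.mpr h
    rw [jacobiSym.mod_left M m, jacobiSym.mod_left (S ^ 2) m, h0]
  rw [h1, jacobiSym.pow_left]
  rcases L5_jac_ne_zero M m hc with h2 | h2
  · rw [h1, jacobiSym.pow_left] at h2
    exact h2
  · rw [h1, jacobiSym.pow_left] at h2
    nlinarith [sq_nonneg (jacobiSym S m)]

/-- A unit which is a quotient of squares. -/
private theorem L5_jac_quot (r : ℕ) (hr : r.Prime) (c X T : ℤ) (h : (r : ℤ) ∣ X ^ 2 - c * T ^ 2) (hT : ¬ (r : ℤ) ∣ T)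
    (hc : ¬ (r : ℤ) ∣ c) : jacobiSym c r = 1 := by
  have h1 : Int.gcd c r = 1 := L5_gcd_of c r fun q hq hqr => by
    rw [(Nat.prime_dvd_prime_iff_eq hq hr).mp hqr]
    exact hc
  rcases L5_jac_ne_zero c r h1 with h2 | h2
  · exact h2
  · exact absurd (L5_anis r hr c X T h2 h).2 hT

private theorem L5_prime_dvd_sq (q : ℕ) (hq : q.Prime) (a : ℤ) (h : (q : ℤ) ∣ a ^ 2) : (q : ℤ) ∣ a :=
  (Nat.prime_iff_prime_int.mp hq).dvd_of_dvd_pow h

private theorem L5_prime_dvd_mul (q : ℕ) (hq : q.Prime) (a b : ℤ) (h : (q : ℤ) ∣ a * b) : (q : ℤ) ∣ a ∨ (q : ℤ) ∣ b :=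
  (Nat.prime_iff_prime_int.mp hq).dvd_or_dvd h

/-- `q ∣ n`, `n` squarefree, `q ^ 2 ∣ n w ^ 2` implies `q ∣ w`. -/
private theorem L5_sqf_dvd (n : ℕ) (hn : Squarefree n) (q : ℕ) (hq : q.Prime) (w : ℤ) (h : (q : ℤ) ^ 2 ∣ n * w ^ 2) :
    (q : ℤ) ∣ w := by
  by_contra hw
  have h1 : ¬ q ∣ w.natAbs := fun h => hw (Int.natCast_dvd.mpr h)
  have h2 : q ^ 2 ∣ n * w.natAbs ^ 2 := by
    have h3 := Int.natAbs_dvd_natAbs.mpr h
    rwa [Int.natAbs_pow, Int.natAbs_natCast, Int.natAbs_mul, Int.natAbs_natCast, Int.natAbs_pow] at h3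
  have h3 : Nat.Coprime (q ^ 2) (w.natAbs ^ 2) := Nat.Coprime.pow 2 2 ((Nat.Prime.coprime_iff_not_dvd hq).mpr h1)
  have h4 : q ^ 2 ∣ n := h3.dvd_of_dvd_mul_right h2
  rw [sq] at h4
  exact hq.one_lt.ne' (Nat.isUnit_iff.mp (hn q h4))

/-- **(L5_R2).** -/
private theorem L5_R2 (p n D : ℕ) (hp : p.Prime) (hp8 : p % 8 = 1) (hn8 : n % 8 = 1)
    (hpn : ¬ p ∣ n) (hpD : ¬ p ∣ D) (hnD : Nat.Coprime n D) (hnsq : Squarefree n)
    (A B z x w y t r : ℤ)
    (hAB : IsCoprime A B) (h1 : A ^ 2 - p * B ^ 2 = D * z ^ 2)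
    (hprim : ∀ g : ℕ, g.Prime → (g : ℤ) ∣ x → (g : ℤ) ∣ w → ¬ (g : ℤ) ∣ y)
    (h2 : x ^ 2 - n * w ^ 2 = D * y ^ 2) (hy : ¬ (p : ℤ) ∣ y) (hw : ¬ (p : ℤ) ∣ w)
    (ht : (n : ℤ) ∣ t ^ 2 - p) (hr : (p : ℤ) ∣ r ^ 2 - n)
    (hnz : ∀ q : ℕ, q.Prime → q ∣ n → ¬ (q : ℤ) ∣ z)
    (hqN : ∀ q : ℕ, q.Prime → q ∣ n → ¬ (q : ℤ) ∣ z * x + y * A) :
    jacobiSym (A + B * t) n = jacobiSym (x + w * r) p := by
  have hpi : Prime (p : ℤ) := Nat.prime_iff_prime_int.mp hp
  have hcop : ∀ q : ℕ, q.Prime → (q : ℤ) ∣ A → ¬ (q : ℤ) ∣ B := by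
    intro q hq hA hB
    have := hAB.isUnit_of_dvd' hA hB
    exact (Nat.prime_iff_prime_int.mp hq).not_isUnit this
  have hpn' : ¬ (p : ℤ) ∣ (n : ℤ) := fun h => hpn (Int.natCast_dvd_natCast.mp h)
  have hpD' : ¬ (p : ℤ) ∣ (D : ℤ) := fun h => hpD (Int.natCast_dvd_natCast.mp h)
  -- F1
  have hpz : ¬ (p : ℤ) ∣ z := by
    rintro ⟨z', hz'⟩
    have h3 : (p : ℤ) ∣ A ^ 2 := ⟨B ^ 2 + D * p * z' ^ 2, by rw [hz'] at h1; linear_combination h1⟩
    obtain ⟨A', hA'⟩ := hpi.dvd_of_dvd_pow h3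
    have h4 : (p : ℤ) ∣ B ^ 2 := by
      refine ⟨A' ^ 2 - D * z' ^ 2, ?_⟩
      have h5 : (p : ℤ) * B ^ 2 = p * (p * (A' ^ 2 - D * z' ^ 2)) := by
        rw [hz', hA'] at h1
        linear_combination -h1
      exact mul_left_cancel₀ hpi.ne_zero h5
    exact hcop p hp ⟨A', hA'⟩ (hpi.dvd_of_dvd_pow h4)
  -- F2
  have hqy : ∀ q : ℕ, q.Prime → q ∣ n → ¬ (q : ℤ) ∣ y := by
    intro q hq hqn hqy
    have hqn' : (q : ℤ) ∣ (n : ℤ) := Int.natCast_dvd_natCast.mpr hqn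
    have h3 : (q : ℤ) ∣ x ^ 2 := by
      have e : x ^ 2 = n * w ^ 2 + D * y ^ 2 := by linarith
      rw [e]
      exact dvd_add (hqn'.mul_right _) ((hqy.pow two_ne_zero).mul_left _)
    have h4 : (q : ℤ) ∣ x := L5_prime_dvd_sq q hq x h3
    have h5 : (q : ℤ) ^ 2 ∣ n * w ^ 2 := by
      have e : (n : ℤ) * w ^ 2 = x ^ 2 - D * y ^ 2 := by linarith
      rw [e]
      exact dvd_sub (pow_dvd_pow_of_dvd h4 2) ((pow_dvd_pow_of_dvd hqy 2).mul_left _)
    exact hprim q hq h4 (L5_sqf_dvd n hnsq q hq w h5) hqy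
  set N : ℤ := z * x + y * A with hN
  set N' : ℤ := z * x - y * A with hN'
  have hNN : N * N' = n * (z * w) ^ 2 - p * (y * B) ^ 2 := by
    rw [hN, hN']
    linear_combination z ^ 2 * h2 - y ^ 2 * h1
  -- F4
  have key : ∀ M : ℤ, M ∣ N * N' → ¬ (p : ℤ) ∣ M := by
    intro M hM hpM
    have h3 : (p : ℤ) ∣ n * (z * w) ^ 2 := by
      have h4 : (p : ℤ) ∣ n * (z * w) ^ 2 - p * (y * B) ^ 2 := by rw [← hNN]; exact hpM.trans hM
      have h5 := dvd_add h4 (dvd_mul_right (p : ℤ) ((y * B) ^ 2))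
      rwa [sub_add_cancel] at h5
    rcases hpi.dvd_or_dvd h3 with h4 | h4
    · exact hpn' h4
    · rcases hpi.dvd_or_dvd (hpi.dvd_of_dvd_pow h4) with h5 | h5
      · exact hpz h5
      · exact hw h5
  have hpN : ¬ (p : ℤ) ∣ N := key N (dvd_mul_right _ _)
  have hpN' : ¬ (p : ℤ) ∣ N' := key N' (dvd_mul_left _ _)
  have hN0 : N ≠ 0 := fun h => hpN (by rw [h]; exact dvd_zero _)
  have hN0' : N' ≠ 0 := fun h => hpN' (by rw [h]; exact dvd_zero _)
  have hgN : Int.gcd N n = 1 := L5_gcd_of N n hqN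
  have hgNp : Int.gcd N p = 1 := L5_gcd_of N p fun q hq hqp => by
    rw [(Nat.prime_dvd_prime_iff_eq hq hp).mp hqp]
    exact hpN
  -- F8
  have hJN : jacobiSym N n * jacobiSym N p = 1 := by
    rw [← jacobiSym.mul_right' N (by omega) hp.ne_zero]
    apply L5_jac_recip N hN0 (n * p)
    · rw [Nat.mul_mod, hn8, hp8]
    · apply L5_gcd_of
      intro q hq hqnp
      rcases hq.dvd_mul.mp hqnp with h3 | h3
      · exact hqN q hq h3
      · rw [(Nat.prime_dvd_prime_iff_eq hq hp).mp h3]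
        exact hpN
    · intro g hg hg2 hgN hodd
      have hgnp : ¬ (g : ℤ) ∣ ((n * p : ℕ) : ℤ) := by
        intro h3
        rcases hg.dvd_mul.mp (Int.natCast_dvd_natCast.mp h3) with h4 | h4
        · exact hqN g hg h4 hgN
        · rw [(Nat.prime_dvd_prime_iff_eq hg hp).mp h4] at hgN
          exact hpN hgN
      have hgn : ¬ (g : ℤ) ∣ (n : ℤ) := fun h3 => hgnp (by push_cast; exact h3.mul_right _)
      have hgp : ¬ (g : ℤ) ∣ (p : ℤ) := fun h3 => hgnp (by push_cast; exact h3.mul_left _)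
      have hgc : Int.gcd ((n * p : ℕ) : ℤ) g = 1 := L5_gcd_of _ g fun q hq hqg => by
        rw [(Nat.prime_dvd_prime_iff_eq hq hg).mp hqg]
        exact hgnp
      rcases L5_jac_ne_zero _ g hgc with h3 | h3
      · exact h3
      exfalso
      have e : (n : ℤ) * (N * N') = ((n : ℤ) * (z * w)) ^ 2 - ((n * p : ℕ) : ℤ) * (y * B) ^ 2 := by
        rw [hNN]
        push_cast
        ring
      have hn0 : (n : ℤ) ≠ 0 := by
        intro h4
        apply hgn
        rw [h4]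
        exact dvd_zero _
      have h4 := L5_anis_even g hg _ h3 _ (n * (z * w)) (y * B) le_rfl (by
        rw [← e]
        exact mul_ne_zero hn0 (mul_ne_zero hN0 hN0'))
      rw [← e, Int.natAbs_mul, Int.natAbs_mul, Nat.factorization_mul (Int.natAbs_ne_zero.mpr hn0)
        (mul_ne_zero (Int.natAbs_ne_zero.mpr hN0) (Int.natAbs_ne_zero.mpr hN0')),
        Nat.factorization_mul (Int.natAbs_ne_zero.mpr hN0) (Int.natAbs_ne_zero.mpr hN0'), Finsupp.add_apply,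
        Finsupp.add_apply, Nat.factorization_eq_zero_of_not_dvd (fun h5 => hgn (Int.natCast_dvd.mpr h5)), zero_add] at h4
      have h5 : Odd (N'.natAbs.factorization g) := by
        rcases Nat.even_or_odd (N'.natAbs.factorization g) with h6 | h6
        · exact absurd h4 (Nat.not_even_iff_odd.mpr (hodd.add_even h6))
        · exact h6
      have hgN' : (g : ℤ) ∣ N' := by
        by_contra h6
        rw [Nat.factorization_eq_zero_of_not_dvd (fun h7 => h6 (Int.natCast_dvd.mpr h7))] at h5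
        exact absurd h5 (by decide)
      have hg2' : ¬ (g : ℤ) ∣ 2 := by
        intro h6
        have h7 : g ∣ 2 := Int.natCast_dvd_natCast.mp (by exact_mod_cast h6)
        exact hg2 ((Nat.prime_dvd_prime_iff_eq hg Nat.prime_two).mp h7)
      have hzx : (g : ℤ) ∣ z * x := by
        have h6 : (g : ℤ) ∣ 2 * (z * x) := by
          have h7 := dvd_add hgN hgN'
          have e2 : N + N' = 2 * (z * x) := by rw [hN, hN']; ring
          rwa [e2] at h7
        exact (L5_prime_dvd_mul g hg _ _ h6).resolve_left hg2'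
      have hyA : (g : ℤ) ∣ y * A := by
        have h6 : (g : ℤ) ∣ 2 * (y * A) := by
          have h7 := dvd_sub hgN hgN'
          have e2 : N - N' = 2 * (y * A) := by rw [hN, hN']; ring
          rwa [e2] at h7
        exact (L5_prime_dvd_mul g hg _ _ h6).resolve_left hg2'
      obtain ⟨hzw, hyB⟩ := L5_anis g hg _ _ _ h3 (by rw [← e]; exact (hgN.mul_right _).mul_left _)
      have hzw' : (g : ℤ) ∣ z * w := (L5_prime_dvd_mul g hg _ _ hzw).resolve_left hgn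
      have hgy : (g : ℤ) ∣ y := by
        by_contra hgy
        have h6 := (L5_prime_dvd_mul g hg _ _ hyA).resolve_left hgy
        have h7 := (L5_prime_dvd_mul g hg _ _ hyB).resolve_left hgy
        exact hcop g hg h6 h7
      have hgz : (g : ℤ) ∣ z := by
        by_contra hgz
        have h6 := (L5_prime_dvd_mul g hg _ _ hzx).resolve_left hgz
        have h7 := (L5_prime_dvd_mul g hg _ _ hzw').resolve_left hgz
        exact hprim g hg h6 h7 hgy
      have hgw : ¬ (g : ℤ) ∣ w := by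
        intro h6
        have h7 : (g : ℤ) ∣ x ^ 2 := by
          have e2 : x ^ 2 = n * w ^ 2 + D * y ^ 2 := by linarith
          rw [e2]
          exact dvd_add ((h6.pow two_ne_zero).mul_left _) ((hgy.pow two_ne_zero).mul_left _)
        exact hprim g hg (L5_prime_dvd_sq g hg _ h7) h6 hgy
      have hgB : ¬ (g : ℤ) ∣ B := by
        intro h6
        have h7 : (g : ℤ) ∣ A ^ 2 := by
          have e2 : A ^ 2 = p * B ^ 2 + D * z ^ 2 := by linarith
          rw [e2]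
          exact dvd_add ((h6.pow two_ne_zero).mul_left _) ((hgz.pow two_ne_zero).mul_left _)
        exact hcop g hg (L5_prime_dvd_sq g hg _ h7) h6
      have hJn : jacobiSym n g = 1 := L5_jac_quot g hg n x w (by rw [h2]; exact (hgy.pow two_ne_zero).mul_left _) hgw hgn
      have hJp : jacobiSym p g = 1 := L5_jac_quot g hg p A B (by rw [h1]; exact (hgz.pow two_ne_zero).mul_left _) hgB hgp
      have h8 : jacobiSym ((n * p : ℕ) : ℤ) g = 1 := by
        push_cast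
        rw [jacobiSym.mul_left, hJn, hJp, one_mul]
      rw [h8] at h3
      norm_num at h3
  -- F9
  have hz0 : z ≠ 0 := fun h => hpz (by rw [h]; exact dvd_zero _)
  have hJz : jacobiSym z p = 1 := by
    apply L5_jac_recip z hz0 p hp8
    · apply L5_gcd_of
      intro q hq hqp
      rw [(Nat.prime_dvd_prime_iff_eq hq hp).mp hqp]
      exact hpz
    · intro g hg _ hgz _
      have hgp : ¬ (g : ℤ) ∣ (p : ℤ) := by
        intro h3
        rw [(Nat.prime_dvd_prime_iff_eq hg hp).mp (Int.natCast_dvd_natCast.mp h3)] at hgz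
        exact hpz hgz
      have hgB : ¬ (g : ℤ) ∣ B := by
        intro h6
        have h7 : (g : ℤ) ∣ A ^ 2 := by
          have e2 : A ^ 2 = p * B ^ 2 + D * z ^ 2 := by linarith
          rw [e2]
          exact dvd_add ((h6.pow two_ne_zero).mul_left _) ((hgz.pow two_ne_zero).mul_left _)
        exact hcop g hg (L5_prime_dvd_sq g hg _ h7) h6
      exact L5_jac_quot g hg p A B (by rw [h1]; exact (hgz.pow two_ne_zero).mul_left _) hgB hgp
  have hy0 : y ≠ 0 := fun h => hy (by rw [h]; exact dvd_zero _)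
  have hJy : jacobiSym y n = 1 := by
    apply L5_jac_recip y hy0 n hn8 (L5_gcd_of y n hqy)
    intro g hg _ hgy _
    have hgn : ¬ (g : ℤ) ∣ (n : ℤ) := fun h3 => hqy g hg (Int.natCast_dvd_natCast.mp h3) hgy
    have hgw : ¬ (g : ℤ) ∣ w := by
      intro h6
      have h7 : (g : ℤ) ∣ x ^ 2 := by
        have e2 : x ^ 2 = n * w ^ 2 + D * y ^ 2 := by linarith
        rw [e2]
        exact dvd_add ((h6.pow two_ne_zero).mul_left _) ((hgy.pow two_ne_zero).mul_left _)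
      exact hprim g hg (L5_prime_dvd_sq g hg _ h7) h6 hgy
    exact L5_jac_quot g hg n x w (by rw [h2]; exact (hgy.pow two_ne_zero).mul_left _) hgw hgn
  have h2p : jacobiSym 2 p = 1 := by
    rw [jacobiSym.at_two (Nat.odd_iff.mpr (by omega)), ZMod.χ₈_nat_mod_eight p, hp8]
    decide
  have h2n : jacobiSym 2 n = 1 := by
    rw [jacobiSym.at_two (Nat.odd_iff.mpr (by omega)), ZMod.χ₈_nat_mod_eight n, hn8]
    decide
  have hp2 : ¬ (p : ℤ) ∣ 2 := by
    intro h3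
    have h4 : p ∣ 2 := Int.natCast_dvd_natCast.mp (by exact_mod_cast h3)
    have := (Nat.prime_dvd_prime_iff_eq hp Nat.prime_two).mp h4
    omega
  -- mod p
  have hxr : ¬ (p : ℤ) ∣ x + w * r := by
    intro h3
    have h4 : (p : ℤ) ∣ D * y ^ 2 := by
      have e : (D : ℤ) * y ^ 2 = (x + w * r) * (x - w * r) + w ^ 2 * (r ^ 2 - n) := by linear_combination -h2
      rw [e]
      exact dvd_add (h3.mul_right _) (hr.mul_left _)
    rcases hpi.dvd_or_dvd h4 with h5 | h5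
    · exact hpD' h5
    · exact hy (hpi.dvd_of_dvd_pow h5)
  have hgp : Int.gcd (2 * (N * (z * (x + w * r)))) p = 1 := L5_gcd_of _ p fun q hq hqp => by
    rw [(Nat.prime_dvd_prime_iff_eq hq hp).mp hqp]
    intro h3
    rcases hpi.dvd_or_dvd h3 with h4 | h4
    · exact hp2 h4
    · rcases hpi.dvd_or_dvd h4 with h5 | h5
      · exact hpN h5
      · rcases hpi.dvd_or_dvd h5 with h6 | h6
        · exact hpz h6
        · exact hxr h6
  have hJ1 := L5_jac_of_sq p (2 * (N * (z * (x + w * r)))) (N + z * w * r) hgp (by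
    have e : 2 * (N * (z * (x + w * r))) - (N + z * w * r) ^ 2 = p * -((y * B) ^ 2) + (r ^ 2 - n) * -((z * w) ^ 2) := by
      rw [hN]
      linear_combination z ^ 2 * h2 - y ^ 2 * h1
    rw [e]
    exact dvd_add (dvd_mul_right _ _) (hr.mul_right _))
  rw [jacobiSym.mul_left, jacobiSym.mul_left, jacobiSym.mul_left, h2p, hJz, one_mul, one_mul] at hJ1
  -- mod n
  have hgn : Int.gcd (2 * (N * (y * (A + B * t)))) n = 1 := L5_gcd_of _ n fun q hq hqn => by
    intro h3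
    rcases L5_prime_dvd_mul q hq _ _ h3 with h4 | h4
    · have h5 : q ∣ 2 := Int.natCast_dvd_natCast.mp (by exact_mod_cast h4)
      have h6 := (Nat.prime_dvd_prime_iff_eq hq Nat.prime_two).mp h5
      rw [h6] at hqn
      omega
    · rcases L5_prime_dvd_mul q hq _ _ h4 with h5 | h5
      · exact hqN q hq hqn h5
      · rcases L5_prime_dvd_mul q hq _ _ h5 with h6 | h6
        · exact hqy q hq hqn h6
        · have h7 : (q : ℤ) ∣ D * z ^ 2 := by
            have e : (D : ℤ) * z ^ 2 = (A + B * t) * (A - B * t) + B ^ 2 * (t ^ 2 - p) := by linear_combination -h1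
            rw [e]
            exact dvd_add (h6.mul_right _) (((Int.natCast_dvd_natCast.mpr hqn).trans ht).mul_left _)
          rcases L5_prime_dvd_mul q hq _ _ h7 with h8 | h8
          · have h9 := Int.natCast_dvd_natCast.mp h8
            have h10 := Nat.dvd_gcd hqn h9
            rw [hnD] at h10
            exact hq.one_lt.ne' (Nat.dvd_one.mp h10)
          · exact hnz q hq hqn (L5_prime_dvd_sq q hq _ h8)
  have hJ2 := L5_jac_of_sq n (2 * (N * (y * (A + B * t)))) (N + y * B * t) hgn (by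
    have e : 2 * (N * (y * (A + B * t))) - (N + y * B * t) ^ 2 = n * -((z * w) ^ 2) + (t ^ 2 - p) * -((y * B) ^ 2) := by
      rw [hN]
      linear_combination -z ^ 2 * h2 + y ^ 2 * h1
    rw [e]
    exact dvd_add (dvd_mul_right _ _) (ht.mul_right _))
  rw [jacobiSym.mul_left, jacobiSym.mul_left, jacobiSym.mul_left, h2n, hJy, one_mul, one_mul] at hJ2
  rcases L5_jac_ne_zero N n hgN with h3 | h3 <;> rcases L5_jac_ne_zero N p hgNp with h4 | h4
  · rw [h3, one_mul] at hJ2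
    rw [h4, one_mul] at hJ1
    rw [hJ1, hJ2]
  · rw [h3, h4] at hJN
    norm_num at hJN
  · rw [h3, h4] at hJN
    norm_num at hJN
  · rw [h3] at hJ2
    rw [h4] at hJ1
    linarith

/-- MODULE L1.  `X ^ 2 - D1 Y ^ 2 = U ^ 2 - D2 V ^ 2`, no prime divides all of `X, Y, U, V`,
`W = X + U` coprime to `D1 D2 = 1 mod 8`.  Then `(W / D1 D2) = 1`.
Proof: `jrec8` with `D = D1 D2`.  Let `k` be an odd prime with odd exponent in `W`;
`W (X - U) = D1 Y ^ 2 - D2 V ^ 2`, and `k ∤ D1 D2`.  If `k ∤ Y` or `k ∤ V` then both (as `k ∤ D1 D2`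
and `D1 Y ^ 2 = D2 V ^ 2 mod k`) and `D1 D2 = (D1 Y / V) ^ 2 mod k`, so `(D1 D2 / k) = 1`.  Otherwise
`k ∣ Y, V`, so `k ∤ X` or `k ∤ U`, and `X = -U mod k`, so `k ∤ X - U` (`k` odd) and the exponent
`e` of `k` in `D1 Y ^ 2 - D2 V ^ 2` is odd (in particular this number is not `0`).  Write
`Y = k ^ a Y'`, `V = k ^ b V'` (if `Y = 0` or `V = 0` or `a ≠ b` the exponent is even: `2 min (a, b)`);
so `a = b`, and `k ∣ D1 Y' ^ 2 - D2 V' ^ 2`, `k ∤ Y' V'`: `(D1 D2 / k) = 1`. -/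
theorem symW (D1 D2 : ℕ) (h8 : (D1 * D2) % 8 = 1) (X Y U V : ℤ)
    (h : X ^ 2 - D1 * Y ^ 2 = U ^ 2 - D2 * V ^ 2)
    (hg : ∀ k : ℕ, k.Prime → ¬ ((k : ℤ) ∣ X ∧ (k : ℤ) ∣ Y ∧ (k : ℤ) ∣ U ∧ (k : ℤ) ∣ V))
    (hW : X + U ≠ 0) (hc : Int.gcd (X + U) (D1 * D2 : ℕ) = 1) :
    jacobiSym (X + U) (D1 * D2) = 1 := by
  have hgAll := hg
  clear hg
  have hn0 : D1 * D2 ≠ 0 := by
    intro h0
    rw [h0] at h8
    omega
  have hD1 : D1 ≠ 0 := fun h0 => hn0 (by rw [h0, zero_mul])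
  apply L5_jac_recip (X + U) hW (D1 * D2) h8 hc
  intro g hg hg2 hgW hodd
  have hgn : ¬ (g : ℤ) ∣ ((D1 * D2 : ℕ) : ℤ) := fun h1 =>
    L5_not_dvd_of_gcd _ _ hc g hg (Int.natCast_dvd_natCast.mp h1) hgW
  have hgc : Int.gcd ((D1 * D2 : ℕ) : ℤ) g = 1 := L5_gcd_of _ g fun q hq hqg => by
    rw [(Nat.prime_dvd_prime_iff_eq hq hg).mp hqg]
    exact hgn
  rcases L5_jac_ne_zero _ g hgc with h3 | h3
  · exact h3
  exfalso
  have hgD1 : ¬ (g : ℤ) ∣ (D1 : ℤ) := fun h1 => hgn (by push_cast; exact h1.mul_right _)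
  have e : (D1 : ℤ) * ((X + U) * (X - U)) = ((D1 : ℤ) * Y) ^ 2 - ((D1 * D2 : ℕ) : ℤ) * V ^ 2 := by
    push_cast
    linear_combination (D1 : ℤ) * h
  have hg2' : ¬ (g : ℤ) ∣ 2 := by
    intro h6
    have h7 : g ∣ 2 := Int.natCast_dvd_natCast.mp (by exact_mod_cast h6)
    exact hg2 ((Nat.prime_dvd_prime_iff_eq hg Nat.prime_two).mp h7)
  obtain ⟨hY, hV⟩ := L5_anis g hg _ _ _ h3 (by rw [← e]; exact (hgW.mul_right _).mul_left _)
  have hY' : (g : ℤ) ∣ Y := (L5_prime_dvd_mul g hg _ _ hY).resolve_left hgD1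
  have hfin : (g : ℤ) ∣ X - U → False := by
    intro h4
    have h5 : (g : ℤ) ∣ 2 * X := by
      have := dvd_add hgW h4
      have e2 : X + U + (X - U) = 2 * X := by ring
      rwa [e2] at this
    have h6 : (g : ℤ) ∣ 2 * U := by
      have := dvd_sub hgW h4
      have e2 : X + U - (X - U) = 2 * U := by ring
      rwa [e2] at this
    exact hgAll g hg ⟨(L5_prime_dvd_mul g hg _ _ h5).resolve_left hg2', hY',
      (L5_prime_dvd_mul g hg _ _ h6).resolve_left hg2', hV⟩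
  have hD1z : (D1 : ℤ) ≠ 0 := by exact_mod_cast hD1
  by_cases h0 : X - U = 0
  · apply hfin
    rw [h0]
    exact dvd_zero _
  · have h4 := L5_anis_even g hg _ h3 _ ((D1 : ℤ) * Y) V le_rfl (by
      rw [← e]
      exact mul_ne_zero hD1z (mul_ne_zero hW h0))
    rw [← e, Int.natAbs_mul, Int.natAbs_mul, Nat.factorization_mul (Int.natAbs_ne_zero.mpr hD1z)
      (mul_ne_zero (Int.natAbs_ne_zero.mpr hW) (Int.natAbs_ne_zero.mpr h0)),
      Nat.factorization_mul (Int.natAbs_ne_zero.mpr hW) (Int.natAbs_ne_zero.mpr h0), Finsupp.add_apply,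
      Finsupp.add_apply, Nat.factorization_eq_zero_of_not_dvd (fun h5 => hgD1 (Int.natCast_dvd.mpr h5)), zero_add] at h4
    have h5 : Odd ((X - U).natAbs.factorization g) := by
      rcases Nat.even_or_odd ((X - U).natAbs.factorization g) with h6 | h6
      · exact absurd h4 (Nat.not_even_iff_odd.mpr (hodd.add_even h6))
      · exact h6
    apply hfin
    by_contra h6
    rw [Nat.factorization_eq_zero_of_not_dvd (fun h7 => h6 (Int.natCast_dvd.mpr h7))] at h5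
    exact absurd h5 (by decide)

/-- MODULE L2 (removing the common factor of `z` and `y`).
Proof: `g = gcd (z, y) > 0`, `z = g z1`, `y = g y1`; take `X = z1 x`, `Y = z1 w`, `U = y1 u`,
`V = y1 v`; both sides are `m z1 ^ 2 y1 ^ 2 g ^ 2`.  If a prime `k` divides `X, Y, U, V`: `k ∤ z1` or
`k ∤ y1` (coprime), so `k ∣ x, w` or `k ∣ u, v`: no. -/
theorem symX (d p m : ℕ) (x w y u v z : ℤ) (hx : x ^ 2 = d * w ^ 2 + m * y ^ 2)
    (hxw : IsCoprime x w) (hu : u ^ 2 = p * v ^ 2 + m * z ^ 2) (huv : IsCoprime u v)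
    (hy : y ≠ 0) : ∃ z1 y1 : ℤ, z1 ∣ z ∧ y1 ∣ y ∧
      (z1 * x) ^ 2 - d * (z1 * w) ^ 2 = (y1 * u) ^ 2 - p * (y1 * v) ^ 2 ∧
      ∀ k : ℕ, k.Prime → ¬ ((k : ℤ) ∣ z1 * x ∧ (k : ℤ) ∣ z1 * w ∧ (k : ℤ) ∣ y1 * u ∧
        (k : ℤ) ∣ y1 * v) := by
  obtain ⟨g, z1, y1, hgz, hgy, hco⟩ : ∃ g z1 y1 : ℤ, z = g * z1 ∧ y = g * y1 ∧ IsCoprime z1 y1 := by
    have hne : z ≠ 0 ∨ y ≠ 0 := Or.inr hy
    have hg0 : 0 < Int.gcd z y := Int.gcd_pos_iff.mpr hne
    obtain ⟨z1, y1, h1, h2, h3⟩ := Int.exists_gcd_one hg0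
    exact ⟨Int.gcd z y, z1, y1, by linarith [mul_comm z1 (Int.gcd z y : ℤ)], by linarith [mul_comm y1 (Int.gcd z y : ℤ)],
      Int.isCoprime_iff_gcd_eq_one.mpr h1⟩
  have hg0 : g ≠ 0 := by
    rintro rfl
    apply hy
    rw [hgy, zero_mul]
  refine ⟨z1, y1, ⟨g, by rw [hgz]; ring⟩, ⟨g, by rw [hgy]; ring⟩, ?_, ?_⟩
  · rw [hgz] at hu
    rw [hgy] at hx
    linear_combination z1 ^ 2 * hx - y1 ^ 2 * hu
  · rintro k hk ⟨h1, h2, h3, h4⟩
    have hkk := Nat.prime_iff_prime_int.mp hk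
    by_cases hz : (k : ℤ) ∣ z1
    · have hy1 : ¬ (k : ℤ) ∣ y1 := fun h5 => hkk.not_isUnit (hco.isUnit_of_dvd' hz h5)
      have h6 := (L5_prime_dvd_mul k hk _ _ h3).resolve_left hy1
      have h7 := (L5_prime_dvd_mul k hk _ _ h4).resolve_left hy1
      exact hkk.not_isUnit (huv.isUnit_of_dvd' h6 h7)
    · have h6 := (L5_prime_dvd_mul k hk _ _ h1).resolve_left hz
      have h7 := (L5_prime_dvd_mul k hk _ _ h2).resolve_left hz
      exact hkk.not_isUnit (hxw.isUnit_of_dvd' h6 h7)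

/-- MODULE L3 (divisibilities).  In a primitive solution of `u ^ 2 = p v ^ 2 + m z ^ 2` a prime
dividing the (squarefree at that prime) coefficient `p` and not `m` does not divide `u` nor `z`.
Here: `q` prime, `q ∣ D`, `¬ q ^ 2 ∣ D`, `q ∤ m`.
Proof: `q ∣ u` iff `q ∣ z` (mod `q`: `u ^ 2 = m z ^ 2`).  If so `q ^ 2 ∣ D v ^ 2`, so `q ∣ v ^ 2`
(as `q ^ 2 ∤ D`), so `q ∣ v`: against `gcd (u, v) = 1`. -/
theorem notdvd (D m q : ℕ) [Fact q.Prime] (hqD : q ∣ D) (hqD2 : ¬ q ^ 2 ∣ D) (hqm : ¬ q ∣ m)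
    (u v z : ℤ) (hu : u ^ 2 = D * v ^ 2 + m * z ^ 2) (huv : IsCoprime u v) :
    ¬ (q : ℤ) ∣ u ∧ ¬ (q : ℤ) ∣ z := by
  have hq : q.Prime := Fact.out
  have hqq := Nat.prime_iff_prime_int.mp hq
  have hqD' : (q : ℤ) ∣ (D : ℤ) := Int.natCast_dvd_natCast.mpr hqD
  have hqm' : ¬ (q : ℤ) ∣ (m : ℤ) := fun h => hqm (Int.natCast_dvd_natCast.mp h)
  have huz : (q : ℤ) ∣ u → (q : ℤ) ∣ z := by
    intro h1
    have h2 : (q : ℤ) ∣ m * z ^ 2 := by
      have e : (m : ℤ) * z ^ 2 = u ^ 2 - D * v ^ 2 := by linarith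
      rw [e]
      exact dvd_sub (h1.pow two_ne_zero) (hqD'.mul_right _)
    exact L5_prime_dvd_sq q hq _ ((L5_prime_dvd_mul q hq _ _ h2).resolve_left hqm')
  have hzu : (q : ℤ) ∣ z → (q : ℤ) ∣ u := by
    intro h1
    apply L5_prime_dvd_sq q hq
    rw [hu]
    exact dvd_add (hqD'.mul_right _) ((h1.pow two_ne_zero).mul_left _)
  have hmain : (q : ℤ) ∣ u → (q : ℤ) ∣ z → False := by
    intro h1 h2
    obtain ⟨D', hD'⟩ := hqD
    have h3 : ¬ (q : ℤ) ∣ (D' : ℤ) := by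
      intro h4
      apply hqD2
      obtain ⟨D'', hD''⟩ := Int.natCast_dvd_natCast.mp h4
      exact ⟨D'', by rw [hD', hD'']; ring⟩
    have h4 : (q : ℤ) ^ 2 ∣ D * v ^ 2 := by
      have e : (D : ℤ) * v ^ 2 = u ^ 2 - m * z ^ 2 := by linarith
      rw [e]
      exact dvd_sub (pow_dvd_pow_of_dvd h1 2) ((pow_dvd_pow_of_dvd h2 2).mul_left _)
    have h5 : (q : ℤ) ∣ D' * v ^ 2 := by
      obtain ⟨c, hc⟩ := h4
      refine ⟨c, ?_⟩
      have h6 : (q : ℤ) * (D' * v ^ 2) = q * (q * c) := by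
        have e : (D : ℤ) = q * D' := by rw [hD']; push_cast; ring
        rw [e] at hc
        linear_combination hc
      exact mul_left_cancel₀ hqq.ne_zero h6
    have h6 := L5_prime_dvd_sq q hq _ ((L5_prime_dvd_mul q hq _ _ h5).resolve_left h3)
    exact hqq.not_isUnit (huv.isUnit_of_dvd' h1 h6)
  exact ⟨fun h1 => hmain h1 (huz h1), fun h1 => hmain (hzu h1) h1⟩

/-- MODULE L4.  One side: `X ^ 2 - D Y ^ 2 = U ^ 2 - p V ^ 2`, not divisible by the prime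
`q = 1 mod 8`; `q ∣ p - τ ^ 2`, `q ∣ D`, `q ∤ X + U`.  Then `((U + τ V) / q) = ((X + U) / q)`.
Proof: `sq8` with `G = U + τ V`, `H = U - τ V`, `X`, `W = X + U`:
`G H = U ^ 2 - τ ^ 2 V ^ 2 = U ^ 2 - p V ^ 2 = X ^ 2 - D Y ^ 2 = X ^ 2` modulo `q`; `q ∤ G` since
`q ∤ G H`. -/
theorem symq (D p q : ℕ) [Fact q.Prime] (hq : q % 8 = 1) (X Y U V τ : ℤ)
    (h : X ^ 2 - D * Y ^ 2 = U ^ 2 - p * V ^ 2) (hn : ¬ (q : ℤ) ∣ U ^ 2 - p * V ^ 2)
    (hτ : (q : ℤ) ∣ τ ^ 2 - p) (hD : (q : ℤ) ∣ D) (hW : ¬ (q : ℤ) ∣ X + U) :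
    jacobiSym (U + V * τ) q = jacobiSym (X + U) q := by
  have hqp : q.Prime := Fact.out
  have h2q : jacobiSym 2 q = 1 := by
    rw [jacobiSym.at_two (Nat.odd_iff.mpr (by omega)), ZMod.χ₈_nat_mod_eight q, hq]
    decide
  have hG : ¬ (q : ℤ) ∣ U + V * τ := by
    intro h1
    apply hn
    have e : U ^ 2 - p * V ^ 2 = (U + V * τ) * (U - V * τ) + V ^ 2 * (τ ^ 2 - p) := by ring
    rw [e]
    exact dvd_add (h1.mul_right _) (hτ.mul_left _)
  have hq2 : ¬ (q : ℤ) ∣ 2 := by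
    intro h3
    have h4 : q ∣ 2 := Int.natCast_dvd_natCast.mp (by exact_mod_cast h3)
    have := (Nat.prime_dvd_prime_iff_eq hqp Nat.prime_two).mp h4
    omega
  have hgc : Int.gcd (2 * ((X + U) * (U + V * τ))) q = 1 := L5_gcd_of _ q fun g hg hgq => by
    rw [(Nat.prime_dvd_prime_iff_eq hg hqp).mp hgq]
    intro h3
    rcases L5_prime_dvd_mul q hqp _ _ h3 with h4 | h4
    · exact hq2 h4
    · rcases L5_prime_dvd_mul q hqp _ _ h4 with h5 | h5
      · exact hW h5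
      · exact hG h5
  have h1 := L5_jac_of_sq q (2 * ((X + U) * (U + V * τ))) (X + U + V * τ) hgc (by
    have e : 2 * ((X + U) * (U + V * τ)) - (X + U + V * τ) ^ 2 = D * -(Y ^ 2) + (τ ^ 2 - p) * -(V ^ 2) := by
      linear_combination -h
    rw [e]
    exact dvd_add (hD.mul_right _) (hτ.mul_right _))
  rw [jacobiSym.mul_left, jacobiSym.mul_left, h2q, one_mul] at h1
  have hgW : Int.gcd (X + U) q = 1 := L5_gcd_of _ q fun g hg hgq => by
    rw [(Nat.prime_dvd_prime_iff_eq hg hqp).mp hgq]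
    exact hW
  rcases L5_jac_ne_zero _ _ hgW with h2 | h2
  · rw [h2, one_mul] at h1
    rw [h1, h2]
  · rw [h2] at h1
    rw [h2]
    linarith

/-- MODULE L5 (the symmetry law).
Proof: `z1, y1` from `symX`; `X = z1 x`, `Y = z1 w`, `U = y1 u`, `V = y1 v`,
`M := X ^ 2 - d Y ^ 2 = U ^ 2 - p V ^ 2 = m z1 ^ 2 y ^ 2 = ...` is not divisible by `p, q1, q2`:
`M = z1 ^ 2 m y ^ 2` and `M = y1 ^ 2 m z ^ 2`; `p ∤ z` (`notdvd` with `D = p`, `q = p`), `p ∤ y`;
`q_i ∤ y` (`notdvd` with `D = q1 q2`), `q_i ∤ z`.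
Sign: there is `ε = ± 1` with `q1 ∤ X + ε U`, `q2 ∤ X + ε U`: if `q_i ∣ X + ε U` then
`M = X ^ 2 = U ^ 2 mod q_i`, so `q_i ∣ p V ^ 2`, `q_i ∣ V`, so `q_i ∣ v` (`q_i ∤ y1`); by `hv` this
is possible for at most one `i`, and for it `q_i ∤ X + U` or `q_i ∤ X - U` (otherwise
`q_i ∣ 2 X`, `q_i ∣ M`).  Replace `(u, v)` by ... `U` by `ε U`, `V` by `ε V` (this changes the
symbols of `u + v τ_i` by `(ε / q_i) = 1`).  `p ∤ X + U`: otherwise `X ^ 2 = U ^ 2 = M mod p`, so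
`p ∣ d Y ^ 2`, `p ∣ z1 w`: no.  So `W = X + U` is coprime to `p q1 q2`, `W ≠ 0`.
`(W / d p) = 1` by `symW` with `D1 = d = q1 q2`, `D2 = p`, so `(W / p) = (W / q1) (W / q2)`.
`((X + r Y) / p) = (W / p)` by `symq` with the roles exchanged (`D := p`, `p := d`, `q := p`),
`((U + τ_i V) / q_i) = (W / q_i)` by `symq`.  `(z1 / p) = 1` by `jdiv` (`z1 ∣ u ^ 2 - p v ^ 2`),
`(y1 / q1 q2) = 1` by `jdiv` (`y1 ∣ x ^ 2 - d w ^ 2`).  Multiply. -/
theorem symm (p q1 q2 m : ℕ) [Fact p.Prime] [Fact q1.Prime] [Fact q2.Prime] (hp : p % 8 = 1)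
    (h1 : q1 % 8 = 1) (h2 : q2 % 8 = 1) (h12 : q1 ≠ q2) (hp1 : q1 ≠ p) (hp2 : q2 ≠ p)
    (hm : 0 < m) (hmp : ¬ p ∣ m) (hm1 : ¬ q1 ∣ m) (hm2 : ¬ q2 ∣ m) (x w y u v z r τ1 τ2 : ℤ)
    (hx : x ^ 2 = (q1 * q2 : ℕ) * w ^ 2 + m * y ^ 2) (hxw : IsCoprime x w)
    (hw : ¬ (p : ℤ) ∣ w) (hy : ¬ (p : ℤ) ∣ y)
    (hu : u ^ 2 = p * v ^ 2 + m * z ^ 2) (huv : IsCoprime u v) (hz1 : ¬ (q1 : ℤ) ∣ z)
    (hz2 : ¬ (q2 : ℤ) ∣ z) (hv : ¬ ((q1 : ℤ) ∣ v ∧ (q2 : ℤ) ∣ v))
    (hr : (p : ℤ) ∣ r ^ 2 - (q1 * q2 : ℕ)) (ht1 : (q1 : ℤ) ∣ τ1 ^ 2 - p)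
    (ht2 : (q2 : ℤ) ∣ τ2 ^ 2 - p) :
    jacobiSym (x + w * r) p = jacobiSym (u + v * τ1) q1 * jacobiSym (u + v * τ2) q2 := by
  have hpp : p.Prime := Fact.out
  have hq1 : q1.Prime := Fact.out
  have hq2 : q2.Prime := Fact.out
  set n : ℕ := q1 * q2 with hn
  have hcop12 : Nat.Coprime q1 q2 := (Nat.coprime_primes hq1 hq2).mpr h12
  have hnsq : Squarefree n := (Nat.squarefree_mul hcop12).mpr ⟨hq1.squarefree, hq2.squarefree⟩
  have hqn : ∀ q : ℕ, q.Prime → q ∣ n → q = q1 ∨ q = q2 := by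
    intro q hq hqd
    rcases hq.dvd_mul.mp hqd with h | h
    · exact Or.inl ((Nat.prime_dvd_prime_iff_eq hq hq1).mp h)
    · exact Or.inr ((Nat.prime_dvd_prime_iff_eq hq hq2).mp h)
  have hpn : ¬ p ∣ n := by
    intro h
    rcases hqn p hpp h with h | h
    · exact hp1 h.symm
    · exact hp2 h.symm
  have hn8 : n % 8 = 1 := by rw [hn, Nat.mul_mod, h1, h2]
  have hnD : Nat.Coprime n m :=
    Nat.Coprime.mul_left ((Nat.Prime.coprime_iff_not_dvd hq1).mpr hm1) ((Nat.Prime.coprime_iff_not_dvd hq2).mpr hm2)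
  obtain ⟨t, ht⟩ : ∃ t : ℤ, (q1 : ℤ) ∣ t - τ1 ∧ (q2 : ℤ) ∣ t - τ2 := by
    have hco : IsCoprime (q1 : ℤ) (q2 : ℤ) := Nat.isCoprime_iff_coprime.mpr hcop12
    obtain ⟨a, b, hab⟩ := hco
    refine ⟨τ1 * (b * q2) + τ2 * (a * q1), ⟨a * (τ2 - τ1), ?_⟩, ⟨b * (τ1 - τ2), ?_⟩⟩
    · linear_combination τ1 * hab
    · linear_combination τ2 * hab
  have htn : (n : ℤ) ∣ t ^ 2 - p := by
    have hco : IsCoprime (q1 : ℤ) (q2 : ℤ) := Nat.isCoprime_iff_coprime.mpr hcop12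
    rw [hn]
    push_cast
    apply hco.mul_dvd
    · have e : t ^ 2 - (p : ℤ) = (t - τ1) * (t + τ1) + (τ1 ^ 2 - p) := by ring
      rw [e]
      exact dvd_add (ht.1.mul_right _) ht1
    · have e : t ^ 2 - (p : ℤ) = (t - τ2) * (t + τ2) + (τ2 ^ 2 - p) := by ring
      rw [e]
      exact dvd_add (ht.2.mul_right _) ht2
  have hprim : ∀ g : ℕ, g.Prime → (g : ℤ) ∣ x → (g : ℤ) ∣ w → False := fun g hg h3 h4 =>
    (Nat.prime_iff_prime_int.mp hg).not_isUnit (hxw.isUnit_of_dvd' h3 h4)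
  have hnz : ∀ q : ℕ, q.Prime → q ∣ n → ¬ (q : ℤ) ∣ z := by
    intro q hq hqd
    rcases hqn q hq hqd with h | h
    · rw [h]; exact hz1
    · rw [h]; exact hz2
  have hx2 : x ^ 2 - n * w ^ 2 = m * y ^ 2 := by
    rw [hx]
    ring
  have hu2 : u ^ 2 - p * v ^ 2 = m * z ^ 2 := by rw [hu]; ring
  have hqm : ∀ q : ℕ, q.Prime → q ∣ n → ¬ (q : ℤ) ∣ (m : ℤ) := by
    intro q hq hqd h
    rcases hqn q hq hqd with h3 | h3
    · rw [h3] at h; exact hm1 (Int.natCast_dvd_natCast.mp h)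
    · rw [h3] at h; exact hm2 (Int.natCast_dvd_natCast.mp h)
  -- `x`, `y` are units modulo `q`
  have hqx : ∀ q : ℕ, q.Prime → q ∣ n → ¬ (q : ℤ) ∣ x ∧ ¬ (q : ℤ) ∣ y := by
    intro q hq hqd
    have hf : Fact q.Prime := ⟨hq⟩
    have hqd2 : ¬ q ^ 2 ∣ n := by
      intro h
      rw [sq] at h
      exact hq.one_lt.ne' (Nat.isUnit_iff.mp (hnsq q h))
    exact notdvd n m q hqd hqd2 (fun h => hqm q hq hqd (Int.natCast_dvd_natCast.mpr h)) x w y hx hxw
  have hqN : ∀ q : ℕ, q.Prime → q ∣ n → ¬ (q : ℤ) ∣ v → ∀ y' : ℤ, y' ^ 2 = y ^ 2 → ¬ (q : ℤ) ∣ z * x + y' * u := by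
    intro q hq hqd hqv y' hy' h3
    have hqn' : (q : ℤ) ∣ (n : ℤ) := Int.natCast_dvd_natCast.mpr hqd
    have e : (z * x + y' * u) * (z * x - y' * u) = n * (z * w) ^ 2 - p * (y' * v) ^ 2 := by
      linear_combination z ^ 2 * hx2 - y' ^ 2 * hu2 - m * z ^ 2 * hy'
    have h4 : (q : ℤ) ∣ p * (y' * v) ^ 2 := by
      have h5 : (q : ℤ) ∣ n * (z * w) ^ 2 - p * (y' * v) ^ 2 := by rw [← e]; exact h3.mul_right _
      have h6 := dvd_sub (hqn'.mul_right ((z * w) ^ 2)) h5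
      rwa [sub_sub_cancel] at h6
    rcases L5_prime_dvd_mul q hq _ _ h4 with h5 | h5
    · have := (Nat.prime_dvd_prime_iff_eq hq hpp).mp (Int.natCast_dvd_natCast.mp h5)
      rw [this] at hqd
      exact hpn hqd
    · rcases L5_prime_dvd_mul q hq _ _ (L5_prime_dvd_sq q hq _ h5) with h6 | h6
      · apply (hqx q hq hqd).2
        apply L5_prime_dvd_sq q hq
        rw [← hy']
        exact h6.pow two_ne_zero
      · exact hqv h6
  have hq2' : ∀ q : ℕ, q.Prime → q ∣ n → ¬ (q : ℤ) ∣ 2 := by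
    intro q hq hqd h3
    have h4 : q ∣ 2 := Int.natCast_dvd_natCast.mp (by exact_mod_cast h3)
    have := (Nat.prime_dvd_prime_iff_eq hq Nat.prime_two).mp h4
    rw [this] at hqd
    omega
  have hone : ∀ q : ℕ, q.Prime → q ∣ n → ¬ (q : ℤ) ∣ z * x + y * u ∨ ¬ (q : ℤ) ∣ z * x + (-y) * u := by
    intro q hq hqd
    by_contra hcon
    push Not at hcon
    have h3 : (q : ℤ) ∣ 2 * (z * x) := by
      have := dvd_add hcon.1 hcon.2
      have e : z * x + y * u + (z * x + -y * u) = 2 * (z * x) := by ring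
      rwa [e] at this
    rcases L5_prime_dvd_mul q hq _ _ h3 with h4 | h4
    · exact hq2' q hq hqd h4
    · rcases L5_prime_dvd_mul q hq _ _ h4 with h5 | h5
      · exact hnz q hq hqd h5
      · exact (hqx q hq hqd).1 h5
  have hd1 : q1 ∣ n := ⟨q2, rfl⟩
  have hd2 : q2 ∣ n := ⟨q1, by rw [hn]; ring⟩
  obtain ⟨y', hy', hyN⟩ : ∃ y' : ℤ, y' ^ 2 = y ^ 2 ∧ ∀ q : ℕ, q.Prime → q ∣ n → ¬ (q : ℤ) ∣ z * x + y' * u := by
    have hyy : (-y) ^ 2 = y ^ 2 := by ring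
    by_cases hv1 : (q1 : ℤ) ∣ v
    · have hv2 : ¬ (q2 : ℤ) ∣ v := fun h => hv ⟨hv1, h⟩
      rcases hone q1 hq1 hd1 with h3 | h3
      · refine ⟨y, rfl, fun q hq hqd => ?_⟩
        rcases hqn q hq hqd with h | h
        · rw [h]; exact h3
        · rw [h]; exact hqN q2 hq2 hd2 hv2 y rfl
      · refine ⟨-y, hyy, fun q hq hqd => ?_⟩
        rcases hqn q hq hqd with h | h
        · rw [h]; exact h3
        · rw [h]; exact hqN q2 hq2 hd2 hv2 (-y) hyy
    · rcases hone q2 hq2 hd2 with h3 | h3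
      · refine ⟨y, rfl, fun q hq hqd => ?_⟩
        rcases hqn q hq hqd with h | h
        · rw [h]; exact hqN q1 hq1 hd1 hv1 y rfl
        · rw [h]; exact h3
      · refine ⟨-y, hyy, fun q hq hqd => ?_⟩
        rcases hqn q hq hqd with h | h
        · rw [h]; exact hqN q1 hq1 hd1 hv1 (-y) hyy
        · rw [h]; exact h3
  have hyp : ¬ (p : ℤ) ∣ y' := by
    intro h
    apply hy
    apply L5_prime_dvd_sq p hpp
    rw [← hy']
    exact h.pow two_ne_zero
  have hR := L5_R2 p n m hpp hp hn8 hpn hmp hnD hnsq u v z x w y' t r huv hu2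
    (fun g hg h3 h4 _ => hprim g hg h3 h4) (by rw [hx2, hy']) hyp hw htn hr hnz hyN
  rw [← hR, hn, jacobiSym.mul_right' _ hq1.ne_zero hq2.ne_zero]
  congr 1
  · rw [jacobiSym.mod_left (u + v * t), jacobiSym.mod_left (u + v * τ1)]
    congr 1
    exact Int.modEq_iff_dvd.mpr (by
      have e : u + v * τ1 - (u + v * t) = -(v * (t - τ1)) := by ring
      rw [e]
      exact (ht.1.mul_left v).neg_right)
  · rw [jacobiSym.mod_left (u + v * t), jacobiSym.mod_left (u + v * τ2)]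
    congr 1
    exact Int.modEq_iff_dvd.mpr (by
      have e : u + v * τ2 - (u + v * t) = -(v * (t - τ2)) := by ring
      rw [e]
      exact (ht.2.mul_left v).neg_right)

end Pool.Agent.Qnr
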