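import Pool.Agent.Qnr.Leg
import Pool.Agent.Qnr.Sym

/-!
# The relations between the symbols when all small elements are squares (modules R1 - R5)
-/

set_option autoImplicit false

namespace Pool.Agent.Qnr

open Finset

private theorem R1_gcd_of (a : ℤ) (m : ℕ) (h : ∀ q : ℕ, q.Prime → q ∣ m → ¬ (q : ℤ) ∣ a) : Int.gcd a m = 1 := by
  by_contra hc
  obtain ⟨q, hq, hqd⟩ := Nat.exists_prime_and_dvd hc
  have h1 : (q : ℤ) ∣ a := (Int.natCast_dvd_natCast.mpr hqd).trans (Int.gcd_dvd_left a m)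
  have h2 : (q : ℤ) ∣ (m : ℤ) := (Int.natCast_dvd_natCast.mpr hqd).trans (Int.gcd_dvd_right a m)
  exact h q hq (Int.natCast_dvd_natCast.mp h2) h1

private theorem R1_prime_dvd_sq (q : ℕ) (hq : q.Prime) (a : ℤ) (h : (q : ℤ) ∣ a ^ 2) : (q : ℤ) ∣ a :=
  (Nat.prime_iff_prime_int.mp hq).dvd_of_dvd_pow h

private theorem R1_prime_dvd_mul (q : ℕ) (hq : q.Prime) (a b : ℤ) (h : (q : ℤ) ∣ a * b) :
    (q : ℤ) ∣ a ∨ (q : ℤ) ∣ b :=
  (Nat.prime_iff_prime_int.mp hq).dvd_or_dvd h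

private theorem R1_pm (q : ℕ) (hq : q.Prime) (a : ℤ) (h : ¬ (q : ℤ) ∣ a) : jacobiSym a q = 1 ∨ jacobiSym a q = -1 :=
  jacobiSym.eq_one_or_neg_one (R1_gcd_of a q fun g hg hgq => by
    rw [(Nat.prime_dvd_prime_iff_eq hg hq).mp hgq]
    exact h)

/-- the symbol of the element is not zero -/
private theorem R1_nz (q p m : ℕ) (hq : q.Prime) (hqm : ¬ (q : ℤ) ∣ (m : ℤ)) (u v z τ : ℤ)
    (hu : u ^ 2 = p * v ^ 2 + m * z ^ 2) (hz : ¬ (q : ℤ) ∣ z) (ht : (q : ℤ) ∣ τ ^ 2 - p) :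
    ¬ (q : ℤ) ∣ u + v * τ := by
  intro h
  have h1 : (q : ℤ) ∣ m * z ^ 2 := by
    have e : (m : ℤ) * z ^ 2 = (u + v * τ) * (u - v * τ) + v ^ 2 * (τ ^ 2 - p) := by linear_combination -hu
    rw [e]
    exact dvd_add (h.mul_right _) (ht.mul_left _)
  rcases R1_prime_dvd_mul q hq _ _ h1 with h2 | h2
  · exact hqm h2
  · exact hz (R1_prime_dvd_sq q hq _ h2)

private theorem R1_rec (a b : ℕ) (ha : a % 8 = 1) (hb : b % 8 = 1) : jacobiSym a b = jacobiSym b a :=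
  jacobiSym.quadratic_reciprocity_one_mod_four (by omega) (Nat.odd_iff.mpr (by omega))

private theorem R1_small (p : ℕ) (w : ℤ) (hw : w ≠ 0) (B : ℕ) (hB : B < p) (h : |w| ≤ (B : ℤ)) : ¬ (p : ℤ) ∣ w := by
  intro h1
  have h2 := Int.le_of_dvd (abs_pos.mpr hw) ((dvd_abs _ _).mpr h1)
  have h3 : (B : ℤ) < p := by exact_mod_cast hB
  linarith

/-- MODULE R1 (the relation for `(l / q1) = (l / q2) = 1`).
Proof: `(q_i / l) = (l / q_i) = 1` by reciprocity, so `(q1 q2 / l) = 1`: `jroot` gives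
`t`, `jroot2` gives `s`; `small` with `m = l` gives `x, w, y`; `w, y` are not divisible by `p`
(nonzero and smaller than `p` in absolute value).  `symm` with `m = l`; the left side is not `-1`
by `hs`, and not `0`: the right side is not `0` (`(u + v τ)(u - v τ) = l z ^ 2 mod q_i`), so it is
`1`. -/
theorem rel1 (p l q1 q2 : ℕ) [Fact p.Prime] [Fact l.Prime] [Fact q1.Prime] [Fact q2.Prime]
    (hp : p % 8 = 1) (hl : l % 8 = 1) (h1 : q1 % 8 = 1) (h2 : q2 % 8 = 1) (h12 : q1 ≠ q2)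
    (hlp : l ≠ p) (hp1 : q1 ≠ p) (hp2 : q2 ≠ p) (hl1 : l ≠ q1) (hl2 : l ≠ q2)
    (hj1 : jacobiSym l q1 = 1) (hj2 : jacobiSym l q2 = 1) (hB : 2 * (q1 * q2 * l) < p)
    (u v z r τ1 τ2 : ℤ) (hu : u ^ 2 = p * v ^ 2 + l * z ^ 2) (huv : IsCoprime u v)
    (hz1 : ¬ (q1 : ℤ) ∣ z) (hz2 : ¬ (q2 : ℤ) ∣ z) (hv : ¬ ((q1 : ℤ) ∣ v ∧ (q2 : ℤ) ∣ v))
    (hr : (p : ℤ) ∣ r ^ 2 - (q1 * q2 : ℕ)) (ht1 : (q1 : ℤ) ∣ τ1 ^ 2 - p)
    (ht2 : (q2 : ℤ) ∣ τ2 ^ 2 - p)
    (hs : ∀ x w : ℤ, |x| ≤ 2 * (q1 * q2 * l : ℕ) → |w| ≤ 2 * (q1 * q2 * l : ℕ) →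
      jacobiSym (x + w * r) p ≠ -1) :
    jacobiSym (u + v * τ1) q1 = jacobiSym (u + v * τ2) q2 := by
  have hpp : p.Prime := Fact.out
  have hlP : l.Prime := Fact.out
  have hq1 : q1.Prime := Fact.out
  have hq2 : q2.Prime := Fact.out
  have hk1 : jacobiSym q1 l = 1 := by rw [← R1_rec l q1 hl h1]; exact hj1
  have hk2 : jacobiSym q2 l = 1 := by rw [← R1_rec l q2 hl h2]; exact hj2
  have hk : jacobiSym ((q1 * q2 : ℕ) : ℤ) l = 1 := by
    push_cast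
    rw [jacobiSym.mul_left, hk1, hk2, one_mul]
  obtain ⟨t, ht⟩ := jroot l _ hk
  obtain ⟨s, hs'⟩ := jroot2 q1 q2 h12 l hj1 hj2
  have hc1 : ¬ q1 ∣ l := fun h => hl1 ((Nat.prime_dvd_prime_iff_eq hq1 hlP).mp h).symm
  have hc2 : ¬ q2 ∣ l := fun h => hl2 ((Nat.prime_dvd_prime_iff_eq hq2 hlP).mp h).symm
  have hco : Nat.Coprime (q1 * q2) l :=
    Nat.Coprime.mul_left ((Nat.Prime.coprime_iff_not_dvd hq1).mpr hc1) ((Nat.Prime.coprime_iff_not_dvd hq2).mpr hc2)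
  obtain ⟨x, w, y, hx, hxw, hw0, hy0, bx, bw, bY⟩ := small q1 q2 l h12 hlP.squarefree hlP.one_lt.ne' hco s t hs' ht
  have hwp : ¬ (p : ℤ) ∣ w := R1_small p w hw0 _ hB (by push_cast; push_cast at bw; exact bw)
  have hyp : ¬ (p : ℤ) ∣ y := R1_small p y hy0 _ hB (by push_cast; push_cast at bY; exact bY)
  have hpl : ¬ p ∣ l := fun h => hlp ((Nat.prime_dvd_prime_iff_eq hpp hlP).mp h).symm
  have hS := symm p q1 q2 l hp h1 h2 h12 hp1 hp2 hlP.pos hpl hc1 hc2 x w y u v z r τ1 τ2 hx hxw hwp hyp hu huv hz1 hz2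
    hv hr ht1 ht2
  have hne := hs x w bx bw
  rcases R1_pm q1 hq1 _ (R1_nz q1 p l hq1 (fun h => hc1 (Int.natCast_dvd_natCast.mp h)) u v z τ1 hu hz1 ht1) with h3 | h3 <;>
    rcases R1_pm q2 hq2 _ (R1_nz q2 p l hq2 (fun h => hc2 (Int.natCast_dvd_natCast.mp h)) u v z τ2 hu hz2 ht2) with h4 | h4
  · rw [h3, h4]
  · exfalso
    rw [h3, h4] at hS
    apply hne
    rw [hS]
    norm_num
  · exfalso
    rw [h3, h4] at hS
    apply hne
    rw [hS]
    norm_num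
  · rw [h3, h4]

/-- exponents of a prime not dividing `l` in `l z ^ 2` are even -/
private theorem R2_up (k l : ℕ) (hk : k.Prime) (hl : ¬ k ∣ l) (z : ℤ) (j : ℕ)
    (h : (k : ℤ) ^ (2 * j + 1) ∣ l * z ^ 2) : (k : ℤ) ^ (2 * j + 2) ∣ l * z ^ 2 := by
  by_cases hz : z = 0
  · rw [hz]
    simp
  have h1 : k ^ (2 * j + 1) ∣ z.natAbs ^ 2 := by
    have h2 : k ^ (2 * j + 1) ∣ l * z.natAbs ^ 2 := by
      have h3 := Int.natAbs_dvd_natAbs.mpr h
      rwa [Int.natAbs_pow, Int.natAbs_natCast, Int.natAbs_mul, Int.natAbs_natCast, Int.natAbs_pow] at h3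
    exact (Nat.Coprime.pow_left _ ((Nat.Prime.coprime_iff_not_dvd hk).mpr hl)).dvd_of_dvd_mul_left h2
  have hz' : z.natAbs ≠ 0 := Int.natAbs_ne_zero.mpr hz
  rw [hk.pow_dvd_iff_le_factorization (pow_ne_zero 2 hz'), Nat.factorization_pow, Finsupp.smul_apply, smul_eq_mul] at h1
  have h2 : j + 1 ≤ z.natAbs.factorization k := by omega
  rw [← hk.pow_dvd_iff_le_factorization hz'] at h2
  have h3 : (k : ℤ) ^ (j + 1) ∣ z := by
    have := Int.natCast_dvd.mpr h2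
    rwa [Nat.cast_pow] at this
  have h4 : (k : ℤ) ^ (2 * j + 2) = ((k : ℤ) ^ (j + 1)) ^ 2 := by
    rw [← pow_mul]
    congr 1
    ring
  rw [h4]
  exact (pow_dvd_pow_of_dvd h3 2).mul_left _

private theorem R2_cop (k : ℕ) (hk : k.Prime) (u v : ℤ) (h : IsCoprime u v) (hu : (k : ℤ) ∣ u) : ¬ (k : ℤ) ∣ v := fun hv =>
  (Nat.prime_iff_prime_int.mp hk).not_isUnit (h.isUnit_of_dvd' hu hv)

/-- MODULE R2 (the content of a product, away from `l, l0`).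
Two primitive elements `u + v √p`, `u0 + v0 √p` of norms `l z ^ 2`, `l0 z0 ^ 2`; `k` an odd prime,
`k ≠ l, l0`.  The exponent of `k` in the content
`c = gcd (u u0 + p v v0, u v0 + v u0)` of their product is even.
Proof: let `k ∣ c` (otherwise the exponent is `0`).  `k ∣ N1 = l z ^ 2` and `k ∣ N2 = l0 z0 ^ 2`:
e.g. `u (u u0 + p v v0) - p v (u v0 + v u0) = N1 u0`,
`u (u v0 + v u0) - v (u u0 + p v v0) = N1 v0`, so `k ∣ N1 u0, N1 v0`, so `k ∣ N1`; the same for `N2`.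
`k ≠ p` (`notdvd`: `p ∤ z`).  Let `k ^ a ∥ N1`, `k ^ b ∥ N2` and say `a ≤ b` (symmetric); `a` is
even (`k ≠ l`), `k ∤ u v u0 v0`.  The exponent of `k` in `c` is `a`:
`k ^ a ∣ c`: modulo `k ^ a`, `(u v0) ^ 2 = p v ^ 2 v0 ^ 2 = (u0 v) ^ 2`, i.e.
`k ^ a ∣ (u v0 - u0 v) (u v0 + u0 v)`, the second factor is divisible by `k`; the first is not
(otherwise `k ∣ 2 u v0`), so `k ^ a ∣ u v0 + u0 v`; and
`v (u u0 + p v v0) = u (u v0 + v u0) - N1 v0` so `k ^ a ∣ u u0 + p v v0` (`k ∤ v`).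
`k ^ (a + 1) ∤ c`: otherwise by the two identities above `k ^ (a + 1) ∣ N1 u0, N1 v0`, so
`k ∣ u0, v0`. -/
theorem content (p l l0 k : ℕ) [Fact p.Prime] [Fact l.Prime] [Fact l0.Prime] [Fact k.Prime]
    (hk2 : k ≠ 2) (hkl : k ≠ l) (hkl0 : k ≠ l0) (hlp : l ≠ p) (hl0p : l0 ≠ p) (u v z u0 v0 z0 : ℤ)
    (hu : u ^ 2 = p * v ^ 2 + l * z ^ 2) (huv : IsCoprime u v) (hz : z ≠ 0)
    (hu0 : u0 ^ 2 = p * v0 ^ 2 + l0 * z0 ^ 2) (huv0 : IsCoprime u0 v0) (hz0 : z0 ≠ 0) :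
    Even ((Int.gcd (u * u0 + p * v * v0) (u * v0 + v * u0)).factorization k) := by
  have hkP : k.Prime := Fact.out
  have hlP : l.Prime := Fact.out
  have hl0P : l0.Prime := Fact.out
  have hpP : p.Prime := Fact.out
  have hkk := Nat.prime_iff_prime_int.mp hkP
  set c : ℕ := Int.gcd (u * u0 + p * v * v0) (u * v0 + v * u0) with hc
  have hkl' : ¬ k ∣ l := fun h => hkl ((Nat.prime_dvd_prime_iff_eq hkP hlP).mp h)
  have hkl0' : ¬ k ∣ l0 := fun h => hkl0 ((Nat.prime_dvd_prime_iff_eq hkP hl0P).mp h)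
  by_contra hodd
  rw [Nat.not_even_iff_odd] at hodd
  obtain ⟨j, hj⟩ := hodd
  have hc0 : c ≠ 0 := by
    intro h0
    rw [h0] at hj
    simp at hj
  have h1 : k ^ (2 * j + 1) ∣ c := by
    rw [hkP.pow_dvd_iff_le_factorization hc0, hj]
  have h2 : ¬ k ^ (2 * j + 2) ∣ c := by
    rw [hkP.pow_dvd_iff_le_factorization hc0, hj]
    omega
  have h1' : (k : ℤ) ^ (2 * j + 1) ∣ (c : ℤ) := by
    rw [← Nat.cast_pow]
    exact Int.natCast_dvd_natCast.mpr h1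
  have hA : (k : ℤ) ^ (2 * j + 1) ∣ u * u0 + p * v * v0 := h1'.trans (Int.gcd_dvd_left _ _)
  have hB : (k : ℤ) ^ (2 * j + 1) ∣ u * v0 + v * u0 := h1'.trans (Int.gcd_dvd_right _ _)
  have hkpow : (k : ℤ) ∣ (k : ℤ) ^ (2 * j + 1) := dvd_pow_self _ (by omega)
  -- the two norms
  have key : ∀ M a b : ℤ, IsCoprime a b → (k : ℤ) ^ (2 * j + 1) ∣ M * a → (k : ℤ) ^ (2 * j + 1) ∣ M * b →
      (k : ℤ) ^ (2 * j + 1) ∣ M := by
    rintro M a b ⟨s, t, hst⟩ h3 h4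
    have e : M = s * (M * a) + t * (M * b) := by linear_combination -M * hst
    rw [e]
    exact dvd_add (h3.mul_left _) (h4.mul_left _)
  have hN1 : (k : ℤ) ^ (2 * j + 1) ∣ l * z ^ 2 := by
    apply key _ u0 v0 huv0
    · have e : (l : ℤ) * z ^ 2 * u0 = u * (u * u0 + p * v * v0) - p * v * (u * v0 + v * u0) := by
        linear_combination -u0 * hu
      rw [e]
      exact dvd_sub (hA.mul_left _) (hB.mul_left _)
    · have e : (l : ℤ) * z ^ 2 * v0 = u * (u * v0 + v * u0) - v * (u * u0 + p * v * v0) := by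
        linear_combination -v0 * hu
      rw [e]
      exact dvd_sub (hB.mul_left _) (hA.mul_left _)
  have hN2 : (k : ℤ) ^ (2 * j + 1) ∣ l0 * z0 ^ 2 := by
    apply key _ u v huv
    · have e : (l0 : ℤ) * z0 ^ 2 * u = u0 * (u * u0 + p * v * v0) - p * v0 * (u * v0 + v * u0) := by
        linear_combination -u * hu0
      rw [e]
      exact dvd_sub (hA.mul_left _) (hB.mul_left _)
    · have e : (l0 : ℤ) * z0 ^ 2 * v = u0 * (u * v0 + v * u0) - v0 * (u * u0 + p * v * v0) := by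
        linear_combination -v * hu0
      rw [e]
      exact dvd_sub (hB.mul_left _) (hA.mul_left _)
  have hM1 := R2_up k l hkP hkl' z j hN1
  have hM2 := R2_up k l0 hkP hkl0' z0 j hN2
  have hkN1 : (k : ℤ) ∣ l * z ^ 2 := hkpow.trans hN1
  have hkN2 : (k : ℤ) ∣ l0 * z0 ^ 2 := hkpow.trans hN2
  -- `k` does not divide `v`, `v0`
  have hkv : ¬ (k : ℤ) ∣ v := by
    intro h3
    have h4 : (k : ℤ) ∣ u ^ 2 := by
      rw [hu]
      exact dvd_add ((h3.pow two_ne_zero).mul_left _) hkN1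
    exact R2_cop k hkP u v huv (R1_prime_dvd_sq k hkP _ h4) h3
  have hkv0 : ¬ (k : ℤ) ∣ v0 := by
    intro h3
    have h4 : (k : ℤ) ∣ u0 ^ 2 := by
      rw [hu0]
      exact dvd_add ((h3.pow two_ne_zero).mul_left _) hkN2
    exact R2_cop k hkP u0 v0 huv0 (R1_prime_dvd_sq k hkP _ h4) h3
  have hkz : (k : ℤ) ∣ z := by
    rcases R1_prime_dvd_mul k hkP _ _ hkN1 with h3 | h3
    · exact absurd (Int.natCast_dvd_natCast.mp h3) hkl'
    · exact R1_prime_dvd_sq k hkP _ h3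
  have hku : ¬ (k : ℤ) ∣ u := by
    intro h3
    -- then `k = p`
    have h4 : (k : ℤ) ∣ p * v ^ 2 := by
      have e : (p : ℤ) * v ^ 2 = u ^ 2 - l * z ^ 2 := by linarith
      rw [e]
      exact dvd_sub (h3.pow two_ne_zero) hkN1
    rcases R1_prime_dvd_mul k hkP _ _ h4 with h5 | h5
    · have h6 := (Nat.prime_dvd_prime_iff_eq hkP hpP).mp (Int.natCast_dvd_natCast.mp h5)
      have h7 : (k : ℤ) ^ 2 ∣ k * v ^ 2 := by
        have e : (k : ℤ) * v ^ 2 = u ^ 2 - l * z ^ 2 := by rw [h6]; linarith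
        rw [e]
        exact dvd_sub (pow_dvd_pow_of_dvd h3 2) ((pow_dvd_pow_of_dvd hkz 2).mul_left _)
      obtain ⟨d, hd⟩ := h7
      have h8 : (k : ℤ) ∣ v ^ 2 := by
        refine ⟨d, ?_⟩
        have h9 : (k : ℤ) * v ^ 2 = k * (k * d) := by rw [hd]; ring
        exact mul_left_cancel₀ hkk.ne_zero h9
      exact hkv (R1_prime_dvd_sq k hkP _ h8)
    · exact hkv (R1_prime_dvd_sq k hkP _ h5)
  -- the second factor
  have hB2 : (k : ℤ) ^ (2 * j + 2) ∣ (u * v0 + v * u0) * (u * v0 - v * u0) := by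
    have e : (u * v0 + v * u0) * (u * v0 - v * u0) = (l * z ^ 2) * v0 ^ 2 - (l0 * z0 ^ 2) * v ^ 2 := by
      linear_combination v0 ^ 2 * hu - v ^ 2 * hu0
    rw [e]
    exact dvd_sub (hM1.mul_right _) (hM2.mul_right _)
  have hk2' : ¬ (k : ℤ) ∣ 2 := by
    intro h3
    have h4 : k ∣ 2 := Int.natCast_dvd_natCast.mp (by exact_mod_cast h3)
    exact hk2 ((Nat.prime_dvd_prime_iff_eq hkP Nat.prime_two).mp h4)
  have hB' : ¬ (k : ℤ) ∣ u * v0 - v * u0 := by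
    intro h3
    have h4 : (k : ℤ) ∣ 2 * (u * v0) := by
      have h5 := dvd_add h3 (hkpow.trans hB)
      have e : u * v0 - v * u0 + (u * v0 + v * u0) = 2 * (u * v0) := by ring
      rwa [e] at h5
    rcases R1_prime_dvd_mul k hkP _ _ h4 with h5 | h5
    · exact hk2' h5
    · rcases R1_prime_dvd_mul k hkP _ _ h5 with h6 | h6
      · exact hku h6
      · exact hkv0 h6
  have hB3 : (k : ℤ) ^ (2 * j + 2) ∣ u * v0 + v * u0 := by
    have hco : IsCoprime ((k : ℤ) ^ (2 * j + 2)) (u * v0 - v * u0) :=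
      IsCoprime.pow_left ((Prime.coprime_iff_not_dvd hkk).mpr hB')
    exact hco.dvd_of_dvd_mul_right hB2
  have hA3 : (k : ℤ) ^ (2 * j + 2) ∣ u * u0 + p * v * v0 := by
    have h3 : (k : ℤ) ^ (2 * j + 2) ∣ v * (u * u0 + p * v * v0) := by
      have e : v * (u * u0 + p * v * v0) = u * (u * v0 + v * u0) - (l * z ^ 2) * v0 := by
        linear_combination -v0 * hu
      rw [e]
      exact dvd_sub (hB3.mul_left _) (hM1.mul_right _)
    have hco : IsCoprime ((k : ℤ) ^ (2 * j + 2)) v :=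
      IsCoprime.pow_left ((Prime.coprime_iff_not_dvd hkk).mpr hkv)
    exact hco.dvd_of_dvd_mul_left h3
  apply h2
  have h3 : ((k : ℤ) ^ (2 * j + 2)) ∣ (c : ℤ) := Int.dvd_coe_gcd hA3 hB3
  rw [← Nat.cast_pow] at h3
  exact Int.natCast_dvd_natCast.mp h3

/-- MODULE R3 (`u v0 + v u0 ≠ 0`).
Proof: otherwise, both pairs being primitive, `(u, v) = ± (u0, - v0)`, so `l z ^ 2 = l0 z0 ^ 2`
(`z ≠ 0`), impossible for different primes. -/
theorem nz (p l l0 : ℕ) [Fact l.Prime] [Fact l0.Prime] (hll : l ≠ l0) (u v z u0 v0 z0 : ℤ)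
    (hu : u ^ 2 = p * v ^ 2 + l * z ^ 2) (huv : IsCoprime u v) (hz : z ≠ 0)
    (hu0 : u0 ^ 2 = p * v0 ^ 2 + l0 * z0 ^ 2) (huv0 : IsCoprime u0 v0) :
    u * v0 + v * u0 ≠ 0 := by
  have hlP : l.Prime := Fact.out
  have hl0P : l0.Prime := Fact.out
  intro h
  have h1 : l * z.natAbs ^ 2 = l0 * z0.natAbs ^ 2 := by
    have h2 : (l : ℤ) * z ^ 2 * v0 ^ 2 = l0 * z0 ^ 2 * v ^ 2 := by
      linear_combination (u * v0 - v * u0) * h - v0 ^ 2 * hu + v ^ 2 * hu0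
    have hvv : v ^ 2 = v0 ^ 2 := by
      have h3 : v ∣ v0 := by
        have h4 : v ∣ u * v0 := ⟨-u0, by linear_combination h⟩
        exact huv.symm.dvd_of_dvd_mul_left h4
      have h5 : v0 ∣ v := by
        have h4 : v0 ∣ v * u0 := ⟨-u, by linear_combination h⟩
        exact huv0.symm.dvd_of_dvd_mul_right h4
      have h6 := Int.natAbs_eq_of_dvd_dvd h3 h5
      rw [← Int.natAbs_sq v, ← Int.natAbs_sq v0, h6]
    by_cases hv : v0 = 0
    · have hv' : v = 0 := by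
        rw [hv] at hvv
        exact pow_eq_zero_iff two_ne_zero |>.mp (by rw [hvv]; ring)
      rw [hv'] at hu huv
      rw [hv] at hu0 huv0
      rw [isCoprime_zero_right, Int.isUnit_iff] at huv huv0
      have e1 : u ^ 2 = 1 := by rcases huv with h3 | h3 <;> rw [h3] <;> norm_num
      have e2 : u0 ^ 2 = 1 := by rcases huv0 with h3 | h3 <;> rw [h3] <;> norm_num
      have e3 : (l : ℤ) * z ^ 2 = l0 * z0 ^ 2 := by linarith
      rw [← Int.natAbs_sq z, ← Int.natAbs_sq z0] at e3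
      exact_mod_cast e3
    · rw [hvv] at h2
      have e3 : (l : ℤ) * z ^ 2 = l0 * z0 ^ 2 := mul_right_cancel₀ (pow_ne_zero 2 hv) h2
      rw [← Int.natAbs_sq z, ← Int.natAbs_sq z0] at e3
      exact_mod_cast e3
  have hz' : z.natAbs ≠ 0 := Int.natAbs_ne_zero.mpr hz
  have hz0' : z0.natAbs ≠ 0 := by
    intro h2
    rw [h2] at h1
    simp at h1
    rcases h1 with h1 | h1
    · exact hlP.ne_zero h1
    · exact hz h1
  have h2 := congrArg (fun n : ℕ => n.factorization l) h1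
  rw [Nat.factorization_mul hlP.ne_zero (pow_ne_zero 2 hz'), Nat.factorization_mul hl0P.ne_zero (pow_ne_zero 2 hz0'),
    Nat.factorization_pow, Nat.factorization_pow, Finsupp.add_apply, Finsupp.add_apply, Finsupp.smul_apply,
    Finsupp.smul_apply, smul_eq_mul, smul_eq_mul, hlP.factorization, hl0P.factorization, Finsupp.single_eq_same,
    Finsupp.single_eq_of_ne hll] at h2
  omega

private theorem R4_sq (n : ℕ) (hn : Squarefree n) (c w : ℕ) (hc : 0 < c) (h : c ^ 2 ∣ n * w ^ 2) : c ∣ w := by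
  have hg : 0 < Nat.gcd c w := Nat.gcd_pos_of_pos_left w hc
  obtain ⟨c', w', hco, hc', hw'⟩ := Nat.exists_coprime c w
  set g := Nat.gcd c w with hgd
  have h1 : g ^ 2 * c' ^ 2 ∣ g ^ 2 * (n * w' ^ 2) := by
    have e1 : g ^ 2 * c' ^ 2 = c ^ 2 := by rw [hc', mul_pow, mul_comm]
    have e2 : g ^ 2 * (n * w' ^ 2) = n * w ^ 2 := by
      rw [hw', mul_pow]
      ring
    rw [e1, e2]
    exact h
  have h2 : c' ^ 2 ∣ n * w' ^ 2 := Nat.dvd_of_mul_dvd_mul_left (pow_pos hg 2) h1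
  have h3 : c' ^ 2 ∣ n := (Nat.Coprime.pow 2 2 hco).dvd_of_dvd_mul_right h2
  rw [sq] at h3
  have h4 := Nat.isUnit_iff.mp (hn c' h3)
  rw [hc', h4, one_mul]
  exact Nat.gcd_dvd_right c w

/-- MODULE R4 (product of the two elements).  There are primitive `U, V` and `Z` with
`U ^ 2 = p V ^ 2 + l l0 Z ^ 2`, `Z ∣ z z0`, and `c > 0` with `c U = u u0 + p v v0`,
`c V = u v0 + v u0`, `c ∣ z z0`, and the symbol of `c` modulo any `d = 1 mod 8` coprime to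
`c` with `(l / d) = (l0 / d) = 1` is `1`.
Proof: `c = gcd (u u0 + p v v0, u v0 + v u0)` (positive by `nz`);
`(c U) ^ 2 - p (c V) ^ 2 = l l0 (z z0) ^ 2`, `l l0` squarefree, so `c ∣ z z0`, `Z = z z0 / c`.
Symbol: `jrec8` with `W = c`: an odd prime `k` with odd exponent in `c` is `l` or `l0` by `content`,
and `(d / l) = (l / d) = 1`. -/
theorem prod (p l l0 : ℕ) [Fact p.Prime] [Fact l.Prime] [Fact l0.Prime] (hll : l ≠ l0)
    (hl : l % 8 = 1) (hl0 : l0 % 8 = 1)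
    (hlp : l ≠ p) (hl0p : l0 ≠ p) (u v z u0 v0 z0 : ℤ)
    (hu : u ^ 2 = p * v ^ 2 + l * z ^ 2) (huv : IsCoprime u v) (hz : z ≠ 0)
    (hu0 : u0 ^ 2 = p * v0 ^ 2 + l0 * z0 ^ 2) (huv0 : IsCoprime u0 v0) (hz0 : z0 ≠ 0) :
    ∃ U V Z c : ℤ, U ^ 2 = p * V ^ 2 + (l * l0 : ℕ) * Z ^ 2 ∧ IsCoprime U V ∧ Z ∣ z * z0 ∧
      0 < c ∧ c * U = u * u0 + p * v * v0 ∧ c * V = u * v0 + v * u0 ∧ c ∣ z * z0 ∧
      ∀ d : ℕ, d % 8 = 1 → Int.gcd c d = 1 → jacobiSym l d = 1 → jacobiSym l0 d = 1 →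
        jacobiSym c d = 1 := by
  have hlP : l.Prime := Fact.out
  have hl0P : l0.Prime := Fact.out
  set A : ℤ := u * u0 + p * v * v0 with hA
  set B : ℤ := u * v0 + v * u0 with hB
  have hBne : B ≠ 0 := nz p l l0 hll u v z u0 v0 z0 hu huv hz hu0 huv0
  set c : ℕ := Int.gcd A B with hc
  have hc0 : 0 < c := Int.gcd_pos_of_ne_zero_right A hBne
  have hcZ : (c : ℤ) ≠ 0 := by exact_mod_cast hc0.ne'
  have hcA : (c : ℤ) * (A / c) = A := Int.mul_ediv_cancel' (Int.gcd_dvd_left A B)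
  have hcB : (c : ℤ) * (B / c) = B := Int.mul_ediv_cancel' (Int.gcd_dvd_right A B)
  have hco : IsCoprime (A / c) (B / c) := Int.isCoprime_iff_gcd_eq_one.mpr (Int.gcd_ediv_gcd_ediv_gcd hc0)
  have hN : (c : ℤ) ^ 2 * ((A / c) ^ 2 - p * (B / c) ^ 2) = ((l * l0 : ℕ) : ℤ) * (z * z0) ^ 2 := by
    have e : (c : ℤ) ^ 2 * ((A / c) ^ 2 - p * (B / c) ^ 2) = A ^ 2 - p * B ^ 2 := by
      calc (c : ℤ) ^ 2 * ((A / c) ^ 2 - p * (B / c) ^ 2) = (c * (A / c)) ^ 2 - p * (c * (B / c)) ^ 2 := by ring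
        _ = A ^ 2 - p * B ^ 2 := by rw [hcA, hcB]
    rw [e, hA, hB]
    push_cast
    linear_combination (u0 ^ 2 - p * v0 ^ 2) * hu + l * z ^ 2 * hu0
  have hsq : Squarefree (l * l0) :=
    (Nat.squarefree_mul ((Nat.coprime_primes hlP hl0P).mpr hll)).mpr ⟨hlP.squarefree, hl0P.squarefree⟩
  have hdvd : (c : ℤ) ∣ z * z0 := by
    have h1 : c ^ 2 ∣ (l * l0) * (z * z0).natAbs ^ 2 := by
      have h3 : (c : ℤ) ^ 2 ∣ ((l * l0 : ℕ) : ℤ) * (z * z0) ^ 2 := ⟨_, hN.symm⟩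
      have h4 := Int.natAbs_dvd_natAbs.mpr h3
      rwa [Int.natAbs_pow, Int.natAbs_natCast, Int.natAbs_mul, Int.natAbs_natCast, Int.natAbs_pow] at h4
    exact Int.natCast_dvd.mpr (R4_sq (l * l0) hsq c _ hc0 h1)
  obtain ⟨Z, hZ⟩ := hdvd
  refine ⟨A / c, B / c, Z, c, ?_, hco, ⟨c, by rw [hZ]; ring⟩, by exact_mod_cast hc0, hcA, hcB, ⟨Z, hZ⟩, ?_⟩
  · rw [hZ] at hN
    have h1 : (c : ℤ) ^ 2 * ((A / c) ^ 2 - p * (B / c) ^ 2) = (c : ℤ) ^ 2 * (((l * l0 : ℕ) : ℤ) * Z ^ 2) := by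
      rw [hN]
      ring
    have h2 := mul_left_cancel₀ (pow_ne_zero 2 hcZ) h1
    linarith
  · intro d hd hcd h1 h2
    refine jrec8 d hd c hcZ hcd ?_
    intro k hk hk2 hodd
    rw [Int.natAbs_natCast] at hodd
    haveI : Fact k.Prime := ⟨hk⟩
    by_cases hkl : k = l
    · rw [hkl, R1_rec d l hd hl]
      exact h1
    by_cases hkl0 : k = l0
    · rw [hkl0, R1_rec d l0 hd hl0]
      exact h2
    exact absurd (content p l l0 k hk2 hkl hkl0 hlp hl0p u v z u0 v0 z0 hu huv hz hu0 huv0 hz0)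
      (Nat.not_even_iff_odd.mpr hodd)

/-- MODULE R5 (the relation when all four symbols `(l / q)` are `-1`).
Proof: `m = l l0`, `(m / q) = (m / q0) = 1`, `(q q0 / l) = (l / q q0) = 1` and the same for `l0`:
`jroot2` gives `s, t`, `small` gives `x, w, y`.  `prod` gives `U, V, Z, c`; `symm` with `m = l l0`
and `(U, V, Z)` (`q, q0 ∤ Z` since `Z ∣ z z0`; `q ∤ V` since `c V = u v0 + v u0`): the left side is
not `-1` by `hs`, so
`1 = ((U + V τ) / q) ((U + V τ0) / q0)` (the right side is not `0`); and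
`c (U + V τ) = (u + v τ) (u0 + v0 τ) mod q` (as `τ ^ 2 = p`), `(c / q q0) = 1` by `prod` with
`d = q q0` (`gcd (c, q q0) = 1` as `c ∣ z z0`). -/
theorem rel2 (p l l0 q q0 : ℕ) [Fact p.Prime] [Fact l.Prime] [Fact l0.Prime] [Fact q.Prime]
    [Fact q0.Prime] (hp : p % 8 = 1) (hl : l % 8 = 1) (hl0 : l0 % 8 = 1) (hq : q % 8 = 1)
    (hq0 : q0 % 8 = 1) (hll : l ≠ l0) (hqq : q ≠ q0) (hlp : l ≠ p) (hl0p : l0 ≠ p) (hqp : q ≠ p)
    (hq0p : q0 ≠ p) (hlq : l ≠ q) (hlq0 : l ≠ q0) (hl0q : l0 ≠ q) (hl0q0 : l0 ≠ q0)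
    (hj1 : jacobiSym l q = -1) (hj2 : jacobiSym l0 q = -1) (hj3 : jacobiSym l q0 = -1)
    (hj4 : jacobiSym l0 q0 = -1) (hB : 2 * (q * q0 * (l * l0)) < p)
    (u v z u0 v0 z0 r τ τ0 : ℤ)
    (hu : u ^ 2 = p * v ^ 2 + l * z ^ 2) (huv : IsCoprime u v)
    (hu0 : u0 ^ 2 = p * v0 ^ 2 + l0 * z0 ^ 2) (huv0 : IsCoprime u0 v0)
    (hzq : ¬ (q : ℤ) ∣ z) (hz0q : ¬ (q : ℤ) ∣ z0) (hzq0 : ¬ (q0 : ℤ) ∣ z)
    (hz0q0 : ¬ (q0 : ℤ) ∣ z0) (hv : ¬ (q : ℤ) ∣ u * v0 + v * u0)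
    (hr : (p : ℤ) ∣ r ^ 2 - (q * q0 : ℕ)) (ht : (q : ℤ) ∣ τ ^ 2 - p)
    (ht0 : (q0 : ℤ) ∣ τ0 ^ 2 - p)
    (hs : ∀ x w : ℤ, |x| ≤ 2 * (q * q0 * (l * l0) : ℕ) → |w| ≤ 2 * (q * q0 * (l * l0) : ℕ) →
      jacobiSym (x + w * r) p ≠ -1) :
    jacobiSym (u + v * τ) q * jacobiSym (u0 + v0 * τ) q *
      (jacobiSym (u + v * τ0) q0 * jacobiSym (u0 + v0 * τ0) q0) = 1 := by
  have hpp : p.Prime := Fact.out
  have hlP : l.Prime := Fact.out
  have hl0P : l0.Prime := Fact.out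
  have hqP : q.Prime := Fact.out
  have hq0P : q0.Prime := Fact.out
  have hne : ∀ a b : ℕ, a.Prime → b.Prime → a ≠ b → ¬ a ∣ b := fun a b ha hb hab h =>
    hab ((Nat.prime_dvd_prime_iff_eq ha hb).mp h)
  have hz : z ≠ 0 := by
    rintro rfl
    exact hzq (dvd_zero _)
  have hz0 : z0 ≠ 0 := by
    rintro rfl
    exact hz0q (dvd_zero _)
  set m : ℕ := l * l0 with hm
  have hmsq : Squarefree m :=
    (Nat.squarefree_mul ((Nat.coprime_primes hlP hl0P).mpr hll)).mpr ⟨hlP.squarefree, hl0P.squarefree⟩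
  have hm1 : m ≠ 1 := by
    have h1 := hlP.one_lt
    have h2 := hl0P.one_lt
    have h3 : 1 < m := by
      rw [hm]
      nlinarith
    omega
  have hmpos : 0 < m := Nat.mul_pos hlP.pos hl0P.pos
  have hqm : ¬ q ∣ m := by
    intro h
    rcases hqP.dvd_mul.mp h with h | h
    · exact hne q l hqP hlP hlq.symm h
    · exact hne q l0 hqP hl0P hl0q.symm h
  have hq0m : ¬ q0 ∣ m := by
    intro h
    rcases hq0P.dvd_mul.mp h with h | h
    · exact hne q0 l hq0P hlP hlq0.symm h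
    · exact hne q0 l0 hq0P hl0P hl0q0.symm h
  have hpm : ¬ p ∣ m := by
    intro h
    rcases hpp.dvd_mul.mp h with h | h
    · exact hne p l hpp hlP hlp.symm h
    · exact hne p l0 hpp hl0P hl0p.symm h
  have hco : Nat.Coprime (q * q0) m :=
    Nat.Coprime.mul_left ((Nat.Prime.coprime_iff_not_dvd hqP).mpr hqm) ((Nat.Prime.coprime_iff_not_dvd hq0P).mpr hq0m)
  -- square roots
  have hjm : jacobiSym m q = 1 := by
    rw [hm]
    push_cast
    rw [jacobiSym.mul_left, hj1, hj2]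
    norm_num
  have hjm0 : jacobiSym m q0 = 1 := by
    rw [hm]
    push_cast
    rw [jacobiSym.mul_left, hj3, hj4]
    norm_num
  have hjl : jacobiSym ((q * q0 : ℕ) : ℤ) l = 1 := by
    push_cast
    rw [jacobiSym.mul_left, R1_rec q l hq hl, R1_rec q0 l hq0 hl, hj1, hj3]
    norm_num
  have hjl0 : jacobiSym ((q * q0 : ℕ) : ℤ) l0 = 1 := by
    push_cast
    rw [jacobiSym.mul_left, R1_rec q l0 hq hl0, R1_rec q0 l0 hq0 hl0, hj2, hj4]
    norm_num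
  obtain ⟨s, hs'⟩ := jroot2 q q0 hqq m hjm hjm0
  obtain ⟨t, ht'⟩ := jroot2 l l0 hll _ hjl hjl0
  obtain ⟨x, w, y, hx, hxw, hw0, hy0, bx, bw, bY⟩ := small q q0 m hqq hmsq hm1 hco s t hs' ht'
  have hwp : ¬ (p : ℤ) ∣ w := R1_small p w hw0 _ hB (by push_cast; push_cast at bw; exact bw)
  have hyp : ¬ (p : ℤ) ∣ y := R1_small p y hy0 _ hB (by push_cast; push_cast at bY; exact bY)
  obtain ⟨U, V, Z, c, hU, hUV, hZz, hc0, hcU, hcV, hcz, hsym⟩ :=
    prod p l l0 hll hl hl0 hlp hl0p u v z u0 v0 z0 hu huv hz hu0 huv0 hz0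
  have hzz : ¬ (q : ℤ) ∣ z * z0 := by
    intro h
    rcases R1_prime_dvd_mul q hqP _ _ h with h | h
    · exact hzq h
    · exact hz0q h
  have hzz0 : ¬ (q0 : ℤ) ∣ z * z0 := by
    intro h
    rcases R1_prime_dvd_mul q0 hq0P _ _ h with h | h
    · exact hzq0 h
    · exact hz0q0 h
  have hZq : ¬ (q : ℤ) ∣ Z := fun h => hzz (h.trans hZz)
  have hZq0 : ¬ (q0 : ℤ) ∣ Z := fun h => hzz0 (h.trans hZz)
  have hcq : ¬ (q : ℤ) ∣ c := fun h => hzz (h.trans hcz)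
  have hcq0 : ¬ (q0 : ℤ) ∣ c := fun h => hzz0 (h.trans hcz)
  have hVq : ¬ (q : ℤ) ∣ V := fun h => hv (by rw [← hcV]; exact h.mul_left c)
  have hS := symm p q q0 m hp hq hq0 hqq hqp hq0p hmpos hpm hqm hq0m x w y U V Z r τ τ0 hx hxw hwp hyp hU hUV hZq hZq0
    (fun h => hVq h.1) hr ht ht0
  have hne' := hs x w bx bw
  have hprod : jacobiSym (U + V * τ) q * jacobiSym (U + V * τ0) q0 = 1 := by
    rcases R1_pm q hqP _ (R1_nz q p m hqP (fun h => hqm (Int.natCast_dvd_natCast.mp h)) U V Z τ hU hZq ht) with h3 | h3 <;>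
      rcases R1_pm q0 hq0P _ (R1_nz q0 p m hq0P (fun h => hq0m (Int.natCast_dvd_natCast.mp h)) U V Z τ0 hU hZq0 ht0) with
        h4 | h4
    · rw [h3, h4]
      norm_num
    · exfalso
      rw [h3, h4] at hS
      apply hne'
      rw [hS]
      norm_num
    · exfalso
      rw [h3, h4] at hS
      apply hne'
      rw [hS]
      norm_num
    · rw [h3, h4]
      norm_num
  -- the symbol of `c`
  have hd8 : q * q0 % 8 = 1 := by rw [Nat.mul_mod, hq, hq0]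
  have hcd : Int.gcd c (q * q0 : ℕ) = 1 := R1_gcd_of c (q * q0) fun g hg hgd => by
    rcases hg.dvd_mul.mp hgd with h | h
    · rw [(Nat.prime_dvd_prime_iff_eq hg hqP).mp h]
      exact hcq
    · rw [(Nat.prime_dvd_prime_iff_eq hg hq0P).mp h]
      exact hcq0
  have hq0' : q ≠ 0 := hqP.ne_zero
  have hq00' : q0 ≠ 0 := hq0P.ne_zero
  have hsc := hsym (q * q0) hd8 hcd (by rw [jacobiSym.mul_right' _ hq0' hq00', hj1, hj3]; norm_num)
    (by rw [jacobiSym.mul_right' _ hq0' hq00', hj2, hj4]; norm_num)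
  rw [jacobiSym.mul_right' _ hq0' hq00'] at hsc
  have hm1 : jacobiSym c q * jacobiSym (U + V * τ) q = jacobiSym (u + v * τ) q * jacobiSym (u0 + v0 * τ) q := by
    rw [← jacobiSym.mul_left, ← jacobiSym.mul_left]
    apply jmod
    have e : c * (U + V * τ) - (u + v * τ) * (u0 + v0 * τ) = -(v * v0) * (τ ^ 2 - p) := by
      linear_combination hcU + τ * hcV
    rw [e]
    exact ht.mul_left _
  have hm2 : jacobiSym c q0 * jacobiSym (U + V * τ0) q0 = jacobiSym (u + v * τ0) q0 * jacobiSym (u0 + v0 * τ0) q0 := by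
    rw [← jacobiSym.mul_left, ← jacobiSym.mul_left]
    apply jmod
    have e : c * (U + V * τ0) - (u + v * τ0) * (u0 + v0 * τ0) = -(v * v0) * (τ0 ^ 2 - p) := by
      linear_combination hcU + τ0 * hcV
    rw [e]
    exact ht0.mul_left _
  rw [← hm1, ← hm2]
  calc jacobiSym c q * jacobiSym (U + V * τ) q * (jacobiSym c q0 * jacobiSym (U + V * τ0) q0)
      = (jacobiSym c q * jacobiSym c q0) * (jacobiSym (U + V * τ) q * jacobiSym (U + V * τ0) q0) := by ring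
    _ = 1 := by rw [hsc, hprod]; norm_num

end Pool.Agent.Qnr
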