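import Pool.Agent.Qnr.Rel
import Pool.Agent.Qnr.Rec
import Pool.Agent.Qnr.Den

/-!
# The structure of the symbols (modules A1 - A3)
-/

set_option autoImplicit false

namespace Pool.Agent.Qnr

open Finset

/-- The hypotheses: all primes of `P1, P2` are squares modulo `p`, and so are all small
`x + w r` (or `0`), `r ^ 2 = q q'`. -/
structure Hyp (p B : ℕ) (P1 P2 : Finset ℕ) : Prop where
  p8 : p % 8 = 1
  h1 : ∀ l ∈ P1, l.Prime ∧ l % 8 = 1 ∧ l ≤ B ∧ jacobiSym l p = 1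
  h2 : ∀ q ∈ P2, q.Prime ∧ q % 8 = 1 ∧ B < q ∧ q ≤ B ^ 3 ∧ jacobiSym q p = 1
  hB : 2 * B ^ 8 < p
  sm : ∀ q ∈ P2, ∀ q' ∈ P2, q ≠ q' → ∃ r : ℤ, (p : ℤ) ∣ r ^ 2 - (q * q' : ℕ) ∧
    ∀ x w : ℤ, |x| ≤ 2 * (B : ℤ) ^ 8 → |w| ≤ 2 * (B : ℤ) ^ 8 → jacobiSym (x + w * r) p ≠ -1

/-- The elements `u + v √p` of norm `l z ^ 2`, and roots of `p` modulo `l`. -/
structure Dat (p : ℕ) (P1 : Finset ℕ) (u v z σ : ℕ → ℤ) : Prop where
  eq : ∀ l ∈ P1, u l ^ 2 = p * v l ^ 2 + l * z l ^ 2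
  cop : ∀ l ∈ P1, IsCoprime (u l) (v l)
  odd : ∀ l ∈ P1, z l % 2 = 1
  v0 : ∀ l ∈ P1, v l ≠ 0
  bd : ∀ l ∈ P1, |u l| ≤ p ^ 4 ∧ |v l| ≤ p ^ 4 ∧ |z l| ≤ p ^ 4
  sg : ∀ l ∈ P1, (l : ℤ) ∣ u l + v l * σ l ∧ (l : ℤ) ∣ σ l ^ 2 - p

/-- MODULE A1 (existence of the data).
Proof: `beta` for every `l ∈ P1`; `l ∤ v l` (otherwise `l ∣ u l`), so there is `σ` with
`v σ = - u mod l`, and then `v ^ 2 σ ^ 2 = u ^ 2 = p v ^ 2 mod l`. -/
theorem exists_dat (p B : ℕ) [Fact p.Prime] (P1 P2 : Finset ℕ) (H : Hyp p B P1 P2) :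
    ∃ u v z σ : ℕ → ℤ, Dat p P1 u v z σ := by
  have key : ∀ l : ℕ, l ∈ P1 → ∃ u v z σ : ℤ, u ^ 2 = p * v ^ 2 + l * z ^ 2 ∧ IsCoprime u v ∧
      z % 2 = 1 ∧ v ≠ 0 ∧ (|u| ≤ p ^ 4 ∧ |v| ≤ p ^ 4 ∧ |z| ≤ p ^ 4) ∧
      ((l : ℤ) ∣ u + v * σ ∧ (l : ℤ) ∣ σ ^ 2 - p) := by
    intro l hl
    obtain ⟨hlP, hl8, hlB, hlp⟩ := H.h1 l hl
    have : Fact l.Prime := ⟨hlP⟩
    have hlt : l < p := by
      have h1 : B ≤ B ^ 8 := Nat.le_self_pow (by norm_num) B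
      have := H.hB
      omega
    obtain ⟨u, v, z, he, hc, hz, hv, hu4, hv4, hz4⟩ := beta p l H.p8 hl8 hlt hlp
    have hlI : Prime (l : ℤ) := Nat.prime_iff_prime_int.1 hlP
    have hlv : ¬ (l : ℤ) ∣ v := by
      intro hd
      have h1 : (l : ℤ) ∣ u ^ 2 := by
        rw [he]
        exact dvd_add (Dvd.dvd.mul_left (dvd_pow hd (by norm_num)) _) (dvd_mul_right _ _)
      have h2 : (l : ℤ) ∣ u := hlI.dvd_of_dvd_pow h1
      exact hlI.not_isUnit (hc.isUnit_of_dvd' h2 hd)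
    have hcop : IsCoprime (l : ℤ) v := (Prime.coprime_iff_not_dvd hlI).2 hlv
    obtain ⟨a, b, hab⟩ := hcop
    refine ⟨u, v, z, -(u * b), he, hc, hz, hv, ⟨hu4, hv4, hz4⟩, ?_, ?_⟩
    · refine ⟨u * a, ?_⟩
      linear_combination (-u) * hab
    · have h1 : (l : ℤ) ∣ v ^ 2 * ((-(u * b)) ^ 2 - p) := by
        have h2 : (b * v) = 1 - a * l := by linear_combination hab
        refine ⟨z ^ 2 - u ^ 2 * (2 * a - a ^ 2 * l), ?_⟩
        have h3 : v ^ 2 * ((-(u * b)) ^ 2 - p) = u ^ 2 * (b * v) ^ 2 - p * v ^ 2 := by ring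
        rw [h3, h2]
        linear_combination he
      exact (hlI.dvd_or_dvd h1).resolve_left (fun h => hlv (hlI.dvd_of_dvd_pow h))
  choose! u v z σ h using key
  exact ⟨u, v, z, σ, ⟨fun l hl => (h l hl).1, fun l hl => (h l hl).2.1,
    fun l hl => (h l hl).2.2.1, fun l hl => (h l hl).2.2.2.1,
    fun l hl => (h l hl).2.2.2.2.1, fun l hl => (h l hl).2.2.2.2.2⟩⟩

private theorem A2_pm (p l q : ℕ) [Fact l.Prime] [Fact q.Prime] (hlq : l ≠ q) (u v z t : ℤ)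
    (hu : u ^ 2 = p * v ^ 2 + l * z ^ 2) (ht : (q : ℤ) ∣ t ^ 2 - p) (hz : ¬ (q : ℤ) ∣ z) :
    ¬ (q : ℤ) ∣ u + v * t := by
  intro h
  have hq : q.Prime := Fact.out
  have hl : l.Prime := Fact.out
  have hqi : Prime (q : ℤ) := Nat.prime_iff_prime_int.1 hq
  have h1 : (q : ℤ) ∣ l * z ^ 2 := by
    have h2 : (l : ℤ) * z ^ 2 = (u + v * t) * (u - v * t) + v ^ 2 * (t ^ 2 - p) := by
      linear_combination -hu
    rw [h2]
    exact dvd_add (Dvd.dvd.mul_right h _) (Dvd.dvd.mul_left ht _)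
  rcases hqi.dvd_or_dvd h1 with h2 | h2
  · have h3 : q ∣ l := by exact_mod_cast h2
    exact hlq ((Nat.prime_dvd_prime_iff_eq hq hl).1 h3).symm
  · exact hz (hqi.dvd_of_dvd_pow h2)

private theorem A2_or (p l q : ℕ) [Fact l.Prime] [Fact q.Prime] (hlq : l ≠ q) (u v z t : ℤ)
    (hu : u ^ 2 = p * v ^ 2 + l * z ^ 2) (ht : (q : ℤ) ∣ t ^ 2 - p) (hz : ¬ (q : ℤ) ∣ z)
    (hj : jacobiSym l q = -1) :
    ∃ t' : ℤ, (q : ℤ) ∣ t' ^ 2 - p ∧ jacobiSym (u + v * t') q = 1 := by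
  rcases jpm q _ (A2_pm p l q hlq u v z t hu ht hz) with h | h
  · exact ⟨t, ht, h⟩
  · refine ⟨-t, by rwa [neg_sq], ?_⟩
    have h1 : jacobiSym ((u + v * t) * (u + v * (-t))) q = jacobiSym (l * z ^ 2) q := by
      apply jmod
      have h2 : (u + v * t) * (u + v * (-t)) - (l : ℤ) * z ^ 2 = -(v ^ 2 * (t ^ 2 - p)) := by
        linear_combination hu
      rw [h2]
      exact (Dvd.dvd.mul_left ht _).neg_right
    have h3 : jacobiSym (z ^ 2) q = 1 := by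
      rcases jpm q z hz with h4 | h4 <;> rw [jacobiSym.pow_left, h4] <;> norm_num
    rw [jacobiSym.mul_left, jacobiSym.mul_left, h, hj, h3] at h1
    linarith

private theorem A2_root (p q : ℕ) [Fact p.Prime] [Fact q.Prime] (hp : p % 8 = 1) (hq : q % 8 = 1) 
    (h : jacobiSym q p = 1) : ∃ t : ℤ, (q : ℤ) ∣ t ^ 2 - p := by
  apply jroot
  rw [← h]
  exact (jacobiSym.quadratic_reciprocity_one_mod_four (by omega) (Nat.odd_iff.2 (by omega))).symm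

/-- MODULE A2 (the relations in the sets; no counting).  `l0`, `q0` fixed as in `rel2`; the
orientation of `τ`.
Proof: for `q ∈ P2'` take a root `t` of `p` modulo `q` (`jroot`, `(p / q) = (q / p) = 1`);
`((u0 + v0 t) / q) ((u0 - v0 t) / q) = (l0 z0 ^ 2 / q) = (l0 / q) = -1`, so for `τ q = t` or `- t` the
symbol `((u0 + v0 τ) / q)` is `1` (`u0 = u l0` ...).  `s' l`: if there is a `q ∈ P2'` with
`(l / q) = 1` take the value at one such `q` (`rel1`: all the others have the same value; the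
condition `hv` holds since `q ∤ v l`), otherwise `1`; it is `± 1`.
`s l = ((u l + v l τ0) / q0) ((u0 + v0 τ0) / q0)` for `l ≠ l0` (`rel2`: for `q ∈ P2'` with
`(l / q) = -1`, `((u l + v l τ q) / q) * 1 * s l = 1`), `s l0 = 1` (all `q ∈ P2'` have
`(l0 / q) = -1`). `r` from `H.sm`; `2 q1 q2 l ≤ 2 B ^ 7`, `2 q q0 l l0 ≤ 2 B ^ 8`. -/
theorem values (p B : ℕ) [Fact p.Prime] (P1 P2 : Finset ℕ) (H : Hyp p B P1 P2)
    (u v z σ : ℕ → ℤ) (D : Dat p P1 u v z σ) (P1' P2' : Finset ℕ) (hP1 : P1' ⊆ P1)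
    (hP2 : P2' ⊆ P2) (l0 q0 : ℕ) (hl0 : l0 ∈ P1') (hq0 : q0 ∈ P2) (hq0' : q0 ∉ P2')
    (h3 : ∀ l ∈ P1', jacobiSym l q0 = -1 ∧ ¬ (q0 : ℤ) ∣ z l)
    (h4 : ∀ q ∈ P2', jacobiSym l0 q = -1)
    (h5 : ∀ l ∈ P1', ∀ q ∈ P2', ¬ (q : ℤ) ∣ z l ∧ ¬ (q : ℤ) ∣ v l ∧
      (l ≠ l0 → ¬ (q : ℤ) ∣ u l * v l0 + v l * u l0)) :
    ∃ (τ s s' : ℕ → ℤ), (∀ q ∈ P2', (q : ℤ) ∣ τ q ^ 2 - p) ∧
      ∀ l ∈ P1', (s l = 1 ∨ s l = -1) ∧ (s' l = 1 ∨ s' l = -1) ∧ ∀ q ∈ P2',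
        jacobiSym (u l + v l * τ q) q = av l (s l) (s' l) q := by
  classical
  have hBp := H.hB
  have hl0P := hP1 hl0
  have hB1 : 1 ≤ B := by
    have h := H.h1 l0 hl0P
    have := h.1.two_le
    omega
  have hpow : ∀ i ≤ 8, B ^ i ≤ B ^ 8 := fun i hi => Nat.pow_le_pow_right hB1 hi
  have hBB : B < p := by
    have := hpow 1 (by norm_num)
    rw [pow_one] at this
    omega
  have hlp : ∀ l ∈ P1, l ≠ p := fun l hl => by
    have := (H.h1 l hl).2.2.1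
    omega
  have hqp : ∀ q ∈ P2, q ≠ p := fun q hq => by
    have h := (H.h2 q hq).2.2.2.1
    have := hpow 3 (by norm_num)
    omega
  have hlq : ∀ l ∈ P1, ∀ q ∈ P2, l ≠ q := fun l hl q hq => by
    have h1 := (H.h1 l hl).2.2.1
    have h2 := (H.h2 q hq).2.2.1
    omega
  have fl : ∀ l ∈ P1, Fact l.Prime := fun l hl => ⟨(H.h1 l hl).1⟩
  have fq : ∀ q ∈ P2, Fact q.Prime := fun q hq => ⟨(H.h2 q hq).1⟩
  have := fl l0 hl0P
  have := fq q0 hq0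
  -- the roots
  have hτ : ∀ q : ℕ, ∃ t : ℤ, q ∈ P2' → ((q : ℤ) ∣ t ^ 2 - p ∧
      jacobiSym (u l0 + v l0 * t) q = 1) := by
    intro q
    by_cases hq : q ∈ P2'
    · have := fq q (hP2 hq)
      obtain ⟨t, ht⟩ := A2_root p q H.p8 (H.h2 q (hP2 hq)).2.1 (H.h2 q (hP2 hq)).2.2.2.2
      obtain ⟨t', h1, h2⟩ := A2_or p l0 q (hlq l0 hl0P q (hP2 hq)) (u l0) (v l0) (z l0) t
        (D.eq l0 hl0P) ht (h5 l0 hl0 q hq).1 (h4 q hq)
      exact ⟨t', fun _ => ⟨h1, h2⟩⟩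
    · exact ⟨0, fun h => absurd h hq⟩
  choose τ hτ using hτ
  obtain ⟨τ0, hτ0⟩ := A2_root p q0 H.p8 (H.h2 q0 hq0).2.1 (H.h2 q0 hq0).2.2.2.2
  have hs' : ∀ l : ℕ, ∃ c : ℤ, l ∈ P1' → ((c = 1 ∨ c = -1) ∧ ∀ q ∈ P2', jacobiSym l q = 1 →
      jacobiSym (u l + v l * τ q) q = c) := by
    intro l
    by_cases hl : l ∈ P1'
    swap
    · exact ⟨0, fun h => absurd h hl⟩
    have hlP := hP1 hl
    have := fl l hlP
    by_cases hex : ∃ q ∈ P2', jacobiSym l q = 1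
    swap
    · exact ⟨1, fun _ => ⟨Or.inl rfl, fun q hq h => absurd ⟨q, hq, h⟩ hex⟩⟩
    obtain ⟨q1, hq1, hj1⟩ := hex
    have := fq q1 (hP2 hq1)
    refine ⟨jacobiSym (u l + v l * τ q1) q1, fun _ => ⟨jpm q1 _ (A2_pm p l q1
      (hlq l hlP q1 (hP2 hq1)) (u l) (v l) (z l) (τ q1) (D.eq l hlP) (hτ q1 hq1).1
      (h5 l hl q1 hq1).1), ?_⟩⟩
    intro q hq hj
    by_cases hqq : q = q1
    · rw [hqq]
    have := fq q (hP2 hq)
    obtain ⟨r, hr, hsm⟩ := H.sm q (hP2 hq) q1 (hP2 hq1) hqq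
    have hb : q * q1 * l ≤ B ^ 8 := by
      calc q * q1 * l ≤ B ^ 3 * B ^ 3 * B := Nat.mul_le_mul (Nat.mul_le_mul
            (H.h2 q (hP2 hq)).2.2.2.1 (H.h2 q1 (hP2 hq1)).2.2.2.1) (H.h1 l hlP).2.2.1
        _ = B ^ 7 := by ring
        _ ≤ B ^ 8 := hpow 7 (by norm_num)
    have hb' : (2 : ℤ) * ((q * q1 * l : ℕ) : ℤ) ≤ 2 * (B : ℤ) ^ 8 := by
      have h1 : ((q * q1 * l : ℕ) : ℤ) ≤ ((B ^ 8 : ℕ) : ℤ) := by exact_mod_cast hb
      rw [Nat.cast_pow] at h1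
      linarith
    exact rel1 p l q q1 H.p8 (H.h1 l hlP).2.1 (H.h2 q (hP2 hq)).2.1 (H.h2 q1 (hP2 hq1)).2.1 hqq
      (hlp l hlP) (hqp q (hP2 hq)) (hqp q1 (hP2 hq1)) (hlq l hlP q (hP2 hq))
      (hlq l hlP q1 (hP2 hq1)) hj hj1 (by omega) (u l) (v l) (z l) r (τ q) (τ q1) (D.eq l hlP)
      (D.cop l hlP) (h5 l hl q hq).1 (h5 l hl q1 hq1).1 (fun h => (h5 l hl q hq).2.1 h.1) hr
      (hτ q hq).1 (hτ q1 hq1).1 (fun x w hx hw => hsm x w (hx.trans hb') (hw.trans hb'))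
  choose s' hs' using hs'
  refine ⟨τ, fun l => if l = l0 then 1 else jacobiSym (u l + v l * τ0) q0 *
    jacobiSym (u l0 + v l0 * τ0) q0, s', fun q hq => (hτ q hq).1, fun l hl => ?_⟩
  have hlP := hP1 hl
  have := fl l hlP
  have ha1 := jpm q0 _ (A2_pm p l q0 (hlq l hlP q0 hq0) (u l) (v l) (z l) τ0 (D.eq l hlP) hτ0
    (h3 l hl).2)
  have ha2 := jpm q0 _ (A2_pm p l0 q0 (hlq l0 hl0P q0 hq0) (u l0) (v l0) (z l0) τ0 (D.eq l0 hl0P)
    hτ0 (h3 l0 hl0).2)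
  refine ⟨?_, (hs' l hl).1, ?_⟩
  · show (if l = l0 then (1 : ℤ) else _) = 1 ∨ (if l = l0 then (1 : ℤ) else _) = -1
    by_cases h : l = l0
    · rw [if_pos h]
      exact Or.inl rfl
    · rw [if_neg h]
      rcases ha1 with h1 | h1 <;> rcases ha2 with h2 | h2 <;> rw [h1, h2] <;> norm_num
  · intro q hq
    have := fq q (hP2 hq)
    show _ = av l (if l = l0 then (1 : ℤ) else _) (s' l) q
    unfold av
    by_cases hj : jacobiSym l q = 1
    · rw [if_pos hj]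
      exact (hs' l hl).2 q hq hj
    · rw [if_neg hj]
      by_cases h : l = l0
      · rw [if_pos h, h]
        exact (hτ q hq).2
      · rw [if_neg h]
        have hqd : ¬ (q : ℤ) ∣ l := by
          intro hd
          have hd' : q ∣ l := by exact_mod_cast hd
          exact hlq l hlP q (hP2 hq)
            ((Nat.prime_dvd_prime_iff_eq (H.h2 q (hP2 hq)).1 (H.h1 l hlP).1).1 hd').symm
        have hj' : jacobiSym l q = -1 := (jpm q l hqd).resolve_left hj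
        have hqq : q ≠ q0 := fun hh => hq0' (hh ▸ hq)
        obtain ⟨r, hr, hsm⟩ := H.sm q (hP2 hq) q0 hq0 hqq
        have hb : q * q0 * (l * l0) ≤ B ^ 8 := by
          calc q * q0 * (l * l0) ≤ B ^ 3 * B ^ 3 * (B * B) := Nat.mul_le_mul (Nat.mul_le_mul
                (H.h2 q (hP2 hq)).2.2.2.1 (H.h2 q0 hq0).2.2.2.1)
                (Nat.mul_le_mul (H.h1 l hlP).2.2.1 (H.h1 l0 hl0P).2.2.1)
            _ = B ^ 8 := by ring
        have hb' : (2 : ℤ) * ((q * q0 * (l * l0) : ℕ) : ℤ) ≤ 2 * (B : ℤ) ^ 8 := by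
          have h1 : ((q * q0 * (l * l0) : ℕ) : ℤ) ≤ ((B ^ 8 : ℕ) : ℤ) := by exact_mod_cast hb
          rw [Nat.cast_pow] at h1
          linarith
        have key := rel2 p l l0 q q0 H.p8 (H.h1 l hlP).2.1 (H.h1 l0 hl0P).2.1
          (H.h2 q (hP2 hq)).2.1 (H.h2 q0 hq0).2.1 h hqq (hlp l hlP) (hlp l0 hl0P)
          (hqp q (hP2 hq)) (hqp q0 hq0) (hlq l hlP q (hP2 hq)) (hlq l hlP q0 hq0)
          (hlq l0 hl0P q (hP2 hq)) (hlq l0 hl0P q0 hq0) hj' (h4 q hq) (h3 l hl).1 (h3 l0 hl0).1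
          (by omega) (u l) (v l) (z l) (u l0) (v l0) (z l0) r (τ q) τ0 (D.eq l hlP) (D.cop l hlP)
          (D.eq l0 hl0P) (D.cop l0 hl0P) (h5 l hl q hq).1 (h5 l0 hl0 q hq).1 (h3 l hl).2
          (h3 l0 hl0).2 ((h5 l hl q hq).2.2 h) hr (hτ q hq).1 hτ0
          (fun x w hx hw => hsm x w (hx.trans hb') (hw.trans hb'))
        rw [(hτ q hq).2, mul_one] at key
        rcases ha1 with h1 | h1 <;> rcases ha2 with h2 | h2 <;> rw [h1, h2] at key ⊢ <;> linarith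

/-- MODULE A3 (the choice of the sets).
Proof: `n = Nat.size p`, `p < 2 ^ n`.  `density`, then `choice` with `R l q := (l / q) = -1` and
`Z l q := q ∣ z l` (at most `K = 4 n + 1` bad `q` by `fewdiv`, `|z l| ≤ p ^ 4`, `z l` is odd so `≠ 0`):
`q0`, `P1'` (nonempty), `l0 ∈ P1'` any element; `P2' = {q ∈ P2 : (l0 / q) = -1, q ≠ q0` and
`q` does not divide `z l, v l` nor `u l v l0 + v l u l0` (if `l ≠ l0`; nonzero by `nz`) for
`l ∈ P1'}`: at least `|P2| / 8 - 1 - |P1| (17 n + 4)` elements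
(`|u v0 + v u0| ≤ 2 p ^ 8 < 2 ^ (8 n + 1)`). -/
theorem sets (p B : ℕ) [Fact p.Prime] (P1 P2 : Finset ℕ) (H : Hyp p B P1 P2)
    (hd : 8 * B ^ 3 ≤ P1.card * P2.card)
    (hK : 1000 * (P1.card + 1) * Nat.size p ≤ P2.card) (hP : 0 < P1.card)
    (u v z σ : ℕ → ℤ) (D : Dat p P1 u v z σ) :
    ∃ (P1' P2' : Finset ℕ) (l0 q0 : ℕ), P1' ⊆ P1 ∧ P2' ⊆ P2 ∧ P1.card ≤ 128 * P1'.card ∧
      P2.card ≤ 16 * P2'.card ∧ l0 ∈ P1' ∧ q0 ∈ P2 ∧ q0 ∉ P2' ∧
      (∀ l ∈ P1', jacobiSym l q0 = -1 ∧ ¬ (q0 : ℤ) ∣ z l) ∧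
      (∀ q ∈ P2', jacobiSym l0 q = -1) ∧
      (∀ l ∈ P1', ∀ q ∈ P2', ¬ (q : ℤ) ∣ z l ∧ ¬ (q : ℤ) ∣ v l ∧
        (l ≠ l0 → ¬ (q : ℤ) ∣ u l * v l0 + v l * u l0)) := by
  classical
  set n := Nat.size p with hn
  have hpp : p.Prime := Fact.out
  have hp2 : p < 2 ^ n := Nat.lt_size_self p
  have hn1 : 1 ≤ n := by
    rw [hn, Nat.one_le_iff_ne_zero, Ne, Nat.size_eq_zero]
    exact hpp.ne_zero
  have hpz : (p : ℤ) < 2 ^ n := by exact_mod_cast hp2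
  have hp0 : (0 : ℤ) ≤ p := by positivity
  have hp4 : (p : ℤ) ^ 4 < 2 ^ (4 * n) := by
    rw [mul_comm, pow_mul]
    exact pow_lt_pow_left₀ hpz hp0 (by norm_num)
  have hprime : ∀ q ∈ P2, q.Prime := fun q hq => (H.h2 q hq).1
  have hz0 : ∀ l ∈ P1, z l ≠ 0 := by
    intro l hl h0
    have := D.odd l hl
    rw [h0] at this
    norm_num at this
  have hfew : ∀ (A : ℤ) (m : ℕ), A ≠ 0 → |A| < 2 ^ m →
      (P2.filter (fun q : ℕ => (q : ℤ) ∣ A)).card ≤ m := by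
    intro A m hA hm
    exact fewdiv _ (fun q hq => hprime q (mem_filter.1 hq).1) A hA m hm
      (fun q hq => (mem_filter.1 hq).2)
  have hden := density P1 P2 B (fun l hl => ⟨(H.h1 l hl).1, (H.h1 l hl).2.1, (H.h1 l hl).2.2.1⟩)
    (fun q hq => ⟨(H.h2 q hq).1, (H.h2 q hq).2.1, (H.h2 q hq).2.2.1, (H.h2 q hq).2.2.2.1⟩) hd
  have hP2 : 0 < P2.card := by
    have : 0 < 1000 * (P1.card + 1) * n := by positivity
    omega
  have hbase : 1000 * n ≤ P2.card := by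
    refine le_trans ?_ hK
    have : 1000 * 1 * n ≤ 1000 * (P1.card + 1) * n :=
      Nat.mul_le_mul_right _ (Nat.mul_le_mul_left _ (by omega))
    omega
  obtain ⟨q0, hq0, P, hPP, hPc, hPl⟩ := choice P1 P2 (fun l q => jacobiSym (l : ℤ) q = -1)
    (fun l q => (q : ℤ) ∣ z l) (4 * n) (by
      refine le_trans hden (le_of_eq ?_)
      congr 2
      ext w
      simp) (fun l hl =>
      le_trans (le_of_eq (by congr)) (hfew (z l) (4 * n) (hz0 l hl)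
        (lt_of_le_of_lt (D.bd l hl).2.2 hp4))) (by omega) hP hP2
  have hPne : 0 < P.card := by omega
  obtain ⟨l0, hl0⟩ := card_pos.1 hPne
  -- the bad primes
  set bad : Finset ℕ := {q0} ∪ P.biUnion (fun l => P2.filter (fun q : ℕ => (q : ℤ) ∣ z l) ∪
    (P2.filter (fun q : ℕ => (q : ℤ) ∣ v l) ∪
      P2.filter (fun q : ℕ => l ≠ l0 ∧ (q : ℤ) ∣ u l * v l0 + v l * u l0))) with hbad
  have hbc : bad.card ≤ 1 + P1.card * (16 * n + 1) := by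
    refine (card_union_le _ _).trans ?_
    rw [card_singleton]
    refine Nat.add_le_add_left ?_ _
    refine card_biUnion_le.trans ?_
    have h1 : ∀ l ∈ P, (P2.filter (fun q : ℕ => (q : ℤ) ∣ z l) ∪
        (P2.filter (fun q : ℕ => (q : ℤ) ∣ v l) ∪
        P2.filter (fun q : ℕ => l ≠ l0 ∧ (q : ℤ) ∣ u l * v l0 + v l * u l0))).card ≤
        16 * n + 1 := by
      intro l hl
      have hl1 := hPP hl
      have hl2 := hPP hl0
      have e1 := hfew (z l) (4 * n) (hz0 l hl1) (lt_of_le_of_lt (D.bd l hl1).2.2 hp4)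
      have e2 := hfew (v l) (4 * n) (D.v0 l hl1) (lt_of_le_of_lt (D.bd l hl1).2.1 hp4)
      have e3 : (P2.filter (fun q : ℕ => l ≠ l0 ∧ (q : ℤ) ∣ u l * v l0 + v l * u l0)).card ≤
          8 * n + 1 := by
        by_cases hll : l = l0
        · rw [filter_false_of_mem (fun q _ h => h.1 hll)]
          simp
        · have f1 : Fact l.Prime := ⟨(H.h1 l hl1).1⟩
          have f2 : Fact l0.Prime := ⟨(H.h1 l0 hl2).1⟩
          have e4 := nz p l l0 hll (u l) (v l) (z l) (u l0) (v l0) (z l0) (D.eq l hl1)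
            (D.cop l hl1) (hz0 l hl1) (D.eq l0 hl2) (D.cop l0 hl2)
          refine (card_le_card ?_).trans (hfew (u l * v l0 + v l * u l0) (8 * n + 1) e4 ?_)
          · intro q hq
            obtain ⟨g1, g2⟩ := mem_filter.1 hq
            exact mem_filter.2 ⟨g1, g2.2⟩
          · obtain ⟨a1, a2, -⟩ := D.bd l hl1
            obtain ⟨b1, b2, -⟩ := D.bd l0 hl2
            have c0 : (0 : ℤ) ≤ (p : ℤ) ^ 4 := by positivity
            calc |u l * v l0 + v l * u l0| ≤ |u l * v l0| + |v l * u l0| := abs_add_le _ _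
              _ = |u l| * |v l0| + |v l| * |u l0| := by rw [abs_mul, abs_mul]
              _ ≤ (p : ℤ) ^ 4 * (p : ℤ) ^ 4 + (p : ℤ) ^ 4 * (p : ℤ) ^ 4 := by
                  gcongr
              _ < 2 ^ (4 * n) * 2 ^ (4 * n) + 2 ^ (4 * n) * 2 ^ (4 * n) := by
                  have := mul_lt_mul'' hp4 hp4 c0 c0
                  linarith
              _ = 2 ^ (8 * n + 1) := by
                  rw [← pow_add, ← two_mul, ← pow_succ']
                  congr 1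
                  ring
      have e5 := card_union_le (P2.filter (fun q : ℕ => (q : ℤ) ∣ z l))
        (P2.filter (fun q : ℕ => (q : ℤ) ∣ v l) ∪
        P2.filter (fun q : ℕ => l ≠ l0 ∧ (q : ℤ) ∣ u l * v l0 + v l * u l0))
      have e6 := card_union_le (P2.filter (fun q : ℕ => (q : ℤ) ∣ v l))
        (P2.filter (fun q : ℕ => l ≠ l0 ∧ (q : ℤ) ∣ u l * v l0 + v l * u l0))
      omega
    refine (sum_le_sum h1).trans ?_
    rw [sum_const, smul_eq_mul]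
    exact Nat.mul_le_mul_right _ (card_le_card hPP)
  set R0 := P2.filter (fun q : ℕ => jacobiSym (l0 : ℤ) q = -1) with hR0
  have hR0c : P2.card ≤ 8 * R0.card := by
    have := (hPl l0 hl0).2.2
    refine this.trans (le_of_eq ?_)
    congr
  have hsub : R0.card ≤ (R0 \ bad).card + bad.card := by
    have := card_le_card (show R0 ⊆ (R0 \ bad) ∪ bad by
      intro q hq
      by_cases h : q ∈ bad
      · exact mem_union_right _ h
      · exact mem_union_left _ (mem_sdiff.2 ⟨hq, h⟩))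
    exact this.trans (card_union_le _ _)
  refine ⟨P, R0 \ bad, l0, q0, hPP, fun q hq => (mem_filter.1 (mem_sdiff.1 hq).1).1, hPc, ?_, hl0,
    hq0, ?_, fun l hl => ⟨(hPl l hl).1, (hPl l hl).2.1⟩,
    fun q hq => (mem_filter.1 (mem_sdiff.1 hq).1).2, ?_⟩
  · have h1 : P1.card * (16 * n + 1) + 1 ≤ 20 * ((P1.card + 1) * n) := by nlinarith
    have h2 : 1000 * ((P1.card + 1) * n) ≤ P2.card := by
      rw [← mul_assoc]
      exact hK
    omega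
  · intro h
    exact (mem_sdiff.1 h).2 (mem_union_left _ (mem_singleton_self q0))
  · intro l hl q hq
    obtain ⟨h1, h2⟩ := mem_sdiff.1 hq
    have hq2 := (mem_filter.1 h1).1
    have h3 : ∀ x ∈ P2.filter (fun q : ℕ => (q : ℤ) ∣ z l) ∪
        (P2.filter (fun q : ℕ => (q : ℤ) ∣ v l) ∪
        P2.filter (fun q : ℕ => l ≠ l0 ∧ (q : ℤ) ∣ u l * v l0 + v l * u l0)), x ≠ q := by
      rintro x hx rfl
      exact h2 (mem_union_right _ (mem_biUnion.2 ⟨l, hl, hx⟩))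
    refine ⟨fun g => ?_, fun g => ?_, fun hll g => ?_⟩
    · exact h3 q (mem_union_left _ (mem_filter.2 ⟨hq2, g⟩)) rfl
    · exact h3 q (mem_union_right _ (mem_union_left _ (mem_filter.2 ⟨hq2, g⟩))) rfl
    · exact h3 q (mem_union_right _ (mem_union_right _ (mem_filter.2 ⟨hq2, hll, g⟩))) rfl

end Pool.Agent.Qnr
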