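import Pool.Agent.Qnr.Sta
import Pool.Agent.Qnr.Lsv

/-!
# The elements for products of `k` primes, the classes and the contradiction (modules T1 - T5)
-/

set_option autoImplicit false

namespace Pool.Agent.Qnr

open Finset

/-- MODULE T1 (Thue).  For a set `S` of different primes and roots `τ`.
Proof: a common `t` with `t = τ q mod q` for all `q ∈ S` (Chinese remainder theorem), `n = ∏ S`;
map the pairs `(x, y)`, `0 ≤ x, y ≤ √n` (more than `n` pairs) to `x + t y mod n`. -/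
theorem thue (S : Finset ℕ) (hS : ∀ q ∈ S, q.Prime) (τ : ℕ → ℤ) :
    ∃ x y : ℤ, (x ≠ 0 ∨ y ≠ 0) ∧ x ^ 2 ≤ (∏ q ∈ S, q : ℕ) ∧ y ^ 2 ≤ (∏ q ∈ S, q : ℕ) ∧
      ∀ q ∈ S, (q : ℤ) ∣ x + τ q * y := by
  set n := ∏ q ∈ S, q with hn
  set r := Nat.sqrt n with hr
  have hq0 : ∀ q ∈ S, (0 : ℤ) < q := fun q hq => by exact_mod_cast (hS q hq).pos
  have hcard : (S.pi fun q => Finset.range q).card <
      (Finset.range (r + 1) ×ˢ Finset.range (r + 1)).card := by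
    rw [Finset.card_pi, Finset.card_product, Finset.card_range]
    simp only [Finset.card_range]
    exact Nat.lt_succ_sqrt n
  obtain ⟨a, ha, c, hc, hac, hf⟩ := Finset.exists_ne_map_eq_of_card_lt_of_maps_to hcard
    (f := fun a : ℕ × ℕ => fun (q : ℕ) (_ : q ∈ S) =>
      (((a.1 : ℤ) + τ q * a.2) % (q : ℤ)).toNat) (by
      intro a _
      rw [Finset.mem_coe, Finset.mem_pi]
      intro q hq
      rw [Finset.mem_range]
      have h1 := Int.emod_nonneg ((a.1 : ℤ) + τ q * a.2) (hq0 q hq).ne'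
      have h2 := Int.emod_lt_of_pos ((a.1 : ℤ) + τ q * a.2) (hq0 q hq)
      change (((a.1 : ℤ) + τ q * a.2) % (q : ℤ)).toNat < q
      omega)
  rw [Finset.mem_product, Finset.mem_range, Finset.mem_range] at ha hc
  have hrn : (r : ℤ) ^ 2 ≤ n := by
    have h1 := Nat.sqrt_le' n
    exact_mod_cast h1
  have hb : ∀ i j : ℕ, i < r + 1 → j < r + 1 → ((i : ℤ) - j) ^ 2 ≤ n := by
    intro i j hi hj
    refine le_trans ?_ hrn
    apply sq_le_sq'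
    · omega
    · omega
  refine ⟨(a.1 : ℤ) - c.1, (a.2 : ℤ) - c.2, ?_, hb _ _ ha.1 hc.1, hb _ _ ha.2 hc.2, ?_⟩
  · by_contra h
    push Not at h
    apply hac
    ext
    · omega
    · omega
  · intro q hq
    have h1 : (((a.1 : ℤ) + τ q * a.2) % (q : ℤ)).toNat =
        (((c.1 : ℤ) + τ q * c.2) % (q : ℤ)).toNat := congrFun (congrFun hf q) hq
    have h2 := Int.emod_nonneg ((a.1 : ℤ) + τ q * a.2) (hq0 q hq).ne'
    have h3 := Int.emod_nonneg ((c.1 : ℤ) + τ q * c.2) (hq0 q hq).ne'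
    have h4 : ((c.1 : ℤ) + τ q * c.2) % q = ((a.1 : ℤ) + τ q * a.2) % q := by omega
    have h6 := Int.ModEq.dvd h4
    have h7 : (a.1 : ℤ) - c.1 + τ q * ((a.2 : ℤ) - c.2) =
        (a.1 + τ q * a.2) - (c.1 + τ q * c.2) := by ring
    rw [h7]
    exact h6

/-- MODULE T2 (the element of a set `S`).
Proof: `thue`; every `q ∈ S` divides `x ^ 2 - p y ^ 2` (`x ^ 2 = τ ^ 2 y ^ 2 = p y ^ 2`), so the product
divides; `b ≠ 0` since `p` is prime and `(x, y) ≠ 0`; `- p n ≤ x ^ 2 - p y ^ 2 ≤ n`. -/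
theorem elem (p : ℕ) [Fact p.Prime] (S : Finset ℕ) (τ : ℕ → ℤ)
    (hS : ∀ q ∈ S, q.Prime ∧ (q : ℤ) ∣ τ q ^ 2 - p) :
    ∃ x y b : ℤ, b ≠ 0 ∧ -(p : ℤ) ≤ b ∧ b ≤ 1 ∧
      x ^ 2 - p * y ^ 2 = b * (∏ q ∈ S, q : ℕ) ∧
      x ^ 2 ≤ (∏ q ∈ S, q : ℕ) ∧ y ^ 2 ≤ (∏ q ∈ S, q : ℕ) ∧
      ∀ q ∈ S, (q : ℤ) ∣ x + τ q * y := by
  obtain ⟨x, y, hxy, hx, hy, hd⟩ := thue S (fun q hq => (hS q hq).1) τ
  have hp : p.Prime := Fact.out
  set n := ∏ q ∈ S, q with hn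
  have hn0 : 0 < n := Finset.prod_pos fun q hq => (hS q hq).1.pos
  have hnz : (0 : ℤ) < n := by exact_mod_cast hn0
  have hdv : (n : ℤ) ∣ x ^ 2 - p * y ^ 2 := by
    rw [← Int.natAbs_dvd_natAbs, Int.natAbs_natCast]
    apply Finset.prod_primes_dvd
    · intro q hq
      exact (hS q hq).1.prime
    · intro q hq
      rw [← Int.natCast_dvd]
      have h1 : x ^ 2 - p * y ^ 2 = (x + τ q * y) * (x - τ q * y) + (τ q ^ 2 - p) * y ^ 2 := by
        ring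
      rw [h1]
      exact dvd_add (Dvd.dvd.mul_right (hd q hq) _) (Dvd.dvd.mul_right (hS q hq).2 _)
  obtain ⟨b, hb⟩ := hdv
  have hp0 : (0 : ℤ) < p := by exact_mod_cast hp.pos
  have hb0 : x ^ 2 - p * y ^ 2 ≠ 0 := by
    intro h
    have hy0 : y ≠ 0 := by
      intro h1
      rw [h1] at h
      have h2 : x ^ 2 = 0 := by linear_combination h
      have h3 : x = 0 := by
        rcases pow_eq_zero_iff (two_ne_zero) |>.1 h2 with h4
        exact h4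
      rcases hxy with h4 | h4
      · exact h4 h3
      · exact h4 h1
    have h2 : Irrational (√(p : ℝ)) := hp.irrational_sqrt
    apply h2
    refine ⟨|(x : ℚ) / y|, ?_⟩
    have h3 : ((x : ℝ) / y) ^ 2 = p := by
      have h4 : (x : ℝ) ^ 2 = p * (y : ℝ) ^ 2 := by
        have h5 : x ^ 2 = p * y ^ 2 := by linear_combination h
        exact_mod_cast h5
      have h6 : (y : ℝ) ≠ 0 := by exact_mod_cast hy0
      rw [div_pow, h4]
      field_simp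
    rw [← h3, Real.sqrt_sq_eq_abs]
    push_cast
    rfl
  refine ⟨x, y, b, ?_, ?_, ?_, ?_, hx, hy, hd⟩
  · intro h
    apply hb0
    rw [hb, h, mul_zero]
  · have h1 : -((p : ℤ) * n) ≤ n * b := by
      rw [← hb]
      have h2 : (0 : ℤ) ≤ x ^ 2 := sq_nonneg x
      have h3 : (p : ℤ) * y ^ 2 ≤ p * n := mul_le_mul_of_nonneg_left hy hp0.le
      linarith
    have h2 : (n : ℤ) * (-p) ≤ n * b := by linarith
    exact le_of_mul_le_mul_left h2 hnz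
  · have h1 : (n : ℤ) * b ≤ n * 1 := by
      rw [← hb]
      have h3 : (0 : ℤ) ≤ p * y ^ 2 := mul_nonneg hp0.le (sq_nonneg y)
      linarith
    exact le_of_mul_le_mul_left h1 hnz
  · rw [hb, mul_comm]

private theorem T3_fibre {α β : Type*} [DecidableEq β] (F : Finset α) (T : Finset β) (f : α → β)
    (hf : ∀ x ∈ F, f x ∈ T) : F = ∅ ∨ ∃ y ∈ T, (F.filter (fun x => f x = y)).Nonempty ∧
      F.card ≤ T.card * (F.filter (fun x => f x = y)).card := by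
  rcases F.eq_empty_or_nonempty with h | h
  · exact Or.inl h
  right
  by_contra hcon
  push Not at hcon
  have h1 : ∀ y ∈ T, T.card * (F.filter (fun x => f x = y)).card < F.card := by
    intro y hy
    rcases (F.filter (fun x => f x = y)).eq_empty_or_nonempty with h2 | h2
    · rw [h2, card_empty, mul_zero]
      exact h.card_pos
    · exact hcon y hy h2
  have h2 : T.Nonempty := by
    obtain ⟨x, hx⟩ := h
    exact ⟨f x, hf x hx⟩
  have h3 := Finset.sum_lt_sum_of_nonempty h2 h1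
  rw [← Finset.mul_sum, ← Finset.card_eq_sum_card_fiberwise hf, Finset.sum_const, smul_eq_mul] at h3
  exact lt_irrefl _ h3

/-- MODULE T3 (a large class; pigeonhole).
Proof: the map `S ↦ (b S, x S mod b ^ 2, y S mod b ^ 2)` takes at most `(p + 2) p ^ 2 p ^ 2 ≤ 3 p ^ 5`
values (`p ≥ 2`: `(p + 2) ≤ 2 p`). -/
theorem bigclass (p : ℕ) [Fact p.Prime] (F : Finset (Finset ℕ)) (x y b : Finset ℕ → ℤ)
    (hb : ∀ S ∈ F, b S ≠ 0 ∧ -(p : ℤ) ≤ b S ∧ b S ≤ 1) :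
    ∃ G ⊆ F, F.card ≤ 3 * p ^ 5 * G.card ∧ ∀ S ∈ G, ∀ S' ∈ G, b S = b S' ∧
      b S ^ 2 ∣ x S - x S' ∧ b S ^ 2 ∣ y S - y S' := by
  classical
  have hp2 : 2 ≤ p := (Fact.out : p.Prime).two_le
  have hmaps : ∀ S ∈ F, (b S, x S % b S ^ 2, y S % b S ^ 2) ∈
      (Finset.Icc (-(p : ℤ)) 1) ×ˢ (Finset.Ico (0 : ℤ) ((p : ℤ) ^ 2)) ×ˢ
        (Finset.Ico (0 : ℤ) ((p : ℤ) ^ 2)) := by
    intro S hS
    obtain ⟨h1, h2, h3⟩ := hb S hS
    have h4 : 0 < b S ^ 2 := by positivity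
    have h5 : b S ^ 2 ≤ (p : ℤ) ^ 2 := by
      apply sq_le_sq'
      · exact h2
      · have : (1 : ℤ) ≤ p := by exact_mod_cast (by omega : 1 ≤ p)
        linarith
    have h6 : ∀ a : ℤ, 0 ≤ a % b S ^ 2 ∧ a % b S ^ 2 < (p : ℤ) ^ 2 := fun a =>
      ⟨Int.emod_nonneg _ h4.ne', (Int.emod_lt_of_pos _ h4).trans_le h5⟩
    simp only [mem_product, mem_Icc, mem_Ico]
    exact ⟨⟨h2, h3⟩, h6 _, h6 _⟩
  rcases T3_fibre F _ (fun S => (b S, x S % b S ^ 2, y S % b S ^ 2)) hmaps with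
    h0 | ⟨w, _, hne, hcard⟩
  · refine ⟨∅, empty_subset _, ?_, by simp⟩
    rw [h0, card_empty]
    exact Nat.zero_le _
  · refine ⟨F.filter (fun S => (b S, x S % b S ^ 2, y S % b S ^ 2) = w), filter_subset _ _, ?_, ?_⟩
    · refine hcard.trans (Nat.mul_le_mul_right _ ?_)
      simp only [card_product, Int.card_Icc, Int.card_Ico]
      have h1 : ((1 : ℤ) + 1 - -(p : ℤ)).toNat = p + 2 := by omega
      have h2 : ((p : ℤ) ^ 2 - 0).toNat = p ^ 2 := by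
        rw [sub_zero]
        have : ((p : ℤ) ^ 2) = ((p ^ 2 : ℕ) : ℤ) := by push_cast; rfl
        rw [this, Int.toNat_natCast]
      rw [h1, h2]
      calc (p + 2) * (p ^ 2 * p ^ 2) ≤ (3 * p) * (p ^ 2 * p ^ 2) :=
            Nat.mul_le_mul_right _ (by omega)
        _ = 3 * p ^ 5 := by ring
    · intro S hS S' hS'
      obtain ⟨_, h1⟩ := mem_filter.1 hS
      obtain ⟨_, h2⟩ := mem_filter.1 hS'
      rw [← h2] at h1
      simp only [Prod.mk.injEq] at h1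
      obtain ⟨g1, g2, g3⟩ := h1
      rw [← g1] at g2 g3
      refine ⟨g1, ?_, ?_⟩
      · exact Int.ModEq.dvd (g2.symm)
      · exact Int.ModEq.dvd (g3.symm)

/-- The structure found in Step A. -/
structure Str (p : ℕ) (P1 P2 : Finset ℕ) (u v z σ τ s s' : ℕ → ℤ) : Prop where
  p8 : p % 8 = 1
  h1 : ∀ l ∈ P1, l.Prime ∧ l % 8 = 1 ∧ l ≠ p
  h2 : ∀ q ∈ P2, q.Prime ∧ q % 8 = 1
  h12 : ∀ l ∈ P1, l ∉ P2
  eq : ∀ l ∈ P1, u l ^ 2 = p * v l ^ 2 + l * z l ^ 2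
  cop : ∀ l ∈ P1, IsCoprime (u l) (v l)
  odd : ∀ l ∈ P1, z l % 2 = 1
  sg : ∀ l ∈ P1, (l : ℤ) ∣ u l + v l * σ l ∧ (l : ℤ) ∣ σ l ^ 2 - p
  tau : ∀ q ∈ P2, (q : ℤ) ∣ τ q ^ 2 - p
  nz : ∀ l ∈ P1, ∀ q ∈ P2, ¬ (q : ℤ) ∣ z l
  s1 : ∀ l ∈ P1, s l = 1 ∨ s l = -1
  s1' : ∀ l ∈ P1, s' l = 1 ∨ s' l = -1
  val : ∀ l ∈ P1, ∀ q ∈ P2, jacobiSym (u l + v l * τ q) q = av l (s l) (s' l) q

/-- MODULE T4 (the inequality from the large sieve).
Proof: `F = P2.powersetCard k2`; for `S ∈ F` choose `x, y, b` by `elem`; `bigclass` gives `G`; if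
`G` is empty then `F` is empty and the claim is trivial; let `S0 ∈ G`, `b = b S0` (the same for all
`S ∈ G`), `P` a subset of `P1` of `m` elements not dividing `b` (`fewdiv`: at most `Nat.size p`
elements of `P1` divide `b`, `|b| ≤ p < 2 ^ size p`), `f l = ((x + y σ') / l)` at `S0`, `σ' = ± σ`.
By `twist` all the points `(x S, y S)`, `S ∈ G`, have the symbols `f l`; they are different:
`x ^ 2 - p y ^ 2 = b ∏ S` determines `∏ S`, so `S`.  `|x|, |y| ≤ √N1`.  `lsv` with `V = √N1`. -/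
theorem ineq (p : ℕ) [Fact p.Prime] (P1 P2 : Finset ℕ) (u v z σ τ s s' : ℕ → ℤ)
    (H : Str p P1 P2 u v z σ τ s s') (k1 k2 Q N1 m : ℕ) (hm : m + Nat.size p ≤ P1.card)
    (hQ : ∀ T ∈ P1.powersetCard k1, ∏ l ∈ T, l ≤ Q)
    (hN : ∀ S ∈ P2.powersetCard k2, ∏ q ∈ S, q ≤ N1) :
    P2.card.choose k2 * (m.choose k1) ^ 2 ≤
      3 * p ^ 5 * (m.choose k1 * (2 * Nat.sqrt N1 + 1) ^ 2 +
        (m.choose k1) ^ 2 * ((2 * Nat.sqrt N1 + 1) * Q ^ 2)) := by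
  classical
  have hp0 : p ≠ 0 := (Fact.out : p.Prime).ne_zero
  have hF2 : ∀ S ∈ P2.powersetCard k2, S ⊆ P2 ∧ S.card = k2 := fun S hS => mem_powersetCard.1 hS
  have hex : ∀ S : Finset ℕ, ∃ x y b : ℤ, S ⊆ P2 → b ≠ 0 ∧ -(p : ℤ) ≤ b ∧ b ≤ 1 ∧
      x ^ 2 - p * y ^ 2 = b * (∏ q ∈ S, q : ℕ) ∧
      x ^ 2 ≤ (∏ q ∈ S, q : ℕ) ∧ y ^ 2 ≤ (∏ q ∈ S, q : ℕ) ∧
      ∀ q ∈ S, (q : ℤ) ∣ x + τ q * y := by
    intro S
    by_cases hS : S ⊆ P2
    · obtain ⟨x, y, b, h⟩ := elem p S τ (fun q hq => ⟨(H.h2 q (hS hq)).1, H.tau q (hS hq)⟩)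
      exact ⟨x, y, b, fun _ => h⟩
    · exact ⟨0, 0, 0, fun h => absurd h hS⟩
  choose x y b hxyb using hex
  obtain ⟨G, hGF, hGc, hG⟩ := bigclass p (P2.powersetCard k2) x y b (fun S hS => by
    obtain ⟨h1, h2, h3, -⟩ := hxyb S (hF2 S hS).1
    exact ⟨h1, h2, h3⟩)
  rw [card_powersetCard] at hGc
  rcases G.eq_empty_or_nonempty with hGe | ⟨S0, hS0⟩
  · rw [hGe, card_empty, mul_zero] at hGc
    have h1 : P2.card.choose k2 = 0 := by omega
    rw [h1, zero_mul]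
    exact Nat.zero_le _
  obtain ⟨hS0P, hS0c⟩ := hF2 S0 (hGF hS0)
  obtain ⟨b0, b1, b2, b3, b4, b5, b6⟩ := hxyb S0 hS0P
  -- the primes not dividing b
  have hbp : |b S0| < 2 ^ Nat.size p := by
    have h1 : |b S0| ≤ p := by
      have : (1 : ℤ) ≤ p := by exact_mod_cast (Nat.one_le_iff_ne_zero.2 hp0)
      rw [abs_le]
      exact ⟨b1, by linarith⟩
    have h2 : (p : ℤ) < 2 ^ Nat.size p := by exact_mod_cast Nat.lt_size_self p
    exact h1.trans_lt h2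
  have hbad : (P1.filter (fun l : ℕ => (l : ℤ) ∣ b S0)).card ≤ Nat.size p :=
    fewdiv _ (fun q hq => (H.h1 q (mem_filter.1 hq).1).1) (b S0) b0 _ hbp
      (fun q hq => (mem_filter.1 hq).2)
  have hgood : m ≤ (P1.filter (fun l : ℕ => ¬ (l : ℤ) ∣ b S0)).card := by
    have h1 := Finset.card_filter_add_card_filter_not (s := P1) (fun l : ℕ => (l : ℤ) ∣ b S0)
    omega
  obtain ⟨P, hPs, hPc⟩ := Finset.exists_subset_card_eq hgood
  have hP1 : P ⊆ P1 := hPs.trans (filter_subset _ _)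
  -- the twisted roots and the symbols
  set σ' : ℕ → ℤ := fun l => if s l = s' l then σ l else -σ l with hσ'
  set f : ℕ → ℤ := fun l => jacobiSym (x S0 + y S0 * σ' l) l with hf
  have hmain : ∀ S ∈ G, ∀ l ∈ P, jacobiSym (x S + y S * σ' l) l = f l ∧ (f l = 1 ∨ f l = -1) := by
    intro S hS l hl
    obtain ⟨hSP, hSc⟩ := hF2 S (hGF hS)
    obtain ⟨c0, c1, c2, c3, c4, c5, c6⟩ := hxyb S hSP
    obtain ⟨g1, g2, g3⟩ := hG S0 hS0 S hS
    have hlP1 := hP1 hl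
    obtain ⟨hl1, hl8, hlp⟩ := H.h1 l hlP1
    have : Fact l.Prime := ⟨hl1⟩
    have hlb : ¬ (l : ℤ) ∣ b S0 := (mem_filter.1 (hPs hl)).2
    rw [← g1] at c3
    have h1 := twist p l hl8 hlp (u l) (v l) (z l) (σ l) (H.eq l hlP1) (H.cop l hlP1)
      (H.odd l hlP1) (H.sg l hlP1).1 (H.sg l hlP1).2 S0 S (by rw [hS0c, hSc]) τ (s l) (s' l)
      (H.s1 l hlP1) (H.s1' l hlP1) (fun q hq => by
        have hq2 : q ∈ P2 := by
          rcases mem_union.1 hq with h | h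
          · exact hS0P h
          · exact hSP h
        refine ⟨(H.h2 q hq2).1, (H.h2 q hq2).2, ?_, H.tau q hq2, H.nz l hlP1 q hq2,
          H.val l hlP1 q hq2⟩
        rintro rfl
        exact H.h12 q hlP1 hq2) (b S0) (x S0) (y S0) (x S) (y S) b0 hlb b3 c3 g2 g3 b6 c6
    exact ⟨h1.1.symm, h1.2⟩
  -- the points
  have hinj : Set.InjOn (fun S => (x S, y S)) (G : Set (Finset ℕ)) := by
    intro S hS S' hS' hxx
    simp only [Prod.mk.injEq] at hxx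
    obtain ⟨hSP, hSc⟩ := hF2 S (hGF hS)
    obtain ⟨hSP', hSc'⟩ := hF2 S' (hGF hS')
    obtain ⟨c0, c1, c2, c3, -⟩ := hxyb S hSP
    obtain ⟨d0, d1, d2, d3, -⟩ := hxyb S' hSP'
    obtain ⟨g1, -⟩ := hG S hS S' hS'
    rw [hxx.1, hxx.2, d3, ← g1] at c3
    have h4 := mul_left_cancel₀ c0 c3
    have h5 : ∏ q ∈ S', q = ∏ q ∈ S, q := by exact_mod_cast h4
    have e1 := Nat.primeFactors_prod (s := S) (fun q hq => (H.h2 q (hSP hq)).1)
    have e2 := Nat.primeFactors_prod (s := S') (fun q hq => (H.h2 q (hSP' hq)).1)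
    rw [← e1, ← e2, h5]
  have hlsv := lsv P (fun l hl => ⟨(H.h1 l (hP1 hl)).1, by
      rintro rfl
      have := (H.h1 2 (hP1 hl)).2.1
      omega⟩) σ' k1 Q (Nat.sqrt N1)
    (fun T hT => hQ T (mem_powersetCard.2 ⟨(mem_powersetCard.1 hT).1.trans hP1,
      (mem_powersetCard.1 hT).2⟩)) f (fun l hl => (hmain S0 hS0 l hl).2)
    (G.image (fun S => (x S, y S))) (fun w hw => by
      obtain ⟨S, hS, rfl⟩ := mem_image.1 hw
      obtain ⟨hSP, hSc⟩ := hF2 S (hGF hS)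
      obtain ⟨c0, c1, c2, c3, c4, c5, c6⟩ := hxyb S hSP
      have hn : ((∏ q ∈ S, q : ℕ) : ℤ) ≤ N1 := by exact_mod_cast hN S (hGF hS)
      have hsq : ∀ a : ℤ, a ^ 2 ≤ (∏ q ∈ S, q : ℕ) → |a| ≤ (Nat.sqrt N1 : ℕ) := by
        intro a ha
        have h1 : a.natAbs * a.natAbs ≤ N1 := by
          have h2 : ((a.natAbs * a.natAbs : ℕ) : ℤ) ≤ N1 := by
            rw [Int.natAbs_mul_self, ← sq]
            exact ha.trans hn
          exact_mod_cast h2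
        have h2 := Nat.le_sqrt.2 h1
        rw [Int.abs_eq_natAbs]
        exact_mod_cast h2
      exact ⟨hsq _ c4, hsq _ c5, fun l hl => (hmain S hS l hl).1⟩)
  rw [card_image_of_injOn hinj, card_powersetCard, hPc] at hlsv
  calc P2.card.choose k2 * (m.choose k1) ^ 2
      ≤ (3 * p ^ 5 * G.card) * (m.choose k1) ^ 2 := Nat.mul_le_mul_right _ hGc
    _ = 3 * p ^ 5 * (G.card * (m.choose k1) ^ 2) := by ring
    _ ≤ _ := Nat.mul_le_mul_left _ hlsv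

/-- MODULE T5 (from `Hyp` to `Str`).
Proof: `exists_dat`, `sets`, `values`. -/
theorem str (p B : ℕ) [Fact p.Prime] (P1 P2 : Finset ℕ) (H : Hyp p B P1 P2)
    (hd : 8 * B ^ 3 ≤ P1.card * P2.card)
    (hK : 1000 * (P1.card + 1) * Nat.size p ≤ P2.card) (hP : 0 < P1.card) :
    ∃ (P1' P2' : Finset ℕ) (u v z σ τ s s' : ℕ → ℤ), P1' ⊆ P1 ∧ P2' ⊆ P2 ∧
      P1.card ≤ 128 * P1'.card ∧ P2.card ≤ 16 * P2'.card ∧
      Str p P1' P2' u v z σ τ s s' := by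
  obtain ⟨u, v, z, σ, D⟩ := exists_dat p B P1 P2 H
  obtain ⟨P1', P2', l0, q0, hP1, hP2, c1, c2, hl0, hq0, hq0', h3, h4, h5⟩ :=
    sets p B P1 P2 H hd hK hP u v z σ D
  obtain ⟨τ, s, s', ht, hval⟩ := values p B P1 P2 H u v z σ D P1' P2' hP1 hP2 l0 q0 hl0 hq0 hq0'
    h3 h4 h5
  refine ⟨P1', P2', u, v, z, σ, τ, s, s', hP1, hP2, c1, c2, ?_⟩
  refine ⟨H.p8, ?_, ?_, ?_, fun l hl => D.eq l (hP1 hl), fun l hl => D.cop l (hP1 hl),
    fun l hl => D.odd l (hP1 hl), fun l hl => D.sg l (hP1 hl), ht,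
    fun l hl q hq => (h5 l hl q hq).1, fun l hl => (hval l hl).1, fun l hl => (hval l hl).2.1,
    fun l hl q hq => (hval l hl).2.2 q hq⟩
  · intro l hl
    obtain ⟨g1, g2, g3, g4⟩ := H.h1 l (hP1 hl)
    refine ⟨g1, g2, ?_⟩
    rintro rfl
    have h6 : B ≤ B ^ 8 := Nat.le_self_pow (by norm_num) B
    have h7 := H.hB
    omega
  · intro q hq
    obtain ⟨g1, g2, -⟩ := H.h2 q (hP2 hq)
    exact ⟨g1, g2⟩
  · intro l hl hl2
    have g1 := (H.h1 l (hP1 hl)).2.2.1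
    have g2 := (H.h2 l (hP2 hl2)).2.2.1
    omega

end Pool.Agent.Qnr
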